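import Pool.Agent.TNP.Stmts

/-!
# TNP, module AEXT: automorphic extension from `D` to `ℍ`
-/

set_option autoImplicit false

open scoped ContDiff Topology ComplexConjugate
open Set Metric MeasureTheory Filter

namespace Pool.Agent.TNP

noncomputable section

namespace AEXT_

/-- the real determinant of the multiplication by a complex number -/
theorem det_holo (c : ℂ) :
    ((ContinuousLinearMap.toSpanSingleton ℂ c).restrictScalars ℝ : ℂ →L[ℝ] ℂ).det = ‖c‖ ^ 2 := by
  simp [ContinuousLinearMap.det, LinearMap.det_restrictScalars, Algebra.norm_complex_apply,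
    Complex.normSq_eq_norm_sq]

/-- change of variables for Möbius transformations -/
theorem integrableOn_mob (g : SL2) {A : Set ℂ} (hA : MeasurableSet A) (hAH : A ⊆ Hp) (f : ℂ → ℂ) :
    IntegrableOn f (mob g '' A) ↔
      IntegrableOn (fun z => ((‖den g z‖ ^ 4)⁻¹ : ℝ) • f (mob g z)) A := by
  have h1 := integrableOn_image_iff_integrableOn_abs_det_fderiv_smul (volume : Measure ℂ) hA
    (f := mob g)
    (f' := fun z => (ContinuousLinearMap.toSpanSingleton ℂ ((den g z ^ 2)⁻¹)).restrictScalars ℝ)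
    (fun z hz => ((hasDerivAt_mob g (hAH hz)).hasFDerivAt.restrictScalars ℝ).hasFDerivWithinAt)
    ((injOn_mob g).mono hAH) f
  rw [h1]
  have h2 : ∀ z, |((ContinuousLinearMap.toSpanSingleton ℂ ((den g z ^ 2)⁻¹)).restrictScalars ℝ :
      ℂ →L[ℝ] ℂ).det| = (‖den g z‖ ^ 4)⁻¹ := by
    intro z
    rw [det_holo, norm_inv, norm_pow, inv_pow, ← pow_mul, abs_of_nonneg (by positivity)]
  simp only [h2]

/-- independence of the choice -/
theorem indep (S : Surf) {z : ℂ} (hz : z ∈ Hp) {g h : SL2} (hg : g ∈ S.Γ) (hh : h ∈ S.Γ)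
    (hgD : mob g z ∈ S.D) (hhD : mob h z ∈ S.D) : mob g z = mob h z ∧ den g z ^ 4 = den h z ^ 4 := by
  obtain ⟨w, -, hw⟩ := S.fund z hz
  have e1 : mob g z = mob h z := (hw _ ⟨hgD, g, hg, rfl⟩).trans (hw _ ⟨hhD, h, hh, rfl⟩).symm
  refine ⟨e1, ?_⟩
  have e2 : mob (h⁻¹ * g) z = z := by
    rw [mob_mul _ _ hz, e1, mob_inv_mob h hz]
  rcases S.free _ (S.Γ.mul_mem (S.Γ.inv_mem hh) hg) z hz e2 with h3 | h3
  · have h4 : g = h := by
      have := inv_mul_eq_one.1 h3
      exact this.symm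
    rw [h4]
  · have h4 : g = -h := by
      have h5 : h * (h⁻¹ * g) = h * (-1) := by rw [h3]
      rw [mul_inv_cancel_left, mul_neg, mul_one] at h5
      exact h5
    rw [h4, den_neg]
    ring

end AEXT_

open AEXT_ in
theorem aext_proof : Stmt_Aext := by
  classical
  intro S φ hφ
  have hex : ∀ z ∈ Hp, ∃ g ∈ S.Γ, mob g z ∈ S.D := by
    intro z hz
    obtain ⟨w, ⟨hw, g, hg, hgw⟩, -⟩ := S.fund z hz
    exact ⟨g, hg, by rw [hgw]; exact hw⟩
  choose! γ hγ hγD using hex
  set Φ : ℂ → ℂ := fun z => (den (γ z) z ^ 4)⁻¹ * φ (mob (γ z) z) with hΦ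
  -- the value may be computed with any element
  have hval : ∀ z ∈ Hp, ∀ g ∈ S.Γ, mob g z ∈ S.D → Φ z = (den g z ^ 4)⁻¹ * φ (mob g z) := by
    intro z hz g hg hgD
    obtain ⟨e1, e2⟩ := indep S hz (hγ z hz) hg (hγD z hz) hgD
    rw [hΦ]
    simp only
    rw [e1, e2]
  refine ⟨Φ, fun z hz => ?_, fun g hg z hz => ?_, fun L hL hLH => ?_⟩
  · rw [hval z (S.D_sub hz) 1 S.Γ.one_mem (by rw [mob_one]; exact hz), den_one, mob_one]
    simp
  · have hm := mob_mem g hz
    set h := γ (mob g z)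
    have hh : h ∈ S.Γ := hγ _ hm
    have hhD : mob h (mob g z) ∈ S.D := hγD _ hm
    have h1 := hval _ hm h hh hhD
    have h2 := hval z hz (h * g) (S.Γ.mul_mem hh hg) (by rw [mob_mul _ _ hz]; exact hhD)
    rw [h1, h2, mob_mul _ _ hz, den_mul _ _ hz]
    have d1 := den_ne g hz
    have d2 := den_ne h hm
    have e : den g z ^ (2 * 2 : ℤ) = den g z ^ 4 := by norm_cast
    rw [e]
    simp only [mul_zero, zpow_zero, mul_one]
    field_simp
  · obtain ⟨T, hT, hTL⟩ := S.exists_T hL hLH S.compact S.sub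
    have hcov : L ⊆ ⋃ g ∈ T, (L ∩ mob g ⁻¹' S.D) := by
      intro z hz
      have hzH := hLH hz
      refine mem_iUnion₂.2 ⟨γ z, hTL _ (hγ z hzH) z hz (S.subD (hγD z hzH)), hz, hγD z hzH⟩
    refine IntegrableOn.mono_set ?_ hcov
    rw [integrableOn_finset_iUnion]
    intro g hg
    have hgΓ := hT g hg
    set A : Set ℂ := L ∩ mob g ⁻¹' S.D with hA
    have hAm : MeasurableSet A := hL.measurableSet.inter (measurable_mob g S.meas)
    have hAH : A ⊆ Hp := inter_subset_left.trans hLH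
    have h1 : IntegrableOn φ (mob g '' A) := by
      refine hφ.mono_set ?_
      rintro _ ⟨z, hz, rfl⟩
      exact hz.2
    rw [integrableOn_mob g hAm hAH] at h1
    have h2 : IntegrableOn (fun z => (((‖den g z‖ ^ 4 : ℝ) : ℂ) * (den g z ^ 4)⁻¹) *
        (((‖den g z‖ ^ 4)⁻¹ : ℝ) • φ (mob g z))) A := by
      refine Integrable.bdd_mul (c := 1) h1 ?_ ?_
      · have hc := (measurable_den g)
        have hm1 : Measurable fun z => ((‖den g z‖ ^ 4 : ℝ) : ℂ) * (den g z ^ 4)⁻¹ :=
          (Complex.measurable_ofReal.comp (hc.norm.pow_const 4)).mul (hc.pow_const 4).inv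
        exact hm1.aestronglyMeasurable
      · refine Eventually.of_forall fun z => ?_
        rw [norm_mul, Complex.norm_real, norm_inv, norm_pow (den g z), Real.norm_eq_abs,
          abs_of_nonneg (by positivity)]
        exact mul_inv_le_one (a := ‖den g z‖ ^ 4)
    refine IntegrableOn.congr_fun h2 (fun z hz => ?_) hAm
    have hzH := hAH hz
    have h3 := hval z hzH g hgΓ hz.2
    have d1 : (‖den g z‖ : ℝ) ≠ 0 := (norm_den_pos g hzH).ne'
    have d2 : ((‖den g z‖ ^ 4 : ℝ) : ℂ) ≠ 0 := by exact_mod_cast pow_ne_zero 4 d1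
    rw [h3, Complex.real_smul, Complex.ofReal_inv]
    field_simp

end

end Pool.Agent.TNP
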