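import Pool.Agent.TNP.Stmts

/-!
# TNP: module BOCH, the weighted Bochner identity
-/

open scoped ContDiff Topology ComplexConjugate
open Set Metric MeasureTheory Filter

namespace Pool.Agent.TNP

noncomputable section

namespace BOCH_

variable {om : ℂ → ℝ} {χ : ℂ → ℂ}

/-- `∂̄ log ω = ∂̄ω / ω` -/
theorem db_log (hom : ∀ z ∈ Hp, 0 < om z) (hW : Sm (fun z => (om z : ℂ))) {z : ℂ} (hz : z ∈ Hp) :
    db (fun w => (Real.log (om w) : ℂ)) z
      = ((om z : ℂ))⁻¹ * db (fun w => (om w : ℂ)) z := by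
  have h1 : (fun w => (Real.log (om w) : ℂ)) =ᶠ[𝓝 z] fun w => Complex.log ((om w : ℂ)) := by
    filter_upwards [isOpen_Hp.mem_nhds hz] with w hw
    rw [Complex.ofReal_log (hom w hw).le]
  have h2 : (om z : ℂ) ∈ Complex.slitPlane := by
    left
    simpa using hom z hz
  rw [db_congr h1, db_holo_comp (F := Complex.log) (hW.diff hz)
    (Complex.differentiableAt_log h2)]
  rw [Complex.deriv_log h2]

/-- `ω ∂∂̄ log ω = ∂∂̄ω - ∂ω ∂̄ω / ω` -/
theorem dz_db_log (hom : ∀ z ∈ Hp, 0 < om z) (hW : Sm (fun z => (om z : ℂ))) {z : ℂ}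
    (hz : z ∈ Hp) :
    dz (db (fun w => (Real.log (om w) : ℂ))) z
      = - dz (fun w => (om w : ℂ)) z / (om z : ℂ) ^ 2 * db (fun w => (om w : ℂ)) z
        + ((om z : ℂ))⁻¹ * dz (db (fun w => (om w : ℂ))) z := by
  have h1 : db (fun w => (Real.log (om w) : ℂ))
      =ᶠ[𝓝 z] fun w => ((om w : ℂ))⁻¹ * db (fun w => (om w : ℂ)) w := by
    filter_upwards [isOpen_Hp.mem_nhds hz] with w hw
    exact db_log hom hW hw
  have h0 : ∀ z ∈ Hp, (om z : ℂ) ≠ 0 := fun z hz => by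
    exact_mod_cast (hom z hz).ne'
  rw [dz_congr h1, dz_mul ((hW.inv h0).diff hz) (hW.db.diff hz), dz_inv (hW.diff hz) (h0 z hz)]

/-- the pointwise identity -/
theorem point (hom : ∀ z ∈ Hp, 0 < om z) (hW : Sm (fun z => (om z : ℂ))) (hχ : Sm χ) {z : ℂ}
    (hz : z ∈ Hp) :
    ((om z * ‖db χ z‖ ^ 2 : ℝ) : ℂ) =
      (om z * ‖dz χ z + dz (fun w => (om w : ℂ)) z / om z * χ z‖ ^ 2 : ℝ) +
      (om z : ℂ) * dz (db (fun w => (Real.log (om w) : ℂ))) z * ((‖χ z‖ ^ 2 : ℝ) : ℂ)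
      + (dz (fun w => (om w : ℂ) * conj (χ w) * db χ w) z
        - db (fun w => dz (fun w => (om w : ℂ) * χ w) w * conj (χ w)) z) := by
  have h0 : (om z : ℂ) ≠ 0 := by exact_mod_cast (hom z hz).ne'
  have hWχ : Sm (fun w => (om w : ℂ) * χ w) := hW.mul hχ
  -- first Stokes term
  have e1 : dz (fun w => (om w : ℂ) * conj (χ w) * db χ w) z =
      (dz (fun w => (om w : ℂ)) z * conj (χ z) + (om z : ℂ) * conj (db χ z)) * db χ z
        + (om z : ℂ) * conj (χ z) * dz (db χ) z := by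
    rw [dz_mul ((hW.mul hχ.conj).diff hz) (hχ.db.diff hz),
      dz_mul (hW.diff hz) (hχ.conj.diff hz), dz_conj (hχ.diff hz)]
  -- second Stokes term
  have e2 : dz (fun w => (om w : ℂ) * χ w) z =
      dz (fun w => (om w : ℂ)) z * χ z + (om z : ℂ) * dz χ z :=
    dz_mul (hW.diff hz) (hχ.diff hz)
  have e3 : db (fun w => (om w : ℂ) * χ w) =ᶠ[𝓝 z] fun w =>
      db (fun w => (om w : ℂ)) w * χ w + (om w : ℂ) * db χ w := by
    filter_upwards [isOpen_Hp.mem_nhds hz] with w hw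
    exact db_mul (hW.diff hw) (hχ.diff hw)
  have e4 : db (dz (fun w => (om w : ℂ) * χ w)) z =
      dz (db (fun w => (om w : ℂ))) z * χ z + db (fun w => (om w : ℂ)) z * dz χ z
      + (dz (fun w => (om w : ℂ)) z * db χ z + (om z : ℂ) * dz (db χ) z) := by
    rw [db_dz_comm (hWχ.contDiffAt (isOpen_Hp.mem_nhds hz)), dz_congr e3,
      dz_add ((hW.db.mul hχ).diff hz) ((hW.mul hχ.db).diff hz),
      dz_mul (hW.db.diff hz) (hχ.diff hz), dz_mul (hW.diff hz) (hχ.db.diff hz)]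
  have e5 : db (fun w => dz (fun w => (om w : ℂ) * χ w) w * conj (χ w)) z =
      db (dz (fun w => (om w : ℂ) * χ w)) z * conj (χ z)
        + dz (fun w => (om w : ℂ) * χ w) z * conj (dz χ z) := by
    rw [db_mul (hWχ.dz.diff hz) (hχ.conj.diff hz), db_conj (hχ.diff hz)]
  -- `ω` is real
  have e6 : db (fun w => (om w : ℂ)) z = conj (dz (fun w => (om w : ℂ)) z) := by
    have h1 := db_conj (hW.diff hz)
    simpa only [Complex.conj_ofReal] using h1
  have nrm : ∀ x : ℂ, ((‖x‖ ^ 2 : ℝ) : ℂ) = x * conj x := by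
    intro x
    rw [Complex.mul_conj, Complex.normSq_eq_norm_sq]
  rw [e1, e5, e4, e2, dz_db_log hom hW hz, Complex.ofReal_mul, Complex.ofReal_mul, nrm, nrm, nrm,
    e6]
  simp only [map_add, map_mul, map_div₀, Complex.conj_ofReal]
  field_simp
  ring

end BOCH_

open BOCH_ in
theorem boch_proof (hStok : Stmt_Stok) : Stmt_Boch := by
  intro S om χ hom hW hA hχ
  have hWχ : Sm (fun w => (om w : ℂ) * χ w) := hW.mul hχ.sm
  set f1 : ℂ → ℂ := fun w => (om w : ℂ) * conj (χ w) * db χ w with hf1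
  set f2 : ℂ → ℂ := fun w => dz (fun w => (om w : ℂ) * χ w) w * conj (χ w) with hf2
  have s1 : Sm f1 := (hW.mul hχ.sm.conj).mul hχ.sm.db
  have s2 : Sm f2 := hWχ.dz.mul hχ.sm.conj
  have a1 : Aut S 0 1 f1 := by
    have := (hA.mul hχ.aut.conj).mul (Aut.db hχ.sm hχ.aut)
    exact this
  have a2 : Aut S 1 0 f2 := by
    have h1 : Aut S 0 1 (fun w => (om w : ℂ) * χ w) := hA.mul hχ.aut
    have := (Aut.dz hWχ h1).mul hχ.aut.conj
    exact this
  have i1 := (hStok S f1 s1).1 a1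
  have i2 := (hStok S f2 s2).2 a2
  have key : ∀ z ∈ S.D, (om z * ‖dz χ z + dz (fun w => (om w : ℂ)) z / om z * χ z‖ ^ 2 +
      om z * (dz (db (fun w => (Real.log (om w) : ℂ))) z).re * ‖χ z‖ ^ 2) =
      om z * ‖db χ z‖ ^ 2 - (dz f1 z - db f2 z).re := by
    intro z hz
    have h1 := congrArg Complex.re (point hom hW hχ.sm (S.D_sub hz))
    rw [Complex.add_re, Complex.add_re, Complex.ofReal_re, Complex.ofReal_re,
      Complex.re_mul_ofReal, Complex.re_ofReal_mul] at h1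
    rw [h1]
    ring
  have j1 : IntegrableOn (fun z => om z * ‖db χ z‖ ^ 2) S.D := by
    apply integrableOn_of_cont
    have h1 : ContinuousOn (fun z => ‖(om z : ℂ)‖) Hp := hW.cont.norm
    have h2 : ContinuousOn om Hp := h1.congr fun z hz => by
      simp [abs_of_pos (hom z hz)]
    exact h2.mul (hχ.sm.db.cont.norm.pow 2)
  have j2 : IntegrableOn (fun z => dz f1 z - db f2 z) S.D :=
    integrableOn_of_cont S (s1.dz.sub s2.db).cont
  have j3 : IntegrableOn (dz f1) S.D := integrableOn_of_cont S s1.dz.cont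
  have j4 : IntegrableOn (db f2) S.D := integrableOn_of_cont S s2.db.cont
  have j5 : IntegrableOn (fun z => (dz f1 z - db f2 z).re) S.D := j2.re
  have h3 : ∫ z in S.D, (dz f1 z - db f2 z).re = 0 := by
    have h4 := integral_re j2
    simp only [RCLike.re_to_complex] at h4
    rw [h4, integral_sub j3 j4, i1, i2, sub_zero, Complex.zero_re]
  rw [setIntegral_congr_fun S.meas key, integral_sub j1 j5, h3, sub_zero]

end

end Pool.Agent.TNP
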