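import Pool.Agent.TNP.Stmts

/-!
# TNP: module CNT, counting the elements which move a point into a fundamental set
-/

open scoped ContDiff Topology ComplexConjugate
open Set Metric MeasureTheory Filter

namespace Pool.Agent.TNP

noncomputable section

theorem cnt_proof : Stmt_Cnt := by
  classical
  intro S D' hD z hz T hT1 hT2
  obtain ⟨w, ⟨hwD, g0, hg0, hw⟩, huniq⟩ := hD z hz
  have hA : ∀ g ∈ S.Γ, mob g z ∈ D' → g0⁻¹ * g = 1 ∨ g0⁻¹ * g = -1 := by
    intro g hg hgD
    have h1 : mob g z = w := huniq _ ⟨hgD, g, hg, rfl⟩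
    apply S.free _ (S.Γ.mul_mem (S.Γ.inv_mem hg0) hg) z hz
    rw [mob_mul _ _ hz, h1, ← hw, mob_inv_mob _ hz]
  have hB : ∀ e : SL2, (e = 1 ∨ e = -1) → mob (g0 * e) z = w := by
    intro e he
    rw [mob_mul _ _ hz]
    rcases he with rfl | rfl
    · rw [mob_one, hw]
    · rw [mob_neg, mob_one, hw]
  have h1 : ∀ g : SL2, D'.indicator (fun _ => (1 : ℂ)) (mob g z) = if mob g z ∈ D' then 1 else 0 :=
    fun g => rfl
  simp only [h1]
  rw [Finset.sum_boole]
  unfold mult
  have h2 : Nat.card {g : SL2 // g ∈ S.Γ ∧ (g = 1 ∨ g = -1)} =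
      (T.filter fun g => mob g z ∈ D').card := by
    rw [← Nat.card_eq_finsetCard]
    refine Nat.card_congr
      { toFun := fun e => ⟨g0 * e.1, ?_⟩
        invFun := fun g => ⟨g0⁻¹ * g.1, ?_, ?_⟩
        left_inv := fun e => ?_
        right_inv := fun g => ?_ }
    · rw [Finset.mem_filter]
      have h3 : mob (g0 * e.1) z ∈ D' := by rw [hB e.1 e.2.2]; exact hwD
      exact ⟨hT2 _ (S.Γ.mul_mem hg0 e.2.1) h3, h3⟩
    · exact S.Γ.mul_mem (S.Γ.inv_mem hg0) (hT1 _ (Finset.mem_filter.1 g.2).1)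
    · exact hA _ (hT1 _ (Finset.mem_filter.1 g.2).1) (Finset.mem_filter.1 g.2).2
    · apply Subtype.ext
      simp
    · apply Subtype.ext
      simp
  rw [h2]
  simp

end

end Pool.Agent.TNP
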