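import Pool.Agent.TNP.Stmts

/-!
# TNP, module CHV: change of variables
-/

open scoped ContDiff Topology ComplexConjugate
open Set Metric MeasureTheory Filter

namespace Pool.Agent.TNP

noncomputable section

namespace CHVB_

theorem det_ab (L : ℂ →L[ℝ] ℂ) (a b : ℂ) (h : ∀ v, L v = v * a + conj v * b) :
    L.det = ‖a‖ ^ 2 - ‖b‖ ^ 2 := by
  have h1 : L.det = LinearMap.det (L : ℂ →ₗ[ℝ] ℂ) := rfl
  rw [h1, ← LinearMap.det_toMatrix Complex.basisOneI, Matrix.det_fin_two]
  simp only [LinearMap.toMatrix_apply, Complex.coe_basisOneI, Complex.coe_basisOneI_repr,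
    Matrix.cons_val_zero, Matrix.cons_val_one, ContinuousLinearMap.coe_coe, h]
  rw [← Complex.normSq_eq_norm_sq, ← Complex.normSq_eq_norm_sq, Complex.normSq_apply,
    Complex.normSq_apply]
  simp
  ring

end CHVB_

open CHVB_ in
theorem chvb_proof : Stmt_Chv := by
  intro w μ hQ A f hA hAm
  have hder : ∀ z ∈ A, HasFDerivWithinAt w (fderiv ℝ w z) A z := fun z hz =>
    ((hQ.smooth.contDiffAt (isOpen_Hp.mem_nhds (hA hz))).differentiableAt
      (by simp)).hasFDerivAt.hasFDerivWithinAt
  have hinj : InjOn w A := hQ.bij.injOn.mono hA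
  have hcont : ContinuousOn w A := hQ.smooth.continuousOn.mono hA
  have hdet : ∀ z ∈ A, |(fderiv ℝ w z).det| = ‖dz w z‖ ^ 2 * (1 - ‖μ z‖ ^ 2) := by
    intro z hz
    rw [det_ab _ (dz w z) (db w z) (fun v => fderiv_eq w z v), hQ.bel z (hA hz), norm_mul,
      mul_pow]
    have h1 := hQ.lt z (hA hz)
    have h2 : ‖μ z‖ ^ 2 ≤ 1 := by
      have := norm_nonneg (μ z)
      nlinarith
    rw [abs_of_nonneg]
    · ring
    · have := sq_nonneg ‖dz w z‖
      nlinarith
  refine ⟨hAm.image_of_continuousOn_injOn hcont hinj, ?_, ?_⟩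
  · rw [integrableOn_image_iff_integrableOn_abs_det_fderiv_smul volume hAm hder hinj]
    refine integrableOn_congr_fun (fun z hz => ?_) hAm
    rw [hdet z hz, Complex.real_smul]
  · rw [integral_image_eq_integral_abs_det_fderiv_smul volume hAm hder hinj]
    refine setIntegral_congr_fun hAm (fun z hz => ?_)
    rw [hdet z hz, Complex.real_smul]

end

end Pool.Agent.TNP
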