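import Pool.Agent.TNP.Stmts

/-!
# TNP / COER: the basic estimate for vector fields
-/

open scoped ContDiff Topology ComplexConjugate
open Set Metric MeasureTheory Filter

namespace Pool.Agent.TNP

noncomputable section

namespace COER_

variable {S : Surf} {χ : ℂ → ℂ}

/-- the weight -/
def om (z : ℂ) : ℝ := (z.im ^ 2)⁻¹

/-- the imaginary part as a complex number -/
def Y (z : ℂ) : ℂ := ((z.im : ℝ) : ℂ)

theorem hasFDerivAt_Y (z : ℂ) : HasFDerivAt Y (Complex.ofRealCLM.comp Complex.imCLM) z :=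
  (Complex.ofRealCLM.comp Complex.imCLM).hasFDerivAt

theorem dz_Y (z : ℂ) : dz Y z = - Complex.I / 2 := by
  rw [dz_of_hasFDerivAt (hasFDerivAt_Y z)]
  simp
  ring

theorem db_Y (z : ℂ) : db Y z = Complex.I / 2 := by
  rw [db_of_hasFDerivAt (hasFDerivAt_Y z)]
  simp
  ring

theorem Y_ne {z : ℂ} (hz : z ∈ Hp) : Y z ≠ 0 := by
  have : z.im ≠ 0 := ne_of_gt hz
  unfold Y
  exact_mod_cast this

theorem sm_Y : Sm Y := (Complex.ofRealCLM.comp Complex.imCLM).contDiff.contDiffOn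

theorem om_eq (z : ℂ) : ((om z : ℝ) : ℂ) = (Y z * Y z)⁻¹ := by
  unfold om Y
  push_cast
  ring

theorem sm_om : Sm (fun z => (om z : ℂ)) := by
  have h := (sm_Y.mul sm_Y).inv fun z hz => mul_ne_zero (Y_ne hz) (Y_ne hz)
  refine ContDiffOn.congr h fun z _ => ?_
  exact om_eq z

theorem om_pos {z : ℂ} (hz : z ∈ Hp) : 0 < om z := by
  have : 0 < z.im := hz
  unfold om
  positivity

theorem om_aut : Aut S 1 1 (fun z => (om z : ℂ)) := by
  intro g hg z hz
  have hd := norm_den_pos g hz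
  have hz' : 0 < z.im := hz
  have h2 : om (mob g z) = ‖den g z‖ ^ 4 * om z := by
    unfold om
    rw [mob_im g hz]
    field_simp
  have h3 : den g z ^ 2 * conj (den g z) ^ 2 = ((‖den g z‖ ^ 4 : ℝ) : ℂ) := by
    rw [← mul_pow, Complex.mul_conj, Complex.normSq_eq_norm_sq]
    push_cast
    ring
  show ((om (mob g z) : ℝ) : ℂ) = _
  rw [h2]
  have e1 : (2 * 1 : ℤ) = ((2 : ℕ) : ℤ) := by norm_num
  rw [e1, zpow_natCast, zpow_natCast, h3]
  push_cast
  ring

theorem dz_om {z : ℂ} (hz : z ∈ Hp) : dz (fun w => (om w : ℂ)) z / om z = Complex.I / Y z := by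
  have h1 : (fun w => (om w : ℂ)) = fun w => ((fun x => Y x * Y x) w)⁻¹ := by
    funext w
    exact om_eq w
  have hY := (hasFDerivAt_Y z).differentiableAt
  have hn := Y_ne hz
  have hYY : DifferentiableAt ℝ (fun x => Y x * Y x) z := hY.mul hY
  rw [h1, dz_inv hYY (mul_ne_zero hn hn), dz_mul hY hY, dz_Y, om_eq]
  field_simp
  ring

theorem db_log {z : ℂ} (hz : z ∈ Hp) :
    db (fun w => (Real.log (om w) : ℂ)) z = - Complex.I / Y z := by
  have hz' : z.im ≠ 0 := ne_of_gt hz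
  have h1 : HasDerivAt (fun y : ℝ => Real.log ((y ^ 2)⁻¹)) (-2 / z.im) z.im := by
    have h2 : (fun y : ℝ => Real.log ((y ^ 2)⁻¹)) = fun y => -(2 * Real.log y) := by
      funext y
      rw [Real.log_inv, Real.log_pow]
      norm_num
    rw [h2]
    have h3 := ((Real.hasDerivAt_log hz').const_mul 2).neg
    have h4 : -(2 * z.im⁻¹) = -2 / z.im := by ring
    rw [h4] at h3
    exact h3
  have h5 : HasFDerivAt (fun w : ℂ => Real.log (om w)) ((-2 / z.im) • Complex.imCLM) z :=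
    h1.comp_hasFDerivAt z Complex.imCLM.hasFDerivAt
  have h6 : HasFDerivAt (fun w : ℂ => ((Real.log (om w) : ℝ) : ℂ))
      (Complex.ofRealCLM.comp ((-2 / z.im) • Complex.imCLM)) z :=
    Complex.ofRealCLM.hasFDerivAt.comp z h5
  rw [db_of_hasFDerivAt h6]
  have hn := Y_ne hz
  unfold Y at hn ⊢
  simp
  field_simp

theorem dz_db_log {z : ℂ} (hz : z ∈ Hp) :
    (dz (db (fun w => (Real.log (om w) : ℂ))) z).re = (2 * z.im ^ 2)⁻¹ := by
  have h1 : db (fun w => (Real.log (om w) : ℂ)) =ᶠ[𝓝 z] fun w => (-Complex.I) * (Y w)⁻¹ := by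
    filter_upwards [isOpen_Hp.mem_nhds hz] with w hw
    rw [db_log hw]
    ring
  have hY := (hasFDerivAt_Y z).differentiableAt
  have hn := Y_ne hz
  have hYi : DifferentiableAt ℝ (fun x => (Y x)⁻¹) z := hY.inv hn
  rw [dz_congr h1, dz_const_mul _ hYi, dz_inv hY hn, dz_Y]
  have h2 : -Complex.I * (-(-Complex.I / 2) / Y z ^ 2) = (((2 * z.im ^ 2)⁻¹ : ℝ) : ℂ) := by
    unfold Y at hn ⊢
    push_cast
    field_simp
    linear_combination -Complex.I_sq
  rw [h2, Complex.ofReal_re]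

end COER_

open COER_ in
theorem coer_proof (hBoch : Stmt_Boch) : Stmt_Coer := by
  intro S
  obtain ⟨M2, hM20, hM2⟩ := bdd_of_cont S (f := fun z : ℂ => z.im)
    Complex.continuous_im.continuousOn
  obtain ⟨M1, hM10, hM1⟩ := bdd_of_cont S (f := fun z : ℂ => (z.im)⁻¹)
    (Complex.continuous_im.continuousOn.inv₀ fun z hz => ne_of_gt hz)
  refine ⟨(2 * M2 ^ 4 + 4 * M2 ^ 2) * M1 ^ 2, fun χ hχ => ?_⟩
  have hb := hBoch S om χ (fun z hz => om_pos hz) sm_om om_aut hχ
  have homc : ContinuousOn om Hp :=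
    (Complex.continuous_re.comp_continuousOn sm_om.cont).congr fun z _ => by simp
  have hYc : ContinuousOn (fun z => Complex.I / Y z) Hp :=
    continuousOn_const.div sm_Y.cont fun z hz => Y_ne hz
  set a : ℂ → ℝ := fun z => om z * ‖dz χ z + Complex.I / Y z * χ z‖ ^ 2 with ha
  set b : ℂ → ℝ := fun z => om z * (2 * z.im ^ 2)⁻¹ * ‖χ z‖ ^ 2 with hb'
  have hac : ContinuousOn a Hp :=
    homc.mul ((hχ.sm.dz.cont.add (hYc.mul hχ.sm.cont)).norm.pow 2)
  have hbc : ContinuousOn b Hp := by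
    refine (homc.mul ?_).mul (hχ.sm.cont.norm.pow 2)
    refine ContinuousOn.inv₀ (continuousOn_const.mul (Complex.continuous_im.continuousOn.pow 2)) ?_
    intro z hz
    have : 0 < z.im := hz
    positivity
  have hai := integrableOn_of_cont S hac
  have hbi := integrableOn_of_cont S hbc
  have e1 : ∫ z in S.D, om z * ‖db χ z‖ ^ 2 = (∫ z in S.D, a z) + ∫ z in S.D, b z := by
    rw [hb, ← integral_add hai hbi]
    refine setIntegral_congr_fun S.meas fun z hz => ?_
    simp only [ha, hb']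
    rw [dz_om (S.D_sub hz), dz_db_log (S.D_sub hz)]
  have hχi : IntegrableOn (fun z => ‖χ z‖ ^ 2) S.D :=
    integrableOn_of_cont S (hχ.sm.cont.norm.pow 2)
  have hdi : IntegrableOn (fun z => ‖dz χ z‖ ^ 2) S.D :=
    integrableOn_of_cont S (hχ.sm.dz.cont.norm.pow 2)
  have hei : IntegrableOn (fun z => ‖db χ z‖ ^ 2) S.D :=
    integrableOn_of_cont S (hχ.sm.db.cont.norm.pow 2)
  have hoi : IntegrableOn (fun z => om z * ‖db χ z‖ ^ 2) S.D :=
    integrableOn_of_cont S (homc.mul (hχ.sm.db.cont.norm.pow 2))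
  have i1 : ∫ z in S.D, ‖χ z‖ ^ 2 ≤ 2 * M2 ^ 4 * ∫ z in S.D, b z := by
    rw [← integral_const_mul]
    refine setIntegral_mono_on hχi (hbi.const_mul _) S.meas fun z hz => ?_
    have hy : 0 < z.im := S.D_sub hz
    have hyM : z.im ≤ M2 := by
      have := hM2 z (S.subD hz)
      rwa [Real.norm_of_nonneg hy.le] at this
    have h1 : ‖χ z‖ ^ 2 = 2 * z.im ^ 4 * b z := by
      simp only [hb', om]
      field_simp
    rw [h1]
    have hb0 : 0 ≤ b z := by
      simp only [hb', om]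
      positivity
    refine mul_le_mul_of_nonneg_right ?_ hb0
    have := pow_le_pow_left₀ hy.le hyM 4
    linarith
  have i2 : ∫ z in S.D, ‖dz χ z‖ ^ 2 ≤ 2 * M2 ^ 2 * (∫ z in S.D, a z) +
      4 * M2 ^ 2 * ∫ z in S.D, b z := by
    rw [← integral_const_mul, ← integral_const_mul, ← integral_add (hai.const_mul _)
      (hbi.const_mul _)]
    refine setIntegral_mono_on hdi ((hai.const_mul _).add (hbi.const_mul _)) S.meas fun z hz => ?_
    have hy : 0 < z.im := S.D_sub hz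
    have hyM : z.im ≤ M2 := by
      have := hM2 z (S.subD hz)
      rwa [Real.norm_of_nonneg hy.le] at this
    have hYn : ‖Y z‖ = z.im := by
      unfold Y
      rw [Complex.norm_real, Real.norm_of_nonneg hy.le]
    have h1 : ‖dz χ z‖ ^ 2 ≤ 2 * ‖dz χ z + Complex.I / Y z * χ z‖ ^ 2 +
        2 * ‖Complex.I / Y z * χ z‖ ^ 2 := by
      have h2 : ‖dz χ z‖ ≤ ‖dz χ z + Complex.I / Y z * χ z‖ + ‖Complex.I / Y z * χ z‖ := by
        have := norm_sub_le (dz χ z + Complex.I / Y z * χ z) (Complex.I / Y z * χ z)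
        rwa [add_sub_cancel_right] at this
      nlinarith [norm_nonneg (dz χ z), sq_nonneg (‖dz χ z + Complex.I / Y z * χ z‖ -
        ‖Complex.I / Y z * χ z‖)]
    have h3 : 2 * ‖dz χ z + Complex.I / Y z * χ z‖ ^ 2 = 2 * z.im ^ 2 * a z := by
      simp only [ha, om]
      field_simp
    have h4 : 2 * ‖Complex.I / Y z * χ z‖ ^ 2 = 4 * z.im ^ 2 * b z := by
      rw [norm_mul, norm_div, Complex.norm_I, hYn]
      simp only [hb', om]
      field_simp
      ring
    rw [h3, h4] at h1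
    have ha0 : 0 ≤ a z := by
      simp only [ha, om]
      positivity
    have hb0 : 0 ≤ b z := by
      simp only [hb', om]
      positivity
    have hp := pow_le_pow_left₀ hy.le hyM 2
    have h5 := mul_le_mul_of_nonneg_right hp ha0
    have h6 := mul_le_mul_of_nonneg_right hp hb0
    calc ‖dz χ z‖ ^ 2 ≤ 2 * z.im ^ 2 * a z + 4 * z.im ^ 2 * b z := h1
      _ ≤ 2 * M2 ^ 2 * a z + 4 * M2 ^ 2 * b z := by linarith
  have i3 : ∫ z in S.D, om z * ‖db χ z‖ ^ 2 ≤ M1 ^ 2 * ∫ z in S.D, ‖db χ z‖ ^ 2 := by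
    rw [← integral_const_mul]
    refine setIntegral_mono_on hoi (hei.const_mul _) S.meas fun z hz => ?_
    have hy : 0 < z.im := S.D_sub hz
    refine mul_le_mul_of_nonneg_right ?_ (sq_nonneg _)
    have h1 := hM1 z (S.subD hz)
    rw [Real.norm_of_nonneg (inv_nonneg.2 hy.le)] at h1
    have h2 := pow_le_pow_left₀ (inv_nonneg.2 hy.le) h1 2
    unfold om
    rw [← inv_pow]
    exact h2
  have ia : 0 ≤ ∫ z in S.D, a z := setIntegral_nonneg S.meas fun z hz => by
    have hy : 0 < z.im := S.D_sub hz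
    simp only [ha, om]
    positivity
  have ib : 0 ≤ ∫ z in S.D, b z := setIntegral_nonneg S.meas fun z hz => by
    have hy : 0 < z.im := S.D_sub hz
    simp only [hb', om]
    positivity
  rw [e1] at i3
  have j1 : (∫ z in S.D, ‖χ z‖ ^ 2) + (∫ z in S.D, ‖dz χ z‖ ^ 2) ≤
      (2 * M2 ^ 4 + 4 * M2 ^ 2) * ((∫ z in S.D, a z) + ∫ z in S.D, b z) := by
    nlinarith [mul_nonneg (pow_nonneg hM20 4) ia, mul_nonneg (pow_nonneg hM20 2) ia]
  have j2 : (2 * M2 ^ 4 + 4 * M2 ^ 2) * ((∫ z in S.D, a z) + ∫ z in S.D, b z) ≤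
      (2 * M2 ^ 4 + 4 * M2 ^ 2) * (M1 ^ 2 * ∫ z in S.D, ‖db χ z‖ ^ 2) :=
    mul_le_mul_of_nonneg_left i3 (by positivity)
  calc _ ≤ _ := j1
    _ ≤ _ := j2
    _ = _ := by ring

end

end Pool.Agent.TNP
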