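import Pool.Agent.TNP.Stmts

/-!
# TNP, module CONT: continuity of the Teichmüller norm at the centre of a chart
-/

open scoped ContDiff Topology ComplexConjugate
open Set Metric MeasureTheory Filter

namespace Pool.Agent.TNP

noncomputable section

namespace CONT_

variable {S : Surf}

/-- first order Taylor estimate -/
theorem lip (hTayl : Stmt_Tayl) (S : Surf) {δ : ℝ} (hδ : 0 < δ) {f : ℂ → ℂ → ℂ}
    (h1 : ContDiffOn ℝ ∞ (fun p : ℂ × ℂ => f p.1 p.2) (ball 0 δ ×ˢ Hp))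
    (h2 : ∀ z ∈ Hp, DifferentiableOn ℂ (fun t => f t z) (ball 0 δ)) :
    ∃ C : ℝ, 0 ≤ C ∧ ∀ t ∈ ball (0 : ℂ) (δ / 2), ‖t‖ ≤ 1 → ∀ z ∈ S.K,
      ‖f t z - f 0 z‖ ≤ C * ‖t‖ := by
  obtain ⟨f1, f2, g1, g2, M, c1, c2, _, _, hM⟩ := hTayl δ f S.K hδ S.compact S.sub h1 h2
  obtain ⟨B1, hB1, hb1⟩ := bdd_of_cont S c1
  obtain ⟨B2, hB2, hb2⟩ := bdd_of_cont S c2
  refine ⟨|M| + B1 + B2, by positivity, fun t ht ht1 z hz => ?_⟩
  have h := (hM t ht z hz).1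
  have n0 := norm_nonneg t
  have n2 : ‖t‖ ^ 2 ≤ ‖t‖ := by nlinarith
  have n3 : ‖t‖ ^ 3 ≤ ‖t‖ := by nlinarith
  have e : f t z - f 0 z = (f t z - f 0 z - t * f1 z - t ^ 2 * f2 z) + t * f1 z +
      t ^ 2 * f2 z := by ring
  have s1 : ‖f t z - f 0 z‖ ≤ ‖f t z - f 0 z - t * f1 z - t ^ 2 * f2 z‖ + ‖t * f1 z‖ +
      ‖t ^ 2 * f2 z‖ := by
    conv_lhs => rw [e]
    exact norm_add₃_le
  have s2 : ‖t * f1 z‖ ≤ B1 * ‖t‖ := by
    rw [norm_mul, mul_comm]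
    exact mul_le_mul_of_nonneg_right (hb1 z hz) n0
  have s3 : ‖t ^ 2 * f2 z‖ ≤ B2 * ‖t‖ := by
    rw [norm_mul, norm_pow, mul_comm]
    exact mul_le_mul (hb2 z hz) n2 (by positivity) hB2
  have s4 : M * ‖t‖ ^ 3 ≤ |M| * ‖t‖ :=
    mul_le_mul (le_abs_self M) n3 (by positivity) (abs_nonneg M)
  linarith

theorem cont_slice {δ : ℝ} {f : ℂ → ℂ → ℂ}
    (h1 : ContDiffOn ℝ ∞ (fun p : ℂ × ℂ => f p.1 p.2) (ball 0 δ ×ˢ Hp)) {t : ℂ}
    (ht : t ∈ ball (0 : ℂ) δ) : ContinuousOn (f t) Hp := by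
  have h2 : ContinuousOn (fun p : ℂ × ℂ => f p.1 p.2) (ball 0 δ ×ˢ Hp) := h1.continuousOn
  have h3 : ContinuousOn (fun z : ℂ => ((t, z) : ℂ × ℂ)) Hp := by fun_prop
  exact h2.comp h3 (fun z hz => ⟨ht, hz⟩)

theorem norm_int_le {a g : ℂ → ℂ} {M : ℝ} (ha : ∀ z ∈ S.D, ‖a z‖ ≤ M)
    (hg : IntegrableOn g S.D) : ‖∫ z in S.D, a z * g z‖ ≤ M * ∫ z in S.D, ‖g z‖ := by
  rw [← integral_const_mul]
  refine norm_integral_le_of_norm_le (hg.norm.const_mul M) ?_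
  refine (ae_restrict_iff' S.meas).mpr (Eventually.of_forall fun z hz => ?_)
  rw [norm_mul]
  exact mul_le_mul_of_nonneg_right (ha z hz) (norm_nonneg _)

theorem dz_mu0 {δ : ℝ} {u : ℂ → ℝ} {μ ν : ℂ → ℂ → ℂ} (h : Loc S δ u μ ν) {z : ℂ} (hz : z ∈ Hp) :
    dz (μ 0) z = 0 := by
  have h1 : μ 0 =ᶠ[𝓝 z] fun _ => (0 : ℂ) := by
    filter_upwards [isOpen_Hp.mem_nhds hz] with x hx
    exact h.μ0 x hx
  rw [dz_congr h1, dz_const]

/-- the expansion of `μ` -/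
theorem mu_exp (hTayl : Stmt_Tayl) {δ : ℝ} {u : ℂ → ℝ} {μ ν : ℂ → ℂ → ℂ} (h : Loc S δ u μ ν) :
    ∃ (a1 a2 b1 b2 : ℂ → ℂ) (M : ℝ), ContinuousOn a1 Hp ∧ ContinuousOn a2 Hp ∧
      ContinuousOn b1 Hp ∧ ContinuousOn b2 Hp ∧
      (∀ t ∈ ball (0 : ℂ) (δ / 2), ∀ z ∈ S.K, ‖μ t z - t * a1 z - t ^ 2 * a2 z‖ ≤ M * ‖t‖ ^ 3 ∧
        ‖dz (μ t) z - t * b1 z - t ^ 2 * b2 z‖ ≤ M * ‖t‖ ^ 3) ∧
      Exp2 S (δ / 2) μ a1 a2 ∧ Exp2 S (δ / 2) (fun t => dz (μ t)) b1 b2 := by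
  obtain ⟨a1, a2, b1, b2, M, c1, c2, c3, c4, hM⟩ :=
    hTayl δ μ S.K h.pos S.compact S.sub h.μsm h.μhol
  have hsub : ball (0 : ℂ) (δ / 2) ⊆ ball 0 δ := ball_subset_ball (by linarith [h.pos])
  have key : ∀ t ∈ ball (0 : ℂ) (δ / 2), ∀ z ∈ S.K,
      ‖μ t z - t * a1 z - t ^ 2 * a2 z‖ ≤ M * ‖t‖ ^ 3 ∧
        ‖dz (μ t) z - t * b1 z - t ^ 2 * b2 z‖ ≤ M * ‖t‖ ^ 3 := by
    intro t ht z hz
    have h1 := hM t ht z hz
    rw [h.μ0 z (S.sub hz), dz_mu0 h (S.sub hz), sub_zero, sub_zero] at h1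
    exact h1
  refine ⟨a1, a2, b1, b2, M, c1, c2, c3, c4, key, ?_, ?_⟩
  · exact ⟨fun t ht => aesm_of_cont S (h.μSB t (hsub ht)).sm.cont, bd_of_cont S c1,
      bd_of_cont S c2, M, fun t ht z hz => (key t ht z (S.subD hz)).1⟩
  · exact ⟨fun t ht => aesm_of_cont S (h.μSB t (hsub ht)).sm.dz.cont, bd_of_cont S c3,
      bd_of_cont S c4, M, fun t ht z hz => (key t ht z (S.subD hz)).2⟩

theorem L2.sub' {f g : ℂ → ℂ} (hf : L2 S f) (hg : L2 S g) : L2 S (fun z => f z - g z) :=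
  MemLp.sub hf hg

/-- `∫ q ∂̄χ = 0` -/
theorem int_q_db (hStok : Stmt_Stok) {q χ : ℂ → ℂ} (hq : IsQD S q) (hχ : VF S χ) :
    ∫ z in S.D, q z * db χ z = 0 := by
  have h1 : Sm (fun z => q z * χ z) := hq.sm.mul hχ.sm
  have h2 : Aut S 1 0 (fun z => q z * χ z) := by
    have := hq.aut'.mul hχ.aut
    norm_num at this
    exact this
  have h3 := (hStok S _ h1).2 h2
  rw [← h3]
  refine setIntegral_congr_fun S.meas fun z hz => ?_
  have hz' := S.D_sub hz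
  have hqd : DifferentiableAt ℂ q z := hq.hol.differentiableAt (isOpen_Hp.mem_nhds hz')
  rw [db_mul (hqd.restrictScalars ℝ) (hχ.sm.diff hz'), db_holo hqd]
  ring

/-- triangle inequality for the pairings -/
theorem pair_diff {n0 n1 f g : ℂ → ℂ} {M C I : ℝ} (hn0 : AEStronglyMeasurable n0 (volume.restrict S.D))
    (hn1 : AEStronglyMeasurable n1 (volume.restrict S.D)) (h0 : ∀ z ∈ S.D, ‖n0 z‖ ≤ M)
    (h1 : ∀ z ∈ S.D, ‖n1 z - n0 z‖ ≤ C) (hM : 0 ≤ M) (hf : IntegrableOn f S.D)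
    (hg : IntegrableOn g S.D) (hI : ∫ z in S.D, ‖f z - g z‖ ≤ I) :
    ‖(∫ z in S.D, n1 z * f z) - ∫ z in S.D, n0 z * g z‖ ≤ M * I + C * ∫ z in S.D, ‖f z‖ := by
  have i1 : IntegrableOn (fun z => n1 z * f z) S.D := by
    refine hf.bdd_mul hn1 (c := M + C) ?_
    refine (ae_restrict_iff' S.meas).mpr (Eventually.of_forall fun z hz => ?_)
    have : n1 z = n0 z + (n1 z - n0 z) := by ring
    rw [this]
    exact (norm_add_le _ _).trans (add_le_add (h0 z hz) (h1 z hz))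
  have i2 : IntegrableOn (fun z => n0 z * g z) S.D := by
    refine hg.bdd_mul hn0 (c := M) ?_
    exact (ae_restrict_iff' S.meas).mpr (Eventually.of_forall fun z hz => h0 z hz)
  have i3 : IntegrableOn (fun z => n0 z * (f z - g z)) S.D := by
    refine (hf.sub hg).bdd_mul hn0 (c := M) ?_
    exact (ae_restrict_iff' S.meas).mpr (Eventually.of_forall fun z hz => h0 z hz)
  have i4 : IntegrableOn (fun z => (n1 z - n0 z) * f z) S.D := by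
    refine hf.bdd_mul (hn1.sub hn0) (c := C) ?_
    exact (ae_restrict_iff' S.meas).mpr (Eventually.of_forall fun z hz => h1 z hz)
  have e : (∫ z in S.D, n1 z * f z) - ∫ z in S.D, n0 z * g z =
      (∫ z in S.D, n0 z * (f z - g z)) + ∫ z in S.D, (n1 z - n0 z) * f z := by
    rw [← integral_sub i1 i2, ← integral_add i3 i4]
    refine integral_congr_ae (Eventually.of_forall fun z => ?_)
    simp only
    ring
  rw [e]
  refine (norm_add_le _ _).trans (add_le_add ?_ ?_)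
  · exact (norm_int_le h0 (hf.sub hg)).trans (mul_le_mul_of_nonneg_left hI hM)
  · exact norm_int_le h1 hf

/-- the lower estimate -/
theorem lower (hPert : Stmt_Pert) (hTayl : Stmt_Tayl) (hFirst : Stmt_First) (hRsz : Stmt_Rsz)
    (hStok : Stmt_Stok) {δ : ℝ} {u : ℂ → ℝ} {μ ν : ℂ → ℂ → ℂ} (h : Loc S δ u μ ν) :
    ∃ ρ C : ℝ, 0 < ρ ∧ 0 ≤ C ∧ ∀ t ∈ ball (0 : ℂ) ρ, u 0 - C * ‖t‖ ≤ u t * (1 + C * ‖t‖) := by
  have h0mem : (0 : ℂ) ∈ ball (0 : ℂ) δ := mem_ball_self h.pos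
  rcases (h.nonneg 0 h0mem).eq_or_lt with hu | hu
  · refine ⟨δ, 0, h.pos, le_rfl, fun t ht => ?_⟩
    rw [← hu]
    simpa using h.nonneg t ht
  obtain ⟨q, hq, hq1, hq2⟩ := h.ext hu
  obtain ⟨a1, a2, b1, b2, M, c1, c2, c3, c4, key, e1, e2⟩ := mu_exp hTayl h
  obtain ⟨ψ, hψ, _, _, hψ2⟩ := hRsz S q a1 hq (bd_of_cont S c1)
  have hsub : ball (0 : ℂ) (δ / 2) ⊆ ball 0 δ := ball_subset_ball (by linarith [h.pos])
  have hδ2 : 0 < δ / 2 := by linarith [h.pos]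
  have hq0 : L2 S q := (bd_of_cont S hq.sm.cont).L2
  obtain ⟨δ', C, φ2, φ, hδ', hδ'', hφ2, hφ⟩ := (hPert S (δ / 2) μ a1 a2 (fun t => dz (μ t)) b1 b2
    hδ2 e1 e2).1 q ψ hq0 hψ (fun χ hχ => int_q_db hStok hq hχ) (fun χ hχ => by
      rw [hψ2 χ hχ]
      exact (hFirst S (δ / 2) M μ a1 a2 b1 b2 hδ2 (fun t ht => h.μSB t (hsub ht)) c1 c2 c3 c4 key
        q hq χ hχ).symm)
  obtain ⟨C2, hC2, hlip⟩ := lip hTayl S h.pos h.νsm h.νhol
  have cν : ∀ t ∈ ball (0 : ℂ) δ, ContinuousOn (ν t) Hp := fun t ht => cont_slice h.νsm ht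
  obtain ⟨M0, hM0, hm0⟩ := bdd_of_cont S (cν 0 h0mem)
  set C1 : ℝ := |C| + (∫ z in S.D, ‖ψ z‖) + ∫ z in S.D, ‖φ2 z‖ with hC1
  have hC1n : 0 ≤ C1 := by positivity
  refine ⟨min δ' 1, M0 * C1 + C2 * (1 + C1) + C1, by positivity, by positivity, fun t ht => ?_⟩
  have ht0 : ‖t‖ < min δ' 1 := by simpa using ht
  have ht1 : ‖t‖ ≤ 1 := (ht0.trans_le (min_le_right _ _)).le
  have ht2 : t ∈ ball (0 : ℂ) δ' := by simpa using ht0.trans_le (min_le_left _ _)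
  have ht3 : t ∈ ball (0 : ℂ) (δ / 2) := ball_subset_ball hδ'' ht2
  have ht4 : t ∈ ball (0 : ℂ) δ := hsub ht3
  obtain ⟨hL, hweak, hest⟩ := hφ t ht2
  have n0 := norm_nonneg t
  have n2 : ‖t‖ ^ 2 ≤ ‖t‖ := by nlinarith
  have n3 : ‖t‖ ^ 3 ≤ ‖t‖ := by nlinarith
  have iφ := hL.int
  have iq := hq0.int
  have iψ := hψ.int
  have iφ2 := hφ2.int
  have d1 : ∫ z in S.D, ‖φ t z - q z‖ ≤ C1 * ‖t‖ := by
    have ii : IntegrableOn (fun z => φ t z - q z - t * ψ z - t ^ 2 * φ2 z) S.D :=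
      ((iφ.sub iq).sub (iψ.const_mul t)).sub (iφ2.const_mul (t ^ 2))
    have s1 : ∫ z in S.D, ‖φ t z - q z‖ ≤ ∫ z in S.D,
        (‖φ t z - q z - t * ψ z - t ^ 2 * φ2 z‖ + ‖t‖ * ‖ψ z‖ + ‖t‖ ^ 2 * ‖φ2 z‖) := by
      refine integral_mono (iφ.sub iq).norm
        ((ii.norm.add (iψ.norm.const_mul _)).add (iφ2.norm.const_mul _)) fun z => ?_
      simp only
      have e : φ t z - q z = (φ t z - q z - t * ψ z - t ^ 2 * φ2 z) + t * ψ z +
          t ^ 2 * φ2 z := by ring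
      conv_lhs => rw [e]
      refine norm_add₃_le.trans ?_
      rw [norm_mul, norm_mul, norm_pow]
    have t1 : ∫ z in S.D, (‖φ t z - q z - t * ψ z - t ^ 2 * φ2 z‖ + ‖t‖ * ‖ψ z‖ +
        ‖t‖ ^ 2 * ‖φ2 z‖) = (∫ z in S.D, (‖φ t z - q z - t * ψ z - t ^ 2 * φ2 z‖ +
          ‖t‖ * ‖ψ z‖)) + ∫ z in S.D, ‖t‖ ^ 2 * ‖φ2 z‖ :=
      integral_add (ii.norm.add (iψ.norm.const_mul _)) (iφ2.norm.const_mul _)
    have t2 : ∫ z in S.D, (‖φ t z - q z - t * ψ z - t ^ 2 * φ2 z‖ + ‖t‖ * ‖ψ z‖) =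
        (∫ z in S.D, ‖φ t z - q z - t * ψ z - t ^ 2 * φ2 z‖) + ∫ z in S.D, ‖t‖ * ‖ψ z‖ :=
      integral_add ii.norm (iψ.norm.const_mul _)
    rw [t1, t2, integral_const_mul, integral_const_mul] at s1
    have s2 : C * ‖t‖ ^ 3 ≤ |C| * ‖t‖ :=
      mul_le_mul (le_abs_self C) n3 (by positivity) (abs_nonneg C)
    have s3 : ‖t‖ ^ 2 * ∫ z in S.D, ‖φ2 z‖ ≤ ‖t‖ * ∫ z in S.D, ‖φ2 z‖ :=
      mul_le_mul_of_nonneg_right n2 (by positivity)
    rw [hC1]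
    nlinarith
  have d2 : ∫ z in S.D, ‖φ t z‖ ≤ 1 + C1 * ‖t‖ := by
    have s1 : ∫ z in S.D, ‖φ t z‖ ≤ ∫ z in S.D, (‖q z‖ + ‖φ t z - q z‖) := by
      refine integral_mono iφ.norm (iq.norm.add (iφ.sub iq).norm) fun z => ?_
      simp only
      have e : φ t z = q z + (φ t z - q z) := by ring
      conv_lhs => rw [e]
      exact norm_add_le _ _
    have t1 : ∫ z in S.D, (‖q z‖ + ‖φ t z - q z‖) =
        (∫ z in S.D, ‖q z‖) + ∫ z in S.D, ‖φ t z - q z‖ :=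
      integral_add iq.norm (iφ.sub iq).norm
    rw [t1, hq1] at s1
    linarith
  have d3 := pair_diff (S := S) (aesm_of_cont S (cν 0 h0mem)) (aesm_of_cont S (cν t ht4))
    (fun z hz => hm0 z (S.subD hz)) (fun z hz => hlip t ht3 ht1 z (S.subD hz)) hM0
    iφ iq d1
  have d4 : ‖∫ z in S.D, ν t z * φ t z‖ ≤ u t * ∫ z in S.D, ‖φ t z‖ := by
    refine (h.lower t ht4 (φ t) hL hweak).trans (mul_le_mul_of_nonneg_left ?_ (h.nonneg t ht4))
    refine integral_mono_of_nonneg ?_ iφ.norm ?_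
    · refine (ae_restrict_iff' S.meas).mpr (Eventually.of_forall fun z hz => ?_)
      have := h.μlt t ht4 z (S.D_sub hz)
      have h3 := norm_nonneg (μ t z)
      exact mul_nonneg (norm_nonneg _) (by nlinarith)
    · refine (ae_restrict_iff' S.meas).mpr (Eventually.of_forall fun z hz => ?_)
      have h3 := norm_nonneg (φ t z)
      have h4 : 0 ≤ ‖μ t z‖ ^ 2 := by positivity
      simp only
      nlinarith
  have d5 : u 0 ≤ ‖∫ z in S.D, ν t z * φ t z‖ + (M0 * (C1 * ‖t‖) + C2 * ‖t‖ *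
      ∫ z in S.D, ‖φ t z‖) := by
    rw [← hq2]
    have := norm_sub_norm_le (∫ z in S.D, ν 0 z * q z) (∫ z in S.D, ν t z * φ t z)
    rw [norm_sub_rev] at this
    linarith
  have hut := h.nonneg t ht4
  have d6 : C2 * ‖t‖ * (∫ z in S.D, ‖φ t z‖) ≤ C2 * ‖t‖ * (1 + C1) :=
    mul_le_mul_of_nonneg_left (d2.trans (by nlinarith)) (by positivity)
  have d7 : u t * (∫ z in S.D, ‖φ t z‖) ≤ u t * (1 + C1 * ‖t‖) :=
    mul_le_mul_of_nonneg_left d2 hut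
  have d8 : u t * (1 + C1 * ‖t‖) ≤ u t * (1 + (M0 * C1 + C2 * (1 + C1) + C1) * ‖t‖) := by
    refine mul_le_mul_of_nonneg_left ?_ hut
    have : 0 ≤ (M0 * C1 + C2 * (1 + C1)) * ‖t‖ := by positivity
    nlinarith
  have d9 : 0 ≤ C1 * ‖t‖ := by positivity
  nlinarith

/-- the identity map is quasiconformal with Beltrami coefficient `0` -/
theorem qc_id (S : Surf) : QC S S (fun z => z) (fun _ => 0) where
  bij := bijOn_id Hp
  smooth := contDiffOn_id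
  bel := by
    intro z _
    have : db (fun z : ℂ => z) z = 0 := db_holo differentiableAt_id
    rw [this, zero_mul]
  lt := by intro z _; simp
  ne := by
    intro z _
    have : dz (fun z : ℂ => z) z = deriv (fun z : ℂ => z) z := dz_holo differentiableAt_id
    rw [this]
    simp
  conj1 := fun g hg => ⟨g, hg, fun _ _ => rfl⟩
  conj2 := fun g hg => ⟨g, hg, fun _ _ => rfl⟩

/-- the `L²` norm is bounded by the `L¹` norm on weak solutions -/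
theorem l2_le (hToQD : Stmt_ToQD) (hMv : Stmt_Mv) (S : Surf) : ∃ C : ℝ, 0 ≤ C ∧
    ∀ k : ℂ → ℂ, L2 S k → (∀ χ, VF S χ → ∫ z in S.D, k z * db χ z = 0) →
      Real.sqrt (∫ z in S.D, ‖k z‖ ^ 2) ≤ C * ∫ z in S.D, ‖k z‖ := by
  obtain ⟨C, hC⟩ := hMv S
  refine ⟨|C| * Real.sqrt (volume.real S.D), by positivity, fun k hk hweak => ?_⟩
  obtain ⟨q, hq, hae⟩ := hToQD S S (fun z => z) (fun _ => 0) (qc_id S) k hk.int (by
    intro χ hχ
    refine Eq.trans ?_ (hweak χ hχ)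
    refine integral_congr_ae (Eventually.of_forall fun z => ?_)
    simp only [Aop, Aab, dz_const]
    ring)
  have hd : ∀ z : ℂ, dz (fun z : ℂ => z) z = 1 := by
    intro z
    have : dz (fun z : ℂ => z) z = deriv (fun z : ℂ => z) z := dz_holo differentiableAt_id
    rw [this]
    simp
  have hae' : ∀ᵐ z ∂(volume.restrict S.D), k z = q z := by
    filter_upwards [hae] with z hz
    rw [hz, hd]
    ring
  have e1 : ∫ z in S.D, ‖k z‖ = ∫ z in S.D, ‖q z‖ :=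
    integral_congr_ae (by filter_upwards [hae'] with z hz; rw [hz])
  have e2 : ∫ z in S.D, ‖k z‖ ^ 2 = ∫ z in S.D, ‖q z‖ ^ 2 :=
    integral_congr_ae (by filter_upwards [hae'] with z hz; rw [hz])
  rw [e1, e2]
  set I := ∫ z in S.D, ‖q z‖ with hI
  have hI0 : 0 ≤ I := by positivity
  have hvol : 0 ≤ volume.real S.D := measureReal_nonneg
  have b1 : ∫ z in S.D, ‖q z‖ ^ 2 ≤ (|C| * I) ^ 2 * volume.real S.D := by
    have : ∫ z in S.D, ‖q z‖ ^ 2 ≤ ∫ z in S.D, (|C| * I) ^ 2 := by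
      refine integral_mono_of_nonneg (Eventually.of_forall fun z => by positivity)
        (integrable_const _) ?_
      refine (ae_restrict_iff' S.meas).mpr (Eventually.of_forall fun z hz => ?_)
      have h1 := hC q hq z (S.subD hz)
      have h2 : C * I ≤ |C| * I := mul_le_mul_of_nonneg_right (le_abs_self C) hI0
      exact pow_le_pow_left₀ (norm_nonneg _) (h1.trans h2) 2
    refine this.trans ?_
    rw [setIntegral_const, smul_eq_mul, mul_comm]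
  refine (Real.sqrt_le_sqrt b1).trans ?_
  rw [Real.sqrt_mul (by positivity), Real.sqrt_sq (by positivity)]
  exact le_of_eq (by ring)

/-- the upper estimate -/
theorem upper (hPert : Stmt_Pert) (hTayl : Stmt_Tayl) (hToQD : Stmt_ToQD) (hMv : Stmt_Mv)
    {δ : ℝ} {u : ℂ → ℝ} {μ ν : ℂ → ℂ → ℂ} (h : Loc S δ u μ ν) :
    ∃ ρ C : ℝ, 0 < ρ ∧ 0 ≤ C ∧ ∀ t ∈ ball (0 : ℂ) ρ, u t ≤ u 0 * (1 + C * ‖t‖) + C * ‖t‖ := by
  have h0mem : (0 : ℂ) ∈ ball (0 : ℂ) δ := mem_ball_self h.pos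
  obtain ⟨a1, a2, b1, b2, M, c1, c2, c3, c4, key, e1, e2⟩ := mu_exp hTayl h
  have hsub : ball (0 : ℂ) (δ / 2) ⊆ ball 0 δ := ball_subset_ball (by linarith [h.pos])
  have hδ2 : 0 < δ / 2 := by linarith [h.pos]
  obtain ⟨δ', C, hδ', hδ'', hC, hφ⟩ := (hPert S (δ / 2) μ a1 a2 (fun t => dz (μ t)) b1 b2
    hδ2 e1 e2).2
  obtain ⟨C2, hC2, hlip⟩ := lip hTayl S h.pos h.νsm h.νhol
  obtain ⟨C3, hC3, hlipμ⟩ := lip hTayl S h.pos h.μsm h.μhol
  obtain ⟨C4, hC4, hl2⟩ := l2_le hToQD hMv S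
  have cν : ∀ t ∈ ball (0 : ℂ) δ, ContinuousOn (ν t) Hp := fun t ht => cont_slice h.νsm ht
  obtain ⟨M0, hM0, hm0⟩ := bdd_of_cont S (cν 0 h0mem)
  -- constants
  set A : ℝ := C * C4 with hA
  have hAn : 0 ≤ A := by positivity
  set B : ℝ := C3 + A with hB
  have hBn : 0 ≤ B := by positivity
  -- radius
  obtain ⟨ρ, hρ, hρ1, hρ2, hρ3⟩ : ∃ ρ : ℝ, 0 < ρ ∧ ρ ≤ δ' ∧ ρ ≤ 1 ∧ B * ρ ≤ 1 / 4 := by
    refine ⟨min (min δ' 1) (1 / (4 * (B + 1))), by positivity, ?_, ?_, ?_⟩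
    · exact (min_le_left _ _).trans (min_le_left _ _)
    · exact (min_le_left _ _).trans (min_le_right _ _)
    · have h1 : min (min δ' 1) (1 / (4 * (B + 1))) ≤ 1 / (4 * (B + 1)) := min_le_right _ _
      have h2 : B * min (min δ' 1) (1 / (4 * (B + 1))) ≤ B * (1 / (4 * (B + 1))) :=
        mul_le_mul_of_nonneg_left h1 hBn
      refine h2.trans ?_
      rw [mul_one_div, div_le_div_iff₀ (by positivity) (by norm_num)]
      linarith
  -- the final constant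
  set K1 : ℝ := 2 * C3 + 4 * A with hK1
  have hK1n : 0 ≤ K1 := by positivity
  refine ⟨ρ, K1 + M0 * (4 * A) + 2 * C2, hρ, by positivity, fun t ht => ?_⟩
  have ht0 : ‖t‖ < ρ := by simpa using ht
  have ht1 : ‖t‖ ≤ 1 := ht0.le.trans hρ2
  have ht2 : t ∈ ball (0 : ℂ) δ' := by simpa using ht0.trans_le hρ1
  have ht3 : t ∈ ball (0 : ℂ) (δ / 2) := ball_subset_ball hδ'' ht2
  have ht4 : t ∈ ball (0 : ℂ) δ := hsub ht3
  have n0 := norm_nonneg t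
  have n2 : ‖t‖ ^ 2 ≤ ‖t‖ := by nlinarith
  have hBt : B * ‖t‖ ≤ 1 / 4 := (mul_le_mul_of_nonneg_left ht0.le hBn).trans hρ3
  have hC3t : C3 * ‖t‖ ≤ 1 / 4 := by nlinarith [mul_nonneg hAn n0]
  have hAt : A * ‖t‖ ≤ 1 / 4 := by nlinarith [mul_nonneg hC3 n0]
  have hu0 := h.nonneg 0 h0mem
  refine le_of_forall_lt fun c hc => ?_
  rcases lt_or_ge c 0 with hc0 | hc0
  · refine hc0.trans_le ?_
    positivity
  obtain ⟨φ, hL, hweak, hnorm, hcφ⟩ := h.upper t ht4 c hc0 hc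
  obtain ⟨k, hk, hkweak, hkest⟩ := hφ t ht2 φ hL hweak
  have iφ := hL.int
  have ik := hk.int
  have s1 : C * ‖t‖ * Real.sqrt (∫ z in S.D, ‖k z‖ ^ 2) ≤ A * ‖t‖ * ∫ z in S.D, ‖k z‖ := by
    have := mul_le_mul_of_nonneg_left (hl2 k hk hkweak) (mul_nonneg hC n0)
    refine this.trans (le_of_eq ?_)
    rw [hA]
    ring
  have s2 : ∫ z in S.D, ‖φ z - k z‖ ≤ A * ‖t‖ * ∫ z in S.D, ‖k z‖ := hkest.trans s1
  have s3 : ∫ z in S.D, ‖k z‖ ≤ (∫ z in S.D, ‖φ z‖) + ∫ z in S.D, ‖φ z - k z‖ := by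
    have t1 : ∫ z in S.D, (‖φ z‖ + ‖φ z - k z‖) =
        (∫ z in S.D, ‖φ z‖) + ∫ z in S.D, ‖φ z - k z‖ :=
      integral_add iφ.norm (iφ.sub ik).norm
    rw [← t1]
    refine integral_mono ik.norm (iφ.norm.add (iφ.sub ik).norm) fun z => ?_
    simp only
    have e : k z = φ z - (φ z - k z) := by ring
    conv_lhs => rw [e]
    exact norm_sub_le _ _
  -- `∫ |φ| ≤ 1 + 2 C3 |t|`
  have s4 : (1 - C3 * ‖t‖) * (∫ z in S.D, ‖φ z‖) ≤ 1 := by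
    refine le_of_le_of_eq ?_ hnorm
    rw [← integral_const_mul]
    have im : IntegrableOn (fun z => ‖φ z‖ * (1 - ‖μ t z‖ ^ 2)) S.D := by
      have h5 : AEStronglyMeasurable (fun z => (1 - ‖μ t z‖ ^ 2 : ℝ)) (volume.restrict S.D) := by
        refine aesm_of_cont S (f := fun z => (1 - ‖μ t z‖ ^ 2 : ℝ)) ?_
        have := (h.μSB t ht4).sm.cont
        exact continuousOn_const.sub (this.norm.pow 2)
      refine iφ.norm.mul_bdd h5 (c := 1) ?_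
      refine (ae_restrict_iff' S.meas).mpr (Eventually.of_forall fun z hz => ?_)
      have h6 := h.μlt t ht4 z (S.D_sub hz)
      have h7 := norm_nonneg (μ t z)
      rw [Real.norm_eq_abs, abs_le]
      constructor <;> nlinarith
    refine integral_mono_ae (iφ.norm.const_mul _) im ?_
    refine (ae_restrict_iff' S.meas).mpr (Eventually.of_forall fun z hz => ?_)
    have h5 := hlipμ t ht3 ht1 z (S.subD hz)
    rw [h.μ0 z (S.D_sub hz), sub_zero] at h5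
    have h6 := h.μlt t ht4 z (S.D_sub hz)
    have h7 := norm_nonneg (μ t z)
    have h8 : ‖μ t z‖ ^ 2 ≤ C3 * ‖t‖ := by nlinarith
    have h9 := norm_nonneg (φ z)
    have h10 : ‖φ z‖ * ‖μ t z‖ ^ 2 ≤ ‖φ z‖ * (C3 * ‖t‖) := mul_le_mul_of_nonneg_left h8 h9
    simp only
    linarith
  set Iφ := ∫ z in S.D, ‖φ z‖ with hIφ
  set Ik := ∫ z in S.D, ‖k z‖ with hIk
  have hIφ0 : 0 ≤ Iφ := by positivity
  have hIk0 : 0 ≤ Ik := by positivity
  have hx0 : 0 ≤ C3 * ‖t‖ := mul_nonneg hC3 n0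
  have hy0 : 0 ≤ A * ‖t‖ := mul_nonneg hAn n0
  have r1 : C3 * ‖t‖ * Iφ ≤ 1 / 4 * Iφ := mul_le_mul_of_nonneg_right hC3t hIφ0
  have r2 : A * ‖t‖ * Ik ≤ 1 / 4 * Ik := mul_le_mul_of_nonneg_right hAt hIk0
  have s4' : Iφ - C3 * ‖t‖ * Iφ ≤ 1 := by linarith
  have s5 : Iφ ≤ 2 := by linarith
  have r3 : C3 * ‖t‖ * Iφ ≤ C3 * ‖t‖ * 2 := mul_le_mul_of_nonneg_left s5 hx0
  have s7 : Ik ≤ 4 := by linarith
  have r4 : A * ‖t‖ * Ik ≤ A * ‖t‖ * 4 := mul_le_mul_of_nonneg_left s7 hy0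
  have s8 : ∫ z in S.D, ‖φ z - k z‖ ≤ 4 * A * ‖t‖ := by linarith
  have s9 : Ik ≤ 1 + K1 * ‖t‖ := by
    have : K1 * ‖t‖ = 2 * (C3 * ‖t‖) + 4 * (A * ‖t‖) := by rw [hK1]; ring
    rw [this]
    linarith
  have d3 := pair_diff (S := S) (aesm_of_cont S (cν 0 h0mem)) (aesm_of_cont S (cν t ht4))
    (fun z hz => hm0 z (S.subD hz)) (fun z hz => hlip t ht3 ht1 z (S.subD hz)) hM0
    iφ ik s8
  have d4 : ‖∫ z in S.D, ν 0 z * k z‖ ≤ u 0 * Ik := by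
    have h1 := h.lower 0 h0mem k hk (by
      intro χ hχ
      refine Eq.trans ?_ (hkweak χ hχ)
      refine setIntegral_congr_fun S.meas fun z hz => ?_
      simp only [Aop, Aab]
      rw [h.μ0 z (S.D_sub hz), dz_mu0 h (S.D_sub hz)]
      ring)
    refine h1.trans (le_of_eq ?_)
    congr 1
    refine setIntegral_congr_fun S.meas fun z hz => ?_
    rw [h.μ0 z (S.D_sub hz)]
    simp
  have d5 : ‖∫ z in S.D, ν t z * φ z‖ ≤ ‖∫ z in S.D, ν 0 z * k z‖ +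
      (M0 * (4 * A * ‖t‖) + C2 * ‖t‖ * Iφ) := by
    have := norm_sub_norm_le (∫ z in S.D, ν t z * φ z) (∫ z in S.D, ν 0 z * k z)
    linarith
  have d6 : C2 * ‖t‖ * Iφ ≤ C2 * ‖t‖ * 2 := mul_le_mul_of_nonneg_left s5 (by positivity)
  have d7 : u 0 * Ik ≤ u 0 * (1 + K1 * ‖t‖) := mul_le_mul_of_nonneg_left s9 hu0
  have d8 : u 0 * (1 + K1 * ‖t‖) ≤ u 0 * (1 + (K1 + M0 * (4 * A) + 2 * C2) * ‖t‖) := by
    refine mul_le_mul_of_nonneg_left ?_ hu0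
    have : 0 ≤ (M0 * (4 * A) + 2 * C2) * ‖t‖ := by positivity
    linarith
  have d9 : 0 ≤ K1 * ‖t‖ := by positivity
  have d10 : (K1 + M0 * (4 * A) + 2 * C2) * ‖t‖ = K1 * ‖t‖ + M0 * (4 * A * ‖t‖) +
    C2 * ‖t‖ * 2 := by ring
  linarith

end CONT_

open CONT_ in
theorem cont_proof (hPert : Stmt_Pert) (hToQD : Stmt_ToQD) (hMv : Stmt_Mv) (hTayl : Stmt_Tayl)
    (hFirst : Stmt_First) (hRsz : Stmt_Rsz) (hStok : Stmt_Stok) : Stmt_Cont := by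
  intro S δ u μ ν h
  obtain ⟨ρ1, C1, hρ1, hC1, h1⟩ := lower hPert hTayl hFirst hRsz hStok h
  obtain ⟨ρ2, C2, hρ2, hC2, h2⟩ := upper hPert hTayl hToQD hMv h
  have hn : Tendsto (fun t : ℂ => ‖t‖) (𝓝 0) (𝓝 0) := by
    have := (continuous_norm (E := ℂ)).tendsto 0
    rwa [norm_zero] at this
  have l1 : Tendsto (fun t : ℂ => (u 0 - C1 * ‖t‖) / (1 + C1 * ‖t‖)) (𝓝 0) (𝓝 (u 0)) := by
    have e : u 0 = (u 0 - C1 * 0) / (1 + C1 * 0) := by simp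
    conv => rhs; rw [e]
    exact (tendsto_const_nhds.sub (hn.const_mul C1)).div (tendsto_const_nhds.add (hn.const_mul C1))
      (by simp)
  have l2 : Tendsto (fun t : ℂ => u 0 * (1 + C2 * ‖t‖) + C2 * ‖t‖) (𝓝 0) (𝓝 (u 0)) := by
    have e : u 0 = u 0 * (1 + C2 * 0) + C2 * 0 := by simp
    conv => rhs; rw [e]
    exact ((tendsto_const_nhds.add (hn.const_mul C2)).const_mul (u 0)).add (hn.const_mul C2)
  refine tendsto_of_tendsto_of_tendsto_of_le_of_le' l1 l2 ?_ ?_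
  · filter_upwards [ball_mem_nhds (0 : ℂ) hρ1] with t ht
    rw [div_le_iff₀ (by positivity)]
    exact h1 t ht
  · filter_upwards [ball_mem_nhds (0 : ℂ) hρ2] with t ht
    exact h2 t ht

end

end Pool.Agent.TNP
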