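import Pool.Agent.TNP.Stmts

/-!
# DCTM: the mean of the `L¹` norm over small circles
-/

open scoped ContDiff Topology ComplexConjugate
open Set Metric MeasureTheory Filter

namespace Pool.Agent.TNP

noncomputable section

namespace DCTM_

/-- mean of the norm of a polynomial -/
def mn (q p s : ℂ) (r : ℝ) : ℝ := Real.circleAverage (fun t : ℂ => ‖q + t * p + t ^ 2 * s‖) 0 r

theorem le_mn (q p s : ℂ) (r : ℝ) : ‖q‖ ≤ mn q p s r := by
  have hc : Continuous (fun t : ℂ => q + t * p + t ^ 2 * s) := by fun_prop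
  have hd : Differentiable ℂ (fun t : ℂ => q + t * p + t ^ 2 * s) := by fun_prop
  have h1 : Real.circleAverage (fun t : ℂ => q + t * p + t ^ 2 * s) 0 r = q := by
    have h := DiffContOnCl.circleAverage (R := r) (c := 0) (f := fun t : ℂ => q + t * p + t ^ 2 * s)
      hd.diffContOnCl
    rw [h]
    simp
  have h2 : ‖Real.circleAverage (fun t : ℂ => q + t * p + t ^ 2 * s) 0 r‖ ≤ mn q p s r := by
    unfold mn
    rw [Real.circleAverage_def, Real.circleAverage_def, norm_smul, smul_eq_mul]
    have h3 : ‖(2 * Real.pi)⁻¹‖ = (2 * Real.pi)⁻¹ := by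
      rw [Real.norm_of_nonneg (by positivity)]
    rw [h3]
    exact mul_le_mul_of_nonneg_left
      (intervalIntegral.norm_integral_le_integral_norm (by positivity)) (by positivity)
  rw [h1] at h2
  exact h2

end DCTM_

open DCTM_ in
theorem dctm_proof (hPtw : Stmt_Ptw) : Stmt_Dctm := by
  intro D q p s hD hq hp hs hne hpq η hη
  set vD : Measure ℂ := volume.restrict D with hvD
  -- integrability on the product
  have hint : ∀ r : ℝ, Integrable (Function.uncurry fun (θ : ℝ) (z : ℂ) =>
      ‖q z + circleMap 0 r θ * p z + circleMap 0 r θ ^ 2 * s z‖)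
      ((volume.restrict (Set.uIoc 0 (2 * Real.pi))).prod vD) := by
    intro r
    have hf : IsFiniteMeasure (volume.restrict (Set.uIoc 0 (2 * Real.pi)) : Measure ℝ) := by
      refine ⟨?_⟩
      rw [Measure.restrict_apply_univ, Set.uIoc_of_le (by positivity)]
      exact measure_Ioc_lt_top
    have h1 : Integrable (fun x : ℝ × ℂ => q x.2)
        ((volume.restrict (Set.uIoc 0 (2 * Real.pi))).prod vD) := Integrable.comp_snd hq _
    have h2 : Integrable (fun x : ℝ × ℂ => p x.2)
        ((volume.restrict (Set.uIoc 0 (2 * Real.pi))).prod vD) := Integrable.comp_snd hp _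
    have h3 : Integrable (fun x : ℝ × ℂ => s x.2)
        ((volume.restrict (Set.uIoc 0 (2 * Real.pi))).prod vD) := Integrable.comp_snd hs _
    have hcm : Continuous (fun x : ℝ × ℂ => circleMap 0 r x.1) :=
      (continuous_circleMap 0 r).comp continuous_fst
    have h4 : Integrable (fun x : ℝ × ℂ => circleMap 0 r x.1 * p x.2)
        ((volume.restrict (Set.uIoc 0 (2 * Real.pi))).prod vD) := by
      refine h2.bdd_mul (c := |r|) hcm.aestronglyMeasurable ?_
      filter_upwards with x
      simp
    have h5 : Integrable (fun x : ℝ × ℂ => circleMap 0 r x.1 ^ 2 * s x.2)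
        ((volume.restrict (Set.uIoc 0 (2 * Real.pi))).prod vD) := by
      refine h3.bdd_mul (c := |r| ^ 2) (hcm.pow 2).aestronglyMeasurable ?_
      filter_upwards with x
      simp
    exact ((h1.add h4).add h5).norm
  -- Fubini
  have hfub : ∀ r : ℝ, Real.circleAverage
      (fun t : ℂ => ∫ z in D, ‖q z + t * p z + t ^ 2 * s z‖) 0 r =
        ∫ z in D, mn (q z) (p z) (s z) r := by
    intro r
    unfold mn
    rw [Real.circleAverage_def]
    simp only [Real.circleAverage_def, smul_eq_mul]
    rw [integral_const_mul]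
    congr 1
    exact intervalIntegral_integral_swap (hint r)
  have hmint : ∀ r : ℝ, Integrable (fun z => mn (q z) (p z) (s z) r) vD := by
    intro r
    unfold mn
    simp only [Real.circleAverage_def, smul_eq_mul]
    refine Integrable.const_mul ?_ _
    have h := (hint r).integral_prod_right
    refine h.congr ?_
    filter_upwards with z
    rw [intervalIntegral.integral_of_le (by positivity), Set.uIoc_of_le (by positivity)]
    rfl
  -- dominated convergence
  have hlim : Tendsto (fun r : ℝ => ∫ z in D, (mn (q z) (p z) (s z) r - ‖q z‖) / r ^ 2)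
      (𝓝[>] 0) (𝓝 (∫ z in D, ‖p z‖ ^ 2 / (4 * ‖q z‖))) := by
    refine tendsto_integral_filter_of_dominated_convergence
      (fun z => ‖p z‖ ^ 2 / ‖q z‖ + ‖s z‖) ?_ ?_ ?_ ?_
    · filter_upwards with r
      exact (((hmint r).sub hq.norm).div_const _).aestronglyMeasurable
    · filter_upwards [self_mem_nhdsWithin] with r hr
      have hr' : 0 < r := hr
      filter_upwards [hne] with z hz
      have h1 := (hPtw (q z) (p z) (s z) hz).1 r hr'
      have h2 := le_mn (q z) (p z) (s z) r
      have hr2 : 0 < r ^ 2 := by positivity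
      have h3 : 0 ≤ (mn (q z) (p z) (s z) r - ‖q z‖) / r ^ 2 :=
        div_nonneg (by linarith) hr2.le
      rw [Real.norm_of_nonneg h3, div_le_iff₀ hr2]
      have h4 : 0 < ‖q z‖ := norm_pos_iff.mpr hz
      have h5 : ‖p z‖ ^ 2 / (2 * ‖q z‖) ≤ ‖p z‖ ^ 2 / ‖q z‖ := by
        apply div_le_div_of_nonneg_left (by positivity) h4
        linarith
      have h6 : mn (q z) (p z) (s z) r ≤
          ‖q z‖ + r ^ 2 * (‖p z‖ ^ 2 / (2 * ‖q z‖) + ‖s z‖) := h1
      nlinarith [mul_le_mul_of_nonneg_left h5 hr2.le]
    · exact Integrable.add hpq hs.norm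
    · filter_upwards [hne] with z hz
      exact (hPtw (q z) (p z) (s z) hz).2
  have hI : ∫ z in D, ‖p z‖ ^ 2 / (4 * ‖q z‖) = (∫ z in D, ‖p z‖ ^ 2 / ‖q z‖) / 4 := by
    rw [← integral_div]
    congr 1
    funext z
    rw [div_div, mul_comm 4]
  rw [hI] at hlim
  have hev := hlim.eventually_lt_const (lt_add_of_pos_right _ hη)
  rw [eventually_nhdsWithin_iff] at hev
  obtain ⟨r0, hr0, h⟩ := Metric.eventually_nhds_iff.mp hev
  refine ⟨r0, hr0, fun r hr hrr => ?_⟩
  have h1 := h (y := r) (by rw [Real.dist_eq, sub_zero, abs_of_pos hr]; exact hrr) hr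
  have hr2 : 0 < r ^ 2 := by positivity
  rw [integral_div, integral_sub (hmint r) hq.norm, div_lt_iff₀ hr2] at h1
  rw [hfub]
  linarith

end

end Pool.Agent.TNP
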