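import Pool.Agent.TNP.Stmts

/-!
# TNP, module DUAL: the bilinear Riesz representation
-/

open scoped ContDiff Topology ComplexConjugate
open Set Metric MeasureTheory Filter

namespace Pool.Agent.TNP

noncomputable section

theorem dual_proof : Stmt_Dual := by
  intro S ℓ
  set h : Lp ℂ 2 (volume.restrict S.D) := (InnerProductSpace.toDual ℂ _).symm ℓ with hh
  have hn : ‖h‖ = ‖ℓ‖ := LinearIsometryEquiv.norm_map _ _
  have hr : ∀ f, ℓ f = inner ℂ h f := fun f =>
    (InnerProductSpace.toDual_symm_apply (x := f) (y := ℓ)).symm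
  have hm : MemLp (h : ℂ → ℂ) 2 (volume.restrict S.D) := Lp.memLp h
  refine ⟨fun z => conj ((h : ℂ → ℂ) z), MemLp.star hm, fun f => ?_, ?_⟩
  · rw [hr f, L2.inner_def]
    refine integral_congr_ae (Eventually.of_forall fun z => ?_)
    simp only [RCLike.inner_apply]
    exact mul_comm _ _
  · rw [← hn]
    have h1 : (inner ℂ h h : ℂ) = ((‖h‖ ^ 2 : ℝ) : ℂ) := by
      rw [inner_self_eq_norm_sq_to_K]
      norm_cast
    rw [L2.inner_def] at h1
    have h2 : ∫ z in S.D, (inner ℂ (h z) (h z) : ℂ) =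
        ((∫ z in S.D, ‖conj ((h : ℂ → ℂ) z)‖ ^ 2 : ℝ) : ℂ) := by
      rw [← integral_complex_ofReal]
      refine integral_congr_ae (Eventually.of_forall fun z => ?_)
      simp only
      rw [inner_self_eq_norm_sq_to_K]
      simp
    rw [h2] at h1
    exact_mod_cast h1

end

end Pool.Agent.TNP
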