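import Pool.Agent.TNP.Cont

/-!
# TNP, module EXTR: existence of extremal quadratic differentials
-/

open scoped ContDiff Topology ComplexConjugate
open Set Metric MeasureTheory Filter

namespace Pool.Agent.TNP

noncomputable section

namespace EXTR_

/-- Bounded decreasing sequences of closed convex sets in a Hilbert space have a common point. -/
theorem convex_inter {E : Type*} [NormedAddCommGroup E] [InnerProductSpace ℝ E] [CompleteSpace E]
    (C : ℕ → Set E) (hanti : Antitone C) (hne : ∀ n, (C n).Nonempty)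
    (hcl : ∀ n, IsClosed (C n)) (hcx : ∀ n, Convex ℝ (C n)) (R : ℝ)
    (hR : ∀ n, ∀ x ∈ C n, ‖x‖ ≤ R) : ∃ x, ∀ n, x ∈ C n := by
  have h1 : ∀ n, ∃ v ∈ C n, ∀ w ∈ C n, ‖v‖ ≤ ‖w‖ := by
    intro n
    obtain ⟨v, hv, hv2⟩ := exists_norm_eq_iInf_of_complete_convex (hne n)
      (hcl n).isComplete (hcx n) (0 : E)
    refine ⟨v, hv, fun w hw => ?_⟩
    have h2 : ‖(0 : E) - v‖ ≤ ‖(0 : E) - w‖ := by
      rw [hv2]
      exact ciInf_le ⟨0, by rintro _ ⟨y, rfl⟩; exact norm_nonneg _⟩ (⟨w, hw⟩ : C n)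
    simpa using h2
  choose f hf hmin using h1
  have hmono : Monotone fun n => ‖f n‖ ^ 2 := by
    intro n m hnm
    exact pow_le_pow_left₀ (norm_nonneg _) (hmin n _ (hanti hnm (hf m))) 2
  have hbdd : BddAbove (range fun n => ‖f n‖ ^ 2) := by
    refine ⟨R ^ 2, ?_⟩
    rintro _ ⟨n, rfl⟩
    exact pow_le_pow_left₀ (norm_nonneg _) (hR n _ (hf n)) 2
  have hlim := tendsto_atTop_ciSup hmono hbdd
  have hc : CauchySeq fun n => ‖f n‖ ^ 2 := hlim.cauchySeq
  have key : ∀ n m, n ≤ m → ‖f n - f m‖ ^ 2 ≤ 2 * (‖f m‖ ^ 2 - ‖f n‖ ^ 2) := by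
    intro n m hnm
    have hmid : (1 / 2 : ℝ) • f n + (1 / 2 : ℝ) • f m ∈ C n :=
      hcx n (hf n) (hanti hnm (hf m)) (by norm_num) (by norm_num) (by norm_num)
    have h2 := hmin n _ hmid
    have h3 : ‖(1 / 2 : ℝ) • f n + (1 / 2 : ℝ) • f m‖ = (1 / 2) * ‖f n + f m‖ := by
      rw [← smul_add, norm_smul]
      norm_num
    rw [h3] at h2
    have h4 := parallelogram_law_with_norm ℝ (f n) (f m)
    have h5 : ‖f n‖ ^ 2 ≤ ((1 / 2) * ‖f n + f m‖) ^ 2 := pow_le_pow_left₀ (norm_nonneg _) h2 2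
    nlinarith
  have hcau : CauchySeq f := by
    rw [Metric.cauchySeq_iff'] at hc ⊢
    intro ε hε
    obtain ⟨N, hN⟩ := hc (ε ^ 2 / 2) (by positivity)
    refine ⟨N, fun n hn => ?_⟩
    have h2 := hN n hn
    rw [Real.dist_eq] at h2
    have h3 := key N n hn
    have h4 : ‖f N - f n‖ ^ 2 < ε ^ 2 := by
      have := le_abs_self (‖f n‖ ^ 2 - ‖f N‖ ^ 2)
      linarith
    rw [dist_comm, dist_eq_norm]
    exact lt_of_pow_lt_pow_left₀ 2 hε.le h4
  obtain ⟨x, hx⟩ := cauchySeq_tendsto_of_complete hcau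
  refine ⟨x, fun n => (hcl n).mem_of_tendsto hx ?_⟩
  filter_upwards [eventually_ge_atTop n] with m hm
  exact hanti hm (hf m)

variable {S : Surf}

/-- the pairing with a square integrable function is continuous -/
theorem cont_pair {g : ℂ → ℂ} (hg : L2 S g) :
    ∃ ℓ : Lp ℂ 2 (volume.restrict S.D) →L[ℂ] ℂ, ∀ f : Lp ℂ 2 (volume.restrict S.D),
      ℓ f = ∫ z in S.D, g z * (f : ℂ → ℂ) z := by
  have hg' : MemLp (fun z => conj (g z)) 2 (volume.restrict S.D) := MemLp.star hg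
  refine ⟨innerSL ℂ hg'.toLp, fun f => ?_⟩
  rw [innerSL_apply_apply, L2.inner_def]
  refine integral_congr_ae ?_
  filter_upwards [hg'.coeFn_toLp] with z hz
  rw [hz]
  simp [mul_comm]

/-- the `L¹` norm is continuous -/
theorem cont_norm : Continuous fun f : Lp ℂ 2 (volume.restrict S.D) =>
    ∫ z in S.D, ‖(f : ℂ → ℂ) z‖ := by
  have h2 : ∀ f : Lp ℂ 2 (volume.restrict S.D), ∫ z in S.D, ‖(f : ℂ → ℂ) z‖ ≤
      Real.sqrt (volume.real S.D) * ‖f‖ := by
    intro f
    have hf : MemLp (fun z => (f : ℂ → ℂ) z) 2 (volume.restrict S.D) := Lp.memLp f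
    have h3 := eLpNorm_le_eLpNorm_mul_rpow_measure_univ (μ := volume.restrict S.D)
      (p := 1) (q := 2) (by norm_num) hf.1
    have h4 : ∫ z in S.D, ‖(f : ℂ → ℂ) z‖ = (eLpNorm (f : ℂ → ℂ) 1 (volume.restrict S.D)).toReal := by
      rw [eLpNorm_one_eq_lintegral_enorm, integral_norm_eq_lintegral_enorm hf.1]
    rw [h4]
    have h5 : (eLpNorm (f : ℂ → ℂ) 2 (volume.restrict S.D) *
        (volume.restrict S.D) univ ^ (1 / (1 : ENNReal).toReal - 1 / (2 : ENNReal).toReal)) ≠ ⊤ := by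
      refine ENNReal.mul_ne_top hf.2.ne ?_
      refine ENNReal.rpow_ne_top_of_nonneg (by norm_num) (measure_ne_top _ _)
    refine (ENNReal.toReal_mono h5 h3).trans ?_
    rw [ENNReal.toReal_mul, Lp.norm_def, mul_comm]
    refine le_of_eq ?_
    congr 1
    rw [← ENNReal.toReal_rpow, Measure.restrict_apply_univ, Real.sqrt_eq_rpow]
    norm_num
    rfl
  refine Metric.continuous_iff.mpr fun f ε hε => ?_
  set B := Real.sqrt (volume.real S.D) with hB
  have hB0 : 0 ≤ B := Real.sqrt_nonneg _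
  refine ⟨ε / (B + 1), by positivity, fun g hg => ?_⟩
  have hi : ∀ f : Lp ℂ 2 (volume.restrict S.D), IntegrableOn (fun z => ‖(f : ℂ → ℂ) z‖) S.D :=
    fun f => (MemLp.integrable (by norm_num) (Lp.memLp f)).norm
  have h3 : |(∫ z in S.D, ‖(g : ℂ → ℂ) z‖) - ∫ z in S.D, ‖(f : ℂ → ℂ) z‖| ≤
      ∫ z in S.D, ‖((g - f : Lp ℂ 2 (volume.restrict S.D)) : ℂ → ℂ) z‖ := by
    rw [← integral_sub (hi g) (hi f)]
    refine (abs_integral_le_integral_abs).trans ?_
    refine integral_mono_ae ((hi g).sub (hi f)).abs (hi _) ?_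
    filter_upwards [Lp.coeFn_sub g f] with z hz
    rw [hz]
    exact abs_norm_sub_norm_le _ _
  rw [Real.dist_eq]
  refine (h3.trans (h2 _)).trans_lt ?_
  rw [dist_eq_norm, lt_div_iff₀ (by positivity)] at hg
  have := norm_nonneg (g - f)
  nlinarith

end EXTR_

open EXTR_ CONT_

theorem extr_proof (hMv : Stmt_Mv) (hToQD : Stmt_ToQD) (hOfQD : Stmt_OfQD) : Stmt_Extr := by
  intro S κ hκ hF
  classical
  have hκ2 : L2 S κ := hκ.L2
  obtain ⟨M, hM⟩ := hκ.bdd
  obtain ⟨C, hC0, hl2⟩ := l2_le hToQD hMv S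
  have hd : ∀ z : ℂ, dz (fun z : ℂ => z) z = 1 := by
    intro z
    have : dz (fun z : ℂ => z) z = deriv (fun z : ℂ => z) z := dz_holo differentiableAt_id
    rw [this]
    simp
  have hL2q : ∀ q, IsQD S q → L2 S q := fun q hq => (bd_of_cont S hq.sm.cont).L2
  -- weak equation
  have hweak : ∀ q, IsQD S q → ∀ χ, VF S χ → ∫ z in S.D, q z * db χ z = 0 := by
    intro q hq χ hχ
    have := (hOfQD S S (fun z => z) (fun _ => 0) (qc_id S) q hq).2.1 χ hχ
    rw [← this]
    refine integral_congr_ae (Eventually.of_forall fun z => ?_)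
    simp only [Aop, Aab, dz_const, hd]
    ring
  have hback : ∀ k : ℂ → ℂ, L2 S k → (∀ χ, VF S χ → ∫ z in S.D, k z * db χ z = 0) →
      ∃ q, IsQD S q ∧ ∀ᵐ z ∂(volume.restrict S.D), k z = q z := by
    intro k hk hw
    obtain ⟨q, hq, hae⟩ := hToQD S S (fun z => z) (fun _ => 0) (qc_id S) k hk.int (by
      intro χ hχ
      refine Eq.trans ?_ (hw χ hχ)
      refine integral_congr_ae (Eventually.of_forall fun z => ?_)
      simp only [Aop, Aab, dz_const]
      ring)
    refine ⟨q, hq, ?_⟩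
    filter_upwards [hae] with z hz
    rw [hz, hd]
    ring
  -- upper bound of the pairing
  have hup : ∀ q, IsQD S q → ‖∫ z in S.D, κ z * q z‖ ≤ M * ∫ z in S.D, ‖q z‖ := by
    intro q hq
    exact norm_int_le hM (hL2q q hq).int
  have hbdd : BddAbove {x : ℝ | ∃ q : ℂ → ℂ, IsQD S q ∧ ∫ z in S.D, ‖q z‖ = 1 ∧
      x = ‖∫ z in S.D, κ z * q z‖} := by
    refine ⟨M, ?_⟩
    rintro x ⟨q, hq, h1, rfl⟩
    have := hup q hq
    rwa [h1, mul_one] at this
  have hleF : ∀ q, IsQD S q → ∫ z in S.D, ‖q z‖ = 1 → ‖∫ z in S.D, κ z * q z‖ ≤ F S κ :=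
    fun q hq h1 => le_csSup hbdd ⟨q, hq, h1, rfl⟩
  -- the convex sets
  obtain ⟨ℓ, hℓ⟩ := cont_pair hκ2
  let E := Lp ℂ 2 (volume.restrict S.D)
  let Cn : ℕ → Set E := fun n => {f : E | (∀ χ, VF S χ → ∫ z in S.D, (f : ℂ → ℂ) z * db χ z = 0) ∧
    ∫ z in S.D, ‖(f : ℂ → ℂ) z‖ ≤ 1 ∧ F S κ - 1 / ((n : ℝ) + 1) ≤ (ℓ f).re}
  have hanti : Antitone Cn := by
    intro n m hnm f hf
    refine ⟨hf.1, hf.2.1, ?_⟩
    have h1 : (1 : ℝ) / ((m : ℝ) + 1) ≤ 1 / ((n : ℝ) + 1) := by
      have : (n : ℝ) ≤ m := by exact_mod_cast hnm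
      exact one_div_le_one_div_of_le (by positivity) (by linarith)
    have := hf.2.2
    linarith
  have hL2db : ∀ χ, VF S χ → L2 S (db χ) := fun χ hχ => (bd_of_cont S hχ.sm.db.cont).L2
  have hsm : ∀ (c : ℂ) (k : ℂ → ℂ), L2 S k → L2 S (fun z => c * k z) := fun c k hk =>
    MemLp.const_mul hk c
  have hne : ∀ n, (Cn n).Nonempty := by
    intro n
    have hn : (0 : ℝ) < 1 / ((n : ℝ) + 1) := by positivity
    have hnon : {x : ℝ | ∃ q : ℂ → ℂ, IsQD S q ∧ ∫ z in S.D, ‖q z‖ = 1 ∧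
        x = ‖∫ z in S.D, κ z * q z‖}.Nonempty := by
      by_contra h
      rw [Set.not_nonempty_iff_eq_empty] at h
      have : F S κ = 0 := by rw [F, h, Real.sSup_empty]
      linarith
    obtain ⟨x, ⟨q, hq, h1, rfl⟩, hx⟩ := exists_lt_of_lt_csSup hnon
      (show F S κ - 1 / ((n : ℝ) + 1) < F S κ by linarith)
    set I := ∫ z in S.D, κ z * q z with hI
    obtain ⟨c, hc1, hc2⟩ : ∃ c : ℂ, ‖c‖ = 1 ∧ c * I = ‖I‖ := by
      by_cases h0 : I = 0
      · exact ⟨1, by simp, by simp [h0]⟩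
      · refine ⟨‖I‖ / I, ?_, ?_⟩
        · rw [norm_div, Complex.norm_real, norm_norm, div_self (norm_ne_zero_iff.mpr h0)]
        · field_simp
    have hcq : L2 S (fun z => c * q z) := hsm c q (hL2q q hq)
    refine ⟨hcq.toLp, ?_, ?_, ?_⟩
    · intro χ hχ
      have h2 : ∫ z in S.D, ((hcq.toLp : E) : ℂ → ℂ) z * db χ z =
          ∫ z in S.D, c * (q z * db χ z) := by
        refine integral_congr_ae ?_
        filter_upwards [hcq.coeFn_toLp] with z hz
        rw [hz]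
        ring
      rw [h2, integral_const_mul, hweak q hq χ hχ, mul_zero]
    · have h2 : ∫ z in S.D, ‖((hcq.toLp : E) : ℂ → ℂ) z‖ = ∫ z in S.D, ‖q z‖ := by
        refine integral_congr_ae ?_
        filter_upwards [hcq.coeFn_toLp] with z hz
        rw [hz, norm_mul, hc1, one_mul]
      rw [h2, h1]
    · have h2 : ℓ hcq.toLp = c * I := by
        rw [hℓ, hI, ← integral_const_mul]
        refine integral_congr_ae ?_
        filter_upwards [hcq.coeFn_toLp] with z hz
        rw [hz]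
        ring
      rw [h2, hc2, Complex.ofReal_re]
      exact hx.le
  have hcl : ∀ n, IsClosed (Cn n) := by
    intro n
    have e : Cn n = (⋂ χ : {χ // VF S χ}, {f : E | ∫ z in S.D, (f : ℂ → ℂ) z * db χ z = 0}) ∩
        ({f : E | ∫ z in S.D, ‖(f : ℂ → ℂ) z‖ ≤ 1} ∩
          {f : E | F S κ - 1 / ((n : ℝ) + 1) ≤ (ℓ f).re}) := by
      ext f
      simp only [Cn, mem_ofPred_eq, mem_inter_iff, mem_iInter, Subtype.forall]
    rw [e]
    refine IsClosed.inter (isClosed_iInter fun χ => ?_) (IsClosed.inter ?_ ?_)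
    · obtain ⟨m, hm⟩ := cont_pair (hL2db χ.1 χ.2)
      have e2 : {f : E | ∫ z in S.D, (f : ℂ → ℂ) z * db χ z = 0} = {f : E | m f = 0} := by
        ext f
        simp only [mem_ofPred_eq]
        rw [hm f]
        have : ∫ z in S.D, (f : ℂ → ℂ) z * db χ z = ∫ z in S.D, db χ z * (f : ℂ → ℂ) z :=
          integral_congr_ae (Eventually.of_forall fun z => mul_comm _ _)
        rw [this]
      rw [e2]
      exact isClosed_eq m.continuous continuous_const
    · exact isClosed_le cont_norm continuous_const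
    · exact isClosed_le continuous_const (Complex.continuous_re.comp ℓ.continuous)
  have hcx : ∀ n, Convex ℝ (Cn n) := by
    intro n f hf g hg a b ha hb hab
    have hfi : ∀ f : E, L2 S (f : ℂ → ℂ) := fun f => Lp.memLp f
    have hae : ((a • f + b • g : E) : ℂ → ℂ) =ᵐ[volume.restrict S.D]
        fun z => (a : ℂ) * (f : ℂ → ℂ) z + (b : ℂ) * (g : ℂ → ℂ) z := by
      filter_upwards [Lp.coeFn_add (a • f) (b • g), Lp.coeFn_smul a f, Lp.coeFn_smul b g]
        with z h1 h2 h3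
      rw [h1, Pi.add_apply, h2, h3]
      simp
    refine ⟨fun χ hχ => ?_, ?_, ?_⟩
    · have h1 : ∫ z in S.D, ((a • f + b • g : E) : ℂ → ℂ) z * db χ z =
          ∫ z in S.D, ((a : ℂ) * ((f : ℂ → ℂ) z * db χ z) + (b : ℂ) * ((g : ℂ → ℂ) z * db χ z)) := by
        refine integral_congr_ae ?_
        filter_upwards [hae] with z hz
        rw [hz]
        ring
      rw [h1, integral_add, integral_const_mul, integral_const_mul, hf.1 χ hχ, hg.1 χ hχ]
      · ring
      · exact ((hfi f).int_mul (hL2db χ hχ)).const_mul _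
      · exact ((hfi g).int_mul (hL2db χ hχ)).const_mul _
    · have h1 : ∫ z in S.D, ‖((a • f + b • g : E) : ℂ → ℂ) z‖ ≤
          ∫ z in S.D, (a * ‖(f : ℂ → ℂ) z‖ + b * ‖(g : ℂ → ℂ) z‖) := by
        refine integral_mono_ae (hfi _).int.norm
          (((hfi f).int.norm.const_mul a).add ((hfi g).int.norm.const_mul b)) ?_
        filter_upwards [hae] with z hz
        rw [hz]
        refine (norm_add_le _ _).trans (le_of_eq ?_)
        rw [norm_mul, norm_mul, Complex.norm_of_nonneg ha, Complex.norm_of_nonneg hb]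
      refine h1.trans ?_
      rw [integral_add ((hfi f).int.norm.const_mul a) ((hfi g).int.norm.const_mul b),
        integral_const_mul, integral_const_mul]
      have h2 := hf.2.1
      have h3 := hg.2.1
      nlinarith
    · have h1 : (ℓ (a • f + b • g)).re = a * (ℓ f).re + b * (ℓ g).re := by
        rw [map_add]
        have e1 : ∀ (r : ℝ) (x : E), ℓ (r • x) = (r : ℂ) * ℓ x := by
          intro r x
          have : (r • x : E) = (r : ℂ) • x := (RCLike.real_smul_eq_coe_smul (K := ℂ) r x)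
          rw [this, map_smul, smul_eq_mul]
        rw [e1, e1]
        simp
      rw [h1]
      have h2 := hf.2.2
      have h3 := hg.2.2
      have : F S κ - 1 / ((n : ℝ) + 1) = a * (F S κ - 1 / ((n : ℝ) + 1)) +
        b * (F S κ - 1 / ((n : ℝ) + 1)) := by rw [← add_mul, hab, one_mul]
      rw [this]
      exact add_le_add (mul_le_mul_of_nonneg_left h2 ha) (mul_le_mul_of_nonneg_left h3 hb)
  have hR : ∀ n, ∀ f ∈ Cn n, ‖f‖ ≤ C := by
    intro n f hf
    have h1 := hl2 (f : ℂ → ℂ) (Lp.memLp f) hf.1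
    have h2 : ‖f‖ ^ 2 = ∫ z in S.D, ‖(f : ℂ → ℂ) z‖ ^ 2 := by
      have h3 : (inner ℂ f f : ℂ) = ((‖f‖ ^ 2 : ℝ) : ℂ) := by
        rw [inner_self_eq_norm_sq_to_K]
        norm_cast
      rw [L2.inner_def] at h3
      have h4 : ∫ z in S.D, (inner ℂ ((f : ℂ → ℂ) z) ((f : ℂ → ℂ) z) : ℂ) =
          ((∫ z in S.D, ‖(f : ℂ → ℂ) z‖ ^ 2 : ℝ) : ℂ) := by
        rw [← integral_complex_ofReal]
        refine integral_congr_ae (Eventually.of_forall fun z => ?_)
        simp only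
        rw [inner_self_eq_norm_sq_to_K]
        simp
      rw [h4] at h3
      exact_mod_cast h3.symm
    rw [← h2, Real.sqrt_sq (norm_nonneg _)] at h1
    refine h1.trans ?_
    have := hf.2.1
    nlinarith
  obtain ⟨f, hf⟩ := convex_inter Cn hanti hne hcl hcx C hR
  obtain ⟨q, hq, hae⟩ := hback f (Lp.memLp f) (hf 0).1
  have hn1 : ∫ z in S.D, ‖q z‖ ≤ 1 := by
    have : ∫ z in S.D, ‖q z‖ = ∫ z in S.D, ‖(f : ℂ → ℂ) z‖ :=
      integral_congr_ae (by filter_upwards [hae] with z hz; rw [hz])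
    rw [this]
    exact (hf 0).2.1
  have hℓq : ℓ f = ∫ z in S.D, κ z * q z := by
    rw [hℓ]
    exact integral_congr_ae (by filter_upwards [hae] with z hz; rw [hz])
  have hge : F S κ ≤ ‖∫ z in S.D, κ z * q z‖ := by
    rw [← hℓq]
    refine le_trans ?_ (Complex.re_le_norm _)
    have h1 : ∀ n : ℕ, F S κ - 1 / ((n : ℝ) + 1) ≤ (ℓ f).re := fun n => (hf n).2.2
    have h2 : Tendsto (fun n : ℕ => F S κ - 1 / ((n : ℝ) + 1)) atTop (𝓝 (F S κ - 0)) :=
      tendsto_const_nhds.sub tendsto_one_div_add_atTop_nhds_zero_nat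
    rw [sub_zero] at h2
    exact le_of_tendsto' h2 h1
  set m := ∫ z in S.D, ‖q z‖ with hm
  have hm0 : 0 < m := by
    have h0 : 0 ≤ m := integral_nonneg fun z => norm_nonneg _
    rcases h0.eq_or_lt with h | h
    · have := hup q hq
      rw [← hm, ← h, mul_zero] at this
      linarith
    · exact h
  have hq' : IsQD S (fun z => ((m⁻¹ : ℝ) : ℂ) * q z) := by
    refine ⟨hq.hol.const_mul _, fun g hg z hz => ?_⟩
    rw [hq.aut g hg z hz]
    ring
  have hn' : ∫ z in S.D, ‖((m⁻¹ : ℝ) : ℂ) * q z‖ = 1 := by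
    have : ∫ z in S.D, ‖((m⁻¹ : ℝ) : ℂ) * q z‖ = ∫ z in S.D, m⁻¹ * ‖q z‖ := by
      refine integral_congr_ae (Eventually.of_forall fun z => ?_)
      exact (norm_mul _ _).trans (by rw [Complex.norm_of_nonneg (by positivity)])
    rw [this, integral_const_mul, ← hm, inv_mul_cancel₀ hm0.ne']
  refine ⟨_, hq', hn', le_antisymm (hleF _ hq' hn') ?_⟩
  have h1 : ∫ z in S.D, κ z * (((m⁻¹ : ℝ) : ℂ) * q z) =
      ((m⁻¹ : ℝ) : ℂ) * ∫ z in S.D, κ z * q z := by
    rw [← integral_const_mul]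
    exact integral_congr_ae (Eventually.of_forall fun z => by simp only; ring)
  rw [h1, norm_mul, Complex.norm_of_nonneg (by positivity)]
  refine hge.trans ?_
  have h2 : 1 ≤ m⁻¹ := (one_le_inv₀ hm0).mpr hn1
  nlinarith [norm_nonneg (∫ z in S.D, κ z * q z)]

end

end Pool.Agent.TNP
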