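import Pool.Agent.TNP.Stmts

/-!
# TNP, module FIRST: the first order equation
-/

open scoped ContDiff Topology ComplexConjugate
open Set Metric MeasureTheory Filter

namespace Pool.Agent.TNP

noncomputable section

namespace First_

variable {S : Surf}

/-- The Stokes identity for `μ q χ`. -/
theorem stok (hStok : Stmt_Stok) {μ q χ : ℂ → ℂ} (hμ : SB S μ) (hq : IsQD S q) (hχ : VF S χ) :
    ∫ z in S.D, (dz μ z * (q z * χ z) + μ z * (deriv q z * χ z + q z * dz χ z)) = 0 := by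
  have s2 : Sm (fun x => μ x * q x * χ x) := (hμ.sm.mul hq.sm).mul hχ.sm
  have a2 : Aut S 0 1 (fun x => μ x * q x * χ x) := by
    have := (hμ.aut.mul hq.aut').mul hχ.aut
    norm_num at this
    exact this
  have i2 := (hStok S _ s2).1 a2
  rw [← i2]
  refine setIntegral_congr_fun S.meas fun z hz => ?_
  have hz' := S.D_sub hz
  have h1 := hμ.sm.diff hz'
  have h2 := hq.sm.diff hz'
  have h3 := hχ.sm.diff hz'
  have h4 : DifferentiableAt ℝ (fun x => μ x * q x) z := h1.mul h2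
  have h5 : DifferentiableAt ℂ q z := hq.hol.differentiableAt (isOpen_Hp.mem_nhds hz')
  change dz μ z * (q z * χ z) + μ z * (deriv q z * χ z + q z * dz χ z) =
    dz (fun x => μ x * q x * χ x) z
  rw [dz_mul h4 h3, dz_mul h1 h2, dz_holo h5]
  ring

theorem main_le {P1 P2 : ℂ} {C δ : ℝ} (hδ : 0 < δ)
    (h : ∀ t ∈ ball (0 : ℂ) δ, ‖t * P1 + t ^ 2 * P2‖ ≤ C * ‖t‖ ^ 3) : ‖P1‖ ≤ 0 := by
  have h1 : Tendsto (fun s : ℝ => s * (‖P2‖ + C * s)) (𝓝[>] 0) (𝓝 (0 * (‖P2‖ + C * 0))) := by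
    refine Tendsto.mono_left ?_ nhdsWithin_le_nhds
    exact Continuous.tendsto (f := fun s : ℝ => s * (‖P2‖ + C * s)) (by fun_prop) 0
  rw [zero_mul] at h1
  refine ge_of_tendsto h1 ?_
  have h2 : Ioo (0 : ℝ) δ ∈ 𝓝[>] (0 : ℝ) := Ioo_mem_nhdsGT hδ
  filter_upwards [h2] with s hs
  have hs0 : 0 < s := hs.1
  have hn : ‖(s : ℂ)‖ = s := by
    rw [Complex.norm_real, Real.norm_of_nonneg hs0.le]
  have h3 := h (s : ℂ) (by rw [mem_ball_zero_iff, hn]; exact hs.2)
  have h4 : (s : ℂ) * P1 = ((s : ℂ) * P1 + (s : ℂ) ^ 2 * P2) - (s : ℂ) ^ 2 * P2 := by ring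
  have h5 : s * ‖P1‖ ≤ C * s ^ 3 + s ^ 2 * ‖P2‖ := by
    calc s * ‖P1‖ = ‖(s : ℂ) * P1‖ := by rw [norm_mul, hn]
      _ ≤ ‖(s : ℂ) * P1 + (s : ℂ) ^ 2 * P2‖ + ‖(s : ℂ) ^ 2 * P2‖ := by
          have h7 := norm_sub_le ((s : ℂ) * P1 + (s : ℂ) ^ 2 * P2) ((s : ℂ) ^ 2 * P2)
          rwa [← h4] at h7
      _ ≤ C * s ^ 3 + s ^ 2 * ‖P2‖ := by
          rw [norm_mul ((s : ℂ) ^ 2), norm_pow, hn]
          rw [hn] at h3
          linarith
  have h6 : s * ‖P1‖ ≤ s * (s * (‖P2‖ + C * s)) := by nlinarith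
  exact le_of_mul_le_mul_left h6 hs0

/-- a small polynomial inequality -/
theorem zero_of_le {P1 P2 : ℂ} {C δ : ℝ} (hδ : 0 < δ)
    (h : ∀ t ∈ ball (0 : ℂ) δ, ‖t * P1 + t ^ 2 * P2‖ ≤ C * ‖t‖ ^ 3) : P1 = 0 := by
  have goal : ‖P1‖ = 0 := by
    refine le_antisymm ?_ (norm_nonneg _)
    exact main_le hδ h
  exact norm_eq_zero.mp goal

end First_

open First_ in
theorem first_proof (hStok : Stmt_Stok) : Stmt_First := by
  intro S δ M μ a1 a2 b1 b2 hδ hμ ha1 ha2 hb1 hb2 hT q hq χ hχ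
  have hA : ContinuousOn (fun z => q z * χ z) Hp := hq.sm.cont.mul hχ.sm.cont
  have hdq : ContinuousOn (deriv q) Hp := by
    have h1 : DifferentiableOn ℂ (deriv q) Hp := hq.hol.deriv isOpen_Hp
    exact h1.continuousOn
  have hB : ContinuousOn (fun z => deriv q z * χ z + q z * dz χ z) Hp :=
    (hdq.mul hχ.sm.cont).add (hq.sm.cont.mul hχ.sm.dz.cont)
  obtain ⟨A, hAdef⟩ : ∃ A : ℂ → ℂ, A = fun z => q z * χ z := ⟨_, rfl⟩
  obtain ⟨B, hBdef⟩ : ∃ B : ℂ → ℂ, B = fun z => deriv q z * χ z + q z * dz χ z := ⟨_, rfl⟩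
  rw [← hAdef] at hA
  rw [← hBdef] at hB
  obtain ⟨CA, hCA0, hCA⟩ := bdd_of_cont S hA
  obtain ⟨CB, hCB0, hCB⟩ := bdd_of_cont S hB
  have key : ∫ z in S.D, (b1 z * A z + a1 z * B z) = 0 := by
    refine zero_of_le (P2 := ∫ z in S.D, (b2 z * A z + a2 z * B z))
      (C := M * (CA + CB) * (volume.restrict S.D).real univ) hδ ?_
    intro t ht
    have hst := stok hStok (hμ t ht) hq hχ
    have hst' : ∫ z in S.D, (dz (μ t) z * A z + μ t z * B z) = 0 := by
      rw [hAdef, hBdef]; exact hst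
    have c1 : ContinuousOn (fun z => dz (μ t) z * A z + μ t z * B z) Hp :=
      ((hμ t ht).sm.dz.cont.mul hA).add ((hμ t ht).sm.cont.mul hB)
    have c2 : ContinuousOn (fun z => b1 z * A z + a1 z * B z) Hp :=
      (hb1.mul hA).add (ha1.mul hB)
    have c3 : ContinuousOn (fun z => b2 z * A z + a2 z * B z) Hp :=
      (hb2.mul hA).add (ha2.mul hB)
    have e1 : t * ∫ z in S.D, (b1 z * A z + a1 z * B z) =
        ∫ z in S.D, t * (b1 z * A z + a1 z * B z) := (integral_const_mul _ _).symm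
    have e2 : t ^ 2 * ∫ z in S.D, (b2 z * A z + a2 z * B z) =
        ∫ z in S.D, t ^ 2 * (b2 z * A z + a2 z * B z) := (integral_const_mul _ _).symm
    have i2 : IntegrableOn (fun z => t * (b1 z * A z + a1 z * B z)) S.D :=
      integrableOn_of_cont S (continuousOn_const.mul c2)
    have i3 : IntegrableOn (fun z => t ^ 2 * (b2 z * A z + a2 z * B z)) S.D :=
      integrableOn_of_cont S (continuousOn_const.mul c3)
    have e3 : t * (∫ z in S.D, (b1 z * A z + a1 z * B z)) +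
        t ^ 2 * ∫ z in S.D, (b2 z * A z + a2 z * B z) =
        ∫ z in S.D, (t * (b1 z * A z + a1 z * B z) + t ^ 2 * (b2 z * A z + a2 z * B z) -
          (dz (μ t) z * A z + μ t z * B z)) := by
      have i4 : IntegrableOn (fun z => t * (b1 z * A z + a1 z * B z) +
          t ^ 2 * (b2 z * A z + a2 z * B z)) S.D := i2.add i3
      rw [integral_sub i4 (integrableOn_of_cont S c1), hst', sub_zero,
        integral_add i2 i3, e1, e2]
    rw [e3]
    have e4 : M * (CA + CB) * (volume.restrict S.D).real univ * ‖t‖ ^ 3 =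
        (M * ‖t‖ ^ 3 * (CA + CB)) * (volume.restrict S.D).real univ := by ring
    rw [e4]
    refine norm_integral_le_of_norm_le_const ?_
    refine (ae_restrict_iff' S.meas).mpr (Eventually.of_forall fun z hz => ?_)
    have hzK := S.subD hz
    obtain ⟨k1, k2⟩ := hT t ht z hzK
    have e5 : t * (b1 z * A z + a1 z * B z) + t ^ 2 * (b2 z * A z + a2 z * B z) -
          (dz (μ t) z * A z + μ t z * B z) =
        -((dz (μ t) z - t * b1 z - t ^ 2 * b2 z) * A z +
          (μ t z - t * a1 z - t ^ 2 * a2 z) * B z) := by ring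
    rw [e5, norm_neg]
    refine (norm_add_le _ _).trans ?_
    rw [norm_mul, norm_mul]
    have n1 := mul_le_mul k2 (hCA z hzK) (norm_nonneg _) ((norm_nonneg _).trans k2)
    have n2 := mul_le_mul k1 (hCB z hzK) (norm_nonneg _) ((norm_nonneg _).trans k1)
    calc _ ≤ M * ‖t‖ ^ 3 * CA + M * ‖t‖ ^ 3 * CB := add_le_add n1 n2
      _ = M * ‖t‖ ^ 3 * (CA + CB) := by ring
  have cL : ContinuousOn (fun z => q z * (a1 z * dz χ z - b1 z * χ z)) Hp :=
    hq.sm.cont.mul ((ha1.mul hχ.sm.dz.cont).sub (hb1.mul hχ.sm.cont))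
  have cR : ContinuousOn (fun z => a1 z * (2 * q z * dz χ z + deriv q z * χ z)) Hp :=
    ha1.mul (((continuousOn_const.mul hq.sm.cont).mul hχ.sm.dz.cont).add (hdq.mul hχ.sm.cont))
  rw [← sub_eq_zero, ← integral_sub (integrableOn_of_cont S cL) (integrableOn_of_cont S cR)]
  have e6 : ∫ z in S.D, (q z * (a1 z * dz χ z - b1 z * χ z) -
      a1 z * (2 * q z * dz χ z + deriv q z * χ z)) =
      ∫ z in S.D, -(b1 z * A z + a1 z * B z) := by
    refine integral_congr_ae (Eventually.of_forall fun z => ?_)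
    simp only [hAdef, hBdef]
    ring
  rw [e6, integral_neg, key, neg_zero]

end

end Pool.Agent.TNP
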