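import Pool.Agent.TNP.Stmts

/-!
# TNP / FLAT: the inequality in the flat metric of a quadratic differential
-/

open scoped ContDiff Topology ComplexConjugate
open Set Metric MeasureTheory Filter

namespace Pool.Agent.TNP

noncomputable section

namespace FLAT_

variable {S : Surf} {q χ : ℂ → ℂ}

theorem wt_aut (hq : IsQD S q) (ε : ℝ) : Aut S 1 1 (fun z => (wt q ε z : ℂ)) := by
  intro g hg z hz
  have hd := norm_den_pos g hz
  have hz' : 0 < z.im := hz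
  have h1 : ‖q (mob g z)‖ ^ 2 + ε ^ 2 * ((mob g z).im ^ 4)⁻¹ =
      (‖den g z‖ ^ 4) ^ 2 * (‖q z‖ ^ 2 + ε ^ 2 * (z.im ^ 4)⁻¹) := by
    rw [hq.aut g hg z hz, mob_im g hz, norm_mul, norm_pow]
    field_simp
  have h2 : wt q ε (mob g z) = ‖den g z‖ ^ 4 * wt q ε z := by
    unfold wt
    rw [h1, Real.sqrt_mul (by positivity), Real.sqrt_sq (by positivity)]
  have h3 : den g z ^ 2 * conj (den g z) ^ 2 = ((‖den g z‖ ^ 4 : ℝ) : ℂ) := by
    rw [← mul_pow, Complex.mul_conj, Complex.normSq_eq_norm_sq]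
    push_cast
    ring
  show ((wt q ε (mob g z) : ℝ) : ℂ) = _
  rw [h2]
  have e1 : (2 * 1 : ℤ) = ((2 : ℕ) : ℤ) := by norm_num
  rw [e1, zpow_natCast, zpow_natCast, h3]
  push_cast
  ring

/-- the regularised integrand (times 4) -/
def fn (q χ : ℂ → ℂ) (ε : ℝ) (z : ℂ) : ℝ :=
  4 * (wt q ε z * ‖dz χ z + dz (fun w => (wt q ε w : ℂ)) z / wt q ε z * χ z‖ ^ 2)

theorem cont_re {f : ℂ → ℝ} (h : Sm (fun z => (f z : ℂ))) : ContinuousOn f Hp := by
  have h1 : ContinuousOn (fun z => ((f z : ℂ)).re) Hp := Complex.continuous_re.comp_continuousOn h.cont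
  exact h1

theorem cont_ofReal {f : ℂ → ℝ} (h : Sm (fun z => (f z : ℂ))) : ContinuousOn (fun z => (f z : ℂ)) Hp :=
  h.cont

theorem fn_cont (hLapQ : Stmt_LapQ) (hq : IsQD S q) (hχ : VF S χ) {ε : ℝ} (hε : 0 < ε) :
    ContinuousOn (fn q χ ε) Hp := by
  obtain ⟨h1, h2, -, -⟩ := hLapQ q ε hq.hol hε
  unfold fn
  refine continuousOn_const.mul ((cont_re h1).mul ?_)
  refine ContinuousOn.pow ?_ 2
  refine ContinuousOn.norm ?_
  refine hχ.sm.dz.cont.add (((h1.dz.cont).div h1.cont ?_).mul hχ.sm.cont)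
  intro z hz
  have := h2 z hz
  exact_mod_cast this.ne'

theorem fn_int_le (hBoch : Stmt_Boch) (hLapQ : Stmt_LapQ) (hq : IsQD S q) (hχ : VF S χ) {ε : ℝ}
    (hε : 0 < ε) : ∫ z in S.D, fn q χ ε z ≤ 4 * ∫ z in S.D, wt q ε z * ‖db χ z‖ ^ 2 := by
  obtain ⟨h1, h2, h3, -⟩ := hLapQ q ε hq.hol hε
  have hb := hBoch S (wt q ε) χ h2 h1 (wt_aut hq ε) hχ
  rw [hb]
  have h4 : ∫ z in S.D, fn q χ ε z =
      4 * ∫ z in S.D, wt q ε z * ‖dz χ z + dz (fun w => (wt q ε w : ℂ)) z / wt q ε z * χ z‖ ^ 2 := by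
    unfold fn
    rw [integral_const_mul]
  rw [h4]
  refine mul_le_mul_of_nonneg_left ?_ (by norm_num)
  have hc1 : ContinuousOn (fun z => wt q ε z *
      ‖dz χ z + dz (fun w => (wt q ε w : ℂ)) z / wt q ε z * χ z‖ ^ 2) Hp := by
    have := (fn_cont hLapQ hq hχ hε).div_const 4
    refine this.congr fun z _ => ?_
    simp only [fn]
    ring
  have hlog : Sm (fun z => (Real.log (wt q ε z) : ℂ)) := by
    have : ContDiffOn ℝ ∞ (fun z => Real.log (wt q ε z)) Hp := by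
      have h5 : ContDiffOn ℝ ∞ (fun z => wt q ε z) Hp := by
        have := (Complex.reCLM.contDiff (n := ∞)).comp_contDiffOn h1
        exact this
      exact h5.log fun z hz => (h2 z hz).ne'
    exact (Complex.ofRealCLM.contDiff (n := ∞)).comp_contDiffOn this
  have hc2 : ContinuousOn (fun z => wt q ε z *
      (dz (db (fun w => (Real.log (wt q ε w) : ℂ))) z).re * ‖χ z‖ ^ 2) Hp := by
    refine ((cont_re h1).mul ?_).mul (hχ.sm.cont.norm.pow 2)
    exact Complex.continuous_re.comp_continuousOn hlog.db.dz.cont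
  refine setIntegral_mono_on (integrableOn_of_cont S hc1)
    (integrableOn_of_cont S (hc1.add hc2)) S.meas ?_
  intro z hz
  have hz' := S.D_sub hz
  have := mul_nonneg (mul_nonneg (h2 z hz').le (h3 z hz')) (sq_nonneg ‖χ z‖)
  linarith

theorem lim_fn (hLapQ : Stmt_LapQ) (hq : IsQD S q) {z : ℂ} (hz : z ∈ Hp) (h0 : q z ≠ 0) :
    Tendsto (fun n : ℕ => fn q χ (1 / ((n : ℝ) + 1)) z) atTop
      (𝓝 (‖2 * q z * dz χ z + deriv q z * χ z‖ ^ 2 / ‖q z‖)) := by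
  have hq0 : 0 < ‖q z‖ := norm_pos_iff.2 h0
  let h : ℝ → ℝ := fun ε => 4 * (Real.sqrt (‖q z‖ ^ 2 + ε ^ 2 * (z.im ^ 4)⁻¹) *
    ‖dz χ z + (conj (q z) * deriv q z + 2 * Complex.I * (ε ^ 2 * (z.im ^ 5)⁻¹ : ℝ)) /
      (2 * (‖q z‖ ^ 2 + ε ^ 2 * (z.im ^ 4)⁻¹ : ℝ)) * χ z‖ ^ 2)
  have e1 : ∀ n : ℕ, fn q χ (1 / ((n : ℝ) + 1)) z = h (1 / ((n : ℝ) + 1)) := by
    intro n
    have hp : (0 : ℝ) < 1 / ((n : ℝ) + 1) := by positivity
    obtain ⟨-, -, -, h4⟩ := hLapQ q _ hq.hol hp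
    simp only [fn, h]
    rw [h4 z hz]
    rfl
  have hc : ContinuousAt h 0 := by
    have hden : (2 * ((‖q z‖ ^ 2 + (0 : ℝ) ^ 2 * (z.im ^ 4)⁻¹ : ℝ) : ℂ)) ≠ 0 := by
      have : ((‖q z‖ ^ 2 + (0 : ℝ) ^ 2 * (z.im ^ 4)⁻¹ : ℝ) : ℂ) ≠ 0 := by
        have h1 : (‖q z‖ ^ 2 + (0 : ℝ) ^ 2 * (z.im ^ 4)⁻¹ : ℝ) ≠ 0 := by
          have : (‖q z‖ ^ 2 + (0 : ℝ) ^ 2 * (z.im ^ 4)⁻¹ : ℝ) = ‖q z‖ ^ 2 := by ring
          rw [this]
          positivity
        exact_mod_cast h1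
      exact mul_ne_zero two_ne_zero this
    have c1 : ContinuousAt (fun ε : ℝ => ‖q z‖ ^ 2 + ε ^ 2 * (z.im ^ 4)⁻¹) 0 := by fun_prop
    have c2 : ContinuousAt (fun ε : ℝ => conj (q z) * deriv q z +
        2 * Complex.I * ((ε ^ 2 * (z.im ^ 5)⁻¹ : ℝ) : ℂ)) 0 := by fun_prop
    have c3 : ContinuousAt (fun ε : ℝ =>
        (2 * ((‖q z‖ ^ 2 + ε ^ 2 * (z.im ^ 4)⁻¹ : ℝ) : ℂ))) 0 := by fun_prop
    have c4 := c2.div c3 hden
    exact continuousAt_const.mul ((Real.continuous_sqrt.continuousAt.comp c1).mul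
      (((continuousAt_const.add (c4.mul continuousAt_const)).norm).pow 2))
  have hv : h 0 = ‖2 * q z * dz χ z + deriv q z * χ z‖ ^ 2 / ‖q z‖ := by
    simp only [h]
    have e2 : (‖q z‖ ^ 2 + (0 : ℝ) ^ 2 * (z.im ^ 4)⁻¹ : ℝ) = ‖q z‖ ^ 2 := by ring
    have e3 : ((0 : ℝ) ^ 2 * (z.im ^ 5)⁻¹ : ℝ) = 0 := by ring
    rw [e2, e3, Real.sqrt_sq hq0.le]
    have e4 : ((‖q z‖ ^ 2 : ℝ) : ℂ) = q z * conj (q z) := by
      rw [Complex.mul_conj, Complex.normSq_eq_norm_sq]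
    have hcq : conj (q z) ≠ 0 := by simpa using h0
    have e5 : dz χ z + (conj (q z) * deriv q z + 2 * Complex.I * ((0 : ℝ) : ℂ)) /
        (2 * ((‖q z‖ ^ 2 : ℝ) : ℂ)) * χ z = (2 * q z * dz χ z + deriv q z * χ z) / (2 * q z) := by
      rw [e4]
      push_cast
      field_simp
      ring
    rw [e5, norm_div, norm_mul, Complex.norm_two, div_pow]
    field_simp
    ring
  have ht : Tendsto (fun n : ℕ => h (1 / ((n : ℝ) + 1))) atTop (𝓝 (h 0)) :=
    hc.tendsto.comp tendsto_one_div_add_atTop_nhds_zero_nat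
  rw [hv] at ht
  exact ht.congr fun n => (e1 n).symm

theorem lim_rhs (hq : IsQD S q) (hχ : VF S χ) :
    Tendsto (fun n : ℕ => 4 * ∫ z in S.D, wt q (1 / ((n : ℝ) + 1)) z * ‖db χ z‖ ^ 2) atTop
      (𝓝 (4 * ∫ z in S.D, ‖q z‖ * ‖db χ z‖ ^ 2)) := by
  refine Tendsto.const_mul 4 ?_
  have hwc : ∀ ε : ℝ, ContinuousOn (wt q ε) Hp := by
    intro ε
    unfold wt
    refine ContinuousOn.sqrt (((hq.sm.cont.norm).pow 2).add (continuousOn_const.mul ?_))
    refine ContinuousOn.inv₀ ((Complex.continuous_im.continuousOn).pow 4) ?_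
    intro z hz
    have : 0 < z.im := hz
    positivity
  have hdc : ContinuousOn (fun z => ‖db χ z‖ ^ 2) Hp := hχ.sm.db.cont.norm.pow 2
  refine tendsto_integral_of_dominated_convergence (fun z => wt q 1 z * ‖db χ z‖ ^ 2)
    (fun n => aesm_of_cont S ((hwc _).mul hdc)) (integrableOn_of_cont S ((hwc 1).mul hdc)) ?_ ?_
  · intro n
    refine Eventually.of_forall fun z => ?_
    have h0 : 0 ≤ wt q (1 / ((n : ℝ) + 1)) z := Real.sqrt_nonneg _
    rw [Real.norm_of_nonneg (mul_nonneg h0 (sq_nonneg _))]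
    refine mul_le_mul_of_nonneg_right ?_ (sq_nonneg _)
    unfold wt
    refine Real.sqrt_le_sqrt ?_
    have h1 : (1 / ((n : ℝ) + 1)) ^ 2 ≤ 1 ^ 2 := by
      refine pow_le_pow_left₀ (by positivity) ?_ 2
      rw [div_le_one (by positivity)]
      have : (0 : ℝ) ≤ n := n.cast_nonneg
      linarith
    have h2 : (0 : ℝ) ≤ (z.im ^ 4)⁻¹ := by positivity
    have := mul_le_mul_of_nonneg_right h1 h2
    linarith
  · refine Eventually.of_forall fun z => ?_
    refine Tendsto.mul_const _ ?_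
    have c1 : Continuous (fun ε : ℝ => wt q ε z) := by
      unfold wt
      fun_prop
    have h1 : wt q 0 z = ‖q z‖ := by
      unfold wt
      have : ‖q z‖ ^ 2 + (0 : ℝ) ^ 2 * (z.im ^ 4)⁻¹ = ‖q z‖ ^ 2 := by ring
      rw [this, Real.sqrt_sq (norm_nonneg _)]
    have h2 : Tendsto (fun n : ℕ => wt q (1 / ((n : ℝ) + 1)) z) atTop (𝓝 (wt q 0 z)) :=
      (c1.tendsto 0).comp tendsto_one_div_add_atTop_nhds_zero_nat
    rw [h1] at h2
    exact h2

end FLAT_

open FLAT_ in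
theorem flat_proof (hBoch : Stmt_Boch) (hLapQ : Stmt_LapQ) : Stmt_Flat := by
  intro S q χ hq hχ
  set G : ℂ → ℝ := fun z => ‖2 * q z * dz χ z + deriv q z * χ z‖ ^ 2 / ‖q z‖ with hG
  have hG0 : ∀ z, 0 ≤ G z := fun z => div_nonneg (sq_nonneg _) (norm_nonneg _)
  have hdq : ContinuousOn (deriv q) Hp := (hq.hol.deriv isOpen_Hp).continuousOn
  have hGm : AEStronglyMeasurable G (volume.restrict S.D) := by
    have h1 : ContinuousOn (fun z => ‖2 * q z * dz χ z + deriv q z * χ z‖ ^ 2) Hp :=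
      ((((continuousOn_const.mul hq.sm.cont).mul hχ.sm.dz.cont).add
        (hdq.mul hχ.sm.cont)).norm).pow 2
    have h2 : AEMeasurable (fun z => ‖2 * q z * dz χ z + deriv q z * χ z‖ ^ 2)
        (volume.restrict S.D) := (aesm_of_cont S h1).aemeasurable
    have h3 : AEMeasurable (fun z => ‖q z‖) (volume.restrict S.D) :=
      (aesm_of_cont S hq.sm.cont.norm).aemeasurable
    exact (h2.div h3).aestronglyMeasurable
  set R : ℝ := 4 * ∫ z in S.D, ‖q z‖ * ‖db χ z‖ ^ 2 with hR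
  let ep : ℕ → ℝ := fun n => 1 / ((n : ℝ) + 1)
  have hep : ∀ n, 0 < ep n := fun n => by
    show (0 : ℝ) < 1 / ((n : ℝ) + 1)
    positivity
  have hfn0 : ∀ n z, 0 ≤ fn q χ (ep n) z := fun n z =>
    mul_nonneg (by norm_num) (mul_nonneg (Real.sqrt_nonneg _) (sq_nonneg _))
  have hfi : ∀ n, IntegrableOn (fn q χ (ep n)) S.D := fun n =>
    integrableOn_of_cont S (fn_cont hLapQ hq hχ (hep n))
  have key : ∫⁻ z in S.D, ENNReal.ofReal (G z) ≤ ENNReal.ofReal R := by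
    have h1 : ∫⁻ z in S.D, ENNReal.ofReal (G z) ≤
        ∫⁻ z in S.D, liminf (fun n => ENNReal.ofReal (fn q χ (ep n) z)) atTop := by
      refine setLIntegral_mono' S.meas ?_
      intro z hz
      by_cases h0 : q z = 0
      · have : G z = 0 := by
          simp only [hG, h0, norm_zero, div_zero]
        rw [this, ENNReal.ofReal_zero]
        exact zero_le
      · have ht := (ENNReal.continuous_ofReal.tendsto _).comp
          (lim_fn (χ := χ) hLapQ hq (S.D_sub hz) h0)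
        have := ht.liminf_eq
        exact this.ge
    have h2 : ∫⁻ z in S.D, liminf (fun n => ENNReal.ofReal (fn q χ (ep n) z)) atTop ≤
        liminf (fun n => ∫⁻ z in S.D, ENNReal.ofReal (fn q χ (ep n) z)) atTop :=
      lintegral_liminf_le' fun n => (hfi n).aestronglyMeasurable.aemeasurable.ennreal_ofReal
    have h3 : ∀ n, ∫⁻ z in S.D, ENNReal.ofReal (fn q χ (ep n) z) =
        ENNReal.ofReal (∫ z in S.D, fn q χ (ep n) z) := fun n =>
      (ofReal_integral_eq_lintegral_ofReal (hfi n) (Eventually.of_forall (hfn0 n))).symm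
    have h4 : liminf (fun n => ∫⁻ z in S.D, ENNReal.ofReal (fn q χ (ep n) z)) atTop ≤
        liminf (fun n : ℕ => ENNReal.ofReal
          (4 * ∫ z in S.D, wt q (1 / ((n : ℝ) + 1)) z * ‖db χ z‖ ^ 2)) atTop := by
      have h6 : ∀ n : ℕ, ∫⁻ z in S.D, ENNReal.ofReal (fn q χ (ep n) z) ≤ ENNReal.ofReal
          (4 * ∫ z in S.D, wt q (1 / ((n : ℝ) + 1)) z * ‖db χ z‖ ^ 2) := by
        intro n
        rw [h3]
        exact ENNReal.ofReal_le_ofReal (fn_int_le hBoch hLapQ hq hχ (hep n))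
      exact liminf_le_liminf (Eventually.of_forall h6)
    have h5 : liminf (fun n : ℕ => ENNReal.ofReal
        (4 * ∫ z in S.D, wt q (1 / ((n : ℝ) + 1)) z * ‖db χ z‖ ^ 2)) atTop = ENNReal.ofReal R :=
      ((ENNReal.continuous_ofReal.tendsto _).comp (lim_rhs hq hχ)).liminf_eq
    exact h1.trans (h2.trans (h4.trans h5.le))
  have hint : IntegrableOn G S.D := by
    refine ⟨hGm, ?_⟩
    rw [hasFiniteIntegral_iff_ofReal (Eventually.of_forall hG0)]
    exact key.trans_lt ENNReal.ofReal_lt_top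
  refine ⟨hint, ?_⟩
  have hR0 : 0 ≤ R := mul_nonneg (by norm_num)
    (integral_nonneg fun z => mul_nonneg (norm_nonneg _) (sq_nonneg _))
  rw [integral_eq_lintegral_of_nonneg_ae (Eventually.of_forall hG0) hGm]
  exact ENNReal.toReal_le_of_le_ofReal hR0 key

end

end Pool.Agent.TNP
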