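import Pool.Agent.TNP.Stmts

/-!
# TNP / IND: the integral over `X` does not depend on the fundamental set
-/

open scoped ContDiff Topology ComplexConjugate
open Set Metric MeasureTheory Filter

namespace Pool.Agent.TNP

noncomputable section

theorem ind_proof (hUnf : Stmt_Unf) (hCnt : Stmt_Cnt) : Stmt_Ind := by
  intro S D' L hD' hL hLH hD'L hfund f hf haut
  obtain ⟨T, hT1, hT2⟩ := S.exists_T S.compact S.sub hL hLH
  have hint : Integrable (D'.indicator f) :=
    (integrable_indicator_iff hD').2 ((hf L hL hLH).mono_set hD'L)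
  have h0 : ∀ z, z ∉ L → D'.indicator f z = 0 := fun z hz =>
    Set.indicator_of_notMem (fun h => hz (hD'L h)) f
  obtain ⟨-, h1⟩ := hUnf S L (D'.indicator f) hL hLH hint h0 T hT1
    fun g hg z hz hgz => hT2 g hg z (S.subD hz) hgz
  rw [integral_indicator hD'] at h1
  have h2 : ∀ z ∈ S.D, ∑ g ∈ T, D'.indicator f (mob g z) * (((‖den g z‖ ^ 4)⁻¹ : ℝ) : ℂ) =
      (mult S : ℂ) * f z := by
    intro z hz
    have hzH := S.D_sub hz
    have h3 := hCnt S D' hfund z hzH T hT1 fun g hg hgz => hT2 g hg z (S.subD hz) (hD'L hgz)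
    rw [← h3, Finset.sum_mul]
    refine Finset.sum_congr rfl fun g hg => ?_
    by_cases hm : mob g z ∈ D'
    · rw [Set.indicator_of_mem hm, Set.indicator_of_mem hm, haut g (hT1 g hg) z hzH]
      have hd := norm_den_pos g hzH
      have e1 : (2 * 1 : ℤ) = ((2 : ℕ) : ℤ) := by norm_num
      have h4 : den g z ^ 2 * conj (den g z) ^ 2 = ((‖den g z‖ ^ 4 : ℝ) : ℂ) := by
        rw [← mul_pow, Complex.mul_conj, Complex.normSq_eq_norm_sq]
        push_cast
        ring
      rw [e1, zpow_natCast, zpow_natCast, h4]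
      have h5 : ((‖den g z‖ ^ 4 : ℝ) : ℂ) * (((‖den g z‖ ^ 4)⁻¹ : ℝ) : ℂ) = 1 := by
        rw [← Complex.ofReal_mul, mul_inv_cancel₀ (by positivity), Complex.ofReal_one]
      linear_combination (f z) * h5
    · rw [Set.indicator_of_notMem hm, Set.indicator_of_notMem hm]
      ring
  have h6 : ∫ z in S.D, ∑ g ∈ T, D'.indicator f (mob g z) * (((‖den g z‖ ^ 4)⁻¹ : ℝ) : ℂ) =
      (mult S : ℂ) * ∫ z in S.D, f z := by
    rw [← integral_const_mul]
    exact setIntegral_congr_fun S.meas h2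
  rw [h6] at h1
  have hm : (mult S : ℂ) ≠ 0 := by
    have := mult_pos S
    exact_mod_cast this.ne'
  exact (mul_left_cancel₀ hm h1).symm

end

end Pool.Agent.TNP
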