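import Pool.Agent.TNP.Stmts

/-!
# LOC: charts have the local structure
-/

open scoped ContDiff Topology ComplexConjugate
open Set Metric MeasureTheory Filter

namespace Pool.Agent.TNP

noncomputable section

namespace LOC_

/-- the integral of `κ q` is bounded by the integral of `|q|` -/
theorem norm_int_le (S : Surf) {κ : ℂ → ℂ} {C : ℝ} (hC : ∀ z ∈ Hp, ‖κ z‖ ≤ C) {q : ℂ → ℂ}
    (hq : IsQD S q) : ‖∫ z in S.D, κ z * q z‖ ≤ C * ∫ z in S.D, ‖q z‖ := by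
  have hqi : IntegrableOn (fun z => ‖q z‖) S.D := (integrableOn_of_cont S hq.sm.cont).norm
  rw [← integral_const_mul]
  refine norm_integral_le_of_norm_le (hqi.const_mul C) ?_
  refine (ae_restrict_iff' S.meas).mpr (Eventually.of_forall fun z hz => ?_)
  rw [norm_mul]
  exact mul_le_mul_of_nonneg_right (hC z (S.D_sub hz)) (norm_nonneg _)

theorem bddAbove (S : Surf) {κ : ℂ → ℂ} {C : ℝ} (hC : ∀ z ∈ Hp, ‖κ z‖ ≤ C) :
    BddAbove {x : ℝ | ∃ q : ℂ → ℂ, IsQD S q ∧ ∫ z in S.D, ‖q z‖ = 1 ∧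
      x = ‖∫ z in S.D, κ z * q z‖} := by
  refine ⟨C, ?_⟩
  rintro x ⟨q, hq, h1, rfl⟩
  have h := norm_int_le S hC hq
  rw [h1, mul_one] at h
  exact h

theorem F_nonneg (S : Surf) (κ : ℂ → ℂ) : 0 ≤ F S κ := by
  apply Real.sSup_nonneg
  rintro x ⟨q, _, _, rfl⟩
  exact norm_nonneg _

theorem IsQD.const_mul {S : Surf} {q : ℂ → ℂ} (hq : IsQD S q) (c : ℂ) :
    IsQD S (fun z => c * q z) := by
  refine ⟨hq.hol.const_mul c, fun g hg z hz => ?_⟩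
  rw [hq.aut g hg z hz]
  ring

/-- the defining inequality of the norm -/
theorem le_F (S : Surf) {κ : ℂ → ℂ} (hb : ∃ C : ℝ, ∀ z ∈ Hp, ‖κ z‖ ≤ C) {q : ℂ → ℂ}
    (hq : IsQD S q) : ‖∫ z in S.D, κ z * q z‖ ≤ F S κ * ∫ z in S.D, ‖q z‖ := by
  obtain ⟨C, hC⟩ := hb
  have hN0 : 0 ≤ ∫ z in S.D, ‖q z‖ := integral_nonneg fun z => norm_nonneg _
  rcases hN0.eq_or_lt with h0 | hpos
  · have h := norm_int_le S hC hq
    rw [← h0, mul_zero] at h ⊢
    exact h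
  · set N := ∫ z in S.D, ‖q z‖ with hN
    have hc : ‖((N⁻¹ : ℝ) : ℂ)‖ = N⁻¹ := by
      rw [Complex.norm_real, Real.norm_of_nonneg (inv_nonneg.mpr hN0)]
    have h1 : ∫ z in S.D, ‖((N⁻¹ : ℝ) : ℂ) * q z‖ = 1 := by
      have : (fun z => ‖((N⁻¹ : ℝ) : ℂ) * q z‖) = fun z => N⁻¹ * ‖q z‖ := by
        funext z
        rw [norm_mul, hc]
      rw [this, integral_const_mul, ← hN, inv_mul_cancel₀ hpos.ne']
    have h2 : ‖∫ z in S.D, κ z * (((N⁻¹ : ℝ) : ℂ) * q z)‖ ≤ F S κ := by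
      unfold F
      exact le_csSup (bddAbove S hC) ⟨_, IsQD.const_mul hq _, h1, rfl⟩
    have h3 : (fun z => κ z * (((N⁻¹ : ℝ) : ℂ) * q z)) =
        fun z => ((N⁻¹ : ℝ) : ℂ) * (κ z * q z) := by
      funext z
      ring
    rw [h3, integral_const_mul, norm_mul, hc, inv_mul_le_iff₀ hpos] at h2
    linarith

/-- translation in the parameter -/
theorem shift_sm {t₀ : ℂ} {δ : ℝ} {f : ℂ → ℂ → ℂ}
    (h : ContDiffOn ℝ ∞ (fun p : ℂ × ℂ => f p.1 p.2) (ball t₀ δ ×ˢ Hp)) :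
    ContDiffOn ℝ ∞ (fun p : ℂ × ℂ => f (t₀ + p.1) p.2) (ball 0 δ ×ˢ Hp) := by
  have h1 : ContDiff ℝ ∞ (fun p : ℂ × ℂ => (t₀ + p.1, p.2)) :=
    (contDiff_const.add contDiff_fst).prodMk contDiff_snd
  refine ContDiffOn.comp (g := fun p : ℂ × ℂ => f p.1 p.2) h h1.contDiffOn ?_
  rintro ⟨s, z⟩ ⟨hs, hz⟩
  refine ⟨?_, hz⟩
  simpa [mem_ball, dist_eq_norm] using hs

theorem shift_hol {t₀ : ℂ} {δ : ℝ} {f : ℂ → ℂ} (h : DifferentiableOn ℂ f (ball t₀ δ)) :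
    DifferentiableOn ℂ (fun s => f (t₀ + s)) (ball 0 δ) := by
  refine DifferentiableOn.comp (g := f) h
    ((differentiable_const t₀).add differentiable_id).differentiableOn ?_
  intro s hs
  simpa [mem_ball, dist_eq_norm] using hs

end LOC_

open LOC_ in
theorem loc_proof (hOf : Stmt_OfQD) (hTo : Stmt_ToQD) (hSB : Stmt_QcSB) (hEx : Stmt_Extr) :
    Stmt_Loc := by
  intro X κ t₀ δ w μ ν hδ hκ hC
  have hmem : ∀ s ∈ ball (0 : ℂ) δ, t₀ + s ∈ ball t₀ δ := by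
    intro s hs
    simpa [mem_ball, dist_eq_norm] using hs
  have ht₀ : t₀ ∈ ball t₀ δ := mem_ball_self hδ
  have hw0 : ∀ z ∈ Hp, w t₀ =ᶠ[𝓝 z] fun x => x := by
    intro z hz
    filter_upwards [isOpen_Hp.mem_nhds hz] with x hx
    exact hC.center x hx
  have hdz : ∀ z ∈ Hp, dz (w t₀) z = 1 := by
    intro z hz
    rw [dz_congr (hw0 z hz), dz_holo (F := fun x => x) differentiableAt_id]
    exact deriv_id z
  have hdb : ∀ z ∈ Hp, db (w t₀) z = 0 := by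
    intro z hz
    rw [db_congr (hw0 z hz), db_holo (F := fun x => x) differentiableAt_id]
  refine
    { pos := hδ
      μ0 := ?_
      μSB := fun s hs => (hSB _ _ _ _ (hC.qc _ (hmem s hs))).1
      μlt := fun s hs => (hC.qc _ (hmem s hs)).lt
      μsm := shift_sm hC.μsm
      μhol := fun z hz => shift_hol (hC.μhol z hz)
      νsm := shift_sm hC.νsm
      νhol := fun z hz => shift_hol (hC.νhol z hz)
      nonneg := fun s _ => F_nonneg _ _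
      lower := ?_
      upper := ?_
      ext := ?_ }
  · intro z hz
    have h := (hC.qc t₀ ht₀).bel z hz
    rw [hdz z hz, hdb z hz, mul_one] at h
    simp only [add_zero]
    exact h.symm
  · intro s hs φ hφ hann
    obtain ⟨q, hq, hae⟩ := hTo _ _ _ _ (hC.qc _ (hmem s hs)) φ hφ.int hann
    obtain ⟨-, -, h3⟩ := hOf _ _ _ _ (hC.qc _ (hmem s hs)) q hq
    have h1 := le_F _ (hκ _ (hmem s hs)).bdd hq
    rw [h3, hC.pair _ (hmem s hs) q hq] at h1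
    have h4 : ∫ z in (X t₀).D, ν (t₀ + s) z * φ z =
        ∫ z in (X t₀).D, ν (t₀ + s) z * q (w (t₀ + s) z) * dz (w (t₀ + s)) z ^ 2 := by
      refine integral_congr_ae ?_
      filter_upwards [hae] with z hz
      rw [hz, mul_assoc]
    have h5 : ∫ z in (X t₀).D, ‖φ z‖ * (1 - ‖μ (t₀ + s) z‖ ^ 2) =
        ∫ z in (X t₀).D, ‖q (w (t₀ + s) z) * dz (w (t₀ + s)) z ^ 2‖ *
          (1 - ‖μ (t₀ + s) z‖ ^ 2) := by
      refine integral_congr_ae ?_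
      filter_upwards [hae] with z hz
      rw [hz]
    show ‖∫ z in (X t₀).D, ν (t₀ + s) z * φ z‖ ≤ F (X (t₀ + s)) (κ (t₀ + s)) *
      ∫ z in (X t₀).D, ‖φ z‖ * (1 - ‖μ (t₀ + s) z‖ ^ 2)
    rw [h4, h5]
    exact h1
  · intro s hs c hc0 hc
    have hc' : c < sSup {x : ℝ | ∃ q : ℂ → ℂ, IsQD (X (t₀ + s)) q ∧
      ∫ z in (X (t₀ + s)).D, ‖q z‖ = 1 ∧ x = ‖∫ z in (X (t₀ + s)).D, κ (t₀ + s) z * q z‖} := hc
    have hne : {x : ℝ | ∃ q : ℂ → ℂ, IsQD (X (t₀ + s)) q ∧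
      ∫ z in (X (t₀ + s)).D, ‖q z‖ = 1 ∧
        x = ‖∫ z in (X (t₀ + s)).D, κ (t₀ + s) z * q z‖}.Nonempty := by
      rw [nonempty_iff_ne_empty]
      intro he
      rw [he, Real.sSup_empty] at hc'
      linarith
    obtain ⟨x, ⟨q, hq, h1, rfl⟩, hx⟩ := exists_lt_of_lt_csSup hne hc'
    obtain ⟨h2, h3, h4⟩ := hOf _ _ _ _ (hC.qc _ (hmem s hs)) q hq
    refine ⟨fun z => q (w (t₀ + s) z) * dz (w (t₀ + s)) z ^ 2, (bd_of_cont _ h2.cont).L2, h3,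
      ?_, ?_⟩
    · show ∫ z in (X t₀).D, ‖q (w (t₀ + s) z) * dz (w (t₀ + s)) z ^ 2‖ *
          (1 - ‖μ (t₀ + s) z‖ ^ 2) = 1
      rw [← h4, h1]
    · rw [hC.pair _ (hmem s hs) q hq] at hx
      show c < ‖∫ z in (X t₀).D, ν (t₀ + s) z *
        (q (w (t₀ + s) z) * dz (w (t₀ + s)) z ^ 2)‖
      simp only [← mul_assoc]
      exact hx
  · intro hpos
    simp only [add_zero] at hpos ⊢
    have hb : Bd (X t₀) (κ t₀) := by
      have h := hκ t₀ ht₀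
      obtain ⟨C, hC'⟩ := h.bdd
      refine ⟨h.meas.mono_measure (Measure.restrict_mono_set _ (X t₀).D_sub), C,
        fun z hz => hC' z ((X t₀).D_sub hz)⟩
    obtain ⟨q, hq, h1, h2⟩ := hEx (X t₀) (κ t₀) hb hpos
    refine ⟨q, hq, h1, ?_⟩
    rw [← h2, hC.pair t₀ ht₀ q hq]
    congr 1
    refine setIntegral_congr_fun (X t₀).meas fun z hz => ?_
    have hz' := (X t₀).D_sub hz
    simp only [hdz z hz', hC.center z hz', one_pow, mul_one]

end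

end Pool.Agent.TNP
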