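import Pool.Agent.TNP.Stmts

/-!
# LOGL
-/

open scoped ContDiff Topology ComplexConjugate
open Set Metric MeasureTheory Filter

namespace Pool.Agent.TNP

noncomputable section

theorem logl_proof : Stmt_LogL := by
  intro m1 m2 M
  set A : ℝ := ‖m2‖ + |M| with hA
  set B : ℝ := ‖m1‖ + A with hB
  have hA0 : 0 ≤ A := by positivity
  have hB0 : 0 ≤ B := by positivity
  refine ⟨min 1 (1 / (2 * (B + 1))), |M| + A * (B + ‖m1‖) / 2 + B ^ 3, by positivity, ?_⟩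
  intro t ht l hl
  rw [mem_ball_zero_iff, lt_min_iff] at ht
  obtain ⟨ht1, ht2⟩ := ht
  have hT0 : 0 ≤ ‖t‖ := norm_nonneg t
  obtain ⟨s, rfl⟩ : ∃ s, l = 1 + s := ⟨l - 1, by ring⟩
  have hl' : ‖s - t * m1 - t ^ 2 * m2‖ ≤ |M| * ‖t‖ ^ 3 := by
    have h : 1 + s - 1 - t * m1 - t ^ 2 * m2 = s - t * m1 - t ^ 2 * m2 := by ring
    rw [h] at hl
    exact hl.trans (mul_le_mul_of_nonneg_right (le_abs_self M) (by positivity))
  -- first order
  have h1 : ‖s - t * m1‖ ≤ A * ‖t‖ ^ 2 := by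
    have h : s - t * m1 = (s - t * m1 - t ^ 2 * m2) + t ^ 2 * m2 := by ring
    rw [h]
    refine (norm_add_le _ _).trans ?_
    rw [norm_mul, norm_pow]
    have h2 : |M| * ‖t‖ ^ 3 ≤ |M| * ‖t‖ ^ 2 := by
      apply mul_le_mul_of_nonneg_left _ (abs_nonneg M)
      exact pow_le_pow_of_le_one hT0 ht1.le (by norm_num)
    have h3 : A * ‖t‖ ^ 2 = ‖m2‖ * ‖t‖ ^ 2 + |M| * ‖t‖ ^ 2 := by rw [hA]; ring
    rw [h3]
    linarith [mul_comm (‖t‖ ^ 2) ‖m2‖]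
  have h2 : ‖s‖ ≤ B * ‖t‖ := by
    have h : s = (s - t * m1) + t * m1 := by ring
    calc ‖s‖ = ‖(s - t * m1) + t * m1‖ := by rw [← h]
      _ ≤ ‖s - t * m1‖ + ‖t * m1‖ := norm_add_le _ _
      _ ≤ A * ‖t‖ ^ 2 + ‖t‖ * ‖m1‖ := by
        rw [norm_mul]
        linarith
      _ ≤ A * ‖t‖ + ‖t‖ * ‖m1‖ := by
        have : ‖t‖ ^ 2 ≤ ‖t‖ := by nlinarith
        nlinarith [mul_le_mul_of_nonneg_left this hA0]
      _ = B * ‖t‖ := by rw [hB]; ring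
  have h3 : ‖s‖ ≤ 1 / 2 := by
    refine h2.trans ?_
    rw [lt_div_iff₀ (by positivity)] at ht2
    nlinarith
  -- the logarithm
  have hlog : ‖Complex.log (1 + s) - (s - s ^ 2 / 2)‖ ≤ ‖s‖ ^ 3 := by
    have h := Complex.norm_log_sub_logTaylor_le 2 (z := s) (by linarith)
    have h4 : Complex.logTaylor (2 + 1) s = s - s ^ 2 / 2 := by
      rw [Complex.logTaylor_succ, Complex.logTaylor_succ, Complex.logTaylor_succ,
        Complex.logTaylor_zero]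
      simp
      ring
    rw [h4] at h
    refine h.trans ?_
    have h5 : (1 - ‖s‖)⁻¹ ≤ 2 := by
      rw [inv_le_comm₀ (by linarith) (by norm_num)]
      linarith
    have h6 : 0 ≤ ‖s‖ ^ 3 := by positivity
    have h7 : ‖s‖ ^ (2 + 1) * (1 - ‖s‖)⁻¹ ≤ ‖s‖ ^ 3 * 2 := mul_le_mul_of_nonneg_left h5 h6
    push_cast
    rw [div_le_iff₀ (by norm_num)]
    linarith
  have hne : (1 : ℂ) + s ≠ 0 := by
    intro h0
    have : s = -1 := by linear_combination h0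
    rw [this] at h3
    norm_num at h3
  refine ⟨hne, ?_⟩
  have hre : Real.log ‖1 + s‖ = (Complex.log (1 + s)).re := (Complex.log_re _).symm
  rw [hre]
  -- the difference
  have hs2 : ‖s ^ 2 - t ^ 2 * m1 ^ 2‖ ≤ A * (B + ‖m1‖) * ‖t‖ ^ 3 := by
    have h : s ^ 2 - t ^ 2 * m1 ^ 2 = (s - t * m1) * (s + t * m1) := by ring
    rw [h, norm_mul]
    have h4 : ‖s + t * m1‖ ≤ (B + ‖m1‖) * ‖t‖ := by
      refine (norm_add_le _ _).trans ?_
      rw [norm_mul]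
      linarith [mul_comm ‖t‖ ‖m1‖]
    calc ‖s - t * m1‖ * ‖s + t * m1‖ ≤ (A * ‖t‖ ^ 2) * ((B + ‖m1‖) * ‖t‖) :=
          mul_le_mul h1 h4 (norm_nonneg _) (by positivity)
      _ = _ := by ring
  have hs3 : ‖s‖ ^ 3 ≤ B ^ 3 * ‖t‖ ^ 3 := by
    rw [← mul_pow]
    exact pow_le_pow_left₀ (norm_nonneg _) h2 3
  have hd : ‖Complex.log (1 + s) - (t * m1 + t ^ 2 * (m2 - m1 ^ 2 / 2))‖ ≤
      (|M| + A * (B + ‖m1‖) / 2 + B ^ 3) * ‖t‖ ^ 3 := by
    have h : Complex.log (1 + s) - (t * m1 + t ^ 2 * (m2 - m1 ^ 2 / 2)) =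
        (Complex.log (1 + s) - (s - s ^ 2 / 2)) + (s - t * m1 - t ^ 2 * m2) -
          (1 / 2 : ℂ) * (s ^ 2 - t ^ 2 * m1 ^ 2) := by ring
    rw [h]
    refine (norm_sub_le _ _).trans ((add_le_add (norm_add_le _ _) le_rfl).trans ?_)
    rw [norm_mul]
    have h5 : ‖(1 / 2 : ℂ)‖ = 1 / 2 := by norm_num
    rw [h5]
    nlinarith
  have h9 := (Complex.abs_re_le_norm _).trans hd
  rw [Complex.sub_re] at h9
  linarith [neg_abs_le ((Complex.log (1 + s)).re - (t * m1 + t ^ 2 * (m2 - m1 ^ 2 / 2)).re)]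

end

end Pool.Agent.TNP
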