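import Pool.Agent.TNP.Stmts

/-!
# TNP: LOWB, the lower bound of the norm
-/

open scoped ContDiff Topology ComplexConjugate
open Set Metric MeasureTheory Filter

namespace Pool.Agent.TNP

namespace LOWB_

theorem final {u0 ut N l Y Z : ℝ} (hu0 : 0 < u0) (hut : 0 ≤ ut) (hl : 0 < l)
    (h : u0 * l ≤ ut * N) (hlog : Y ≤ Real.log l) (hN : N ≤ Z) :
    u0 * (1 + Y - (Z - 1)) ≤ ut := by
  have h1 : 0 < ut * N := lt_of_lt_of_le (mul_pos hu0 hl) h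
  have hNpos : 0 < N := by
    by_contra hc
    push Not at hc
    have : ut * N ≤ 0 := mul_nonpos_of_nonneg_of_nonpos hut hc
    linarith
  have h2 : Real.log N ≤ N - 1 := Real.log_le_sub_one_of_pos hNpos
  have h3 : Real.log (l / N) + 1 ≤ l / N := by
    have := Real.add_one_le_exp (Real.log (l / N))
    rwa [Real.exp_log (div_pos hl hNpos)] at this
  rw [Real.log_div hl.ne' hNpos.ne'] at h3
  have h4 : 1 + Y - (Z - 1) ≤ l / N := by linarith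
  calc u0 * (1 + Y - (Z - 1)) ≤ u0 * (l / N) := mul_le_mul_of_nonneg_left h4 hu0.le
    _ = u0 * l / N := by ring
    _ ≤ ut * N / N := div_le_div_of_nonneg_right h hNpos.le
    _ = ut := by field_simp

variable {S : Surf}

theorem P_int {q ψ φ2 : ℂ → ℂ} (hq : L2 S q) (hψ : L2 S ψ) (hφ2 : L2 S φ2) (t : ℂ) :
    IntegrableOn (fun z => q z + t * ψ z + t ^ 2 * φ2 z) S.D :=
  (hq.int.add (hψ.int.const_mul t)).add (hφ2.int.const_mul (t ^ 2))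

theorem expL {ν n0 n1 n2 q ψ φ2 φ : ℂ → ℂ} {t : ℂ} {B M C : ℝ} (hB : 0 ≤ B) (hM : 0 ≤ M)
    (ht : ‖t‖ ≤ 1)
    (hν : Bd S ν) (h0 : Bd S n0) (h1 : Bd S n1) (h2 : Bd S n2)
    (hB0 : ∀ z ∈ S.D, ‖n0 z‖ ≤ B) (hB1 : ∀ z ∈ S.D, ‖n1 z‖ ≤ B) (hB2 : ∀ z ∈ S.D, ‖n2 z‖ ≤ B)
    (hνe : ∀ z ∈ S.D, ‖ν z - n0 z - t * n1 z - t ^ 2 * n2 z‖ ≤ M * ‖t‖ ^ 3)
    (hq : L2 S q) (hψ : L2 S ψ) (hφ2 : L2 S φ2) (hφ : L2 S φ)
    (hφe : ∫ z in S.D, ‖φ z - q z - t * ψ z - t ^ 2 * φ2 z‖ ≤ C * ‖t‖ ^ 3) :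
    ‖(∫ z in S.D, ν z * φ z) - (∫ z in S.D, n0 z * q z) -
      t * (∫ z in S.D, (n1 z * q z + n0 z * ψ z)) -
      t ^ 2 * (∫ z in S.D, (n2 z * q z + n1 z * ψ z + n0 z * φ2 z))‖ ≤
      ((3 * B + M) * C + (M + 2 * B) * ((∫ z in S.D, ‖q z‖) + (∫ z in S.D, ‖ψ z‖) +
        ∫ z in S.D, ‖φ2 z‖)) * ‖t‖ ^ 3 := by
  have i1 : IntegrableOn (fun z => ν z * φ z) S.D := hν.L2.int_mul hφ
  have i2 : IntegrableOn (fun z => n0 z * q z) S.D := h0.L2.int_mul hq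
  have i3 : IntegrableOn (fun z => n1 z * q z + n0 z * ψ z) S.D :=
    (h1.L2.int_mul hq).add (h0.L2.int_mul hψ)
  have i4 : IntegrableOn (fun z => n2 z * q z + n1 z * ψ z + n0 z * φ2 z) S.D :=
    ((h2.L2.int_mul hq).add (h1.L2.int_mul hψ)).add (h0.L2.int_mul hφ2)
  have e1 : (∫ z in S.D, ν z * φ z) - (∫ z in S.D, n0 z * q z) -
      t * (∫ z in S.D, (n1 z * q z + n0 z * ψ z)) -
      t ^ 2 * (∫ z in S.D, (n2 z * q z + n1 z * ψ z + n0 z * φ2 z)) =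
      ∫ z in S.D, (ν z * φ z - n0 z * q z - t * (n1 z * q z + n0 z * ψ z) -
        t ^ 2 * (n2 z * q z + n1 z * ψ z + n0 z * φ2 z)) := by
    have j3 : IntegrableOn (fun z => t * (n1 z * q z + n0 z * ψ z)) S.D := i3.const_mul t
    have j4 : IntegrableOn (fun z => t ^ 2 * (n2 z * q z + n1 z * ψ z + n0 z * φ2 z)) S.D :=
      i4.const_mul (t ^ 2)
    have j12 : IntegrableOn (fun z => ν z * φ z - n0 z * q z) S.D := i1.sub i2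
    have j123 : IntegrableOn (fun z => ν z * φ z - n0 z * q z -
        t * (n1 z * q z + n0 z * ψ z)) S.D := j12.sub j3
    rw [integral_sub j123 j4, integral_sub j12 j3, integral_sub i1 i2, integral_const_mul,
      integral_const_mul]
  rw [e1]
  have iq : IntegrableOn (fun z => ‖q z‖) S.D := hq.int.norm
  have iψ : IntegrableOn (fun z => ‖ψ z‖) S.D := hψ.int.norm
  have iφ2 : IntegrableOn (fun z => ‖φ2 z‖) S.D := hφ2.int.norm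
  have iR : IntegrableOn (fun z => ‖φ z - q z - t * ψ z - t ^ 2 * φ2 z‖) S.D :=
    (((hφ.int.sub hq.int).sub (hψ.int.const_mul t)).sub (hφ2.int.const_mul (t ^ 2))).norm
  have iS : IntegrableOn (fun z => ‖q z‖ + ‖ψ z‖ + ‖φ2 z‖) S.D := (iq.add iψ).add iφ2
  have iG : IntegrableOn (fun z => (3 * B + M) * ‖φ z - q z - t * ψ z - t ^ 2 * φ2 z‖ +
      ‖t‖ ^ 3 * (M + 2 * B) * (‖q z‖ + ‖ψ z‖ + ‖φ2 z‖)) S.D :=
    (iR.const_mul _).add (iS.const_mul _)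
  have hpt : ∀ z ∈ S.D, ‖ν z * φ z - n0 z * q z - t * (n1 z * q z + n0 z * ψ z) -
        t ^ 2 * (n2 z * q z + n1 z * ψ z + n0 z * φ2 z)‖ ≤
      (3 * B + M) * ‖φ z - q z - t * ψ z - t ^ 2 * φ2 z‖ +
      ‖t‖ ^ 3 * (M + 2 * B) * (‖q z‖ + ‖ψ z‖ + ‖φ2 z‖) := by
    intro z hz
    have ht0 := norm_nonneg t
    have ht2 : ‖t‖ ^ 2 ≤ 1 := pow_le_one₀ ht0 ht
    have ht3 : ‖t‖ ^ 3 ≤ 1 := pow_le_one₀ ht0 ht
    have ht4 : ‖t‖ ^ 4 ≤ ‖t‖ ^ 3 := pow_le_pow_of_le_one ht0 ht (by norm_num)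
    have key : ν z * φ z - n0 z * q z - t * (n1 z * q z + n0 z * ψ z) -
        t ^ 2 * (n2 z * q z + n1 z * ψ z + n0 z * φ2 z) =
        ν z * (φ z - q z - t * ψ z - t ^ 2 * φ2 z) +
        (ν z - n0 z - t * n1 z - t ^ 2 * n2 z) * (q z + t * ψ z + t ^ 2 * φ2 z) +
        t ^ 3 * (n2 z * ψ z + n1 z * φ2 z) + t ^ 4 * (n2 z * φ2 z) := by ring
    rw [key]
    have hνb : ‖ν z‖ ≤ 3 * B + M := by
      have : ν z = (ν z - n0 z - t * n1 z - t ^ 2 * n2 z) + n0 z + t * n1 z + t ^ 2 * n2 z := by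
        ring
      rw [this]
      have a1 : ‖t * n1 z‖ ≤ B := by
        rw [norm_mul]
        calc ‖t‖ * ‖n1 z‖ ≤ 1 * B := mul_le_mul ht (hB1 z hz) (norm_nonneg _) zero_le_one
          _ = B := one_mul B
      have a2 : ‖t ^ 2 * n2 z‖ ≤ B := by
        rw [norm_mul, norm_pow]
        calc ‖t‖ ^ 2 * ‖n2 z‖ ≤ 1 * B := mul_le_mul ht2 (hB2 z hz) (norm_nonneg _) zero_le_one
          _ = B := one_mul B
      have a3 : M * ‖t‖ ^ 3 ≤ M := by nlinarith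
      have a4 := norm_add_le ((ν z - n0 z - t * n1 z - t ^ 2 * n2 z) + n0 z + t * n1 z)
        (t ^ 2 * n2 z)
      have a5 := norm_add_le ((ν z - n0 z - t * n1 z - t ^ 2 * n2 z) + n0 z) (t * n1 z)
      have a6 := norm_add_le (ν z - n0 z - t * n1 z - t ^ 2 * n2 z) (n0 z)
      have a7 := hνe z hz
      have a8 := hB0 z hz
      linarith
    have b1 : ‖ν z * (φ z - q z - t * ψ z - t ^ 2 * φ2 z)‖ ≤
        (3 * B + M) * ‖φ z - q z - t * ψ z - t ^ 2 * φ2 z‖ := by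
      rw [norm_mul]
      exact mul_le_mul_of_nonneg_right hνb (norm_nonneg _)
    have hP : ‖q z + t * ψ z + t ^ 2 * φ2 z‖ ≤ ‖q z‖ + ‖ψ z‖ + ‖φ2 z‖ := by
      have a1 : ‖t * ψ z‖ ≤ ‖ψ z‖ := by
        rw [norm_mul]
        exact mul_le_of_le_one_left (norm_nonneg _) ht
      have a2 : ‖t ^ 2 * φ2 z‖ ≤ ‖φ2 z‖ := by
        rw [norm_mul, norm_pow]
        exact mul_le_of_le_one_left (norm_nonneg _) ht2
      have a3 := norm_add_le (q z + t * ψ z) (t ^ 2 * φ2 z)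
      have a4 := norm_add_le (q z) (t * ψ z)
      linarith
    have b2 : ‖(ν z - n0 z - t * n1 z - t ^ 2 * n2 z) * (q z + t * ψ z + t ^ 2 * φ2 z)‖ ≤
        (M * ‖t‖ ^ 3) * (‖q z‖ + ‖ψ z‖ + ‖φ2 z‖) := by
      rw [norm_mul]
      exact mul_le_mul (hνe z hz) hP (norm_nonneg _) (by positivity)
    have b3 : ‖t ^ 3 * (n2 z * ψ z + n1 z * φ2 z)‖ ≤ ‖t‖ ^ 3 * (B * ‖ψ z‖ + B * ‖φ2 z‖) := by
      rw [norm_mul, norm_pow]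
      apply mul_le_mul_of_nonneg_left _ (by positivity)
      refine (norm_add_le _ _).trans ?_
      rw [norm_mul, norm_mul]
      exact add_le_add (mul_le_mul_of_nonneg_right (hB2 z hz) (norm_nonneg _))
        (mul_le_mul_of_nonneg_right (hB1 z hz) (norm_nonneg _))
    have b4 : ‖t ^ 4 * (n2 z * φ2 z)‖ ≤ ‖t‖ ^ 3 * (B * ‖φ2 z‖) := by
      rw [norm_mul, norm_pow, norm_mul]
      exact mul_le_mul ht4 (mul_le_mul_of_nonneg_right (hB2 z hz) (norm_nonneg _))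
        (by positivity) (by positivity)
    have c1 := norm_add_le (ν z * (φ z - q z - t * ψ z - t ^ 2 * φ2 z) +
        (ν z - n0 z - t * n1 z - t ^ 2 * n2 z) * (q z + t * ψ z + t ^ 2 * φ2 z) +
        t ^ 3 * (n2 z * ψ z + n1 z * φ2 z)) (t ^ 4 * (n2 z * φ2 z))
    have c2 := norm_add_le (ν z * (φ z - q z - t * ψ z - t ^ 2 * φ2 z) +
        (ν z - n0 z - t * n1 z - t ^ 2 * n2 z) * (q z + t * ψ z + t ^ 2 * φ2 z))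
        (t ^ 3 * (n2 z * ψ z + n1 z * φ2 z))
    have c3 := norm_add_le (ν z * (φ z - q z - t * ψ z - t ^ 2 * φ2 z))
        ((ν z - n0 z - t * n1 z - t ^ 2 * n2 z) * (q z + t * ψ z + t ^ 2 * φ2 z))
    have d1 : 0 ≤ ‖t‖ ^ 3 * (B * ‖q z‖) := by positivity
    have d2 : 0 ≤ ‖t‖ ^ 3 * (B * ‖ψ z‖) := by positivity
    nlinarith [b1, b2, b3, b4, c1, c2, c3, d1, d2]
  have hle : ‖∫ z in S.D, (ν z * φ z - n0 z * q z - t * (n1 z * q z + n0 z * ψ z) -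
        t ^ 2 * (n2 z * q z + n1 z * ψ z + n0 z * φ2 z))‖ ≤
      ∫ z in S.D, ((3 * B + M) * ‖φ z - q z - t * ψ z - t ^ 2 * φ2 z‖ +
      ‖t‖ ^ 3 * (M + 2 * B) * (‖q z‖ + ‖ψ z‖ + ‖φ2 z‖)) := by
    refine norm_integral_le_of_norm_le iG ?_
    exact (ae_restrict_iff' S.meas).mpr (Eventually.of_forall hpt)
  refine hle.trans ?_
  have iqψ : IntegrableOn (fun z => ‖q z‖ + ‖ψ z‖) S.D := iq.add iψ
  rw [integral_add (iR.const_mul _) (iS.const_mul _), integral_const_mul, integral_const_mul,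
    integral_add iqψ iφ2, integral_add iq iψ]
  have h5 : (3 * B + M) * ∫ z in S.D, ‖φ z - q z - t * ψ z - t ^ 2 * φ2 z‖ ≤
      (3 * B + M) * (C * ‖t‖ ^ 3) := mul_le_mul_of_nonneg_left hφe (by positivity)
  nlinarith [h5]

theorem expN {μ a1 a2 q ψ φ2 φ : ℂ → ℂ} {t : ℂ} {B M C : ℝ} (hB : 0 ≤ B) (hM : 0 ≤ M)
    (ht : ‖t‖ ≤ 1) (hμ : Bd S μ) (hμ1 : ∀ z ∈ S.D, ‖μ z‖ ≤ 1) (h1 : Bd S a1)
    (hB1 : ∀ z ∈ S.D, ‖a1 z‖ ≤ B) (hB2 : ∀ z ∈ S.D, ‖a2 z‖ ≤ B)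
    (hμe : ∀ z ∈ S.D, ‖μ z - t * a1 z - t ^ 2 * a2 z‖ ≤ M * ‖t‖ ^ 3)
    (hq : L2 S q) (hψ : L2 S ψ) (hφ2 : L2 S φ2) (hφ : L2 S φ)
    (hφe : ∫ z in S.D, ‖φ z - q z - t * ψ z - t ^ 2 * φ2 z‖ ≤ C * ‖t‖ ^ 3) :
    ∫ z in S.D, ‖φ z‖ * (1 - ‖μ z‖ ^ 2) ≤ (∫ z in S.D, ‖q z + t * ψ z + t ^ 2 * φ2 z‖) -
      ‖t‖ ^ 2 * (∫ z in S.D, ‖a1 z‖ ^ 2 * ‖q z‖) +
      (C + (B ^ 2 + 2 * (B + M) * B) * ((∫ z in S.D, ‖q z‖) + (∫ z in S.D, ‖ψ z‖) +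
        ∫ z in S.D, ‖φ2 z‖)) * ‖t‖ ^ 3 := by
  have iq : IntegrableOn (fun z => ‖q z‖) S.D := hq.int.norm
  have iψ : IntegrableOn (fun z => ‖ψ z‖) S.D := hψ.int.norm
  have iφ2 : IntegrableOn (fun z => ‖φ2 z‖) S.D := hφ2.int.norm
  have iR : IntegrableOn (fun z => ‖φ z - q z - t * ψ z - t ^ 2 * φ2 z‖) S.D :=
    (((hφ.int.sub hq.int).sub (hψ.int.const_mul t)).sub (hφ2.int.const_mul (t ^ 2))).norm
  have iS : IntegrableOn (fun z => ‖q z‖ + ‖ψ z‖ + ‖φ2 z‖) S.D := (iq.add iψ).add iφ2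
  have iP : IntegrableOn (fun z => ‖q z + t * ψ z + t ^ 2 * φ2 z‖) S.D :=
    (P_int hq hψ hφ2 t).norm
  have iA : IntegrableOn (fun z => ‖a1 z‖ ^ 2 * ‖q z‖) S.D := by
    refine Integrable.bdd_mul (c := B ^ 2) iq (h1.meas.norm.pow 2) ?_
    refine (ae_restrict_iff' S.meas).mpr (Eventually.of_forall fun z hz => ?_)
    rw [Real.norm_eq_abs, abs_of_nonneg (by positivity)]
    exact pow_le_pow_left₀ (norm_nonneg _) (hB1 z hz) 2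
  have iL : IntegrableOn (fun z => ‖φ z‖ * (1 - ‖μ z‖ ^ 2)) S.D := by
    have : IntegrableOn (fun z => (1 - ‖μ z‖ ^ 2) * ‖φ z‖) S.D := by
      refine Integrable.bdd_mul (c := 1) hφ.int.norm
        (aestronglyMeasurable_const.sub (hμ.meas.norm.pow 2)) ?_
      refine (ae_restrict_iff' S.meas).mpr (Eventually.of_forall fun z hz => ?_)
      have h3 : ‖μ z‖ ^ 2 ≤ 1 := pow_le_one₀ (norm_nonneg _) (hμ1 z hz)
      rw [Real.norm_eq_abs, abs_of_nonneg (by linarith)]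
      have : 0 ≤ ‖μ z‖ ^ 2 := by positivity
      linarith
    exact this.congr (Eventually.of_forall fun z => mul_comm _ _)
  have hpt : ∀ z ∈ S.D, ‖φ z‖ * (1 - ‖μ z‖ ^ 2) ≤
      ‖q z + t * ψ z + t ^ 2 * φ2 z‖ - ‖t‖ ^ 2 * (‖a1 z‖ ^ 2 * ‖q z‖) +
      (‖φ z - q z - t * ψ z - t ^ 2 * φ2 z‖ +
        ‖t‖ ^ 3 * (B ^ 2 + 2 * (B + M) * B) * (‖q z‖ + ‖ψ z‖ + ‖φ2 z‖)) := by
    intro z hz
    have ht0 := norm_nonneg t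
    have ht2 : ‖t‖ ^ 2 ≤ 1 := pow_le_one₀ ht0 ht
    have ht32 : ‖t‖ ^ 3 ≤ ‖t‖ ^ 2 := pow_le_pow_of_le_one ht0 ht (by norm_num)
    have ht43 : ‖t‖ ^ 4 ≤ ‖t‖ ^ 3 := pow_le_pow_of_le_one ht0 ht (by norm_num)
    set P : ℂ := q z + t * ψ z + t ^ 2 * φ2 z with hPdef
    have hm0 : 0 ≤ ‖μ z‖ ^ 2 := by positivity
    have hm1 : ‖μ z‖ ^ 2 ≤ 1 := pow_le_one₀ (norm_nonneg _) (hμ1 z hz)
    -- φ = P + R
    have s1 : ‖φ z‖ ≤ ‖P‖ + ‖φ z - q z - t * ψ z - t ^ 2 * φ2 z‖ := by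
      have : φ z = P + (φ z - q z - t * ψ z - t ^ 2 * φ2 z) := by rw [hPdef]; ring
      calc ‖φ z‖ = ‖P + (φ z - q z - t * ψ z - t ^ 2 * φ2 z)‖ := by rw [← this]
        _ ≤ _ := norm_add_le _ _
    have s2 : ‖φ z‖ * (1 - ‖μ z‖ ^ 2) ≤ ‖P‖ * (1 - ‖μ z‖ ^ 2) +
        ‖φ z - q z - t * ψ z - t ^ 2 * φ2 z‖ := by
      have h3 : ‖φ z‖ * (1 - ‖μ z‖ ^ 2) ≤
          (‖P‖ + ‖φ z - q z - t * ψ z - t ^ 2 * φ2 z‖) * (1 - ‖μ z‖ ^ 2) :=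
        mul_le_mul_of_nonneg_right s1 (by linarith)
      have h4 : ‖φ z - q z - t * ψ z - t ^ 2 * φ2 z‖ * (1 - ‖μ z‖ ^ 2) ≤
          ‖φ z - q z - t * ψ z - t ^ 2 * φ2 z‖ * 1 :=
        mul_le_mul_of_nonneg_left (by linarith) (norm_nonneg _)
      linarith
    -- lower bound for ‖μ‖
    have s3 : ‖t‖ * ‖a1 z‖ ≤ ‖μ z‖ + (B + M) * ‖t‖ ^ 2 := by
      have h3 : t * a1 z = μ z - (μ z - t * a1 z - t ^ 2 * a2 z) - t ^ 2 * a2 z := by ring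
      have h4 : ‖t‖ * ‖a1 z‖ = ‖μ z - (μ z - t * a1 z - t ^ 2 * a2 z) - t ^ 2 * a2 z‖ := by
        rw [← h3, norm_mul]
      rw [h4]
      have h5 := norm_sub_le (μ z - (μ z - t * a1 z - t ^ 2 * a2 z)) (t ^ 2 * a2 z)
      have h6 := norm_sub_le (μ z) (μ z - t * a1 z - t ^ 2 * a2 z)
      have h7 := hμe z hz
      have h8 : ‖t ^ 2 * a2 z‖ ≤ ‖t‖ ^ 2 * B := by
        rw [norm_mul, norm_pow]
        exact mul_le_mul_of_nonneg_left (hB2 z hz) (by positivity)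
      have h9 : M * ‖t‖ ^ 3 ≤ M * ‖t‖ ^ 2 := mul_le_mul_of_nonneg_left ht32 hM
      linarith
    have s4 : ‖t‖ ^ 2 * ‖a1 z‖ ^ 2 - 2 * (B + M) * B * ‖t‖ ^ 3 ≤ ‖μ z‖ ^ 2 := by
      have hx : 0 ≤ ‖t‖ * ‖a1 z‖ := by positivity
      have hy : 0 ≤ (B + M) * ‖t‖ ^ 2 := by positivity
      have hxy : (‖t‖ * ‖a1 z‖) * ((B + M) * ‖t‖ ^ 2) ≤ (B + M) * B * ‖t‖ ^ 3 := by
        have : (‖t‖ * ‖a1 z‖) * ((B + M) * ‖t‖ ^ 2) = ((B + M) * ‖t‖ ^ 3) * ‖a1 z‖ := by ring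
        rw [this]
        have h5 : ((B + M) * ‖t‖ ^ 3) * ‖a1 z‖ ≤ ((B + M) * ‖t‖ ^ 3) * B :=
          mul_le_mul_of_nonneg_left (hB1 z hz) (by positivity)
        linarith
      have h6 : (‖t‖ * ‖a1 z‖) ^ 2 - 2 * ((‖t‖ * ‖a1 z‖) * ((B + M) * ‖t‖ ^ 2)) ≤ ‖μ z‖ ^ 2 := by
        by_cases hc : ‖t‖ * ‖a1 z‖ ≤ (B + M) * ‖t‖ ^ 2
        · nlinarith
        · push Not at hc
          have h7 : 0 ≤ ‖t‖ * ‖a1 z‖ - (B + M) * ‖t‖ ^ 2 := by linarith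
          have h8 : ‖t‖ * ‖a1 z‖ - (B + M) * ‖t‖ ^ 2 ≤ ‖μ z‖ := by linarith
          have h9 := pow_le_pow_left₀ h7 h8 2
          nlinarith [sq_nonneg ((B + M) * ‖t‖ ^ 2)]
      have h7 : (‖t‖ * ‖a1 z‖) ^ 2 = ‖t‖ ^ 2 * ‖a1 z‖ ^ 2 := by ring
      rw [h7] at h6
      linarith
    have hPle : ‖P‖ ≤ ‖q z‖ + ‖ψ z‖ + ‖φ2 z‖ := by
      have a1 : ‖t * ψ z‖ ≤ ‖ψ z‖ := by
        rw [norm_mul]
        exact mul_le_of_le_one_left (norm_nonneg _) ht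
      have a2 : ‖t ^ 2 * φ2 z‖ ≤ ‖φ2 z‖ := by
        rw [norm_mul, norm_pow]
        exact mul_le_of_le_one_left (norm_nonneg _) ht2
      have a3 := norm_add_le (q z + t * ψ z) (t ^ 2 * φ2 z)
      have a4 := norm_add_le (q z) (t * ψ z)
      linarith
    have hPge : ‖q z‖ ≤ ‖P‖ + ‖t‖ * (‖ψ z‖ + ‖φ2 z‖) := by
      have h3 : q z = P - t * ψ z - t ^ 2 * φ2 z := by rw [hPdef]; ring
      have h4 := norm_sub_le (P - t * ψ z) (t ^ 2 * φ2 z)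
      have h5 := norm_sub_le P (t * ψ z)
      have h6 : ‖q z‖ = ‖P - t * ψ z - t ^ 2 * φ2 z‖ := by rw [← h3]
      rw [norm_mul] at h5
      rw [norm_mul, norm_pow] at h4
      have h7 : ‖t‖ ^ 2 * ‖φ2 z‖ ≤ ‖t‖ * ‖φ2 z‖ := by
        apply mul_le_mul_of_nonneg_right _ (norm_nonneg _)
        nlinarith
      linarith
    have hP0 := norm_nonneg P
    -- ‖P‖ ‖μ‖² ≥ ...
    have s5 : ‖t‖ ^ 2 * (‖a1 z‖ ^ 2 * ‖q z‖) - ‖t‖ ^ 3 * (B ^ 2 + 2 * (B + M) * B) *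
        (‖q z‖ + ‖ψ z‖ + ‖φ2 z‖) ≤ ‖P‖ * ‖μ z‖ ^ 2 := by
      have h3 : ‖P‖ * (‖t‖ ^ 2 * ‖a1 z‖ ^ 2 - 2 * (B + M) * B * ‖t‖ ^ 3) ≤ ‖P‖ * ‖μ z‖ ^ 2 :=
        mul_le_mul_of_nonneg_left s4 hP0
      have h4 : (‖t‖ ^ 2 * ‖a1 z‖ ^ 2) * ‖q z‖ ≤
          (‖t‖ ^ 2 * ‖a1 z‖ ^ 2) * (‖P‖ + ‖t‖ * (‖ψ z‖ + ‖φ2 z‖)) :=
        mul_le_mul_of_nonneg_left hPge (by positivity)
      have h5 : (‖t‖ ^ 3 * (‖ψ z‖ + ‖φ2 z‖)) * ‖a1 z‖ ^ 2 ≤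
          (‖t‖ ^ 3 * (‖ψ z‖ + ‖φ2 z‖)) * B ^ 2 :=
        mul_le_mul_of_nonneg_left (pow_le_pow_left₀ (norm_nonneg _) (hB1 z hz) 2) (by positivity)
      have h6 : (2 * (B + M) * B * ‖t‖ ^ 3) * ‖P‖ ≤
          (2 * (B + M) * B * ‖t‖ ^ 3) * (‖q z‖ + ‖ψ z‖ + ‖φ2 z‖) :=
        mul_le_mul_of_nonneg_left hPle (by positivity)
      have h7 : 0 ≤ ‖t‖ ^ 3 * B ^ 2 * ‖q z‖ := by positivity
      nlinarith [h3, h4, h5, h6, h7]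
    linarith [s2, s5]
  have jA : IntegrableOn (fun z => ‖t‖ ^ 2 * (‖a1 z‖ ^ 2 * ‖q z‖)) S.D := iA.const_mul (‖t‖ ^ 2)
  have jS : IntegrableOn (fun z => ‖t‖ ^ 3 * (B ^ 2 + 2 * (B + M) * B) *
      (‖q z‖ + ‖ψ z‖ + ‖φ2 z‖)) S.D := iS.const_mul (‖t‖ ^ 3 * (B ^ 2 + 2 * (B + M) * B))
  have jPA : IntegrableOn (fun z => ‖q z + t * ψ z + t ^ 2 * φ2 z‖ -
      ‖t‖ ^ 2 * (‖a1 z‖ ^ 2 * ‖q z‖)) S.D := iP.sub jA
  have jRS : IntegrableOn (fun z => ‖φ z - q z - t * ψ z - t ^ 2 * φ2 z‖ +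
        ‖t‖ ^ 3 * (B ^ 2 + 2 * (B + M) * B) * (‖q z‖ + ‖ψ z‖ + ‖φ2 z‖)) S.D := iR.add jS
  have jT : IntegrableOn (fun z => ‖q z + t * ψ z + t ^ 2 * φ2 z‖ -
      ‖t‖ ^ 2 * (‖a1 z‖ ^ 2 * ‖q z‖) + (‖φ z - q z - t * ψ z - t ^ 2 * φ2 z‖ +
        ‖t‖ ^ 3 * (B ^ 2 + 2 * (B + M) * B) * (‖q z‖ + ‖ψ z‖ + ‖φ2 z‖))) S.D := jPA.add jRS
  have iqψ : IntegrableOn (fun z => ‖q z‖ + ‖ψ z‖) S.D := iq.add iψ
  have hle := setIntegral_mono_on iL jT S.meas hpt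
  refine hle.trans ?_
  have e1 : ∫ z in S.D, (‖q z + t * ψ z + t ^ 2 * φ2 z‖ - ‖t‖ ^ 2 * (‖a1 z‖ ^ 2 * ‖q z‖) +
      (‖φ z - q z - t * ψ z - t ^ 2 * φ2 z‖ +
        ‖t‖ ^ 3 * (B ^ 2 + 2 * (B + M) * B) * (‖q z‖ + ‖ψ z‖ + ‖φ2 z‖))) =
      (∫ z in S.D, ‖q z + t * ψ z + t ^ 2 * φ2 z‖) -
      ‖t‖ ^ 2 * (∫ z in S.D, ‖a1 z‖ ^ 2 * ‖q z‖) +
      ((∫ z in S.D, ‖φ z - q z - t * ψ z - t ^ 2 * φ2 z‖) +
        ‖t‖ ^ 3 * (B ^ 2 + 2 * (B + M) * B) * ((∫ z in S.D, ‖q z‖) + (∫ z in S.D, ‖ψ z‖) +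
        ∫ z in S.D, ‖φ2 z‖)) := by
    rw [integral_add jPA jRS, integral_sub iP jA, integral_add iR jS, integral_const_mul,
      integral_const_mul, integral_add iqψ iφ2, integral_add iq iψ]
  have e2 : (∫ z in S.D, ‖q z + t * ψ z + t ^ 2 * φ2 z‖) -
      ‖t‖ ^ 2 * (∫ z in S.D, ‖a1 z‖ ^ 2 * ‖q z‖) +
      ((∫ z in S.D, ‖φ z - q z - t * ψ z - t ^ 2 * φ2 z‖) +
        ‖t‖ ^ 3 * (B ^ 2 + 2 * (B + M) * B) * ((∫ z in S.D, ‖q z‖) + (∫ z in S.D, ‖ψ z‖) +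
        ∫ z in S.D, ‖φ2 z‖)) ≤ (∫ z in S.D, ‖q z + t * ψ z + t ^ 2 * φ2 z‖) -
      ‖t‖ ^ 2 * (∫ z in S.D, ‖a1 z‖ ^ 2 * ‖q z‖) +
      (C + (B ^ 2 + 2 * (B + M) * B) * ((∫ z in S.D, ‖q z‖) + (∫ z in S.D, ‖ψ z‖) +
        ∫ z in S.D, ‖φ2 z‖)) * ‖t‖ ^ 3 := by
    nlinarith [hφe]
  exact le_trans (le_of_eq e1) e2

theorem q_stok (hStok : Stmt_Stok) {q χ : ℂ → ℂ} (hq : IsQD S q) (hχ : VF S χ) :
    ∫ z in S.D, q z * db χ z = 0 := by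
  have h1 := (hStok S (fun z => q z * χ z) (hq.sm.mul hχ.sm)).2
    (by simpa using hq.aut'.mul hχ.aut)
  rw [← h1]
  refine setIntegral_congr_fun S.meas fun z hz => ?_
  have hz' := S.D_sub hz
  rw [db_mul (hq.sm.diff hz') (hχ.sm.diff hz'),
    db_holo (hq.hol.differentiableAt (isOpen_Hp.mem_nhds hz'))]
  ring

end LOWB_

open LOWB_ in
/-- LOWB -/
theorem lowb_proof (hPert : Stmt_Pert) (hFirst : Stmt_First) (hRsz : Stmt_Rsz)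
    (hTayl : Stmt_Tayl) (hLogL : Stmt_LogL) (hStok : Stmt_Stok) : Stmt_LowB := by
  intro S δ u μ ν hL hu0
  obtain ⟨q, hqQ, hq1, hqu⟩ := hL.ext hu0
  have hpos := hL.pos
  have hsub : ball (0 : ℂ) (δ / 2) ⊆ ball 0 δ := ball_subset_ball (by linarith)
  have hdz0 : ∀ z ∈ Hp, dz (μ 0) z = 0 := by
    intro z hz
    have : μ 0 =ᶠ[𝓝 z] fun _ => 0 := by
      filter_upwards [isOpen_Hp.mem_nhds hz] with x hx
      exact hL.μ0 x hx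
    rw [dz_congr this, dz_const]
  obtain ⟨a1, a2, b1, b2, M, ha1, ha2, hb1, hb2, hE⟩ :=
    hTayl δ μ S.K hpos S.compact S.sub hL.μsm hL.μhol
  obtain ⟨n1, n2, _, _, M', hn1, hn2, _, _, hE'⟩ :=
    hTayl δ ν S.K hpos S.compact S.sub hL.νsm hL.νhol
  have hEμ : ∀ t ∈ ball (0 : ℂ) (δ / 2), ∀ z ∈ S.K,
      ‖μ t z - t * a1 z - t ^ 2 * a2 z‖ ≤ M * ‖t‖ ^ 3 ∧
      ‖dz (μ t) z - t * b1 z - t ^ 2 * b2 z‖ ≤ M * ‖t‖ ^ 3 := by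
    intro t ht z hz
    have h := hE t ht z hz
    rw [hL.μ0 z (S.sub hz), hdz0 z (S.sub hz), sub_zero, sub_zero] at h
    exact h
  have hq2 : L2 S q := (bd_of_cont S hqQ.sm.cont).L2
  obtain ⟨ψ, hψ2, hψi, hψb, hψe⟩ := hRsz S q a1 hqQ (bd_of_cont S ha1)
  have hF := hFirst S (δ / 2) M μ a1 a2 b1 b2 (by positivity)
    (fun t ht => hL.μSB t (hsub ht)) ha1 ha2 hb1 hb2 hEμ q hqQ
  have hX1 : Exp2 S (δ / 2) μ a1 a2 :=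
    ⟨fun t ht => aesm_of_cont S (hL.μSB t (hsub ht)).sm.cont, bd_of_cont S ha1, bd_of_cont S ha2,
      M, fun t ht z hz => (hEμ t ht z (S.subD hz)).1⟩
  have hX2 : Exp2 S (δ / 2) (fun t => dz (μ t)) b1 b2 :=
    ⟨fun t ht => aesm_of_cont S (hL.μSB t (hsub ht)).sm.dz.cont, bd_of_cont S hb1,
      bd_of_cont S hb2, M, fun t ht z hz => (hEμ t ht z (S.subD hz)).2⟩
  obtain ⟨δ2, C, φ2, φ, hδ2, hδ2', hφ2, hφ⟩ :=
    (hPert S (δ / 2) μ a1 a2 (fun t => dz (μ t)) b1 b2 (by positivity) hX1 hX2).1 q ψ hq2 hψ2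
      (fun χ hχ => q_stok hStok hqQ hχ) (fun χ hχ => by rw [hψe χ hχ, hF χ hχ])
  -- bounds
  have hνc : ∀ t ∈ ball (0 : ℂ) δ, ContinuousOn (ν t) Hp := fun t ht =>
    hL.νsm.continuousOn.comp (continuousOn_const.prodMk continuousOn_id) (fun z hz => ⟨ht, hz⟩)
  have h0mem : (0 : ℂ) ∈ ball (0 : ℂ) δ := mem_ball_self hpos
  obtain ⟨B0, hB0, hB0'⟩ := bdd_of_cont S (hνc 0 h0mem)
  obtain ⟨B1, hB1, hB1'⟩ := bdd_of_cont S hn1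
  obtain ⟨B2, hB2, hB2'⟩ := bdd_of_cont S hn2
  obtain ⟨A1, hA1, hA1'⟩ := bdd_of_cont S ha1
  obtain ⟨A2, hA2, hA2'⟩ := bdd_of_cont S ha2
  set B : ℝ := B0 + B1 + B2 + A1 + A2 with hBdef
  have hB : 0 ≤ B := by positivity
  set L0 : ℂ := ∫ z in S.D, ν 0 z * q z with hL0
  set L1 : ℂ := ∫ z in S.D, (n1 z * q z + ν 0 z * ψ z) with hL1
  set L2' : ℂ := ∫ z in S.D, (n2 z * q z + n1 z * ψ z + ν 0 z * φ2 z) with hL2
  set I : ℝ := (∫ z in S.D, ‖q z‖) + (∫ z in S.D, ‖ψ z‖) + ∫ z in S.D, ‖φ2 z‖ with hI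
  set K : ℝ := (3 * B + max M' 0) * C + (max M' 0 + 2 * B) * I with hK
  set CN : ℝ := C + (B ^ 2 + 2 * (B + max M 0) * B) * I with hCN
  have hL0ne : L0 ≠ 0 := by
    rw [← norm_pos_iff, hqu]
    exact hu0
  obtain ⟨δ3, C3, hδ3, hlog⟩ := hLogL (L1 / L0) (L2' / L0) (K / ‖L0‖)
  refine ⟨q, ψ, φ2, a1, L1 / L0, L2' / L0 - (L1 / L0) ^ 2 / 2, min (min δ2 δ3) 1, C3 + CN,
    lt_min (lt_min hδ2 hδ3) one_pos, ?_, hqQ, hq1, hψ2, hφ2, bd_of_cont S ha1, hψi, hψb, ?_⟩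
  · exact (min_le_left _ _).trans ((min_le_left _ _).trans (hδ2'.trans (by linarith)))
  intro t ht
  rw [mem_ball_zero_iff] at ht
  have ht1 : ‖t‖ ≤ 1 := (ht.trans_le (min_le_right _ _)).le
  have ht2 : t ∈ ball (0 : ℂ) δ2 := by
    rw [mem_ball_zero_iff]
    exact ht.trans_le ((min_le_left _ _).trans (min_le_left _ _))
  have ht3 : t ∈ ball (0 : ℂ) δ3 := by
    rw [mem_ball_zero_iff]
    exact ht.trans_le ((min_le_left _ _).trans (min_le_right _ _))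
  have htd : t ∈ ball (0 : ℂ) (δ / 2) := ball_subset_ball hδ2' ht2
  have htδ : t ∈ ball (0 : ℂ) δ := hsub htd
  obtain ⟨hφL, hφ0, hφe⟩ := hφ t ht2
  have hn3 : 0 ≤ ‖t‖ ^ 3 := by positivity
  have hl := expL (S := S) (ν := ν t) (n0 := ν 0) (n1 := n1) (n2 := n2) (q := q) (ψ := ψ)
    (φ2 := φ2) (φ := φ t) (t := t) (B := B) (M := max M' 0) (C := C) hB (le_max_right _ _) ht1
    (bd_of_cont S (hνc t htδ)) (bd_of_cont S (hνc 0 h0mem)) (bd_of_cont S hn1)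
    (bd_of_cont S hn2) (fun z hz => (hB0' z (S.subD hz)).trans (by rw [hBdef]; linarith))
    (fun z hz => (hB1' z (S.subD hz)).trans (by rw [hBdef]; linarith))
    (fun z hz => (hB2' z (S.subD hz)).trans (by rw [hBdef]; linarith))
    (fun z hz => ((hE' t htd z (S.subD hz)).1).trans
      (mul_le_mul_of_nonneg_right (le_max_left _ _) hn3)) hq2 hψ2 hφ2 hφL hφe
  have hN := expN (S := S) (μ := μ t) (a1 := a1) (a2 := a2) (q := q) (ψ := ψ)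
    (φ2 := φ2) (φ := φ t) (t := t) (B := B) (M := max M 0) (C := C) hB (le_max_right _ _) ht1
    (bd_of_cont S (hL.μSB t htδ).sm.cont) (fun z hz => (hL.μlt t htδ z (S.D_sub hz)).le)
    (bd_of_cont S ha1) (fun z hz => (hA1' z (S.subD hz)).trans (by rw [hBdef]; linarith))
    (fun z hz => (hA2' z (S.subD hz)).trans (by rw [hBdef]; linarith))
    (fun z hz => ((hEμ t htd z (S.subD hz)).1).trans
      (mul_le_mul_of_nonneg_right (le_max_left _ _) hn3)) hq2 hψ2 hφ2 hφL hφe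
  rw [← hL0, ← hL1, ← hL2, ← hI, ← hK] at hl
  rw [← hI, ← hCN] at hN
  set Lt : ℂ := ∫ z in S.D, ν t z * φ t z with hLt
  have hl' : ‖Lt / L0 - 1 - t * (L1 / L0) - t ^ 2 * (L2' / L0)‖ ≤ K / ‖L0‖ * ‖t‖ ^ 3 := by
    have e : Lt / L0 - 1 - t * (L1 / L0) - t ^ 2 * (L2' / L0) =
        (Lt - L0 - t * L1 - t ^ 2 * L2') / L0 := by
      field_simp
    rw [e, norm_div, div_le_iff₀ (norm_pos_iff.mpr hL0ne)]
    have e2 : K / ‖L0‖ * ‖t‖ ^ 3 * ‖L0‖ = K * ‖t‖ ^ 3 := by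
      have := (norm_pos_iff.mpr hL0ne).ne'
      field_simp
    rw [e2]
    exact hl
  obtain ⟨hne, hlogt⟩ := hlog t ht3 (Lt / L0) hl'
  have hlow := hL.lower t htδ (φ t) hφL hφ0
  rw [← hLt] at hlow
  have hmul : u 0 * ‖Lt / L0‖ ≤ u t * ∫ z in S.D, ‖φ t z‖ * (1 - ‖μ t z‖ ^ 2) := by
    have : u 0 * ‖Lt / L0‖ = ‖Lt‖ := by
      rw [norm_div, ← hqu]
      have := (norm_pos_iff.mpr hL0ne).ne'
      field_simp
    rw [this]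
    exact hlow
  have hfin := final hu0 (hL.nonneg t htδ) (norm_pos_iff.mpr hne) hmul hlogt hN
  refine le_trans (le_of_eq ?_) hfin
  ring

end Pool.Agent.TNP
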