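import Pool.Agent.TNP.Stmts

/-!
# TNP: the regularised weight of a quadratic differential is log-subharmonic
-/

open scoped ContDiff Topology ComplexConjugate
open Set Metric MeasureTheory Filter

namespace Pool.Agent.TNP

noncomputable section

namespace LapQ_

theorem dz_real {φ : ℝ → ℝ} {φ' : ℝ} {h : ℂ → ℝ} {z : ℂ} (hφ : HasDerivAt φ φ' (h z))
    (hh : DifferentiableAt ℝ h z) :
    dz (fun w => ((φ (h w) : ℝ) : ℂ)) z = (φ' : ℂ) * dz (fun w => (h w : ℂ)) z := by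
  have h1 : HasFDerivAt (fun w => ((h w : ℝ) : ℂ)) (Complex.ofRealCLM.comp (fderiv ℝ h z)) z :=
    Complex.ofRealCLM.hasFDerivAt.comp z hh.hasFDerivAt
  have h2 : HasFDerivAt (fun w => ((φ (h w) : ℝ) : ℂ))
      (Complex.ofRealCLM.comp (φ' • fderiv ℝ h z)) z :=
    Complex.ofRealCLM.hasFDerivAt.comp z (hφ.comp_hasFDerivAt z hh.hasFDerivAt)
  rw [dz_of_hasFDerivAt h1, dz_of_hasFDerivAt h2]
  simp only [ContinuousLinearMap.comp_apply, _root_.smul_apply, smul_eq_mul,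
    Complex.ofRealCLM_apply, Complex.ofReal_mul]
  ring

theorem db_real {φ : ℝ → ℝ} {φ' : ℝ} {h : ℂ → ℝ} {z : ℂ} (hφ : HasDerivAt φ φ' (h z))
    (hh : DifferentiableAt ℝ h z) :
    db (fun w => ((φ (h w) : ℝ) : ℂ)) z = (φ' : ℂ) * db (fun w => (h w : ℂ)) z := by
  have h1 : HasFDerivAt (fun w => ((h w : ℝ) : ℂ)) (Complex.ofRealCLM.comp (fderiv ℝ h z)) z :=
    Complex.ofRealCLM.hasFDerivAt.comp z hh.hasFDerivAt
  have h2 : HasFDerivAt (fun w => ((φ (h w) : ℝ) : ℂ))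
      (Complex.ofRealCLM.comp (φ' • fderiv ℝ h z)) z :=
    Complex.ofRealCLM.hasFDerivAt.comp z (hφ.comp_hasFDerivAt z hh.hasFDerivAt)
  rw [db_of_hasFDerivAt h1, db_of_hasFDerivAt h2]
  simp only [ContinuousLinearMap.comp_apply, _root_.smul_apply, smul_eq_mul,
    Complex.ofRealCLM_apply, Complex.ofReal_mul]
  ring

theorem hasFDerivAt_Y (z : ℂ) :
    HasFDerivAt (fun w : ℂ => (w.im : ℂ)) (Complex.ofRealCLM.comp Complex.imCLM) z :=
  (Complex.ofRealCLM.comp Complex.imCLM).hasFDerivAt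

theorem dz_Y (z : ℂ) : dz (fun w : ℂ => (w.im : ℂ)) z = - Complex.I / 2 := by
  rw [dz_of_hasFDerivAt (hasFDerivAt_Y z)]
  simp
  ring

theorem db_Y (z : ℂ) : db (fun w : ℂ => (w.im : ℂ)) z = Complex.I / 2 := by
  rw [db_of_hasFDerivAt (hasFDerivAt_Y z)]
  simp
  ring

theorem hasDerivAt_invpow (n : ℕ) (x : ℂ) (hx : x ≠ 0) :
    HasDerivAt (fun x : ℂ => (x ^ (n + 1))⁻¹) (-(n + 1) * (x ^ (n + 2))⁻¹) x := by
  have h := (hasDerivAt_pow (n + 1) x).fun_inv (pow_ne_zero _ hx)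
  refine h.congr_deriv ?_
  field_simp
  push_cast
  ring

variable {q : ℂ → ℂ} {e : ℂ} {z : ℂ}

theorem Y_ne (hz : z ∈ Hp) : ((z.im : ℝ) : ℂ) ≠ 0 := by
  have : 0 < z.im := hz
  exact_mod_cast this.ne'

theorem diff_invY (n : ℕ) (hz : z ∈ Hp) :
    DifferentiableAt ℝ (fun w : ℂ => ((w.im : ℂ) ^ (n + 1))⁻¹) z :=
  DifferentiableAt.comp z (f := fun w : ℂ => (w.im : ℂ)) (g := fun x : ℂ => (x ^ (n + 1))⁻¹)
    ((hasDerivAt_invpow n _ (Y_ne hz)).differentiableAt.restrictScalars ℝ)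
    (hasFDerivAt_Y z).differentiableAt

theorem dz_invY (n : ℕ) (hz : z ∈ Hp) :
    dz (fun w : ℂ => ((w.im : ℂ) ^ (n + 1))⁻¹) z =
      (-(n + 1) * ((z.im : ℂ) ^ (n + 2))⁻¹) * (- Complex.I / 2) := by
  rw [dz_holo_comp (F := fun x : ℂ => (x ^ (n + 1))⁻¹) (w := fun w : ℂ => (w.im : ℂ))
    (hasFDerivAt_Y z).differentiableAt (hasDerivAt_invpow n _ (Y_ne hz)).differentiableAt,
    (hasDerivAt_invpow n _ (Y_ne hz)).deriv, dz_Y]

theorem db_invY (n : ℕ) (hz : z ∈ Hp) :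
    db (fun w : ℂ => ((w.im : ℂ) ^ (n + 1))⁻¹) z =
      (-(n + 1) * ((z.im : ℂ) ^ (n + 2))⁻¹) * (Complex.I / 2) := by
  rw [db_holo_comp (F := fun x : ℂ => (x ^ (n + 1))⁻¹) (w := fun w : ℂ => (w.im : ℂ))
    (hasFDerivAt_Y z).differentiableAt (hasDerivAt_invpow n _ (Y_ne hz)).differentiableAt,
    (hasDerivAt_invpow n _ (Y_ne hz)).deriv, db_Y]

/-- `|q|² + e y⁻⁴` as a complex function -/
def fC (q : ℂ → ℂ) (e : ℂ) (z : ℂ) : ℂ := q z * conj (q z) + e * ((z.im : ℂ) ^ 4)⁻¹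

theorem diff_q (hq : DifferentiableOn ℂ q Hp) (hz : z ∈ Hp) : DifferentiableAt ℂ q z :=
  hq.differentiableAt (isOpen_Hp.mem_nhds hz)

theorem diff_fC (hq : DifferentiableOn ℂ q Hp) (hz : z ∈ Hp) : DifferentiableAt ℝ (fC q e) z := by
  have h1 := (diff_q hq hz).restrictScalars ℝ
  exact (h1.fun_mul (differentiableAt_conj h1)).fun_add ((diff_invY 3 hz).const_mul e)

theorem dz_fC (hq : DifferentiableOn ℂ q Hp) (hz : z ∈ Hp) :
    dz (fC q e) z = deriv q z * conj (q z) + 2 * Complex.I * e * ((z.im : ℂ) ^ 5)⁻¹ := by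
  have h0 := diff_q hq hz
  have h1 := h0.restrictScalars ℝ
  unfold fC
  rw [dz_add (h1.fun_mul (differentiableAt_conj h1)) ((diff_invY 3 hz).const_mul e),
    dz_mul h1 (differentiableAt_conj h1), dz_conj h1, dz_holo h0, db_holo h0,
    dz_const_mul e (diff_invY 3 hz), dz_invY 3 hz]
  push_cast
  simp only [map_zero, mul_zero, add_zero]
  ring

theorem db_fC (hq : DifferentiableOn ℂ q Hp) (hz : z ∈ Hp) :
    db (fC q e) z = q z * conj (deriv q z) - 2 * Complex.I * e * ((z.im : ℂ) ^ 5)⁻¹ := by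
  have h0 := diff_q hq hz
  have h1 := h0.restrictScalars ℝ
  unfold fC
  rw [db_add (h1.fun_mul (differentiableAt_conj h1)) ((diff_invY 3 hz).const_mul e),
    db_mul h1 (differentiableAt_conj h1), db_conj h1, dz_holo h0, db_holo h0,
    db_const_mul e (diff_invY 3 hz), db_invY 3 hz]
  push_cast
  simp only [zero_mul, zero_add]
  ring

theorem dz_db_fC (hq : DifferentiableOn ℂ q Hp) (hz : z ∈ Hp) :
    dz (db (fC q e)) z =
      deriv q z * conj (deriv q z) + 5 * e * ((z.im : ℂ) ^ 6)⁻¹ := by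
  have h0 := diff_q hq hz
  have h1 := h0.restrictScalars ℝ
  have h2 : DifferentiableAt ℂ (deriv q) z := (hq.deriv isOpen_Hp).differentiableAt
    (isOpen_Hp.mem_nhds hz)
  have h3 := h2.restrictScalars ℝ
  have he : db (fC q e) =ᶠ[𝓝 z] fun w => q w * conj (deriv q w) -
      (2 * Complex.I * e) * ((w.im : ℂ) ^ 5)⁻¹ := by
    filter_upwards [isOpen_Hp.mem_nhds hz] with w hw
    rw [db_fC hq hw]
  rw [dz_congr he, dz_sub (h1.fun_mul (differentiableAt_conj h3)) ((diff_invY 4 hz).const_mul _),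
    dz_mul h1 (differentiableAt_conj h3), dz_conj h3, dz_holo h0, db_holo h2,
    dz_const_mul _ (diff_invY 4 hz), dz_invY 4 hz]
  push_cast
  simp only [map_zero, mul_zero, add_zero]
  linear_combination (-(5 * e * ((z.im : ℂ) ^ 6)⁻¹)) * Complex.I_sq

/-- the real function -/
def fR (q : ℂ → ℂ) (ε : ℝ) (z : ℂ) : ℝ := ‖q z‖ ^ 2 + ε ^ 2 * (z.im ^ 4)⁻¹

theorem fR_eq (q : ℂ → ℂ) (ε : ℝ) (z : ℂ) : ((fR q ε z : ℝ) : ℂ) = fC q ((ε ^ 2 : ℝ) : ℂ) z := by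
  unfold fR fC
  rw [Complex.mul_conj, Complex.normSq_eq_norm_sq]
  push_cast
  ring

theorem fR_nonneg (q : ℂ → ℂ) (ε : ℝ) (z : ℂ) : 0 ≤ fR q ε z := by
  have : 0 ≤ z.im ^ 4 := by positivity
  unfold fR
  positivity

theorem fR_pos (q : ℂ → ℂ) {ε : ℝ} (hε : 0 < ε) (hz : z ∈ Hp) : 0 < fR q ε z := by
  have h1 : 0 < z.im := hz
  unfold fR
  positivity

theorem fR_smooth (hq : DifferentiableOn ℂ q Hp) (ε : ℝ) : ContDiffOn ℝ ∞ (fR q ε) Hp := by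
  have h1 : ContDiffOn ℝ ∞ q Hp := sm_of_hol hq
  have h2 : ContDiffOn ℝ ∞ (fun z : ℂ => z.im ^ 4) Hp := (Complex.imCLM.contDiff.pow 4).contDiffOn
  exact (h1.norm_sq ℝ).add (contDiffOn_const.mul (h2.inv fun z hz => by
    have : 0 < z.im := hz
    positivity))

end LapQ_

open LapQ_ in
theorem lapq_proof : Stmt_LapQ := by
  intro q ε hq hε
  have hwt : ∀ z, wt q ε z = Real.sqrt (fR q ε z) := fun z => rfl
  have hsm := fR_smooth hq ε
  have hfd : ∀ z ∈ Hp, DifferentiableAt ℝ (fR q ε) z := fun z hz =>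
    (hsm.contDiffAt (isOpen_Hp.mem_nhds hz)).differentiableAt (by simp)
  have hsq : ContDiffOn ℝ ∞ (wt q ε) Hp := hsm.sqrt fun z hz => (fR_pos q hε hz).ne'
  have hCeq : (fun w => ((fR q ε w : ℝ) : ℂ)) = fC q ((ε ^ 2 : ℝ) : ℂ) := funext (fR_eq q ε)
  refine ⟨Complex.ofRealCLM.contDiff.comp_contDiffOn hsq, fun z hz =>
    Real.sqrt_pos.2 (fR_pos q hε hz), fun z hz => ?_, fun z hz => ?_⟩
  · have hlog : (fun w => ((Real.log (wt q ε w) : ℝ) : ℂ)) =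
        fun w => (1 / 2 : ℂ) * ((Real.log (fR q ε w) : ℝ) : ℂ) := by
      funext w
      rw [hwt, Real.log_sqrt (fR_nonneg q ε w)]
      push_cast
      ring
    have hlogd : ∀ w ∈ Hp, DifferentiableAt ℝ (fun w => ((Real.log (fR q ε w) : ℝ) : ℂ)) w := by
      intro w hw
      exact Complex.ofRealCLM.differentiableAt.comp w ((hfd w hw).log (fR_pos q hε hw).ne')
    have hdb : db (fun w => ((Real.log (wt q ε w) : ℝ) : ℂ)) =ᶠ[𝓝 z]
        fun w => (1 / 2 : ℂ) * ((fC q ((ε ^ 2 : ℝ) : ℂ) w)⁻¹ * db (fC q ((ε ^ 2 : ℝ) : ℂ)) w) := by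
      filter_upwards [isOpen_Hp.mem_nhds hz] with w hw
      rw [hlog, db_const_mul _ (hlogd w hw), db_real (Real.hasDerivAt_log (fR_pos q hε hw).ne')
        (hfd w hw), hCeq, Complex.ofReal_inv, fR_eq]
    have hF0 : fC q ((ε ^ 2 : ℝ) : ℂ) z ≠ 0 := by
      rw [← fR_eq]
      exact_mod_cast (fR_pos q hε hz).ne'
    have hFd : DifferentiableAt ℝ (fC q ((ε ^ 2 : ℝ) : ℂ)) z := diff_fC hq hz
    have hFdb : DifferentiableAt ℝ (db (fC q ((ε ^ 2 : ℝ) : ℂ))) z := by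
      have h1 : Sm (fC q ((ε ^ 2 : ℝ) : ℂ)) := by
        rw [← hCeq]
        exact Complex.ofRealCLM.contDiff.comp_contDiffOn hsm
      exact h1.db.diff hz
    have hFi : DifferentiableAt ℝ (fun w => (fC q ((ε ^ 2 : ℝ) : ℂ) w)⁻¹) z := hFd.fun_inv hF0
    rw [dz_congr hdb, dz_const_mul _ (hFi.fun_mul hFdb), dz_mul hFi hFdb, dz_inv hFd hF0,
      dz_db_fC hq hz, dz_fC hq hz, db_fC hq hz]
    set f : ℝ := fR q ε z with hf
    have hfpos : 0 < f := fR_pos q hε hz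
    have hy : 0 < z.im := hz
    set y : ℝ := z.im with hyd
    set a : ℂ := q z with ha
    set b : ℂ := deriv q z with hb
    have hfe : fC q ((ε ^ 2 : ℝ) : ℂ) z = (f : ℂ) := (fR_eq q ε z).symm
    rw [hfe]
    have hfval : f = ‖a‖ ^ 2 + ε ^ 2 * (y ^ 4)⁻¹ := rfl
    set N : ℝ := ε ^ 2 * (y ^ 4)⁻¹ * (‖b‖ ^ 2 + 5 * ‖a‖ ^ 2 / y ^ 2 -
      4 * (b * conj a).im / y) + ε ^ 4 * (y ^ 10)⁻¹ with hN
    have hNn : 0 ≤ N := by
      have h1 : |(b * conj a).im| ≤ ‖b‖ * ‖a‖ := by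
        refine (Complex.abs_im_le_norm _).trans ?_
        rw [norm_mul, Complex.norm_conj]
      have h2 : (b * conj a).im ≤ ‖b‖ * ‖a‖ := (le_abs_self _).trans h1
      have h3 : 0 ≤ ‖b‖ ^ 2 + 5 * ‖a‖ ^ 2 / y ^ 2 - 4 * (b * conj a).im / y := by
        have h4 : 4 * (b * conj a).im / y ≤ 4 * (‖b‖ * ‖a‖) / y := by gcongr
        have h5 : ‖b‖ ^ 2 + 5 * ‖a‖ ^ 2 / y ^ 2 - 4 * (‖b‖ * ‖a‖) / y =
            (‖b‖ - 2 * ‖a‖ / y) ^ 2 + (‖a‖ / y) ^ 2 := by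
          field_simp
          ring
        have h6 : 0 ≤ (‖b‖ - 2 * ‖a‖ / y) ^ 2 + (‖a‖ / y) ^ 2 := by positivity
        linarith
      rw [hN]
      positivity
    have hval : (1 / 2 : ℂ) * (-(b * conj a + 2 * Complex.I * ((ε ^ 2 : ℝ) : ℂ) *
        ((y : ℂ) ^ 5)⁻¹) / (f : ℂ) ^ 2 * (a * conj b - 2 * Complex.I * ((ε ^ 2 : ℝ) : ℂ) *
        ((y : ℂ) ^ 5)⁻¹) + (f : ℂ)⁻¹ * (b * conj b + 5 * ((ε ^ 2 : ℝ) : ℂ) *
        ((y : ℂ) ^ 6)⁻¹)) = ((N / (2 * f ^ 2) : ℝ) : ℂ) := by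
      have hfC : (f : ℂ) ≠ 0 := by exact_mod_cast hfpos.ne'
      have hyC : (y : ℂ) ≠ 0 := by exact_mod_cast hy.ne'
      have e1 : (f : ℂ) = a * conj a + ((ε ^ 2 : ℝ) : ℂ) * ((y : ℂ) ^ 4)⁻¹ := by
        rw [← hfe]; rfl
      have e2 : ((‖a‖ : ℝ) : ℂ) ^ 2 = a * conj a := by
        rw [Complex.mul_conj, Complex.normSq_eq_norm_sq]; push_cast; ring
      have e3 : ((‖b‖ : ℝ) : ℂ) ^ 2 = b * conj b := by
        rw [Complex.mul_conj, Complex.normSq_eq_norm_sq]; push_cast; ring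
      have e4 : (((b * conj a).im : ℝ) : ℂ) = (b * conj a - conj b * a) * (-Complex.I / 2) := by
        have h1 := Complex.sub_conj (b * conj a)
        rw [map_mul, Complex.conj_conj] at h1
        rw [h1]
        push_cast
        linear_combination ((b * conj a).im : ℂ) * Complex.I_sq
      have e5 : ((N : ℝ) : ℂ) = ((ε ^ 2 : ℝ) : ℂ) * ((y : ℂ) ^ 4)⁻¹ * (b * conj b +
          5 * (a * conj a) / (y : ℂ) ^ 2 - 4 * ((b * conj a - conj b * a) * (-Complex.I / 2)) /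
            (y : ℂ)) + ((ε ^ 2 : ℝ) : ℂ) ^ 2 * ((y : ℂ) ^ 10)⁻¹ := by
        rw [hN]
        push_cast
        rw [← e2, ← e3]
        have e4' : (((b * conj a).im : ℝ) : ℂ) = (b * conj a - conj b * a) * (-Complex.I / 2) := e4
        rw [← e4']
        ring
      rw [Complex.ofReal_div, e5]
      push_cast
      field_simp
      rw [e1]
      field_simp
      push_cast
      ring_nf
      rw [Complex.I_sq]
      ring
    rw [hval, Complex.ofReal_re]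
    positivity
  · have h1 : HasDerivAt Real.sqrt (1 / (2 * Real.sqrt (fR q ε z))) (fR q ε z) :=
      Real.hasDerivAt_sqrt (fR_pos q hε hz).ne'
    have h2 := dz_real h1 (hfd z hz)
    have h3 : (fun w => ((wt q ε w : ℝ) : ℂ)) = fun w => ((Real.sqrt (fR q ε w) : ℝ) : ℂ) := rfl
    rw [h3, h2, hCeq, dz_fC hq hz, hwt]
    have hs : 0 < Real.sqrt (fR q ε z) := Real.sqrt_pos.2 (fR_pos q hε hz)
    have hsC : ((Real.sqrt (fR q ε z) : ℝ) : ℂ) ≠ 0 := by exact_mod_cast hs.ne'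
    have hss : ((Real.sqrt (fR q ε z) : ℝ) : ℂ) ^ 2 = ((fR q ε z : ℝ) : ℂ) := by
      exact_mod_cast Real.sq_sqrt (fR_nonneg q ε z)
    have h4 : ((‖q z‖ ^ 2 + ε ^ 2 * (z.im ^ 4)⁻¹ : ℝ) : ℂ) =
        ((Real.sqrt (fR q ε z) : ℝ) : ℂ) ^ 2 := by
      rw [hss]; rfl
    rw [h4]
    push_cast
    field_simp

end

end Pool.Agent.TNP
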