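import Pool.Agent.TNP.Stmts

/-!
# TNP module MV: the mean value inequality for quadratic differentials
-/

open scoped ContDiff Topology ComplexConjugate ENNReal
open Set Metric MeasureTheory Filter

namespace Pool.Agent.TNP

noncomputable section

namespace MV_

open Real in
theorem circ {q : ℂ → ℂ} {z : ℂ} {s : ℝ} (hs : 0 < s)
    (hq : DifferentiableOn ℂ q (closedBall z s)) :
    ENNReal.ofReal (2 * π) * ‖q z‖ₑ ≤
      ∫⁻ θ in Ioo (-π) π, ‖q (z + s * (Real.cos θ + Real.sin θ * Complex.I))‖ₑ := by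
  have hq' : DiffContOnCl ℂ q (ball z |s|) := by
    rw [abs_of_pos hs]
    refine DifferentiableOn.diffContOnCl ?_
    rw [closure_ball z hs.ne']
    exact hq
  have h := hq'.circleAverage
  rw [Real.circleAverage_eq_integral_add (-π),
    intervalIntegral.integral_comp_add_right (fun θ => q (circleMap z s θ))] at h
  have e1 : (0 : ℝ) + -π = -π := by ring
  have e2 : 2 * π + -π = π := by ring
  rw [e1, e2] at h
  have hpi := Real.pi_pos
  have h2 : (2 * π) • q z = ∫ θ in (-π)..π, q (circleMap z s θ) := by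
    rw [← h, smul_smul, mul_inv_cancel₀ (by positivity), one_smul]
  have h3 : ENNReal.ofReal (2 * π) * ‖q z‖ₑ = ‖(2 * π) • q z‖ₑ := by
    rw [enorm_smul, Real.enorm_eq_ofReal (by positivity)]
  rw [h3, h2, intervalIntegral.integral_of_le (by linarith),
    MeasureTheory.integral_Ioc_eq_integral_Ioo]
  refine (enorm_integral_le_lintegral_enorm _).trans (le_of_eq ?_)
  refine lintegral_congr fun θ => ?_
  congr 3
  simp only [circleMap, Complex.exp_mul_I, Complex.ofReal_cos, Complex.ofReal_sin]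

open Real in
theorem mvi {q : ℂ → ℂ} {z : ℂ} {r : ℝ} (hr : 0 < r)
    (hq : DifferentiableOn ℂ q (closedBall z r)) :
    ENNReal.ofReal (π * r ^ 2 / 2) * ‖q z‖ₑ ≤ ∫⁻ w in closedBall z r, ‖q w‖ₑ := by
  set G : ℂ → ℝ≥0∞ := (closedBall (0 : ℂ) r).indicator (fun w => ‖q (z + w)‖ₑ) with hG
  have hpi := Real.pi_pos
  have hGm : Measurable G := by
    have hc : ContinuousOn (fun w : ℂ => ‖q (z + w)‖ₑ) (closedBall (0 : ℂ) r) := by
      refine continuous_enorm.comp_continuousOn ?_
      refine hq.continuousOn.comp (by fun_prop) ?_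
      intro w hw
      rw [mem_closedBall, dist_zero_right] at hw
      simpa [mem_closedBall, dist_eq_norm] using hw
    rw [hG]
    classical
    have := ContinuousOn.measurable_piecewise (s := closedBall (0 : ℂ) r)
      (f := fun w : ℂ => ‖q (z + w)‖ₑ) (g := (0 : ℂ → ℝ≥0∞)) hc continuousOn_const
      measurableSet_closedBall
    rwa [Set.piecewise_eq_indicator] at this
  have h1 : ∫⁻ w in closedBall z r, ‖q w‖ₑ = ∫⁻ w, G w := by
    rw [← lintegral_indicator measurableSet_closedBall]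
    rw [← lintegral_add_left_eq_self _ z]
    refine lintegral_congr fun w => ?_
    rw [hG]
    by_cases hw : w ∈ closedBall (0 : ℂ) r
    · rw [indicator_of_mem hw, indicator_of_mem]
      rw [mem_closedBall, dist_zero_right] at hw
      simpa [mem_closedBall, dist_eq_norm] using hw
    · rw [indicator_of_notMem hw, indicator_of_notMem]
      rw [mem_closedBall, dist_zero_right] at hw
      simpa [mem_closedBall, dist_eq_norm] using hw
  have h2 : ∫⁻ w, G w = ∫⁻ s in Ioi (0 : ℝ), ∫⁻ θ in Ioo (-π) π,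
      ENNReal.ofReal s * G (s * (Real.cos θ + Real.sin θ * Complex.I)) := by
    rw [← Complex.lintegral_comp_polarCoord_symm, polarCoord_target, Measure.volume_eq_prod,
      ← Measure.prod_restrict]
    rw [lintegral_prod]
    · simp only [Complex.polarCoord_symm_apply, smul_eq_mul]
    · refine Measurable.aemeasurable ?_
      simp only [Complex.polarCoord_symm_apply, smul_eq_mul]
      refine (by fun_prop : Measurable fun p : ℝ × ℝ => ENNReal.ofReal p.1).mul ?_
      refine hGm.comp ?_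
      fun_prop
  have h3 : ∀ s : ℝ, s ∈ Ioc (r / 2) r → ENNReal.ofReal (π * r) * ‖q z‖ₑ ≤
      ∫⁻ θ in Ioo (-π) π, ENNReal.ofReal s * G (s * (Real.cos θ + Real.sin θ * Complex.I)) := by
    rintro s ⟨hs1, hs2⟩
    have hs0 : 0 < s := by linarith
    have h4 := circ hs0 (hq.mono (closedBall_subset_closedBall hs2))
    have h5 : ∫⁻ θ in Ioo (-π) π, ENNReal.ofReal s *
          G (s * (Real.cos θ + Real.sin θ * Complex.I)) =
        ENNReal.ofReal s *
          ∫⁻ θ in Ioo (-π) π, ‖q (z + s * (Real.cos θ + Real.sin θ * Complex.I))‖ₑ := by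
      rw [← lintegral_const_mul' _ _ ENNReal.ofReal_ne_top]
      refine lintegral_congr fun θ => ?_
      congr 1
      rw [hG, indicator_of_mem]
      rw [mem_closedBall, dist_zero_right, norm_mul]
      have h6 : ‖(Real.cos θ + Real.sin θ * Complex.I : ℂ)‖ = 1 := by
        have := Complex.norm_exp_ofReal_mul_I θ
        rwa [Complex.exp_mul_I, ← Complex.ofReal_cos, ← Complex.ofReal_sin] at this
      rw [h6, mul_one, Complex.norm_real, Real.norm_of_nonneg hs0.le]
      exact hs2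
    rw [h5]
    have h7 : ENNReal.ofReal (π * r) ≤ ENNReal.ofReal s * ENNReal.ofReal (2 * π) := by
      rw [← ENNReal.ofReal_mul hs0.le]
      refine ENNReal.ofReal_le_ofReal ?_
      nlinarith
    calc ENNReal.ofReal (π * r) * ‖q z‖ₑ ≤ (ENNReal.ofReal s * ENNReal.ofReal (2 * π)) * ‖q z‖ₑ :=
          mul_le_mul_left h7 _
      _ = ENNReal.ofReal s * (ENNReal.ofReal (2 * π) * ‖q z‖ₑ) := mul_assoc _ _ _
      _ ≤ _ := mul_le_mul_right h4 _
  rw [h1, h2]
  calc ENNReal.ofReal (π * r ^ 2 / 2) * ‖q z‖ₑ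
      = (ENNReal.ofReal (π * r) * ‖q z‖ₑ) * volume (Ioc (r / 2) r) := by
        rw [Real.volume_Ioc, mul_right_comm, ← ENNReal.ofReal_mul (by positivity)]
        congr 2
        ring
    _ = ∫⁻ _ in Ioc (r / 2) r, (ENNReal.ofReal (π * r) * ‖q z‖ₑ) := by
        rw [setLIntegral_const]
    _ ≤ ∫⁻ s in Ioc (r / 2) r, ∫⁻ θ in Ioo (-π) π,
          ENNReal.ofReal s * G (s * (Real.cos θ + Real.sin θ * Complex.I)) :=
        setLIntegral_mono' measurableSet_Ioc h3
    _ ≤ _ := by
        refine lintegral_mono_set ?_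
        intro s hs
        have := hs.1
        simp only [mem_Ioi]
        linarith

theorem mvi' {q : ℂ → ℂ} {z : ℂ} {r : ℝ} (hr : 0 < r) {L : Set ℂ} (hL : closedBall z r ⊆ L)
    (hi : IntegrableOn q L)
    (hq : DifferentiableOn ℂ q (closedBall z r)) :
    (Real.pi * r ^ 2 / 2) * ‖q z‖ ≤ ∫ w in L, ‖q w‖ := by
  have h1 := mvi hr hq
  have h2 : ∫⁻ w in closedBall z r, ‖q w‖ₑ ≤ ∫⁻ w in L, ‖q w‖ₑ := lintegral_mono_set hL
  have h3 : ENNReal.ofReal (∫ w in L, ‖q w‖) = ∫⁻ w in L, ‖q w‖ₑ := by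
    rw [ofReal_integral_norm_eq_lintegral_enorm hi]
  have h4 : ENNReal.ofReal ((Real.pi * r ^ 2 / 2) * ‖q z‖) =
      ENNReal.ofReal (Real.pi * r ^ 2 / 2) * ‖q z‖ₑ := by
    have hpi := Real.pi_pos
    rw [ENNReal.ofReal_mul (by positivity), ofReal_norm]
  have h5 := h1.trans h2
  rw [← h3, ← h4] at h5
  exact (ENNReal.ofReal_le_ofReal_iff (integral_nonneg fun _ => norm_nonneg _)).mp h5

end MV_

open MV_

theorem mv_proof (hUnf : Stmt_Unf) : Stmt_Mv := by
  intro S
  obtain ⟨r, hr, hrL⟩ := S.compact.exists_cthickening_subset_open isOpen_Hp S.sub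
  set L := cthickening r S.K with hLdef
  have hLc : IsCompact L := S.compact.cthickening
  obtain ⟨T, hT1, hT2⟩ := S.exists_T S.compact S.sub hLc hrL
  have hpi := Real.pi_pos
  have hm := mult_pos S
  refine ⟨(Real.pi * r ^ 2 / 2)⁻¹ * ((mult S)⁻¹ * T.card), fun q hq z hz => ?_⟩
  have hqc : ContinuousOn q Hp := hq.hol.continuousOn
  have hLi : IntegrableOn q L := (hqc.mono hrL).integrableOn_compact hLc
  have hb : closedBall z r ⊆ L := by
    intro w hw
    exact mem_cthickening_of_dist_le w z r S.K hz hw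
  have h1 := mvi' hr hb hLi (hq.hol.mono (hb.trans hrL))
  -- unfolding
  set f : ℂ → ℂ := L.indicator (fun z => ((‖q z‖ : ℝ) : ℂ)) with hf
  have hfi : Integrable f := by
    rw [hf, integrable_indicator_iff hLc.measurableSet]
    exact hLi.norm.ofReal
  have hf0 : ∀ z, z ∉ L → f z = 0 := fun z hz => indicator_of_notMem hz _
  obtain ⟨h2, h3⟩ := hUnf S L f hLc hrL hfi hf0 T hT1
    (fun g hg z hz hgz => hT2 g hg z (S.subD hz) hgz)
  have h4 : ∫ z, f z = ((∫ w in L, ‖q w‖ : ℝ) : ℂ) := by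
    rw [hf, integral_indicator hLc.measurableSet, integral_complex_ofReal]
  rw [h4] at h3
  have hbound : ∀ z ∈ S.D, ‖∑ g ∈ T, f (mob g z) * (((‖den g z‖ ^ 4)⁻¹ : ℝ) : ℂ)‖ ≤
      T.card * ‖q z‖ := by
    intro z hz
    have hzH := S.D_sub hz
    refine (norm_sum_le _ _).trans ?_
    rw [← nsmul_eq_mul]
    refine Finset.sum_le_card_nsmul _ _ _ fun g hg => ?_
    have hd := norm_den_pos g hzH
    rw [norm_mul, Complex.norm_real, Real.norm_of_nonneg (by positivity)]
    have h5 : ‖f (mob g z)‖ ≤ ‖den g z‖ ^ 4 * ‖q z‖ := by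
      rw [hf]
      refine (norm_indicator_le_norm_self _ _).trans ?_
      rw [Complex.norm_real, norm_norm, hq.aut g (hT1 g hg) z hzH, norm_mul, norm_pow]
    calc ‖f (mob g z)‖ * (‖den g z‖ ^ 4)⁻¹ ≤ (‖den g z‖ ^ 4 * ‖q z‖) * (‖den g z‖ ^ 4)⁻¹ :=
          mul_le_mul_of_nonneg_right h5 (by positivity)
      _ = ‖q z‖ := by field_simp
  have hqD : IntegrableOn (fun z => ‖q z‖) S.D := (integrableOn_of_cont S hqc).norm
  have h6 : ‖∫ z in S.D, ∑ g ∈ T, f (mob g z) * (((‖den g z‖ ^ 4)⁻¹ : ℝ) : ℂ)‖ ≤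
      ∫ z in S.D, T.card * ‖q z‖ := by
    refine norm_integral_le_of_norm_le (hqD.const_mul _) ?_
    exact (ae_restrict_iff' S.meas).mpr (Eventually.of_forall hbound)
  rw [h3, norm_mul, Complex.norm_real, Complex.norm_real, Real.norm_of_nonneg hm.le,
    Real.norm_of_nonneg (integral_nonneg fun _ => norm_nonneg _), integral_const_mul] at h6
  have h7 : ‖q z‖ ≤ (Real.pi * r ^ 2 / 2)⁻¹ * ∫ w in L, ‖q w‖ := by
    rw [le_inv_mul_iff₀ (by positivity)]
    exact h1
  have h8 : ∫ w in L, ‖q w‖ ≤ (mult S)⁻¹ * (T.card * ∫ z in S.D, ‖q z‖) := by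
    rw [le_inv_mul_iff₀ hm]
    exact h6
  calc ‖q z‖ ≤ (Real.pi * r ^ 2 / 2)⁻¹ * ∫ w in L, ‖q w‖ := h7
    _ ≤ (Real.pi * r ^ 2 / 2)⁻¹ * ((mult S)⁻¹ * (T.card * ∫ z in S.D, ‖q z‖)) :=
        mul_le_mul_of_nonneg_left h8 (by positivity)
    _ = _ := by ring

end

end Pool.Agent.TNP
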