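import Pool.Agent.TNP.Stmts

/-!
# TNP, module MAIN: assembly
-/

open scoped ContDiff Topology ComplexConjugate
open Set Metric MeasureTheory Filter

namespace Pool.Agent.TNP

noncomputable section

namespace MAIN_

theorem circleAverage_translate (u : ℂ → ℝ) (c : ℂ) (r : ℝ) :
    Real.circleAverage u c r = Real.circleAverage (fun s => u (c + s)) 0 r := by
  unfold Real.circleAverage
  congr 1
  refine intervalIntegral.integral_congr fun θ _ => ?_
  simp only [circleMap, zero_add]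

theorem chart_mono {X : ℂ → Surf} {κ : ℂ → ℂ → ℂ} {t₀ : ℂ} {δ δ' : ℝ} {w μ ν : ℂ → ℂ → ℂ}
    (h : Chart X κ t₀ δ w μ ν) (hδ : δ' ≤ δ) : Chart X κ t₀ δ' w μ ν where
  qc := fun t ht => h.qc t (ball_subset_ball hδ ht)
  center := h.center
  μsm := h.μsm.mono (prod_mono (ball_subset_ball hδ) subset_rfl)
  μhol := fun z hz => (h.μhol z hz).mono (ball_subset_ball hδ)
  νsm := h.νsm.mono (prod_mono (ball_subset_ball hδ) subset_rfl)
  νhol := fun z hz => (h.νhol z hz).mono (ball_subset_ball hδ)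
  νaut := fun t ht => h.νaut t (ball_subset_ball hδ ht)
  pair := fun t ht => h.pair t (ball_subset_ball hδ ht)

end MAIN_

open MAIN_ in
theorem main_proof (hLoc : Stmt_Loc) (hCont : Stmt_Cont) (hSubM : Stmt_SubM) (hPriv : Stmt_Priv) :
    Stmt_Main := by
  intro U X κ hU hD
  have hloc : ∀ t₀ ∈ U, ∃ (δ : ℝ) (μ ν : ℂ → ℂ → ℂ), 0 < δ ∧ ball t₀ δ ⊆ U ∧
      Loc (X t₀) δ (fun s => F (X (t₀ + s)) (κ (t₀ + s))) μ ν := by
    intro t₀ ht₀
    obtain ⟨δ, w, μ, ν, hδ, hsub, hch⟩ := hD.chart t₀ ht₀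
    exact ⟨δ, _, _, hδ, hsub, hLoc X κ t₀ δ w μ ν hδ (fun t ht => hD.bel t (hsub ht)) hch⟩
  have hcont : ContinuousOn (fun t => F (X t) (κ t)) U := by
    intro t₀ ht₀
    obtain ⟨δ, μ, ν, hδ, hsub, hL⟩ := hloc t₀ ht₀
    have h1 := hCont _ _ _ _ _ hL
    have h2 : ContinuousAt (fun t => F (X (t₀ + (t - t₀))) (κ (t₀ + (t - t₀)))) t₀ := by
      have h3 : ContinuousAt (fun t : ℂ => t - t₀) t₀ :=
        (continuous_id.sub continuous_const).continuousAt
      refine ContinuousAt.comp (g := fun s => F (X (t₀ + s)) (κ (t₀ + s)))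
        (f := fun t : ℂ => t - t₀) ?_ h3
      rw [sub_self]
      exact h1
    have h4 : (fun t => F (X (t₀ + (t - t₀))) (κ (t₀ + (t - t₀)))) = fun t => F (X t) (κ t) := by
      funext t
      rw [add_sub_cancel]
    rw [h4] at h2
    exact h2.continuousWithinAt
  refine ⟨hcont, hPriv U _ hU hcont ?_⟩
  intro c hc η hη
  obtain ⟨δ, μ, ν, hδ, hsub, hL⟩ := hloc c hc
  have h1 : ContinuousOn (fun s => F (X (c + s)) (κ (c + s))) (ball 0 δ) := by
    refine hcont.comp (f := fun s : ℂ => c + s) (continuous_const.add continuous_id).continuousOn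
      fun s hs => hsub ?_
    rw [mem_ball, dist_eq_norm, add_sub_cancel_left]
    rwa [mem_ball_zero_iff] at hs
  obtain ⟨r0, hr0, h2⟩ := hSubM _ _ _ _ _ hL h1 η hη
  refine ⟨r0, hr0, fun r hr hr' => ?_⟩
  have h3 := h2 r hr hr'
  rw [circleAverage_translate]
  simpa using h3

end

end Pool.Agent.TNP
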