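import Pool.Agent.TNP.Stmts

/-!
# TNP: MOP, multiplication operators
-/

open scoped ContDiff Topology ComplexConjugate
open Set Metric MeasureTheory Filter

namespace Pool.Agent.TNP

namespace Mop_

noncomputable section

variable {α : Type*} [MeasurableSpace α] {m : Measure α} {a : α → ℂ} {M : ℝ}

lemma memLp (ha : AEStronglyMeasurable a m) (hM : ∀ᵐ z ∂m, ‖a z‖ ≤ M) (f : Lp ℂ 2 m) :
    MemLp (fun z => a z * f z) 2 m := by
  refine (Lp.memLp f).of_le_mul (c := M) (ha.mul (Lp.aestronglyMeasurable f)) ?_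
  filter_upwards [hM] with z hz
  rw [norm_mul]
  exact mul_le_mul_of_nonneg_right hz (norm_nonneg _)

/-- the multiplication operator -/
def op (ha : AEStronglyMeasurable a m) (hM : ∀ᵐ z ∂m, ‖a z‖ ≤ M) : Lp ℂ 2 m →L[ℂ] Lp ℂ 2 m :=
  LinearMap.mkContinuous
    { toFun := fun f => (memLp ha hM f).toLp (fun z => a z * f z)
      map_add' := by
        intro f g
        apply Lp.ext
        filter_upwards [(memLp ha hM (f + g)).coeFn_toLp, (memLp ha hM f).coeFn_toLp,
          (memLp ha hM g).coeFn_toLp, Lp.coeFn_add f g,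
          Lp.coeFn_add ((memLp ha hM f).toLp (fun z => a z * f z))
            ((memLp ha hM g).toLp (fun z => a z * g z))] with z h1 h2 h3 h4 h5
        rw [h1, h5, Pi.add_apply, h2, h3, h4, Pi.add_apply, mul_add]
      map_smul' := by
        intro c f
        apply Lp.ext
        filter_upwards [(memLp ha hM (c • f)).coeFn_toLp, (memLp ha hM f).coeFn_toLp,
          Lp.coeFn_smul c f,
          Lp.coeFn_smul c ((memLp ha hM f).toLp (fun z => a z * f z))] with z h1 h2 h3 h4
        rw [h1, RingHom.id_apply, h4, Pi.smul_apply, h2, h3, Pi.smul_apply, smul_eq_mul,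
          smul_eq_mul]
        ring }
    M (by
      intro f
      refine Lp.norm_le_mul_norm_of_ae_le_mul ?_
      filter_upwards [(memLp ha hM f).coeFn_toLp, hM] with z h1 h2
      simp only [LinearMap.coe_mk, AddHom.coe_mk]
      rw [h1, norm_mul]
      exact mul_le_mul_of_nonneg_right h2 (norm_nonneg _))

lemma op_norm (ha : AEStronglyMeasurable a m) (hM : ∀ᵐ z ∂m, ‖a z‖ ≤ M) (h0 : 0 ≤ M) :
    ‖op ha hM‖ ≤ M := LinearMap.mkContinuous_norm_le _ h0 _

lemma op_apply (ha : AEStronglyMeasurable a m) (hM : ∀ᵐ z ∂m, ‖a z‖ ≤ M) (f : Lp ℂ 2 m) :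
    (op ha hM f : α → ℂ) =ᵐ[m] fun z => a z * f z := (memLp ha hM f).coeFn_toLp

end

end Mop_

theorem mop_proof : Stmt_Mop := by
  intro S a M ha h0 hM
  have hM' : ∀ᵐ z ∂(volume.restrict S.D), ‖a z‖ ≤ M :=
    (ae_restrict_iff' S.meas).mpr (Eventually.of_forall fun z hz => hM z hz)
  exact ⟨Mop_.op ha hM', Mop_.op_norm ha hM' h0, Mop_.op_apply ha hM'⟩

end Pool.Agent.TNP
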