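import Pool.Agent.TNP.Stmts

/-!
# TNP / OPER: the bounded operators `∂̄χ ↦ ∂χ` and `∂̄χ ↦ χ` on `L²(D)`
-/

open scoped ContDiff Topology ComplexConjugate
open Set Metric MeasureTheory Filter

namespace Pool.Agent.TNP

noncomputable section

namespace OPER_

theorem ext_bdd {H F E : Type*} [NormedAddCommGroup H] [InnerProductSpace ℂ H] [CompleteSpace H]
    [NormedAddCommGroup F] [NormedSpace ℂ F] [CompleteSpace F] [AddCommGroup E] [Module ℂ E]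
    (f : E →ₗ[ℂ] F) (e : E →ₗ[ℂ] H) (C : ℝ) (h : ∀ x, ‖f x‖ ≤ C * ‖e x‖) :
    ∃ P : H →L[ℂ] F, ∀ x, P (e x) = f x := by
  set K : Submodule ℂ H := (LinearMap.range e).topologicalClosure with hKdef
  have hK : ∀ x, e x ∈ K := fun x => Submodule.le_topologicalClosure _ ⟨x, rfl⟩
  let e' : E →ₗ[ℂ] K := e.codRestrict K hK
  have hd : DenseRange e' := by
    intro y
    rw [closure_subtype]
    have h1 : ((↑) : K → H) '' range e' = range e := by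
      ext z
      constructor
      · rintro ⟨_, ⟨x, rfl⟩, rfl⟩
        exact ⟨x, rfl⟩
      · rintro ⟨x, rfl⟩
        exact ⟨e' x, ⟨x, rfl⟩, rfl⟩
    rw [h1]
    have h2 : (y : H) ∈ ((LinearMap.range e).topologicalClosure : Set H) := y.2
    rw [Submodule.topologicalClosure_coe] at h2
    exact h2
  have : CompleteSpace K := (Submodule.isClosed_topologicalClosure _).completeSpace_coe
  refine ⟨(f.extendOfNorm e').comp K.orthogonalProjectionOnto, fun x => ?_⟩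
  have h1 : K.orthogonalProjectionOnto (e x) = e' x :=
    Submodule.orthogonalProjectionOnto_mem_subspace_eq_self (⟨e x, hK x⟩ : K)
  rw [ContinuousLinearMap.comp_apply, h1]
  exact LinearMap.extendOfNorm_eq hd ⟨C, h⟩ x

theorem norm_sq_Lp {μ : Measure ℂ} (f : Lp ℂ 2 μ) : ‖f‖ ^ 2 = ∫ z, ‖f z‖ ^ 2 ∂μ := by
  rw [← inner_self_eq_norm_sq (𝕜 := ℂ), L2.inner_def]
  have h1 : ∀ z, inner ℂ (f z) (f z) = ((‖f z‖ ^ 2 : ℝ) : ℂ) := by
    intro z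
    rw [inner_self_eq_norm_sq_to_K]
    norm_cast
  simp only [h1]
  have h2 : ∫ z, ((‖f z‖ ^ 2 : ℝ) : ℂ) ∂μ = ((∫ z, ‖f z‖ ^ 2 ∂μ : ℝ) : ℂ) := integral_ofReal
  rw [h2]
  rfl

theorem norm_sq_toLp {μ : Measure ℂ} {f : ℂ → ℂ} (hf : MemLp f 2 μ) :
    ‖hf.toLp f‖ ^ 2 = ∫ z, ‖f z‖ ^ 2 ∂μ := by
  rw [norm_sq_Lp]
  refine integral_congr_ae ?_
  filter_upwards [hf.coeFn_toLp] with z hz
  rw [hz]

/-- The vector fields. -/
def vf (S : Surf) : Submodule ℂ (ℂ → ℂ) where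
  carrier := {χ | VF S χ}
  add_mem' := by
    intro a b ha hb
    exact ⟨ha.sm.add hb.sm, ha.aut.add hb.aut⟩
  zero_mem' := by
    refine ⟨sm_const 0, ?_⟩
    intro g _ z _
    simp
  smul_mem' := by
    intro c a ha
    refine ⟨(sm_const c).mul ha.sm, ?_⟩
    intro g hg z hz
    simp only [Pi.smul_apply, smul_eq_mul]
    rw [ha.aut g hg z hz]
    ring

theorem l2_of_sm (S : Surf) {f : ℂ → ℂ} (hf : Sm f) : L2 S f := (bd_of_cont S hf.cont).L2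

/-- A linear operator on vector fields with values in smooth functions. -/
def opL (S : Surf) (T : (ℂ → ℂ) → ℂ → ℂ) (hT : ∀ χ, VF S χ → Sm (T χ))
    (hadd : ∀ a b, VF S a → VF S b → ∀ z ∈ Hp, T (a + b) z = T a z + T b z)
    (hsmul : ∀ (c : ℂ) a, VF S a → ∀ z ∈ Hp, T (c • a) z = c * T a z) :
    vf S →ₗ[ℂ] Lp ℂ 2 (volume.restrict S.D) where
  toFun χ := (l2_of_sm S (hT χ.1 χ.2)).toLp (T χ.1)
  map_add' := by
    intro a b
    apply Lp.ext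
    filter_upwards [(l2_of_sm S (hT (a + b).1 (a + b).2)).coeFn_toLp,
      Lp.coeFn_add ((l2_of_sm S (hT a.1 a.2)).toLp (T a.1)) ((l2_of_sm S (hT b.1 b.2)).toLp (T b.1)),
      (l2_of_sm S (hT a.1 a.2)).coeFn_toLp, (l2_of_sm S (hT b.1 b.2)).coeFn_toLp,
      ae_restrict_mem S.meas] with z h1 h2 h3 h4 hz
    rw [h1, h2, Pi.add_apply, h3, h4]
    exact hadd a.1 b.1 a.2 b.2 z (S.D_sub hz)
  map_smul' := by
    intro c a
    apply Lp.ext
    filter_upwards [(l2_of_sm S (hT (c • a).1 (c • a).2)).coeFn_toLp,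
      Lp.coeFn_smul c ((l2_of_sm S (hT a.1 a.2)).toLp (T a.1)),
      (l2_of_sm S (hT a.1 a.2)).coeFn_toLp, ae_restrict_mem S.meas] with z h1 h2 h3 hz
    rw [h1]
    simp only [RingHom.id_apply]
    rw [h2, Pi.smul_apply, h3]
    exact hsmul c a.1 a.2 z (S.D_sub hz)

end OPER_

open OPER_ in
theorem oper_proof (hCoer : Stmt_Coer) : Stmt_Oper := by
  intro S
  obtain ⟨C, hC⟩ := hCoer S
  have hdb_add : ∀ a b, VF S a → VF S b → ∀ z ∈ Hp, db (a + b) z = db a z + db b z :=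
    fun a b ha hb z hz => db_add (ha.sm.diff hz) (hb.sm.diff hz)
  have hdz_add : ∀ a b, VF S a → VF S b → ∀ z ∈ Hp, dz (a + b) z = dz a z + dz b z :=
    fun a b ha hb z hz => dz_add (ha.sm.diff hz) (hb.sm.diff hz)
  have hdb_smul : ∀ (c : ℂ) a, VF S a → ∀ z ∈ Hp, db (c • a) z = c * db a z :=
    fun c a ha z hz => db_const_mul c (ha.sm.diff hz)
  have hdz_smul : ∀ (c : ℂ) a, VF S a → ∀ z ∈ Hp, dz (c • a) z = c * dz a z :=
    fun c a ha z hz => dz_const_mul c (ha.sm.diff hz)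
  set e := opL S db (fun χ h => h.sm.db) hdb_add hdb_smul with he
  set f1 := opL S dz (fun χ h => h.sm.dz) hdz_add hdz_smul with hf1
  set f2 := opL S (fun χ => χ) (fun χ h => h.sm) (fun a b _ _ z _ => rfl) (fun c a _ z _ => rfl)
    with hf2
  have hen : ∀ χ : vf S, ‖e χ‖ ^ 2 = ∫ z in S.D, ‖db χ.1 z‖ ^ 2 := fun χ =>
    norm_sq_toLp (l2_of_sm S χ.2.sm.db)
  have hf1n : ∀ χ : vf S, ‖f1 χ‖ ^ 2 = ∫ z in S.D, ‖dz χ.1 z‖ ^ 2 := fun χ =>
    norm_sq_toLp (l2_of_sm S χ.2.sm.dz)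
  have hf2n : ∀ χ : vf S, ‖f2 χ‖ ^ 2 = ∫ z in S.D, ‖χ.1 z‖ ^ 2 := fun χ =>
    norm_sq_toLp (l2_of_sm S χ.2.sm)
  have hmain : ∀ χ : vf S, ‖f2 χ‖ ^ 2 + ‖f1 χ‖ ^ 2 ≤ C * ‖e χ‖ ^ 2 := by
    intro χ
    rw [hen, hf1n, hf2n]
    exact hC χ.1 χ.2
  have hsq : ∀ x y : ℝ, 0 ≤ y → x ^ 2 ≤ C * y ^ 2 → x ≤ Real.sqrt (max C 0) * y := by
    intro x y hy hxy
    apply le_of_sq_le_sq _ (by positivity)
    rw [mul_pow, Real.sq_sqrt (le_max_right _ _)]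
    exact hxy.trans (mul_le_mul_of_nonneg_right (le_max_left _ _) (sq_nonneg y))
  obtain ⟨P1, hP1⟩ := ext_bdd f1 e (Real.sqrt (max C 0)) (fun χ => by
    refine hsq _ _ (norm_nonneg _) ?_
    have := hmain χ
    nlinarith [sq_nonneg ‖f2 χ‖])
  obtain ⟨P2, hP2⟩ := ext_bdd f2 e (Real.sqrt (max C 0)) (fun χ => by
    refine hsq _ _ (norm_nonneg _) ?_
    have := hmain χ
    nlinarith [sq_nonneg ‖f1 χ‖])
  refine ⟨P1, P2, fun χ hχ f hf => ?_⟩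
  have hfe : f = e ⟨χ, hχ⟩ := by
    apply Lp.ext
    exact hf.trans (l2_of_sm S hχ.sm.db).coeFn_toLp.symm
  rw [hfe, hP1, hP2]
  exact ⟨(l2_of_sm S hχ.sm.dz).coeFn_toLp, (l2_of_sm S hχ.sm).coeFn_toLp⟩

end

end Pool.Agent.TNP
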