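import Pool.Agent.TNP.Stmts

/-!
# PABS: perturbation of annihilators, abstract version

`T t = 1 + t E1 + t^2 E2 + O(t^3)` is invertible for small `t` with inverse of norm at most `2`.
First half: `L t = (ℓ + t (m + ℓ ∘ E1)) ∘ (T t)⁻¹`, with `ℓ2 = -(ℓ ∘ E2 + m ∘ E1)`.
Second half: `k = ℓ ∘ T t`.
-/

namespace Pool.Agent.TNP

open Metric Set

namespace PAbs_

variable {E : Type} [NormedAddCommGroup E] [NormedSpace ℂ E] [CompleteSpace E]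

theorem inv_exists (T : E →L[ℂ] E) (h : ‖T - 1‖ ≤ 1 / 2) :
    ∃ U : E →L[ℂ] E, T * U = 1 ∧ U * T = 1 ∧ ‖U‖ ≤ 2 := by
  have h1 : ‖1 - T‖ < 1 := by
    rw [norm_sub_rev]; linarith
  obtain ⟨u, hu⟩ : ∃ u : (E →L[ℂ] E)ˣ, (u : E →L[ℂ] E) = T :=
    ⟨Units.oneSub (1 - T) h1, by simp⟩
  have hTU : T * ((u⁻¹ : (E →L[ℂ] E)ˣ) : E →L[ℂ] E) = 1 := by
    rw [← hu]; exact u.mul_inv
  have hUT : ((u⁻¹ : (E →L[ℂ] E)ˣ) : E →L[ℂ] E) * T = 1 := by
    rw [← hu]; exact u.inv_mul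
  refine ⟨((u⁻¹ : (E →L[ℂ] E)ˣ) : E →L[ℂ] E), hTU, hUT, ?_⟩
  generalize ((u⁻¹ : (E →L[ℂ] E)ˣ) : E →L[ℂ] E) = U at *
  have h2 : U = 1 - (T - 1) * U := by
    rw [sub_mul, one_mul, hTU]; abel
  have h3 : ‖U‖ ≤ 1 + 1 / 2 * ‖U‖ := by
    calc ‖U‖ = ‖1 - (T - 1) * U‖ := by rw [← h2]
      _ ≤ ‖(1 : E →L[ℂ] E)‖ + ‖(T - 1) * U‖ := norm_sub_le _ _
      _ ≤ 1 + ‖T - 1‖ * ‖U‖ :=
          add_le_add ContinuousLinearMap.norm_id_le (norm_mul_le _ _)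
      _ ≤ 1 + 1 / 2 * ‖U‖ := by
          have := norm_nonneg U
          nlinarith
  linarith

omit [CompleteSpace E] in
/-- the radius and the constant -/
theorem small (δ M : ℝ) (T : ℂ → E →L[ℂ] E) (E1 E2 : E →L[ℂ] E) (hδ : 0 < δ)
    (hT : ∀ t ∈ ball (0 : ℂ) δ, ‖T t - 1 - t • E1 - t ^ 2 • E2‖ ≤ M * ‖t‖ ^ 3) :
    ∃ δ' A : ℝ, 0 < δ' ∧ δ' ≤ δ ∧ δ' ≤ 1 ∧ 0 ≤ A ∧ ∀ t ∈ ball (0 : ℂ) δ',
      ‖T t - 1‖ ≤ A * ‖t‖ ∧ ‖T t - 1‖ ≤ 1 / 2 := by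
  have hA : 0 < ‖E1‖ + ‖E2‖ + |M| + 1 := by positivity
  refine ⟨min δ (min 1 (1 / (2 * (‖E1‖ + ‖E2‖ + |M| + 1)))), ‖E1‖ + ‖E2‖ + |M| + 1,
    lt_min hδ (lt_min one_pos (by positivity)), min_le_left _ _,
    (min_le_right _ _).trans (min_le_left _ _), hA.le, ?_⟩
  intro t ht
  rw [mem_ball_zero_iff, lt_min_iff, lt_min_iff] at ht
  obtain ⟨h1, h2, h3⟩ := ht
  have hb := hT t (mem_ball_zero_iff.2 h1)
  have ht0 := norm_nonneg t
  have h4 : ‖T t - 1‖ ≤ (‖E1‖ + ‖E2‖ + |M| + 1) * ‖t‖ := by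
    have e : T t - 1 = (T t - 1 - t • E1 - t ^ 2 • E2) + t • E1 + t ^ 2 • E2 := by abel
    calc ‖T t - 1‖ = ‖(T t - 1 - t • E1 - t ^ 2 • E2) + t • E1 + t ^ 2 • E2‖ := by rw [← e]
      _ ≤ ‖T t - 1 - t • E1 - t ^ 2 • E2‖ + ‖t • E1‖ + ‖t ^ 2 • E2‖ := norm_add₃_le
      _ ≤ M * ‖t‖ ^ 3 + ‖t‖ * ‖E1‖ + ‖t‖ ^ 2 * ‖E2‖ := by
          rw [norm_smul, norm_smul, norm_pow]
          linarith
      _ ≤ (‖E1‖ + ‖E2‖ + |M| + 1) * ‖t‖ := by
          have hM := le_abs_self M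
          have hM0 := abs_nonneg M
          have a2 : ‖t‖ ^ 2 ≤ ‖t‖ := by nlinarith
          have a3 : ‖t‖ ^ 3 ≤ ‖t‖ := by nlinarith [sq_nonneg ‖t‖]
          have b1 : M * ‖t‖ ^ 3 ≤ |M| * ‖t‖ :=
            (mul_le_mul_of_nonneg_right hM (by positivity)).trans
              (mul_le_mul_of_nonneg_left a3 hM0)
          have b2 : ‖t‖ ^ 2 * ‖E2‖ ≤ ‖t‖ * ‖E2‖ :=
            mul_le_mul_of_nonneg_right a2 (norm_nonneg _)
          nlinarith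
  refine ⟨h4, h4.trans ?_⟩
  rw [lt_div_iff₀ (by positivity)] at h3
  nlinarith

end PAbs_

open PAbs_

theorem pabs_proof : Stmt_PAbs := by
  intro E _ _ _ V δ M T E1 E2 hδ hT
  obtain ⟨δ', A, hδ', hδδ, hδ1, hA, hsm⟩ := small δ M T E1 E2 hδ hT
  have hinv : ∀ t ∈ ball (0 : ℂ) δ', ∃ U : E →L[ℂ] E, T t * U = 1 ∧ U * T t = 1 ∧ ‖U‖ ≤ 2 :=
    fun t ht => inv_exists (T t) (hsm t ht).2
  choose! U hTU hUT hU using hinv
  constructor
  · intro ℓ m hℓ hm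
    set l2 : E →L[ℂ] ℂ := -(ℓ.comp E2 + m.comp E1) with hl2
    refine ⟨δ', (‖l2.comp E1 + m.comp E2‖ + ‖l2.comp E2‖ + (‖ℓ‖ + ‖m‖ + ‖l2‖) * |M|) * 2, l2,
      fun t => (ℓ + t • (m + ℓ.comp E1)).comp (U t), hδ', hδδ, ?_⟩
    intro t ht
    have hUTv : ∀ v, U t (T t v) = v := fun v => by
      have := congrArg (fun S : E →L[ℂ] E => S v) (hUT t ht)
      simpa using this
    have hTUv : ∀ v, T t (U t v) = v := fun v => by
      have := congrArg (fun S : E →L[ℂ] E => S v) (hTU t ht)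
      simpa using this
    constructor
    · intro v hv
      simp only [ContinuousLinearMap.comp_apply, hUTv, add_apply,
        smul_apply, hℓ v hv, hm v hv]
      simp
    · have ht1 : ‖t‖ ≤ 1 := by
        rw [mem_ball_zero_iff] at ht; linarith
      have ht0 := norm_nonneg t
      set R : E →L[ℂ] E := T t - 1 - t • E1 - t ^ 2 • E2 with hR
      have hRb : ‖R‖ ≤ |M| * ‖t‖ ^ 3 := by
        have := hT t (ball_subset_ball hδδ ht)
        exact this.trans (mul_le_mul_of_nonneg_right (le_abs_self M) (by positivity))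
      have hTR : T t = 1 + t • E1 + t ^ 2 • E2 + R := by rw [hR]; abel
      have key : (ℓ + t • (m + ℓ.comp E1)).comp (U t) - ℓ - t • m - t ^ 2 • l2 =
          -((t ^ 3 • (l2.comp E1 + m.comp E2) + t ^ 4 • l2.comp E2 +
            (ℓ + t • m + t ^ 2 • l2).comp R).comp (U t)) := by
        have e1 : (ℓ + t • m + t ^ 2 • l2) =
            ((ℓ + t • m + t ^ 2 • l2).comp (T t)).comp (U t) := by
          have : (T t).comp (U t) = ContinuousLinearMap.id ℂ E := hTU t ht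
          rw [ContinuousLinearMap.comp_assoc, this, ContinuousLinearMap.comp_id]
        have e2 : (ℓ + t • m + t ^ 2 • l2).comp (T t) = (ℓ + t • (m + ℓ.comp E1)) +
            (t ^ 3 • (l2.comp E1 + m.comp E2) + t ^ 4 • l2.comp E2 +
            (ℓ + t • m + t ^ 2 • l2).comp R) := by
          rw [hTR]
          ext v
          simp only [hl2, ContinuousLinearMap.comp_apply, add_apply,
            smul_apply, neg_apply, map_add, map_smul,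
            one_apply_eq_self, smul_eq_mul]
          ring
        have e3 : (ℓ + t • (m + ℓ.comp E1)).comp (U t) - ℓ - t • m - t ^ 2 • l2 =
            (ℓ + t • (m + ℓ.comp E1)).comp (U t) - (ℓ + t • m + t ^ 2 • l2) := by abel
        rw [e3]
        generalize (ℓ + t • m + t ^ 2 • l2) = P at e1 e2 ⊢
        generalize (ℓ + t • (m + ℓ.comp E1)) = Q at e2 ⊢
        generalize (t ^ 3 • (l2.comp E1 + m.comp E2) + t ^ 4 • l2.comp E2 + P.comp R) = X at e2 ⊢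
        calc Q.comp (U t) - P = Q.comp (U t) - (Q + X).comp (U t) := by rw [← e2, ← e1]
          _ = -(X.comp (U t)) := by
            rw [ContinuousLinearMap.add_comp]; abel
      rw [key, norm_neg]
      have n1 : ‖t ^ 3 • (l2.comp E1 + m.comp E2)‖ ≤ ‖l2.comp E1 + m.comp E2‖ * ‖t‖ ^ 3 := by
        rw [norm_smul, norm_pow, mul_comm]
      have n2 : ‖t ^ 4 • l2.comp E2‖ ≤ ‖l2.comp E2‖ * ‖t‖ ^ 3 := by
        rw [norm_smul, norm_pow, mul_comm]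
        have : ‖t‖ ^ 4 ≤ ‖t‖ ^ 3 := pow_le_pow_of_le_one ht0 ht1 (by norm_num)
        exact mul_le_mul_of_nonneg_left this (norm_nonneg _)
      have n3 : ‖ℓ + t • m + t ^ 2 • l2‖ ≤ ‖ℓ‖ + ‖m‖ + ‖l2‖ := by
        refine norm_add₃_le.trans ?_
        rw [norm_smul, norm_smul, norm_pow]
        have a1 : ‖t‖ * ‖m‖ ≤ 1 * ‖m‖ := mul_le_mul_of_nonneg_right ht1 (norm_nonneg _)
        have a2 : ‖t‖ ^ 2 * ‖l2‖ ≤ 1 * ‖l2‖ :=
          mul_le_mul_of_nonneg_right (pow_le_one₀ ht0 ht1) (norm_nonneg _)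
        linarith
      have n4 : ‖(ℓ + t • m + t ^ 2 • l2).comp R‖ ≤ (‖ℓ‖ + ‖m‖ + ‖l2‖) * |M| * ‖t‖ ^ 3 := by
        refine (ContinuousLinearMap.opNorm_comp_le _ _).trans ?_
        calc ‖ℓ + t • m + t ^ 2 • l2‖ * ‖R‖ ≤ (‖ℓ‖ + ‖m‖ + ‖l2‖) * (|M| * ‖t‖ ^ 3) :=
              mul_le_mul n3 hRb (norm_nonneg _) (by positivity)
          _ = _ := by ring
      refine (ContinuousLinearMap.opNorm_comp_le _ _).trans ?_
      have n5 : ‖t ^ 3 • (l2.comp E1 + m.comp E2) + t ^ 4 • l2.comp E2 +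
            (ℓ + t • m + t ^ 2 • l2).comp R‖ ≤ (‖l2.comp E1 + m.comp E2‖ + ‖l2.comp E2‖ +
              (‖ℓ‖ + ‖m‖ + ‖l2‖) * |M|) * ‖t‖ ^ 3 := by
        refine norm_add₃_le.trans ?_
        linarith
      calc _ ≤ ((‖l2.comp E1 + m.comp E2‖ + ‖l2.comp E2‖ +
              (‖ℓ‖ + ‖m‖ + ‖l2‖) * |M|) * ‖t‖ ^ 3) * 2 :=
            mul_le_mul n5 (hU t ht) (norm_nonneg _) (by positivity)
        _ = _ := by ring
  · refine ⟨δ', A * 2, hδ', hδδ, by positivity, ?_⟩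
    intro t ht ℓ hℓ
    refine ⟨ℓ.comp (T t), fun v hv => hℓ v hv, ?_⟩
    have e1 : ℓ - ℓ.comp (T t) = -(ℓ.comp (T t - 1)) := by
      ext v
      simp
    have e2 : ℓ = (ℓ.comp (T t)).comp (U t) := by
      have : (T t).comp (U t) = ContinuousLinearMap.id ℂ E := hTU t ht
      rw [ContinuousLinearMap.comp_assoc, this, ContinuousLinearMap.comp_id]
    have e3 : ‖ℓ‖ ≤ ‖ℓ.comp (T t)‖ * 2 := by
      conv_lhs => rw [e2]
      exact (ContinuousLinearMap.opNorm_comp_le _ _).trans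
        (mul_le_mul_of_nonneg_left (hU t ht) (norm_nonneg _))
    rw [e1, norm_neg]
    calc ‖ℓ.comp (T t - 1)‖ ≤ ‖ℓ‖ * ‖T t - 1‖ := ContinuousLinearMap.opNorm_comp_le _ _
      _ ≤ (‖ℓ.comp (T t)‖ * 2) * (A * ‖t‖) :=
          mul_le_mul e3 (hsm t ht).1 (norm_nonneg _) (by positivity)
      _ = A * 2 * ‖t‖ * ‖ℓ.comp (T t)‖ := by ring

end Pool.Agent.TNP
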