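import Pool.Agent.TNP.Stmts

/-!
# TNP: PU, the partition of unity
-/

open scoped ContDiff Topology ComplexConjugate Manifold
open Set Metric MeasureTheory Filter

namespace Pool.Agent.TNP

namespace PU_

noncomputable section

open Classical in
/-- The translate of `b` by `g`, if `g` is in the group. -/
def tr (S : Surf) (b : ℂ → ℝ) (z : ℂ) (g : SL2) : ℝ := if g ∈ S.Γ then b (mob g z) else 0

/-- The sum of all translates. -/
def Bs (S : Surf) (b : ℂ → ℝ) (z : ℂ) : ℝ := ∑ᶠ g : SL2, tr S b z g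

lemma Bs_eq (S : Surf) {b : ℂ → ℝ} {z : ℂ} {T : Finset SL2} (hT : ∀ g ∈ T, g ∈ S.Γ)
    (h : ∀ g ∈ S.Γ, b (mob g z) ≠ 0 → g ∈ T) : Bs S b z = ∑ g ∈ T, b (mob g z) := by
  unfold Bs
  rw [finsum_eq_sum_of_support_subset (s := T)]
  · refine Finset.sum_congr rfl fun g hg => ?_
    unfold tr
    rw [if_pos (hT g hg)]
  · intro g hg
    rw [Function.mem_support] at hg
    unfold tr at hg
    by_cases h1 : g ∈ S.Γ
    · rw [if_pos h1] at hg
      exact h g h1 hg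
    · rw [if_neg h1] at hg
      exact absurd rfl hg

lemma Bs_inv (S : Surf) (b : ℂ → ℝ) {h : SL2} (hh : h ∈ S.Γ) {z : ℂ} (hz : z ∈ Hp) :
    Bs S b (mob h z) = Bs S b z := by
  unfold Bs
  rw [← finsum_comp_equiv (Equiv.mulRight h) (f := tr S b z)]
  refine finsum_congr fun g => ?_
  unfold tr
  rw [Equiv.coe_mulRight, mob_mul g h hz]
  by_cases h1 : g ∈ S.Γ
  · rw [if_pos h1, if_pos (S.Γ.mul_mem h1 hh)]
  · rw [if_neg h1, if_neg]
    intro h2
    exact h1 ((S.Γ.mul_mem_cancel_right hh).mp h2)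

lemma bump (S : Surf) : ∃ (b : ℂ → ℝ) (K' : Set ℂ), ContDiff ℝ ∞ b ∧ IsCompact K' ∧ K' ⊆ Hp ∧
    (∀ z, z ∉ K' → b z = 0) ∧ (∀ z, 0 ≤ b z) ∧ ∀ z ∈ S.K, 0 < b z := by
  obtain ⟨K', hK', hKK', hK'H⟩ := exists_compact_between S.compact isOpen_Hp S.sub
  obtain ⟨f, h0, h1, h2⟩ := exists_contMDiffMap_zero_one_of_isClosed (n := (⊤ : ℕ∞)) 𝓘(ℝ, ℂ)
    (s := (interior K')ᶜ) (t := S.K) isOpen_interior.isClosed_compl S.compact.isClosed
    (disjoint_left.mpr fun x hx hx' => hx (hKK' hx'))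
  refine ⟨f, K', f.contMDiff.contDiff, hK', hK'H, fun z hz => ?_, fun z => (h2 z).1,
    fun z hz => ?_⟩
  · exact h0 (fun h => hz (interior_subset h))
  · rw [h1 hz]
    exact one_pos

section

variable {S : Surf} {b : ℂ → ℝ} {K' : Set ℂ}

lemma Bs_pos (hK' : IsCompact K') (hK'H : K' ⊆ Hp) (hb0 : ∀ z, z ∉ K' → b z = 0)
    (hb1 : ∀ z, 0 ≤ b z) (hb2 : ∀ z ∈ S.K, 0 < b z) {z : ℂ} (hz : z ∈ Hp) : 0 < Bs S b z := by
  obtain ⟨T, hT, hT2⟩ := S.exists_T (L := {z}) (L' := K') isCompact_singleton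
    (singleton_subset_iff.mpr hz) hK' hK'H
  have h0 : ∀ g ∈ S.Γ, b (mob g z) ≠ 0 → g ∈ T := fun g hg hne =>
    hT2 g hg z rfl (by by_contra h; exact hne (hb0 _ h))
  rw [Bs_eq S hT h0]
  obtain ⟨w, ⟨hw, g, hg, hgz⟩, _⟩ := S.fund z hz
  have h3 : 0 < b (mob g z) := by
    rw [hgz]
    exact hb2 w (S.subD hw)
  exact Finset.sum_pos' (fun g _ => hb1 _) ⟨g, h0 g hg h3.ne', h3⟩

lemma Bs_smooth (hb : ContDiff ℝ ∞ b) (hK' : IsCompact K') (hK'H : K' ⊆ Hp)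
    (hb0 : ∀ z, z ∉ K' → b z = 0) {z : ℂ} (hz : z ∈ Hp) : ContDiffAt ℝ ∞ (Bs S b) z := by
  obtain ⟨L, hL, hzL, hLH⟩ := exists_compact_between (K := {z}) isCompact_singleton isOpen_Hp
    (singleton_subset_iff.mpr hz)
  have hLn : L ∈ 𝓝 z := mem_interior_iff_mem_nhds.mp (hzL rfl)
  obtain ⟨T, hT, hT2⟩ := S.exists_T (L := L) (L' := K') hL hLH hK' hK'H
  have h1 : (Bs S b) =ᶠ[𝓝 z] fun x => ∑ g ∈ T, b (mob g x) := by
    filter_upwards [hLn] with x hx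
    exact Bs_eq S hT fun g hg hne => hT2 g hg x hx (by by_contra h; exact hne (hb0 _ h))
  refine ContDiffAt.congr_of_eventuallyEq ?_ h1
  refine ContDiffAt.sum fun g _ => ?_
  exact hb.contDiffAt.comp z ((contDiffOn_mob g).contDiffAt (isOpen_Hp.mem_nhds hz))

end

theorem main (S : Surf) : ∃ ρ : ℂ → ℂ, Tst ρ ∧
    ∀ L : Set ℂ, L ⊆ Hp → ∀ T : Finset SL2, (∀ g ∈ T, g ∈ S.Γ) →
      (∀ g ∈ S.Γ, ∀ z ∈ L, mob g z ∈ tsupport ρ → g ∈ T) →
      ∀ z ∈ L, ∑ g ∈ T, ρ (mob g z) = 1 := by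
  obtain ⟨b, K', hb, hK', hK'H, hb0, hb1, hb2⟩ := bump S
  have hpos : ∀ z ∈ Hp, 0 < Bs S b z := fun z hz => Bs_pos hK' hK'H hb0 hb1 hb2 hz
  set ρ : ℂ → ℂ := fun z => ((b z / Bs S b z : ℝ) : ℂ) with hρ
  have hsup : Function.support ρ ⊆ K' := by
    intro z hz
    by_contra h
    apply hz
    simp only [hρ, hb0 z h, zero_div, Complex.ofReal_zero]
  have htsup : tsupport ρ ⊆ K' := closure_minimal hsup hK'.isClosed
  refine ⟨ρ, ⟨?_, ?_, htsup.trans hK'H⟩, ?_⟩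
  · rw [contDiff_iff_contDiffAt]
    intro z
    by_cases hz : z ∈ K'
    · have hzH := hK'H hz
      have h1 : ContDiffAt ℝ ∞ (fun z => b z / Bs S b z) z :=
        hb.contDiffAt.div (Bs_smooth hb hK' hK'H hb0 hzH) (hpos z hzH).ne'
      exact (Complex.ofRealCLM.contDiff.contDiffAt).comp z h1
    · have h1 : ρ =ᶠ[𝓝 z] fun _ => 0 := by
        filter_upwards [hK'.isClosed.isOpen_compl.mem_nhds hz] with x hx
        simp only [hρ, hb0 x hx, zero_div, Complex.ofReal_zero]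
      exact contDiffAt_const.congr_of_eventuallyEq h1
  · exact HasCompactSupport.intro hK' fun z hz => by
      simp only [hρ, hb0 z hz, zero_div, Complex.ofReal_zero]
  · intro L hL T hT hT2 z hz
    have hzH := hL hz
    have h1 : ∀ g ∈ S.Γ, b (mob g z) ≠ 0 → g ∈ T := by
      intro g hg hne
      refine hT2 g hg z hz (subset_tsupport _ ?_)
      simp only [hρ, Function.mem_support, ne_eq, Complex.ofReal_eq_zero]
      exact div_ne_zero hne (hpos _ (mob_mem g hzH)).ne'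
    have h2 : ∑ g ∈ T, ρ (mob g z) = ((∑ g ∈ T, b (mob g z) / Bs S b z : ℝ) : ℂ) := by
      rw [Complex.ofReal_sum]
      refine Finset.sum_congr rfl fun g hg => ?_
      simp only [hρ]
      rw [Bs_inv S b (hT g hg) hzH]
    rw [h2, ← Finset.sum_div, ← Bs_eq S hT h1, div_self (hpos z hzH).ne', Complex.ofReal_one]

end

end PU_

theorem pu_proof : Stmt_PU := fun S => PU_.main S

end Pool.Agent.TNP
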