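import Pool.Agent.TNP.Stmts

/-!
# TNP, module PERT: the annihilators of the ranges of the operators `χ ↦ ∂̄χ - a_t ∂χ + b_t χ`
-/

open scoped ContDiff Topology ComplexConjugate
open Set Metric MeasureTheory Filter

namespace Pool.Agent.TNP

noncomputable section

namespace PERT_

/-- The space `L²(D)`. -/
abbrev E (S : Surf) := Lp ℂ 2 (volume.restrict S.D)

/-- The functional given by a square integrable function, and its norm. -/
theorem func (S : Surf) (φ : ℂ → ℂ) (hφ : L2 S φ) : ∃ ℓ : E S →L[ℂ] ℂ,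
    (∀ f : E S, ℓ f = ∫ z in S.D, φ z * f z) ∧ ‖ℓ‖ ^ 2 = ∫ z in S.D, ‖φ z‖ ^ 2 := by
  have hc : MemLp (fun z => conj (φ z)) 2 (volume.restrict S.D) := MemLp.star hφ
  refine ⟨innerSL ℂ (hc.toLp _), fun f => ?_, ?_⟩
  · rw [innerSL_apply_apply, L2.inner_def]
    refine integral_congr_ae ?_
    filter_upwards [hc.coeFn_toLp] with z hz
    rw [RCLike.inner_apply, hz]
    simp [mul_comm]
  · rw [innerSL_apply_norm]
    have h1 : (inner ℂ (hc.toLp _) (hc.toLp _) : ℂ) = ((‖hc.toLp _‖ ^ 2 : ℝ) : ℂ) := by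
      rw [inner_self_eq_norm_sq_to_K]
      norm_cast
    rw [L2.inner_def] at h1
    have h2 : ∫ z in S.D, (inner ℂ (hc.toLp _ z) (hc.toLp _ z) : ℂ) =
        ((∫ z in S.D, ‖φ z‖ ^ 2 : ℝ) : ℂ) := by
      rw [← integral_complex_ofReal]
      refine integral_congr_ae ?_
      filter_upwards [hc.coeFn_toLp] with z hz
      rw [hz, inner_self_eq_norm_sq_to_K]
      simp
    rw [h2] at h1
    exact_mod_cast h1.symm

/-- Cauchy-Schwarz. -/
theorem l1_le (S : Surf) (R : ℂ → ℂ) (hR : L2 S R) (N : ℝ) (hN : 0 ≤ N)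
    (h : ∫ z in S.D, ‖R z‖ ^ 2 ≤ N ^ 2) :
    ∫ z in S.D, ‖R z‖ ≤ (((volume.restrict S.D).real univ + 1) / 2) * N := by
  set V := (volume.restrict S.D).real univ with hV
  have hV0 : 0 ≤ V := measureReal_nonneg
  have key : ∀ s : ℝ, 0 < s → ∫ z in S.D, ‖R z‖ ≤ s / 2 * V + N ^ 2 / (2 * s) := by
    intro s hs
    have h1 : ∫ z in S.D, ‖R z‖ ≤ ∫ z in S.D, (s / 2 + (1 / (2 * s)) * ‖R z‖ ^ 2) := by
      refine integral_mono hR.int.norm ?_ fun z => ?_
      · exact (integrable_const _).add (hR.int_sq.const_mul _)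
      · have h2 : 0 ≤ (s - ‖R z‖) ^ 2 / (2 * s) := by positivity
        have h3 : s / 2 + (1 / (2 * s)) * ‖R z‖ ^ 2 - ‖R z‖ = (s - ‖R z‖) ^ 2 / (2 * s) := by
          field_simp
          ring
        simp only
        linarith
    refine h1.trans ?_
    rw [integral_add (integrable_const _) (hR.int_sq.const_mul _), integral_const, integral_const_mul,
      smul_eq_mul, ← hV]
    have h4 : (1 / (2 * s)) * ∫ z in S.D, ‖R z‖ ^ 2 ≤ N ^ 2 / (2 * s) := by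
      rw [div_mul_eq_mul_div, one_mul]
      exact div_le_div_of_nonneg_right h (by positivity)
    linarith
  refine le_of_forall_pos_le_add fun e he => ?_
  -- take `s = N + e'`
  have hpos : 0 < e / (V + 1) := by positivity
  have h5 := key (N + e / (V + 1)) (by positivity)
  have h6 : N ^ 2 / (2 * (N + e / (V + 1))) ≤ N / 2 := by
    rw [div_le_div_iff₀ (by positivity) (by norm_num)]
    nlinarith
  have h7 : (N + e / (V + 1)) / 2 * V ≤ N / 2 * V + e := by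
    have h8 : e / (V + 1) * V ≤ e := by
      rw [div_mul_eq_mul_div, div_le_iff₀ (by positivity)]
      nlinarith
    nlinarith
  nlinarith

/-- Bounded functions: multiplication operators. -/
theorem mop_ex (hM : Stmt_Mop) (S : Surf) (a : ℂ → ℂ) (ha : Bd S a) :
    ∃ A : E S →L[ℂ] E S, ∀ f, (A f : ℂ → ℂ) =ᵐ[volume.restrict S.D] fun z => a z * f z := by
  obtain ⟨M, hb⟩ := ha.bdd
  obtain ⟨A, -, hA⟩ := hM S a (max M 0) ha.meas (le_max_right _ _)
    (fun z hz => (hb z hz).trans (le_max_left _ _))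
  exact ⟨A, hA⟩

theorem mop_norm (hM : Stmt_Mop) (S : Surf) (a : ℂ → ℂ) (M : ℝ)
    (h1 : AEStronglyMeasurable a (volume.restrict S.D)) (h2 : 0 ≤ M) (h3 : ∀ z ∈ S.D, ‖a z‖ ≤ M)
    (A : E S →L[ℂ] E S)
    (hA : ∀ f, (A f : ℂ → ℂ) =ᵐ[volume.restrict S.D] fun z => a z * f z) : ‖A‖ ≤ M := by
  obtain ⟨B, hB, hB2⟩ := hM S a M h1 h2 h3
  have : A = B := by
    refine ContinuousLinearMap.ext fun f => ?_
    refine Lp.ext ?_
    exact (hA f).trans (hB2 f).symm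
  rw [this]
  exact hB

theorem bd_t {S : Surf} {δ : ℝ} {a : ℂ → ℂ → ℂ} {a1 a2 : ℂ → ℂ} (h : Exp2 S δ a a1 a2) {t : ℂ}
    (ht : t ∈ ball (0 : ℂ) δ) : Bd S (a t) := by
  obtain ⟨M, hM⟩ := h.exp
  obtain ⟨M1, h1⟩ := h.bd1.bdd
  obtain ⟨M2, h2⟩ := h.bd2.bdd
  refine ⟨h.meas t ht, M * ‖t‖ ^ 3 + ‖t‖ * M1 + ‖t‖ ^ 2 * M2, fun z hz => ?_⟩
  have e : a t z = (a t z - t * a1 z - t ^ 2 * a2 z) + t * a1 z + t ^ 2 * a2 z := by ring
  rw [e]
  refine (norm_add_le _ _).trans (add_le_add ((norm_add_le _ _).trans (add_le_add (hM t ht z hz) ?_)) ?_)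
  · rw [norm_mul]
    exact mul_le_mul_of_nonneg_left (h1 z hz) (norm_nonneg _)
  · rw [norm_mul, norm_pow]
    exact mul_le_mul_of_nonneg_left (h2 z hz) (by positivity)

/-- The expansion of the multiplication operators. -/
theorem mop_exp (hM : Stmt_Mop) {S : Surf} {δ : ℝ} {a : ℂ → ℂ → ℂ} {a1 a2 : ℂ → ℂ}
    (h : Exp2 S δ a a1 a2) : ∃ (A : ℂ → E S →L[ℂ] E S) (A1 A2 : E S →L[ℂ] E S) (M : ℝ),
      0 ≤ M ∧
      (∀ f, (A1 f : ℂ → ℂ) =ᵐ[volume.restrict S.D] fun z => a1 z * f z) ∧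
      ∀ t ∈ ball (0 : ℂ) δ,
        (∀ f, (A t f : ℂ → ℂ) =ᵐ[volume.restrict S.D] fun z => a t z * f z) ∧
        ‖A t - t • A1 - t ^ 2 • A2‖ ≤ M * ‖t‖ ^ 3 := by
  obtain ⟨A1, hA1⟩ := mop_ex hM S a1 h.bd1
  obtain ⟨A2, hA2⟩ := mop_ex hM S a2 h.bd2
  have hA : ∀ t, ∃ A : E S →L[ℂ] E S, t ∈ ball (0 : ℂ) δ →
      ∀ f, (A f : ℂ → ℂ) =ᵐ[volume.restrict S.D] fun z => a t z * f z := by
    intro t
    by_cases ht : t ∈ ball (0 : ℂ) δ
    · obtain ⟨A, hA⟩ := mop_ex hM S (a t) (bd_t h ht)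
      exact ⟨A, fun _ => hA⟩
    · exact ⟨0, fun h => absurd h ht⟩
  choose A hA using hA
  obtain ⟨M, hM2⟩ := h.exp
  refine ⟨A, A1, A2, max M 0, le_max_right _ _, hA1, fun t ht => ⟨hA t ht, ?_⟩⟩
  refine mop_norm hM S (fun z => a t z - t * a1 z - t ^ 2 * a2 z) _ ?_ ?_ ?_ _ ?_
  · exact ((h.meas t ht).sub (h.bd1.meas.const_mul t)).sub (h.bd2.meas.const_mul (t ^ 2))
  · have := le_max_right M 0
    positivity
  · intro z hz
    exact (hM2 t ht z hz).trans (mul_le_mul_of_nonneg_right (le_max_left _ _) (by positivity))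
  · intro f
    have e : (A t - t • A1 - t ^ 2 • A2) f = A t f - t • A1 f - t ^ 2 • A2 f := rfl
    rw [e]
    filter_upwards [Lp.coeFn_sub (A t f - t • A1 f) (t ^ 2 • A2 f), Lp.coeFn_sub (A t f) (t • A1 f),
      Lp.coeFn_smul t (A1 f), Lp.coeFn_smul (t ^ 2) (A2 f), hA t ht f, hA1 f, hA2 f] with z
      h1 h2 h3 h4 h5 h6 h7
    rw [h1, Pi.sub_apply, h2, Pi.sub_apply, h3, h4, Pi.smul_apply, Pi.smul_apply, h5, h6, h7,
      smul_eq_mul, smul_eq_mul]
    ring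

end PERT_

open PERT_ in
theorem pert_proof (hO : Stmt_Oper) (hM : Stmt_Mop) (hD : Stmt_Dual) (hP : Stmt_PAbs) :
    Stmt_Pert := by
  intro S δ a a1 a2 b b1 b2 hδ ha hb
  obtain ⟨P1, P2, hPP⟩ := hO S
  obtain ⟨A, A1, A2, Ma, hMa, hA1, hA⟩ := mop_exp hM ha
  obtain ⟨B, B1, B2, Mb, hMb, hB1, hB⟩ := mop_exp hM hb
  -- the operators
  set T : ℂ → E S →L[ℂ] E S := fun t => 1 - (A t) ∘L P1 + (B t) ∘L P2 with hT
  set E1 : E S →L[ℂ] E S := - (A1 ∘L P1) + B1 ∘L P2 with hE1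
  set E2 : E S →L[ℂ] E S := - (A2 ∘L P1) + B2 ∘L P2 with hE2
  set V : Set (E S) := {f | ∃ χ, VF S χ ∧ (f : ℂ → ℂ) =ᵐ[volume.restrict S.D] db χ} with hV
  have hTexp : ∀ t ∈ ball (0 : ℂ) δ,
      ‖T t - 1 - t • E1 - t ^ 2 • E2‖ ≤ (Ma * ‖P1‖ + Mb * ‖P2‖) * ‖t‖ ^ 3 := by
    intro t ht
    have e : T t - 1 - t • E1 - t ^ 2 • E2 =
        (B t - t • B1 - t ^ 2 • B2) ∘L P2 - (A t - t • A1 - t ^ 2 • A2) ∘L P1 := by
      refine ContinuousLinearMap.ext fun f => ?_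
      simp only [hT, hE1, hE2, sub_apply, add_apply,
        smul_apply, ContinuousLinearMap.comp_apply,
        neg_apply, one_apply_eq_self, smul_add, smul_neg]
      abel
    rw [e]
    refine (norm_sub_le _ _).trans ?_
    have h1 : ‖(B t - t • B1 - t ^ 2 • B2) ∘L P2‖ ≤ Mb * ‖t‖ ^ 3 * ‖P2‖ :=
      (ContinuousLinearMap.opNorm_comp_le _ _).trans
        (mul_le_mul_of_nonneg_right (hB t ht).2 (norm_nonneg _))
    have h2 : ‖(A t - t • A1 - t ^ 2 • A2) ∘L P1‖ ≤ Ma * ‖t‖ ^ 3 * ‖P1‖ :=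
      (ContinuousLinearMap.opNorm_comp_le _ _).trans
        (mul_le_mul_of_nonneg_right (hA t ht).2 (norm_nonneg _))
    linarith
  -- the class of `db χ`
  have hcl : ∀ χ, VF S χ → ∃ v : E S, (v : ℂ → ℂ) =ᵐ[volume.restrict S.D] db χ := by
    intro χ hχ
    have h1 : L2 S (db χ) := (bd_of_cont S hχ.sm.db.cont).L2
    exact ⟨MemLp.toLp _ h1, MemLp.coeFn_toLp h1⟩
  have hTv : ∀ t ∈ ball (0 : ℂ) δ, ∀ χ, VF S χ → ∀ v : E S,
      (v : ℂ → ℂ) =ᵐ[volume.restrict S.D] db χ →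
      (T t v : ℂ → ℂ) =ᵐ[volume.restrict S.D] Aab (a t) (b t) χ := by
    intro t ht χ hχ v hv
    obtain ⟨h1, h2⟩ := hPP χ hχ v hv
    have e : T t v = v - A t (P1 v) + B t (P2 v) := rfl
    rw [e]
    filter_upwards [Lp.coeFn_add (v - A t (P1 v)) (B t (P2 v)), Lp.coeFn_sub v (A t (P1 v)),
      (hA t ht).1 (P1 v), (hB t ht).1 (P2 v), h1, h2, hv] with z k1 k2 k3 k4 k5 k6 k7
    rw [k1, Pi.add_apply, k2, Pi.sub_apply, k3, k4, k5, k6, k7, Aab]
  have hE1v : ∀ χ, VF S χ → ∀ v : E S, (v : ℂ → ℂ) =ᵐ[volume.restrict S.D] db χ →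
      (E1 v : ℂ → ℂ) =ᵐ[volume.restrict S.D] fun z => - (a1 z * dz χ z - b1 z * χ z) := by
    intro χ hχ v hv
    obtain ⟨h1, h2⟩ := hPP χ hχ v hv
    have e : E1 v = - A1 (P1 v) + B1 (P2 v) := rfl
    rw [e]
    filter_upwards [Lp.coeFn_add (- A1 (P1 v)) (B1 (P2 v)), Lp.coeFn_neg (A1 (P1 v)),
      hA1 (P1 v), hB1 (P2 v), h1, h2] with z k1 k2 k3 k4 k5 k6
    rw [k1, Pi.add_apply, k2, Pi.neg_apply, k3, k4, k5, k6]
    ring
  obtain ⟨hP1, hP2⟩ := hP (E S) V δ _ T E1 E2 hδ hTexp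
  refine ⟨?_, ?_⟩
  · intro φ0 ψ hφ0 hψ h0 h1
    obtain ⟨ℓ, hℓ, -⟩ := func S φ0 hφ0
    obtain ⟨m, hm, -⟩ := func S ψ hψ
    obtain ⟨δ', C, ℓ2, L, hδ', hδ'2, hL⟩ := hP1 ℓ m
      (by
        rintro v ⟨χ, hχ, hv⟩
        rw [hℓ, ← h0 χ hχ]
        refine integral_congr_ae ?_
        filter_upwards [hv] with z hz
        rw [hz])
      (by
        rintro v ⟨χ, hχ, hv⟩
        rw [hℓ, hm]
        have e1 : ∫ z in S.D, ψ z * v z = ∫ z in S.D, ψ z * db χ z := by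
          refine integral_congr_ae ?_
          filter_upwards [hv] with z hz
          rw [hz]
        rw [e1, h1 χ hχ, ← integral_neg]
        refine integral_congr_ae ?_
        filter_upwards [hE1v χ hχ v hv] with z hz
        rw [hz]
        ring)
    obtain ⟨φ2, hφ2, hφ2r, -⟩ := hD S ℓ2
    choose φ hφ hφr _ using fun t => hD S (L t)
    refine ⟨δ', (((volume.restrict S.D).real univ + 1) / 2) * |C|, φ2, φ, hδ', hδ'2, hφ2,
      fun t ht => ⟨hφ t, fun χ hχ => ?_, ?_⟩⟩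
    · obtain ⟨v, hv⟩ := hcl χ hχ
      have htδ : t ∈ ball (0 : ℂ) δ := ball_subset_ball hδ'2 ht
      have k1 := (hL t ht).1 v ⟨χ, hχ, hv⟩
      rw [hφr] at k1
      rw [← k1]
      refine integral_congr_ae ?_
      filter_upwards [hTv t htδ χ hχ v hv] with z hz
      rw [hz]
    · have hR : L2 S (fun z => φ t z - φ0 z - t * ψ z - t ^ 2 * φ2 z) :=
        (((hφ t).sub hφ0).sub (MemLp.const_mul hψ t)).sub (MemLp.const_mul hφ2 (t ^ 2))
      obtain ⟨r, hr, hrn⟩ := func S _ hR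
      have hreq : r = L t - ℓ - t • m - t ^ 2 • ℓ2 := by
        refine ContinuousLinearMap.ext fun f => ?_
        have hf : L2 S f := Lp.memLp f
        have e : (L t - ℓ - t • m - t ^ 2 • ℓ2) f = L t f - ℓ f - t * m f - t ^ 2 * ℓ2 f := rfl
        rw [e, hr, hφr, hℓ, hm, hφ2r]
        have i1 := L2.int_mul (hφ t) hf
        have i2 := L2.int_mul hφ0 hf
        have i3 := L2.int_mul hψ hf
        have i4 := L2.int_mul hφ2 hf
        have s1 : ∫ z in S.D, (φ t z * f z - φ0 z * f z) =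
            (∫ z in S.D, φ t z * f z) - ∫ z in S.D, φ0 z * f z := integral_sub i1 i2
        have s2 : ∫ z in S.D, (φ t z * f z - φ0 z * f z - t * (ψ z * f z)) =
            (∫ z in S.D, (φ t z * f z - φ0 z * f z)) - ∫ z in S.D, t * (ψ z * f z) :=
          integral_sub (i1.sub i2) (i3.const_mul t)
        have s3 : ∫ z in S.D, (φ t z * f z - φ0 z * f z - t * (ψ z * f z) -
            t ^ 2 * (φ2 z * f z)) =
            (∫ z in S.D, (φ t z * f z - φ0 z * f z - t * (ψ z * f z))) -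
              ∫ z in S.D, t ^ 2 * (φ2 z * f z) :=
          integral_sub ((i1.sub i2).sub (i3.const_mul t)) (i4.const_mul (t ^ 2))
        rw [← integral_const_mul, ← integral_const_mul, ← s1, ← s2, ← s3]
        refine integral_congr_ae (Eventually.of_forall fun z => ?_)
        simp only
        ring
      have hn : ‖r‖ ≤ |C| * ‖t‖ ^ 3 := by
        rw [hreq]
        exact (hL t ht).2.trans (mul_le_mul_of_nonneg_right (le_abs_self C) (by positivity))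
      have hfin := l1_le S _ hR (|C| * ‖t‖ ^ 3) (by positivity) (by
        rw [← hrn]
        exact pow_le_pow_left₀ (norm_nonneg _) hn 2)
      linarith
  · obtain ⟨δ', C, hδ', hδ'2, hC, hk⟩ := hP2
    refine ⟨δ', (((volume.restrict S.D).real univ + 1) / 2) * C, hδ', hδ'2, by positivity,
      fun t ht φ hφ h0 => ?_⟩
    have htδ : t ∈ ball (0 : ℂ) δ := ball_subset_ball hδ'2 ht
    obtain ⟨ℓ, hℓ, -⟩ := func S φ hφ
    obtain ⟨k, hk0, hkn⟩ := hk t ht ℓ (by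
      rintro v ⟨χ, hχ, hv⟩
      rw [hℓ, ← h0 χ hχ]
      refine integral_congr_ae ?_
      filter_upwards [hTv t htδ χ hχ v hv] with z hz
      rw [hz])
    obtain ⟨κ, hκ, hκr, hκn⟩ := hD S k
    refine ⟨κ, hκ, fun χ hχ => ?_, ?_⟩
    · obtain ⟨v, hv⟩ := hcl χ hχ
      have k1 := hk0 v ⟨χ, hχ, hv⟩
      rw [hκr] at k1
      rw [← k1]
      refine integral_congr_ae ?_
      filter_upwards [hv] with z hz
      rw [hz]
    · have hR : L2 S (fun z => φ z - κ z) := MemLp.sub hφ hκ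
      obtain ⟨r, hr, hrn⟩ := func S _ hR
      have hreq : r = ℓ - k := by
        refine ContinuousLinearMap.ext fun f => ?_
        have hf : L2 S f := Lp.memLp f
        have e : (ℓ - k) f = ℓ f - k f := rfl
        rw [e, hr, hℓ, hκr, ← integral_sub (L2.int_mul hφ hf) (L2.int_mul hκ hf)]
        refine integral_congr_ae (Eventually.of_forall fun z => ?_)
        simp only
        ring
      have hs : Real.sqrt (∫ z in S.D, ‖κ z‖ ^ 2) = ‖k‖ := by
        rw [hκn, Real.sqrt_sq (norm_nonneg _)]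
      have hfin := l1_le S _ hR (C * ‖t‖ * ‖k‖) (by positivity) (by
        rw [← hrn, hreq]
        exact pow_le_pow_left₀ (norm_nonneg _) hkn 2)
      rw [hs]
      linarith

end

end Pool.Agent.TNP
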