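import Pool.Agent.TNP.Stmts

set_option autoImplicit false

/-!
# TNP, module POINC: Poincaré series of vector fields
-/

open scoped ContDiff Topology ComplexConjugate
open Set Metric MeasureTheory Filter

namespace Pool.Agent.TNP

noncomputable section

namespace Poinc_

/-- The translate of a test function (vector field) by a Möbius transformation. -/
def tr (χc : ℂ → ℂ) (g : SL2) (z : ℂ) : ℂ := χc (mob g z) * den g z ^ 2

/-- The Poincaré series. -/
def chi (S : Surf) (χc : ℂ → ℂ) (z : ℂ) : ℂ := ∑ᶠ g ∈ (S.Γ : Set SL2), tr χc g z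

theorem chi_eq (S : Surf) (χc : ℂ → ℂ) (z : ℂ) (T : Finset SL2) (hT : ∀ g ∈ T, g ∈ S.Γ)
    (hT' : ∀ g ∈ S.Γ, mob g z ∈ tsupport χc → g ∈ T) :
    chi S χc z = ∑ g ∈ T, tr χc g z := by
  unfold chi
  apply finsum_mem_eq_sum_of_inter_support_eq
  ext g
  constructor
  · rintro ⟨hg, hs⟩
    refine ⟨?_, hs⟩
    apply hT' g hg
    apply subset_tsupport
    intro h0
    apply hs
    simp [tr, h0]
  · rintro ⟨hg, hs⟩
    exact ⟨hT g hg, hs⟩

theorem tr_mul (χc : ℂ → ℂ) (g h : SL2) {z : ℂ} (hz : z ∈ Hp) :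
    tr χc g (mob h z) = (den h z ^ 2)⁻¹ * tr χc (g * h) z := by
  have hd := den_ne h hz
  unfold tr
  rw [mob_mul g h hz, den_mul g h hz]
  field_simp

theorem chi_aut (S : Surf) (χc : ℂ → ℂ) (hχ : Tst χc) : Aut S (-1) 0 (chi S χc) := by
  classical
  intro h hh z hz
  have hm : mob h z ∈ Hp := mob_mem h hz
  obtain ⟨T, hT, hT'⟩ := S.exists_T (isCompact_singleton (x := mob h z))
    (singleton_subset_iff.2 hm) hχ.cs.isCompact hχ.sub
  rw [chi_eq S χc (mob h z) T hT (fun g hg hgs => hT' g hg _ (mem_singleton _) hgs)]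
  rw [chi_eq S χc z (T.image (fun g => g * h))]
  · rw [Finset.sum_image (fun a _ b _ hab => mul_right_cancel hab), Finset.mul_sum]
    refine Finset.sum_congr rfl fun g _ => ?_
    rw [tr_mul χc g h hz]
    simp only [mul_zero, zpow_zero, mul_one]
    rw [show (2 * -1 : ℤ) = -((2 : ℕ) : ℤ) by norm_num, zpow_neg, zpow_natCast]
  · intro g hg
    obtain ⟨g', hg', rfl⟩ := Finset.mem_image.1 hg
    exact S.Γ.mul_mem (hT g' hg') hh
  · intro g hg hgs
    refine Finset.mem_image.2 ⟨g * h⁻¹, ?_, by group⟩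
    apply hT' _ (S.Γ.mul_mem hg (S.Γ.inv_mem hh)) _ (mem_singleton _)
    rw [← mob_mul _ _ hz]
    have : g * h⁻¹ * h = g := by group
    rw [this]
    exact hgs

theorem tr_sm (χc : ℂ → ℂ) (hχ : Tst χc) (g : SL2) : Sm (tr χc g) := by
  have h1 : ContDiffOn ℝ ∞ (fun z => χc (mob g z)) Hp :=
    hχ.sm.comp_contDiffOn (contDiffOn_mob g)
  exact h1.mul (((contDiff_den g).pow 2).contDiffOn)

/-- A compact neighbourhood and the corresponding finite set. -/
theorem exists_nhd (S : Surf) (χc : ℂ → ℂ) (hχ : Tst χc) {K : Set ℂ} (hK : IsCompact K)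
    (hK' : K ⊆ Hp) : ∃ T : Finset SL2, (∀ g ∈ T, g ∈ S.Γ) ∧
      (∀ g ∈ S.Γ, ∀ z ∈ K, mob g z ∈ tsupport χc → g ∈ T) ∧
      ∀ z ∈ K, chi S χc =ᶠ[𝓝 z] fun w => ∑ g ∈ T, tr χc g w := by
  obtain ⟨L, hL, hKL, hLH⟩ := exists_compact_between hK isOpen_Hp hK'
  obtain ⟨T, hT, hT'⟩ := S.exists_T hL hLH hχ.cs.isCompact hχ.sub
  refine ⟨T, hT, fun g hg z hz => hT' g hg z (interior_subset (hKL hz)), fun z hz => ?_⟩
  filter_upwards [isOpen_interior.mem_nhds (hKL hz)] with w hw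
  exact chi_eq S χc w T hT (fun g hg hgs => hT' g hg w (interior_subset hw) hgs)

theorem sum_sm (χc : ℂ → ℂ) (hχ : Tst χc) (T : Finset SL2) :
    Sm (fun w => ∑ g ∈ T, tr χc g w) :=
  ContDiffOn.sum fun g _ => tr_sm χc hχ g

theorem chi_sm (S : Surf) (χc : ℂ → ℂ) (hχ : Tst χc) : Sm (chi S χc) := by
  intro z hz
  obtain ⟨T, _, _, h⟩ := exists_nhd S χc hχ (isCompact_singleton (x := z))
    (singleton_subset_iff.2 hz)
  have h1 : ContDiffAt ℝ ∞ (fun w => ∑ g ∈ T, tr χc g w) z :=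
    (sum_sm χc hχ T).contDiffAt (isOpen_Hp.mem_nhds hz)
  exact (h1.congr_of_eventuallyEq (h z (mem_singleton z))).contDiffWithinAt

theorem Aop_congr {μ F G : ℂ → ℂ} {z : ℂ} (h : F =ᶠ[𝓝 z] G) : Aop μ F z = Aop μ G z := by
  unfold Aop Aab
  rw [db_congr h, dz_congr h, h.eq_of_nhds]

theorem Aop_add {μ F G : ℂ → ℂ} {z : ℂ} (hF : DifferentiableAt ℝ F z)
    (hG : DifferentiableAt ℝ G z) :
    Aop μ (fun w => F w + G w) z = Aop μ F z + Aop μ G z := by
  unfold Aop Aab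
  rw [db_add hF hG, dz_add hF hG]
  ring

theorem Aop_sum {μ : ℂ → ℂ} (χc : ℂ → ℂ) (hχ : Tst χc) {z : ℂ} (hz : z ∈ Hp) (T : Finset SL2) :
    Aop μ (fun w => ∑ g ∈ T, tr χc g w) z = ∑ g ∈ T, Aop μ (tr χc g) z := by
  classical
  induction T using Finset.induction_on with
  | empty => simp [Aop, Aab]
  | insert a s ha ih =>
    rw [Finset.sum_insert ha, ← ih]
    have h1 : (fun w => ∑ g ∈ insert a s, tr χc g w)
        = fun w => tr χc a w + ∑ g ∈ s, tr χc g w := by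
      funext w
      rw [Finset.sum_insert ha]
    rw [h1, Aop_add ((tr_sm χc hχ a).diff hz) ((sum_sm χc hχ s).diff hz)]

/-- Behaviour of the operator under a Möbius transformation. -/
theorem Aop_tr (S : Surf) (χc : ℂ → ℂ) (hχ : Tst χc) (μ : ℂ → ℂ) (hμ : SB S μ) (g : SL2)
    (hg : g ∈ S.Γ) {z : ℂ} (hz : z ∈ Hp) :
    Aop μ (tr χc g) z * conj (den g z) ^ 2 = den g z ^ 2 * Aop μ χc (mob g z) := by
  have hd := den_ne g hz
  have hc : conj (den g z) ≠ 0 := by simpa using hd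
  have hm : mob g z ∈ Hp := mob_mem g hz
  have hdC : DifferentiableAt ℂ (fun x => den g x ^ 2) z := (differentiableAt_den g z).pow 2
  have hdR : DifferentiableAt ℝ (fun x => den g x ^ 2) z := hdC.restrictScalars ℝ
  have hχd : DifferentiableAt ℝ χc (mob g z) := (hχ.sm.differentiable (by simp)) _
  have hχm : DifferentiableAt ℝ (fun x => χc (mob g x)) z :=
    DifferentiableAt.comp (𝕜 := ℝ) z hχd ((differentiableAt_mob g hz).restrictScalars ℝ)
  have hder : deriv (fun x => den g x ^ 2) z = 2 * den g z * ((g 1 0 : ℝ) : ℂ) := by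
    have h0 : HasDerivAt (fun x => den g x ^ 2) (2 * den g z * ((g 1 0 : ℝ) : ℂ)) z := by
      have h00 := (hasDerivAt_den g z).pow 2
      have e : ((2 : ℕ) : ℂ) * den g z ^ (2 - 1) * ((g 1 0 : ℝ) : ℂ)
          = 2 * den g z * ((g 1 0 : ℝ) : ℂ) := by norm_num
      rw [e] at h00
      exact h00
    exact h0.deriv
  -- derivatives of the translate
  have h1 : db (tr χc g) z = db χc (mob g z) * (conj (den g z) ^ 2)⁻¹ * den g z ^ 2 := by
    unfold tr
    rw [db_mul hχm hdR, db_comp_mob g hz hχd, db_holo hdC]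
    ring
  have h2 : dz (tr χc g) z = dz χc (mob g z) + 2 * ((g 1 0 : ℝ) : ℂ) * den g z * χc (mob g z) := by
    unfold tr
    rw [dz_mul hχm hdR, dz_comp_mob g hz hχd, dz_holo hdC, hder]
    field_simp
  -- the Beltrami differential
  have hμz : ∀ x ∈ Hp, μ (mob g x) * den g x ^ 2 = conj (den g x) ^ 2 * μ x := by
    intro x hx
    have hdx := den_ne g hx
    rw [hμ.aut g hg x hx]
    rw [show (2 * -1 : ℤ) = -((2 : ℕ) : ℤ) by norm_num, zpow_neg, zpow_natCast,
      show (2 * 1 : ℤ) = ((2 : ℕ) : ℤ) by norm_num, zpow_natCast]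
    field_simp
  have h3 : dz μ (mob g z) + 2 * ((g 1 0 : ℝ) : ℂ) * den g z * μ (mob g z)
      = conj (den g z) ^ 2 * dz μ z := by
    have hev : (fun x => μ (mob g x) * den g x ^ 2) =ᶠ[𝓝 z]
        fun x => conj (den g x ^ 2) * μ x := by
      filter_upwards [isOpen_Hp.mem_nhds hz] with x hx
      rw [hμz x hx, map_pow]
    have hμd : DifferentiableAt ℝ μ (mob g z) := hμ.sm.diff hm
    have hμm : DifferentiableAt ℝ (fun x => μ (mob g x)) z :=
      DifferentiableAt.comp (𝕜 := ℝ) z hμd ((differentiableAt_mob g hz).restrictScalars ℝ)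
    have h4 := dz_congr hev
    rw [dz_mul hμm hdR, dz_comp_mob g hz hμd, dz_holo hdC, hder,
      dz_mul (differentiableAt_conj hdR) (hμ.sm.diff hz), dz_conj hdR, db_holo hdC] at h4
    rw [map_zero, zero_mul, zero_add, map_pow] at h4
    rw [← h4]
    field_simp
  have h5 := hμz z hz
  unfold Aop Aab
  rw [h1, h2]
  have e : tr χc g z = χc (mob g z) * den g z ^ 2 := rfl
  rw [e]
  have h6 : (db χc (mob g z) * (conj (den g z) ^ 2)⁻¹ * den g z ^ 2) * conj (den g z) ^ 2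
      = den g z ^ 2 * db χc (mob g z) := by
    field_simp
  linear_combination h6 + (dz χc (mob g z)
    + 2 * ((g 1 0 : ℝ) : ℂ) * den g z * χc (mob g z)) * h5
    - χc (mob g z) * den g z ^ 2 * h3

theorem Aop_supp {μ χc : ℂ → ℂ} {z : ℂ} (hz : z ∉ tsupport χc) : Aop μ χc z = 0 := by
  have h : χc =ᶠ[𝓝 z] fun _ => 0 := notMem_tsupport_iff_eventuallyEq.1 hz
  rw [Aop_congr h]
  simp [Aop, Aab]

end Poinc_

open Poinc_ in
theorem poinc_proof (hUnf : Stmt_Unf) : Stmt_Poinc := by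
  intro S χc hχ
  refine ⟨chi S χc, ⟨chi_sm S χc hχ, chi_aut S χc hχ⟩, ?_⟩
  intro μ hμ φ hφ hφa
  obtain ⟨T, hT, hT1, hT2⟩ := exists_nhd S χc hχ S.compact S.sub
  have hL : IsCompact (tsupport χc) := hχ.cs.isCompact
  have hcont : ContinuousOn (Aop μ χc) (tsupport χc) := by
    have hs : Sm χc := hχ.sm.contDiffOn
    have h1 : ContinuousOn (Aop μ χc) Hp := by
      unfold Aop Aab
      exact ((hs.db.cont).sub (hμ.sm.cont.mul hs.dz.cont)).add (hμ.sm.dz.cont.mul hs.cont)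
    exact h1.mono hχ.sub
  have hf0 : ∀ z, z ∉ tsupport χc → φ z * Aop μ χc z = 0 := fun z hz => by
    rw [Aop_supp hz, mul_zero]
  have hfi : Integrable (fun z => φ z * Aop μ χc z) := by
    have h1 : IntegrableOn (fun z => φ z * Aop μ χc z) (tsupport χc) :=
      (hφ _ hL hχ.sub).mul_continuousOn hcont hL
    refine (integrableOn_iff_integrable_of_support_subset ?_).1 h1
    intro z hz
    by_contra hcon
    exact hz (hf0 z hcon)
  obtain ⟨_, h2⟩ := hUnf S (tsupport χc) (fun z => φ z * Aop μ χc z) hL hχ.sub hfi hf0 T hT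
    (fun g hg z hz hgz => hT1 g hg z (S.subD hz) hgz)
  rw [← h2]
  refine setIntegral_congr_fun S.meas fun z hz => ?_
  have hzK : z ∈ S.K := S.subD hz
  have hzH : z ∈ Hp := S.sub hzK
  rw [Aop_congr (hT2 z hzK), Aop_sum χc hχ hzH, Finset.mul_sum]
  refine Finset.sum_congr rfl fun g hg => ?_
  have hd := den_ne g hzH
  have hc : conj (den g z) ≠ 0 := by simpa using hd
  have h3 := Aop_tr S χc hχ μ hμ g (hT g hg) hzH
  have h4 : φ (mob g z) = den g z ^ 4 * φ z := by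
    rw [hφa g (hT g hg) z hzH]
    simp only [mul_zero, zpow_zero, mul_one]
    norm_cast
  have h5 : (((‖den g z‖ ^ 4)⁻¹ : ℝ) : ℂ) = (den g z ^ 2 * conj (den g z) ^ 2)⁻¹ := by
    have h6 : ((‖den g z‖ : ℝ) : ℂ) ^ 2 = den g z * conj (den g z) := by
      rw [Complex.mul_conj, Complex.normSq_eq_norm_sq]
      push_cast
      rfl
    push_cast
    congr 1
    calc ((‖den g z‖ : ℝ) : ℂ) ^ 4 = (((‖den g z‖ : ℝ) : ℂ) ^ 2) ^ 2 := by ring
      _ = _ := by rw [h6]; ring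
  have h7 : Aop μ (tr χc g) z = den g z ^ 2 * Aop μ χc (mob g z) * (conj (den g z) ^ 2)⁻¹ := by
    rw [← h3]
    field_simp
  rw [h4, h5, h7]
  field_simp

end

end Pool.Agent.TNP
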