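import Pool.Agent.TNP.Stmts

/-!
# TNP, module PRIV: the theorem of Blaschke and Privalov
-/

open scoped ContDiff Topology ComplexConjugate
open Set Metric MeasureTheory Filter

namespace Pool.Agent.TNP

noncomputable section

namespace PRIV_

instance : Fact (0 < 2 * Real.pi) := ⟨by positivity⟩

/-- trigonometric polynomials -/
theorem span_form (f : C(AddCircle (2 * Real.pi), ℂ))
    (hf : f ∈ Submodule.span ℂ (range (@fourier (2 * Real.pi)))) :
    ∃ P Q : Polynomial ℂ, ∀ x : AddCircle (2 * Real.pi),
      f x = P.eval (AddCircle.toCircle x : ℂ) + conj (Q.eval (AddCircle.toCircle x : ℂ)) := by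
  induction hf using Submodule.span_induction with
  | mem f hf =>
    obtain ⟨n, rfl⟩ := hf
    rcases le_total 0 n with hn | hn
    · obtain ⟨k, rfl⟩ := Int.eq_ofNat_of_zero_le hn
      refine ⟨Polynomial.X ^ k, 0, fun x => ?_⟩
      simp only [fourier_apply, Polynomial.eval_pow, Polynomial.eval_X, Polynomial.eval_zero,
        map_zero, add_zero]
      rw [natCast_zsmul, AddCircle.toCircle_nsmul]
      simp
    · obtain ⟨k, hk⟩ := Int.eq_ofNat_of_zero_le (neg_nonneg.mpr hn)
      refine ⟨0, Polynomial.X ^ k, fun x => ?_⟩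
      have h1 : n = -(k : ℤ) := by omega
      rw [h1, fourier_neg]
      simp only [fourier_apply, Polynomial.eval_pow, Polynomial.eval_X, Polynomial.eval_zero,
        zero_add]
      rw [natCast_zsmul, AddCircle.toCircle_nsmul]
      simp
  | zero => exact ⟨0, 0, fun x => by simp⟩
  | add f g _ _ hf hg =>
    obtain ⟨P, Q, h⟩ := hf
    obtain ⟨P', Q', h'⟩ := hg
    refine ⟨P + P', Q + Q', fun x => ?_⟩
    simp only [ContinuousMap.add_apply, h, h', Polynomial.eval_add, map_add]
    ring
  | smul a f _ hf =>
    obtain ⟨P, Q, h⟩ := hf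
    refine ⟨Polynomial.C a * P, Polynomial.C (conj a) * Q, fun x => ?_⟩
    simp only [ContinuousMap.smul_apply, h, Polynomial.eval_mul, Polynomial.eval_C, map_mul,
      smul_eq_mul, Complex.conj_conj]
    ring

/-- approximation on circles by real parts of polynomials -/
theorem approx {u : ℂ → ℝ} {c : ℂ} {r : ℝ} (hr : 0 < r) (hu : ContinuousOn u (sphere c r))
    {e : ℝ} (he : 0 < e) : ∃ P : Polynomial ℂ, ∀ z ∈ sphere c r,
      |u z - (P.eval ((z - c) / r)).re| ≤ e := by
  set g : ℝ → ℂ := fun θ => (u (circleMap c r θ) : ℂ) with hg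
  have hper : Function.Periodic g (2 * Real.pi) := by
    intro θ
    simp only [hg]
    rw [periodic_circleMap c r θ]
  have hgc : Continuous g := by
    refine Complex.continuous_ofReal.comp ?_
    exact hu.comp_continuous (continuous_circleMap c r)
      (fun θ => circleMap_mem_sphere c hr.le θ)
  have hlc : Continuous (hper.lift : AddCircle (2 * Real.pi) → ℂ) := by
    refine continuous_coinduced_dom.mpr ?_
    exact hgc
  set G : C(AddCircle (2 * Real.pi), ℂ) := ⟨hper.lift, hlc⟩ with hG
  have hGm : G ∈ (Submodule.span ℂ (range (@fourier (2 * Real.pi)))).topologicalClosure := by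
    rw [span_fourier_closure_eq_top]
    exact Submodule.mem_top
  rw [← SetLike.mem_coe, Submodule.topologicalClosure_coe, Metric.mem_closure_iff] at hGm
  obtain ⟨f, hf, hGf⟩ := hGm e he
  obtain ⟨P, Q, hPQ⟩ := span_form f hf
  refine ⟨P + Q, fun z hz => ?_⟩
  obtain ⟨θ, rfl⟩ : ∃ θ : ℝ, circleMap c r θ = z := by
    have h2 : z ∈ range (circleMap c r) := by
      rw [range_circleMap, abs_of_pos hr]
      exact hz
    exact h2
  have h1 : (circleMap c r θ - c) / r = (AddCircle.toCircle (θ : AddCircle (2 * Real.pi)) : ℂ) := by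
    rw [AddCircle.toCircle_apply_mk, Circle.coe_exp, circleMap, add_sub_cancel_left,
      mul_div_assoc, mul_comm, div_mul_cancel₀]
    · congr 1
      have : (2 * Real.pi / (2 * Real.pi)) = 1 := div_self (by positivity)
      rw [this, one_mul]
    · exact_mod_cast hr.ne'
  rw [h1]
  have h2 : ‖G (θ : AddCircle (2 * Real.pi)) - f (θ : AddCircle (2 * Real.pi))‖ ≤ e := by
    rw [← dist_eq_norm]
    exact (ContinuousMap.dist_apply_le_dist _).trans hGf.le
  have h3 : G (θ : AddCircle (2 * Real.pi)) = (u (circleMap c r θ) : ℂ) := rfl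
  rw [h3, hPQ] at h2
  refine (le_of_eq ?_).trans ((Complex.abs_re_le_norm _).trans h2)
  simp only [Polynomial.eval_add, Complex.add_re, Complex.sub_re, Complex.ofReal_re,
    Complex.conj_re]

/-- the mean value property of the real part of an entire function -/
theorem mean_re {f : ℂ → ℂ} (hf : Differentiable ℂ f) (p : ℂ) (ρ : ℝ) :
    Real.circleAverage (fun z => (f z).re) p ρ = (f p).re := by
  have h1 : Real.circleAverage f p ρ = f p := by
    refine circleAverage_of_differentiable_on_off_countable countable_empty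
      hf.continuous.continuousOn fun z _ => hf z
  have h2 := Complex.reCLM.circleAverage_comp_comm (f := f) (c := p) (R := ρ)
    (hf.continuous.continuousOn.circleIntegrable')
  rw [h1] at h2
  exact h2

theorem cint {f : ℂ → ℝ} {p : ℂ} {ρ : ℝ} (hρ : 0 ≤ ρ) (hf : ContinuousOn f (sphere p ρ)) :
    CircleIntegrable f p ρ := hf.circleIntegrable hρ

theorem mean_sq (c p : ℂ) (ρ : ℝ) :
    Real.circleAverage (fun z => ‖z - c‖ ^ 2) p ρ = ‖p - c‖ ^ 2 + ρ ^ 2 := by
  have h1 : Differentiable ℂ (fun z : ℂ => (2 : ℂ) * conj (p - c) * (z - p) +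
      ((‖p - c‖ ^ 2 + ρ ^ 2 : ℝ) : ℂ)) := by fun_prop
  have h2 := mean_re h1 p ρ
  rw [sub_self, mul_zero, zero_add, Complex.ofReal_re] at h2
  rw [← h2]
  refine Real.circleAverage_congr_sphere fun z hz => ?_
  rw [mem_sphere_iff_norm] at hz
  have h3 : ρ ^ 2 = ‖z - p‖ ^ 2 := by rw [hz, sq_abs]
  rw [h3]
  have h4 : z - c = (z - p) + (p - c) := by ring
  rw [h4, Complex.add_re, Complex.ofReal_re]
  rw [← Complex.normSq_eq_norm_sq, ← Complex.normSq_eq_norm_sq, ← Complex.normSq_eq_norm_sq,
    Complex.normSq_add]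
  simp only [Complex.mul_re, Complex.conj_re, Complex.conj_im, Complex.re_ofNat, Complex.im_ofNat,
    Complex.mul_im]
  ring

end PRIV_

open PRIV_ in
theorem priv_proof : Stmt_Priv := by
  intro U u hU hu hmean c r hr hsub
  -- it is enough to prove the inequality up to small errors
  suffices H : ∀ e : ℝ, 0 < e → u c ≤ Real.circleAverage u c r + 2 * e + e * r ^ 2 by
    refine le_of_forall_pos_le_add fun ε hε => ?_
    have h1 : 0 < ε / (2 + r ^ 2) := by positivity
    have h2 := H _ h1
    have h3 : 2 * (ε / (2 + r ^ 2)) + (ε / (2 + r ^ 2)) * r ^ 2 = ε := by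
      field_simp
    linarith
  intro e he
  have husph : ContinuousOn u (sphere c r) := hu.mono (sphere_subset_closedBall.trans hsub)
  obtain ⟨P, hP⟩ := approx hr husph he
  set f : ℂ → ℂ := fun z => P.eval ((z - c) / r) with hf
  have hfd : Differentiable ℂ f := by
    refine P.differentiable.comp ?_
    fun_prop
  set v : ℂ → ℝ := fun z => u z - (f z).re - e + e * (‖z - c‖ ^ 2 - r ^ 2) with hv
  have hvc : ContinuousOn v (closedBall c r) := by
    have h1 : ContinuousOn u (closedBall c r) := hu.mono hsub
    have h2 : Continuous fun z => (f z).re := Complex.continuous_re.comp hfd.continuous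
    have h3 : Continuous fun z : ℂ => e * (‖z - c‖ ^ 2 - r ^ 2) := by fun_prop
    exact ((h1.sub h2.continuousOn).sub continuousOn_const).add h3.continuousOn
  have hvs : ∀ z ∈ sphere c r, v z ≤ 0 := by
    intro z hz
    have h1 := (abs_le.mp (hP z hz)).2
    rw [mem_sphere_iff_norm] at hz
    simp only [hv, hz, sub_self, mul_zero, add_zero]
    linarith
  have hv0 : ∀ z ∈ closedBall c r, v z ≤ 0 := by
    obtain ⟨p, hp, hmax⟩ := (isCompact_closedBall c r).exists_isMaxOn
      ⟨c, mem_closedBall_self hr.le⟩ hvc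
    by_contra hcon
    push Not at hcon
    obtain ⟨z, hz, hz0⟩ := hcon
    have hp0 : 0 < v p := hz0.trans_le (hmax hz)
    have hpb : p ∈ ball c r := by
      rw [mem_closedBall] at hp
      rcases lt_or_eq_of_le hp with h | h
      · exact h
      · exact absurd (hvs p h) (not_le.mpr hp0)
    obtain ⟨δ, hδ, hδs⟩ := Metric.isOpen_iff.mp isOpen_ball p hpb
    obtain ⟨r0, hr0, hr1⟩ := hmean p (hsub hp) (e / 2) (by positivity)
    set ρ := min (δ / 2) (r0 / 2) with hρ
    have hρ0 : 0 < ρ := by positivity
    have hρr : ρ < r0 := (min_le_right _ _).trans_lt (by linarith)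
    have hcb : closedBall p ρ ⊆ closedBall c r := by
      refine (closedBall_subset_ball ?_).trans (hδs.trans ball_subset_closedBall)
      exact (min_le_left _ _).trans_lt (by linarith)
    have h1 := hr1 ρ hρ0 hρr
    have hus : ContinuousOn u (sphere p ρ) :=
      hu.mono (sphere_subset_closedBall.trans (hcb.trans hsub))
    have hvsp : ContinuousOn v (sphere p ρ) :=
      hvc.mono (sphere_subset_closedBall.trans hcb)
    have h2 : Real.circleAverage v p ρ ≤ v p := by
      refine Real.circleAverage_mono_on_of_le_circle (cint hρ0.le hvsp) fun x hx => ?_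
      rw [abs_of_pos hρ0] at hx
      exact hmax (hcb (sphere_subset_closedBall hx))
    have hfi : CircleIntegrable (fun z => (f z).re) p ρ :=
      cint hρ0.le (Complex.continuous_re.comp hfd.continuous).continuousOn
    have hqi : CircleIntegrable (fun z : ℂ => ‖z - c‖ ^ 2) p ρ :=
      cint hρ0.le (by fun_prop)
    have hui : CircleIntegrable u p ρ := cint hρ0.le hus
    have h3 : Real.circleAverage v p ρ = Real.circleAverage u p ρ - (f p).re - e +
        e * ((‖p - c‖ ^ 2 + ρ ^ 2) - r ^ 2) := by
      have e1 : v = fun z => (u z - (f z).re) + (e * ‖z - c‖ ^ 2 + (- e - e * r ^ 2)) := by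
        funext z
        simp only [hv]
        ring
      rw [e1]
      have hq2 : CircleIntegrable (fun z : ℂ => e * ‖z - c‖ ^ 2) p ρ := hqi.const_mul e
      have a1 : CircleIntegrable (fun z => u z - (f z).re) p ρ := hui.sub hfi
      have a2 : CircleIntegrable (fun z : ℂ => e * ‖z - c‖ ^ 2 + (- e - e * r ^ 2)) p ρ :=
        hq2.add (circleIntegrable_const _ _ _)
      rw [Real.circleAverage_fun_add a1 a2, Real.circleAverage_fun_sub hui hfi,
        Real.circleAverage_fun_add hq2 (circleIntegrable_const _ _ _),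
        Real.circleAverage_const, mean_re hfd]
      have h4 := Real.circleAverage_fun_smul (𝕜 := ℝ) (a := e) (c := p) (R := ρ)
        (f := fun z : ℂ => ‖z - c‖ ^ 2)
      simp only [smul_eq_mul] at h4
      rw [h4, mean_sq]
      ring
    have h5 : v p = u p - (f p).re - e + e * (‖p - c‖ ^ 2 - r ^ 2) := rfl
    rw [h3, h5] at h2
    have h6 : 0 < e * ρ ^ 2 := by positivity
    nlinarith
  have h7 := hv0 c (mem_closedBall_self hr.le)
  simp only [hv, sub_self, norm_zero] at h7
  have h8 : (f c).re ≤ Real.circleAverage u c r + e := by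
    rw [← mean_re hfd c r, ← Real.circleAverage_const e c r, ← Real.circleAverage_fun_add
      (cint hr.le husph) (circleIntegrable_const _ _ _)]
    refine Real.circleAverage_mono (cint hr.le
      (Complex.continuous_re.comp hfd.continuous).continuousOn)
      ((cint hr.le husph).add (circleIntegrable_const _ _ _)) fun z hz => ?_
    rw [abs_of_pos hr] at hz
    have := (abs_le.mp (hP z hz)).1
    simp only [hf]
    linarith
  nlinarith

end

end Pool.Agent.TNP
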