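import Pool.Agent.TNP.Priv

/-!
# TNP, module PTW: the mean of `|q + t p + t² s|` over small circles
-/

open scoped ContDiff Topology ComplexConjugate
open Set Metric MeasureTheory Filter

namespace Pool.Agent.TNP

noncomputable section

namespace PTW_

theorem norm_expand (z : ℂ) (hz : ‖z‖ ≤ 1 / 2) :
    |‖1 + z‖ - (1 + z.re + (‖z‖ ^ 2 - (z ^ 2).re) / 4)| ≤ ‖z‖ ^ 3 := by
  have hx : |z.re| ≤ ‖z‖ := Complex.abs_re_le_norm z
  have hy : |z.im| ≤ ‖z‖ := Complex.abs_im_le_norm z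
  set R := ‖1 + z‖ with hR
  have hR2 : R ^ 2 = (1 + z.re) ^ 2 + z.im ^ 2 := by
    rw [hR, ← Complex.normSq_eq_norm_sq, Complex.normSq_apply]
    simp only [Complex.add_re, Complex.one_re, Complex.add_im, Complex.one_im, zero_add]
    ring
  have hz2 : ‖z‖ ^ 2 = z.re ^ 2 + z.im ^ 2 := by
    rw [← Complex.normSq_eq_norm_sq, Complex.normSq_apply]; ring
  have hzz : (z ^ 2).re = z.re ^ 2 - z.im ^ 2 := by
    rw [pow_two, Complex.mul_re]; ring
  have hR1 : |1 - R| ≤ ‖z‖ := by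
    have h1 := abs_norm_sub_norm_le (1 : ℂ) (1 + z)
    rw [norm_one] at h1
    have h2 : ‖(1 : ℂ) - (1 + z)‖ = ‖z‖ := by
      rw [show (1 : ℂ) - (1 + z) = -z by ring, norm_neg]
    rw [h2] at h1
    exact h1
  have hRl : 1 / 2 ≤ R := by
    have := (abs_le.mp hR1).2
    linarith
  have hxl : 1 / 2 ≤ 1 + z.re := by
    have := (abs_le.mp hx).1
    linarith
  have e1 : R - (1 + z.re + (‖z‖ ^ 2 - (z ^ 2).re) / 4) =
      z.im ^ 2 * ((1 - R) - z.re) / (2 * (R + (1 + z.re))) := by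
    rw [hz2, hzz, eq_div_iff (by positivity)]
    linear_combination 2 * hR2
  rw [e1, abs_div, abs_mul, abs_of_nonneg (sq_nonneg z.im),
    abs_of_pos (by positivity : 0 < 2 * (R + (1 + z.re))), div_le_iff₀ (by positivity)]
  have h3 : |1 - R - z.re| ≤ 2 * ‖z‖ := (abs_sub _ _).trans (by linarith)
  have h4 : z.im ^ 2 ≤ ‖z‖ ^ 2 := by
    rw [← sq_abs z.im]
    exact pow_le_pow_left₀ (abs_nonneg _) hy 2
  calc z.im ^ 2 * |1 - R - z.re| ≤ ‖z‖ ^ 2 * (2 * ‖z‖) :=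
        mul_le_mul h4 h3 (abs_nonneg _) (by positivity)
    _ = ‖z‖ ^ 3 * (2 * (1 / 2 + 1 / 2)) := by ring
    _ ≤ ‖z‖ ^ 3 * (2 * (R + (1 + z.re))) := by
        refine mul_le_mul_of_nonneg_left ?_ (by positivity)
        linarith

theorem re_aux (Q A B : ℝ) (z w : ℂ) : ((Q : ℂ) * (1 + z + ((A : ℂ) +
    2 * (B : ℂ) ^ 2 * w - z ^ 2) / 4)).re =
    Q * (1 + z.re + (A + 2 * B ^ 2 * w.re - (z ^ 2).re) / 4) := by
  rw [Complex.re_ofReal_mul]
  congr 1
  rw [Complex.add_re, Complex.add_re, Complex.one_re, Complex.div_ofNat_re,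
    Complex.sub_re, Complex.add_re, Complex.ofReal_re]
  have e2 : (2 : ℂ) * (B : ℂ) ^ 2 * w = ((2 * B ^ 2 : ℝ) : ℂ) * w := by push_cast; ring
  rw [e2, Complex.re_ofReal_mul]

theorem cint0 {f : ℂ → ℝ} {r : ℝ} (hf : Continuous f) : CircleIntegrable f 0 r :=
  hf.continuousOn.circleIntegrable'

theorem avg_le_of_re {f : ℂ → ℝ} {E : ℂ → ℂ} {r : ℝ} (hr : 0 < r) (hf : Continuous f)
    (hE : Differentiable ℂ E) (h : ∀ t : ℂ, ‖t‖ = r → f t ≤ (E t).re) :
    Real.circleAverage f 0 r ≤ (E 0).re := by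
  rw [← PRIV_.mean_re hE 0 r]
  refine Real.circleAverage_mono (cint0 hf)
    (cint0 (Complex.continuous_re.comp hE.continuous)) fun t ht => ?_
  rw [mem_sphere_zero_iff_norm, abs_of_pos hr] at ht
  exact h t ht

theorem le_avg_of_re {f : ℂ → ℝ} {E : ℂ → ℂ} {r : ℝ} (hr : 0 < r) (hf : Continuous f)
    (hE : Differentiable ℂ E) (h : ∀ t : ℂ, ‖t‖ = r → (E t).re ≤ f t) :
    (E 0).re ≤ Real.circleAverage f 0 r := by
  rw [← PRIV_.mean_re hE 0 r]
  refine Real.circleAverage_mono (cint0 (Complex.continuous_re.comp hE.continuous))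
    (cint0 hf) fun t ht => ?_
  rw [mem_sphere_zero_iff_norm, abs_of_pos hr] at ht
  exact h t ht

end PTW_

open PTW_ in
theorem ptw_proof : Stmt_Ptw := by
  intro q p s hq
  have hqn : 0 < ‖q‖ := norm_pos_iff.mpr hq
  have hcont : Continuous (fun t : ℂ => ‖q + t * p + t ^ 2 * s‖) := by fun_prop
  constructor
  · intro r hr
    have hE : Differentiable ℂ (fun t : ℂ => conj q * p / (‖q‖ : ℂ) * t +
        ((‖q‖ + r ^ 2 * (‖p‖ ^ 2 / (2 * ‖q‖) + ‖s‖) : ℝ) : ℂ)) := by fun_prop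
    have h1 := avg_le_of_re hr hcont hE ?_
    · simp only [mul_zero, zero_add, Complex.ofReal_re] at h1
      exact h1
    · intro t ht
      have h2 : ‖q + t * p + t ^ 2 * s‖ ≤ ‖q + t * p‖ + r ^ 2 * ‖s‖ := by
        refine (norm_add_le _ _).trans ?_
        rw [norm_mul, norm_pow, ht]
      have h3 : ‖q + t * p‖ ^ 2 = ‖q‖ ^ 2 + r ^ 2 * ‖p‖ ^ 2 + 2 * (conj q * p * t).re := by
        rw [← Complex.normSq_eq_norm_sq, Complex.normSq_add, Complex.normSq_eq_norm_sq,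
          Complex.normSq_eq_norm_sq, norm_mul, ht, mul_pow]
        congr 2
        have : q * conj (t * p) = conj (conj q * p * t) := by
          simp only [map_mul, Complex.conj_conj]; ring
        rw [this, Complex.conj_re]
      have h4 : ‖q + t * p‖ ≤ ‖q‖ + (‖q + t * p‖ ^ 2 - ‖q‖ ^ 2) / (2 * ‖q‖) := by
        rw [← sub_le_iff_le_add', le_div_iff₀ (by positivity)]
        nlinarith [sq_nonneg (‖q + t * p‖ - ‖q‖)]
      have h5 : (conj q * p / (‖q‖ : ℂ) * t).re = (conj q * p * t).re / ‖q‖ := by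
        rw [div_mul_eq_mul_div, Complex.div_ofReal_re]
      rw [Complex.add_re, Complex.ofReal_re, h5]
      rw [h3] at h4
      have h6 : (‖q‖ ^ 2 + r ^ 2 * ‖p‖ ^ 2 + 2 * (conj q * p * t).re - ‖q‖ ^ 2) / (2 * ‖q‖) =
          (conj q * p * t).re / ‖q‖ + r ^ 2 * (‖p‖ ^ 2 / (2 * ‖q‖)) := by
        field_simp
        ring
      rw [h6] at h4
      linarith
  · set a := p / q with ha
    set b := s / q with hb
    set c : ℝ := ‖a‖ + ‖b‖ with hc
    have hc0 : 0 ≤ c := by positivity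
    -- the main estimate
    have key : ∀ r : ℝ, 0 < r → r ≤ 1 → r * c ≤ 1 / 2 →
        |Real.circleAverage (fun t : ℂ => ‖q + t * p + t ^ 2 * s‖) 0 r -
          ‖q‖ * (1 + (r ^ 2 * ‖a‖ ^ 2 + r ^ 4 * ‖b‖ ^ 2) / 4)| ≤ ‖q‖ * (r * c) ^ 3 := by
      intro r hr hr1 hrc
      have hpt : ∀ t : ℂ, ‖t‖ = r → |‖q + t * p + t ^ 2 * s‖ - ((‖q‖ : ℂ) * (1 +
          (t * a + t ^ 2 * b) + (((r ^ 2 * ‖a‖ ^ 2 + r ^ 4 * ‖b‖ ^ 2 : ℝ) : ℂ) +
            2 * (r : ℂ) ^ 2 * (conj a * b * t) - (t * a + t ^ 2 * b) ^ 2) / 4)).re| ≤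
            ‖q‖ * (r * c) ^ 3 := by
        intro t ht
        set z := t * a + t ^ 2 * b with hz
        have hzn : ‖z‖ ≤ r * c := by
          refine (norm_add_le _ _).trans ?_
          rw [norm_mul, norm_mul, norm_pow, ht, hc, mul_add]
          have : r ^ 2 * ‖b‖ ≤ r * ‖b‖ := by
            refine mul_le_mul_of_nonneg_right ?_ (norm_nonneg _)
            nlinarith
          linarith
        have h1 := norm_expand z (hzn.trans hrc)
        have h2 : ‖q + t * p + t ^ 2 * s‖ = ‖q‖ * ‖1 + z‖ := by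
          rw [← norm_mul]
          congr 1
          rw [hz, ha, hb]
          field_simp
          ring
        have h3 : ‖z‖ ^ 2 = r ^ 2 * ‖a‖ ^ 2 + r ^ 4 * ‖b‖ ^ 2 + 2 * r ^ 2 * (conj a * b * t).re := by
          have e1 : z = t * (a + t * b) := by rw [hz]; ring
          rw [e1, norm_mul, mul_pow, ht, ← Complex.normSq_eq_norm_sq (a + t * b),
            Complex.normSq_add, Complex.normSq_eq_norm_sq, Complex.normSq_eq_norm_sq, norm_mul, ht,
            mul_pow]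
          have : a * conj (t * b) = conj (conj a * b * t) := by
            simp only [map_mul, Complex.conj_conj]; ring
          rw [this, Complex.conj_re]
          ring
        have h4 : ((‖q‖ : ℂ) * (1 + z + (((r ^ 2 * ‖a‖ ^ 2 + r ^ 4 * ‖b‖ ^ 2 : ℝ) : ℂ) +
            2 * (r : ℂ) ^ 2 * (conj a * b * t) - z ^ 2) / 4)).re =
            ‖q‖ * (1 + z.re + (‖z‖ ^ 2 - (z ^ 2).re) / 4) := by
          rw [h3, re_aux]
        rw [h4, h2, ← mul_sub, abs_mul, abs_of_pos hqn]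
        refine mul_le_mul_of_nonneg_left (h1.trans ?_) hqn.le
        exact pow_le_pow_left₀ (norm_nonneg _) hzn 3
      have hE0 : Differentiable ℂ (fun t : ℂ => (‖q‖ : ℂ) * (1 +
          (t * a + t ^ 2 * b) + (((r ^ 2 * ‖a‖ ^ 2 + r ^ 4 * ‖b‖ ^ 2 : ℝ) : ℂ) +
            2 * (r : ℂ) ^ 2 * (conj a * b * t) - (t * a + t ^ 2 * b) ^ 2) / 4)) := by
        fun_prop
      have hE1 := hE0.add_const ((‖q‖ * (r * c) ^ 3 : ℝ) : ℂ)
      have hE2 := hE0.sub_const ((‖q‖ * (r * c) ^ 3 : ℝ) : ℂ)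
      have u1 := avg_le_of_re hr hcont hE1 fun t ht => by
        have := (abs_le.mp (hpt t ht)).2
        rw [Complex.add_re, Complex.ofReal_re]
        linarith
      have u2 := le_avg_of_re hr hcont hE2 fun t ht => by
        have := (abs_le.mp (hpt t ht)).1
        rw [Complex.sub_re, Complex.ofReal_re]
        linarith
      have e0 : ((‖q‖ : ℂ) * (1 + ((0 : ℂ) * a + (0 : ℂ) ^ 2 * b) +
          (((r ^ 2 * ‖a‖ ^ 2 + r ^ 4 * ‖b‖ ^ 2 : ℝ) : ℂ) +
            2 * (r : ℂ) ^ 2 * (conj a * b * 0) - ((0 : ℂ) * a + (0 : ℂ) ^ 2 * b) ^ 2) / 4)).re =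
          ‖q‖ * (1 + (r ^ 2 * ‖a‖ ^ 2 + r ^ 4 * ‖b‖ ^ 2) / 4) := by
        rw [Complex.re_ofReal_mul]
        congr 1
        simp only [zero_mul, mul_zero, ne_eq, OfNat.ofNat_ne_zero, not_false_eq_true, zero_pow,
          add_zero, sub_zero, Complex.add_re, Complex.one_re, Complex.div_ofNat_re,
          Complex.ofReal_re]
      rw [Complex.add_re, Complex.ofReal_re, e0] at u1
      rw [Complex.sub_re, Complex.ofReal_re, e0] at u2
      rw [abs_le]
      constructor <;> linarith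
    -- the limit
    have hlim : Tendsto (fun r : ℝ => ‖q‖ * (‖a‖ ^ 2 + r ^ 2 * ‖b‖ ^ 2) / 4) (𝓝[>] 0)
        (𝓝 (‖p‖ ^ 2 / (4 * ‖q‖))) := by
      have h1 : Continuous (fun r : ℝ => ‖q‖ * (‖a‖ ^ 2 + r ^ 2 * ‖b‖ ^ 2) / 4) := by fun_prop
      have h2 := (h1.tendsto 0).mono_left (nhdsWithin_le_nhds (s := Ioi 0))
      have h3 : ‖q‖ * (‖a‖ ^ 2 + (0 : ℝ) ^ 2 * ‖b‖ ^ 2) / 4 = ‖p‖ ^ 2 / (4 * ‖q‖) := by
        rw [ha, norm_div]
        field_simp
        ring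
      rwa [h3] at h2
    have herr : Tendsto (fun r : ℝ => ‖q‖ * (r * c ^ 3)) (𝓝[>] 0) (𝓝 0) := by
      have h1 : Continuous (fun r : ℝ => ‖q‖ * (r * c ^ 3)) := by fun_prop
      have h2 := (h1.tendsto 0).mono_left (nhdsWithin_le_nhds (s := Ioi 0))
      simpa using h2
    have hdiff : ∀ᶠ r : ℝ in 𝓝[>] 0,
        ‖(Real.circleAverage (fun t : ℂ => ‖q + t * p + t ^ 2 * s‖) 0 r - ‖q‖) / r ^ 2 -
          ‖q‖ * (‖a‖ ^ 2 + r ^ 2 * ‖b‖ ^ 2) / 4‖ ≤ ‖q‖ * (r * c ^ 3) := by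
      have h1 : ∀ᶠ r : ℝ in 𝓝[>] 0, r < min 1 (1 / (2 * (c + 1))) :=
        nhdsWithin_le_nhds (Iio_mem_nhds (by positivity))
      filter_upwards [self_mem_nhdsWithin, h1] with r hr hr1
      have hr : 0 < r := hr
      have hr2 : r ≤ 1 := (hr1.trans_le (min_le_left _ _)).le
      have hr3 : r * c ≤ 1 / 2 := by
        have h2 := (hr1.trans_le (min_le_right _ _)).le
        rw [le_div_iff₀ (by positivity)] at h2
        nlinarith
      have h3 := key r hr hr2 hr3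
      have e1 : (Real.circleAverage (fun t : ℂ => ‖q + t * p + t ^ 2 * s‖) 0 r - ‖q‖) / r ^ 2 -
          ‖q‖ * (‖a‖ ^ 2 + r ^ 2 * ‖b‖ ^ 2) / 4 =
          (Real.circleAverage (fun t : ℂ => ‖q + t * p + t ^ 2 * s‖) 0 r -
          ‖q‖ * (1 + (r ^ 2 * ‖a‖ ^ 2 + r ^ 4 * ‖b‖ ^ 2) / 4)) / r ^ 2 := by
        generalize Real.circleAverage (fun t : ℂ => ‖q + t * p + t ^ 2 * s‖) 0 r = X
        field_simp
        ring
      rw [e1, Real.norm_eq_abs, abs_div, abs_of_pos (by positivity : 0 < r ^ 2),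
        div_le_iff₀ (by positivity)]
      refine h3.trans (le_of_eq ?_)
      ring
    have h5 := squeeze_zero_norm' hdiff herr
    have h6 := h5.add hlim
    simpa using h6

end

end Pool.Agent.TNP
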