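import Pool.Agent.TNP.Stmts

/-!
# TNP, module QNZ: zero sets of quadratic differentials are null sets
-/

set_option autoImplicit false

open scoped ContDiff Topology ComplexConjugate
open Set Metric MeasureTheory Filter

namespace Pool.Agent.TNP

theorem qnz_proof : Stmt_Qnz := by
  intro S q hq h0
  obtain ⟨z0, hz0, hne⟩ := h0
  have han : AnalyticOnNhd ℂ q Hp := hq.hol.analyticOnNhd isOpen_Hp
  rcases han.eqOn_zero_or_eventually_ne_zero_of_preconnected isPreconnected_Hp with h1 | h1
  · exact absurd (h1 hz0) hne
  · exact ae_restrict_le_codiscreteWithin measurableSet_Hp h1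

end Pool.Agent.TNP
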