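import Pool.Agent.TNP.Stmts

/-!
# TNP / QCSB: the transformation rules of a quasiconformal map between surfaces
-/

open scoped ContDiff Topology ComplexConjugate
open Set Metric MeasureTheory Filter

namespace Pool.Agent.TNP

noncomputable section

namespace QCSB_

theorem rules {w : ℂ → ℂ} (hw : ContDiffOn ℝ ∞ w Hp) (hwm : ∀ z ∈ Hp, w z ∈ Hp) {g h : SL2}
    (hgh : ∀ z ∈ Hp, w (mob g z) = mob h (w z)) {z : ℂ} (hz : z ∈ Hp) :
    dz w (mob g z) * den h (w z) ^ 2 = den g z ^ 2 * dz w z ∧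
    db w (mob g z) * den h (w z) ^ 2 = conj (den g z) ^ 2 * db w z := by
  have hdiff : ∀ x ∈ Hp, DifferentiableAt ℝ w x := fun x hx =>
    (hw.contDiffAt (isOpen_Hp.mem_nhds hx)).differentiableAt (by simp)
  have hm := mob_mem g hz
  have e : (fun x => w (mob g x)) =ᶠ[𝓝 z] fun x => mob h (w x) := by
    filter_upwards [isOpen_Hp.mem_nhds hz] with x hx
    exact hgh x hx
  have h1 := dz_congr e
  have h2 := db_congr e
  rw [dz_comp_mob g hz (hdiff _ hm),
    dz_holo_comp (hdiff z hz) (differentiableAt_mob h (hwm z hz)), deriv_mob h (hwm z hz)] at h1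
  rw [db_comp_mob g hz (hdiff _ hm),
    db_holo_comp (hdiff z hz) (differentiableAt_mob h (hwm z hz)), deriv_mob h (hwm z hz)] at h2
  have hd := den_ne g hz
  have hd' := den_ne h (hwm z hz)
  have hc : (starRingEnd ℂ) (den g z) ≠ 0 := by simpa using hd
  constructor
  · field_simp at h1
    linear_combination h1
  · field_simp at h2
    linear_combination h2

end QCSB_

open QCSB_ in
theorem qcsb_proof (hWinv : Stmt_Winv) : Stmt_QcSB := by
  intro S S' w μ hqc
  have hqm : QM w μ := ⟨hqc.bij, hqc.smooth, hqc.bel, hqc.lt, hqc.ne⟩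
  have hwm : ∀ z ∈ Hp, w z ∈ Hp := fun z hz => hqc.bij.mapsTo hz
  refine ⟨⟨(hWinv w μ hqm).1, ?_⟩, fun g _ h _ hgh z hz => (rules hqc.smooth hwm hgh hz).1⟩
  intro g hg z hz
  obtain ⟨h, _, hgh⟩ := hqc.conj1 g hg
  obtain ⟨h1, h2⟩ := rules hqc.smooth hwm hgh hz
  have hm := mob_mem g hz
  have hd := den_ne g hz
  have hd' := den_ne h (hwm z hz)
  rw [hqc.bel z hz] at h2
  rw [hqc.bel _ hm] at h2
  have hW := hqc.ne z hz
  have e1 : den g z ^ (2 * -1 : ℤ) = (den g z ^ 2)⁻¹ := by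
    rw [← zpow_natCast, ← zpow_neg]
    norm_num
  have e2 : (starRingEnd ℂ) (den g z) ^ (2 * 1 : ℤ) = (starRingEnd ℂ) (den g z) ^ 2 := by
    norm_cast
  rw [e1, e2]
  have h3 : μ (mob g z) * (den g z ^ 2 * dz w z) = (starRingEnd ℂ) (den g z) ^ 2 * (μ z * dz w z) := by
    rw [← h1, ← h2]
    ring
  have h4 : μ (mob g z) * den g z ^ 2 = (starRingEnd ℂ) (den g z) ^ 2 * μ z := by
    apply mul_right_cancel₀ hW
    linear_combination h3
  field_simp
  linear_combination h4

end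

end Pool.Agent.TNP
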