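import Pool.Agent.TNP.Stmts

/-!
# TNP, module RSZ: the first order variation of the extremal differential with the optimal bound
-/

set_option autoImplicit false

open scoped ContDiff Topology ComplexConjugate
open Set Metric MeasureTheory Filter

namespace Pool.Agent.TNP

noncomputable section

namespace RSZ_

theorem normsq (S : Surf) (f : Lp ℂ 2 (volume.restrict S.D)) :
    ‖f‖ ^ 2 = ∫ z in S.D, ‖f z‖ ^ 2 := by
  have h1 : (inner ℂ f f : ℂ) = ((‖f‖ : ℝ) : ℂ) ^ 2 := inner_self_eq_norm_sq_to_K f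
  rw [L2.inner_def] at h1
  have h2 : ∫ z in S.D, (inner ℂ (f z) (f z) : ℂ) = ((∫ z in S.D, ‖f z‖ ^ 2 : ℝ) : ℂ) := by
    rw [← integral_complex_ofReal]
    refine integral_congr_ae (Eventually.of_forall fun z => ?_)
    have h3 : (inner ℂ (f z) (f z) : ℂ) = ((‖f z‖ : ℝ) : ℂ) ^ 2 := inner_self_eq_norm_sq_to_K _
    simp only
    rw [h3]
    push_cast
    rfl
  rw [h2] at h1
  exact_mod_cast h1.symm

theorem normsq_toLp (S : Surf) {f : ℂ → ℂ} (hf : MemLp f 2 (volume.restrict S.D)) :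
    ‖hf.toLp f‖ ^ 2 = ∫ z in S.D, ‖f z‖ ^ 2 := by
  rw [normsq]
  refine integral_congr_ae ?_
  filter_upwards [hf.coeFn_toLp] with z hz
  rw [hz]

/-- Cauchy-Schwarz -/
theorem cs (S : Surf) {f g : ℂ → ℂ} (hf : MemLp f 2 (volume.restrict S.D))
    (hg : MemLp g 2 (volume.restrict S.D)) :
    ‖∫ z in S.D, f z * g z‖ ^ 2 ≤ (∫ z in S.D, ‖f z‖ ^ 2) * ∫ z in S.D, ‖g z‖ ^ 2 := by
  have hf' : MemLp (fun z => conj (f z)) 2 (volume.restrict S.D) :=
    ⟨Complex.continuous_conj.comp_aestronglyMeasurable hf.1, by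
      have : eLpNorm (fun z => conj (f z)) 2 (volume.restrict S.D) =
          eLpNorm f 2 (volume.restrict S.D) := by
        refine eLpNorm_congr_norm_ae (Eventually.of_forall fun z => ?_)
        simp
      rw [this]
      exact hf.2⟩
  have h1 : (inner ℂ (hf'.toLp _) (hg.toLp _) : ℂ) = ∫ z in S.D, f z * g z := by
    rw [L2.inner_def]
    refine integral_congr_ae ?_
    filter_upwards [hf'.coeFn_toLp, hg.coeFn_toLp] with z h2 h3
    rw [h2, h3, RCLike.inner_apply, Complex.conj_conj]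
    ring
  have h2 := norm_inner_le_norm (𝕜 := ℂ) (hf'.toLp _) (hg.toLp _)
  rw [h1] at h2
  have h3 := normsq_toLp S hf'
  have h4 := normsq_toLp S hg
  have h5 : ∫ z in S.D, ‖conj (f z)‖ ^ 2 = ∫ z in S.D, ‖f z‖ ^ 2 := by simp
  rw [h5] at h3
  rw [← h3, ← h4, ← mul_pow]
  exact pow_le_pow_left₀ (norm_nonneg _) h2 2

/-- extension of bounded functionals -/
theorem exists_ext {V H : Type} [AddCommGroup V] [Module ℂ V] [NormedAddCommGroup H]
    [InnerProductSpace ℂ H] (e : V →ₗ[ℂ] H) (Λ : V →ₗ[ℂ] ℂ) (C : ℝ) (hC : 0 ≤ C)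
    (h : ∀ v, ‖Λ v‖ ≤ C * ‖e v‖) : ∃ ℓ : H →L[ℂ] ℂ, ‖ℓ‖ ≤ C ∧ ∀ v, ℓ (e v) = Λ v := by
  obtain ⟨g, hg⟩ := e.rangeRestrict.exists_rightInverse_of_surjective
    (LinearMap.range_rangeRestrict e)
  have hg' : ∀ w : LinearMap.range e, e (g w) = w := fun w =>
    congrArg Subtype.val (LinearMap.congr_fun hg w)
  let f : LinearMap.range e →L[ℂ] ℂ := (Λ.comp g).mkContinuous C (fun w => by
    have h1 := h (g w)
    rw [hg'] at h1
    exact h1)
  obtain ⟨ℓ, h1, h2⟩ := exists_extension_norm_eq (LinearMap.range e) f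
  refine ⟨ℓ, ?_, fun v => ?_⟩
  · rw [h2]
    exact LinearMap.mkContinuous_norm_le _ hC _
  · have h3 := h1 ⟨e v, v, rfl⟩
    have h4 := h (g ⟨e v, v, rfl⟩ - v)
    rw [map_sub e, hg', sub_self, norm_zero, mul_zero, map_sub Λ] at h4
    have h5 := sub_eq_zero.1 (norm_le_zero_iff.1 h4)
    rw [← h5]
    exact h3

/-- the space of vector fields -/
def Vs (S : Surf) : Submodule ℂ (ℂ → ℂ) where
  carrier := {χ | VF S χ}
  add_mem' := by
    intro χ₁ χ₂ h1 h2
    exact ⟨h1.sm.add h2.sm, h1.aut.add h2.aut⟩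
  zero_mem' := ⟨sm_const 0, fun g _ z _ => by simp⟩
  smul_mem' := by
    intro c χ h
    refine ⟨(sm_const c).mul h.sm, fun g hg z hz => ?_⟩
    rw [Pi.smul_apply, Pi.smul_apply, h.aut g hg z hz, smul_eq_mul, smul_eq_mul]
    ring

theorem ae_D {S : Surf} {p : ℂ → Prop} (h : ∀ z ∈ Hp, p z) :
    ∀ᵐ z ∂(volume.restrict S.D), p z :=
  (ae_restrict_iff' S.meas).mpr (Eventually.of_forall fun z hz => h z (S.D_sub hz))

theorem db_smul' {χ : ℂ → ℂ} (h : Sm χ) (c : ℂ) {z : ℂ} (hz : z ∈ Hp) :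
    db (c • χ) z = c * db χ z := db_const_mul c (h.diff hz)

theorem dz_smul' {χ : ℂ → ℂ} (h : Sm χ) (c : ℂ) {z : ℂ} (hz : z ∈ Hp) :
    dz (c • χ) z = c * dz χ z := dz_const_mul c (h.diff hz)

end RSZ_

open RSZ_ in
theorem rsz_proof (hFlat : Stmt_Flat) (hQnz : Stmt_Qnz) : Stmt_Rsz := by
  intro S q a hq ha
  by_cases h0 : ∃ z ∈ Hp, q z ≠ 0
  swap
  · push Not at h0
    refine ⟨fun _ => 0, MemLp.zero', ?_, ?_, fun χ _ => ?_⟩
    · simp
    · simp only [norm_zero, ne_eq, OfNat.ofNat_ne_zero, not_false_eq_true, zero_pow, zero_div,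
        integral_zero]
      refine mul_nonneg (by norm_num) (integral_nonneg fun z => ?_)
      positivity
    · have h1 : ∀ᵐ z ∂(volume.restrict S.D),
          a z * (2 * q z * dz χ z + deriv q z * χ z) = 0 := by
        refine ae_D fun z hz => ?_
        have h2 : deriv q z = 0 := by
          have h3 : q =ᶠ[𝓝 z] fun _ => 0 := by
            filter_upwards [isOpen_Hp.mem_nhds hz] with x hx
            exact h0 x hx
          rw [h3.deriv_eq, deriv_const]
        rw [h2, h0 z hz]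
        ring
      rw [integral_congr_ae h1]
      simp
  -- the weight
  have hne : ∀ᵐ z ∂(volume.restrict S.D), q z ≠ 0 :=
    ae_restrict_of_ae_restrict_of_subset S.D_sub (hQnz S q hq h0)
  set s : ℂ → ℝ := fun z => Real.sqrt ‖q z‖ with hs
  have hs2 : ∀ z, s z ^ 2 = ‖q z‖ := fun z => Real.sq_sqrt (norm_nonneg _)
  have hs0 : ∀ z, 0 ≤ s z := fun z => Real.sqrt_nonneg _
  have hsc : ContinuousOn (fun z => (s z : ℂ)) Hp :=
    Complex.continuous_ofReal.comp_continuousOn (Real.continuous_sqrt.comp_continuousOn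
      hq.hol.continuousOn.norm)
  have hsbd : Bd S (fun z => (s z : ℂ)) := bd_of_cont S hsc
  -- the functional
  have hXsm : ∀ χ, VF S χ → Sm (fun z => 2 * q z * dz χ z + deriv q z * χ z) := by
    intro χ hχ
    exact (((sm_const 2).mul hq.sm).mul hχ.sm.dz).add
      ((sm_of_hol (hq.hol.deriv isOpen_Hp)).mul hχ.sm)
  have hXL : ∀ χ, VF S χ → L2 S (fun z => 2 * q z * dz χ z + deriv q z * χ z) :=
    fun χ hχ => (bd_of_cont S (hXsm χ hχ).cont).L2
  have heL : ∀ χ, VF S χ → MemLp (fun z => (s z : ℂ) * db χ z) 2 (volume.restrict S.D) :=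
    fun χ hχ => (bd_of_cont S (hsc.mul hχ.sm.db.cont)).L2
  let e : Vs S →ₗ[ℂ] Lp ℂ 2 (volume.restrict S.D) :=
    { toFun := fun χ => (heL χ.1 χ.2).toLp _
      map_add' := by
        intro χ₁ χ₂
        rw [← MemLp.toLp_add, MemLp.toLp_eq_toLp_iff]
        refine ae_D fun z hz => ?_
        have h1 : db ((χ₁ + χ₂ : Vs S) : ℂ → ℂ) z = db χ₁.1 z + db χ₂.1 z :=
          db_add (χ₁.2.sm.diff hz) (χ₂.2.sm.diff hz)
        simp only [Pi.add_apply]
        rw [h1]
        ring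
      map_smul' := by
        intro c χ
        rw [RingHom.id_apply, ← MemLp.toLp_const_smul, MemLp.toLp_eq_toLp_iff]
        refine ae_D fun z hz => ?_
        have h1 : db ((c • χ : Vs S) : ℂ → ℂ) z = c * db χ.1 z := db_smul' χ.2.sm c hz
        simp only [Pi.smul_apply]
        rw [h1, smul_eq_mul]
        ring }
  have he : ∀ χ : Vs S, (e χ : ℂ → ℂ) =ᵐ[volume.restrict S.D] fun z => (s z : ℂ) * db χ.1 z :=
    fun χ => (heL χ.1 χ.2).coeFn_toLp
  have heN : ∀ χ : Vs S, ‖e χ‖ ^ 2 = ∫ z in S.D, ‖q z‖ * ‖db χ.1 z‖ ^ 2 := by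
    intro χ
    have h1 := normsq_toLp S (heL χ.1 χ.2)
    have h2 : ‖e χ‖ ^ 2 = ∫ z in S.D, ‖(s z : ℂ) * db χ.1 z‖ ^ 2 := h1
    rw [h2]
    refine integral_congr_ae (Eventually.of_forall fun z => ?_)
    simp only
    rw [norm_mul, mul_pow, Complex.norm_real, Real.norm_eq_abs, sq_abs, hs2]
  let Λ : Vs S →ₗ[ℂ] ℂ :=
    { toFun := fun χ => ∫ z in S.D, a z * (2 * q z * dz χ.1 z + deriv q z * χ.1 z)
      map_add' := by
        intro χ₁ χ₂
        rw [← integral_add (ha.L2.int_mul (hXL χ₁.1 χ₁.2)) (ha.L2.int_mul (hXL χ₂.1 χ₂.2))]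
        refine integral_congr_ae (ae_D fun z hz => ?_)
        have h1 : dz ((χ₁ + χ₂ : Vs S) : ℂ → ℂ) z = dz χ₁.1 z + dz χ₂.1 z :=
          dz_add (χ₁.2.sm.diff hz) (χ₂.2.sm.diff hz)
        have h2 : ((χ₁ + χ₂ : Vs S) : ℂ → ℂ) z = χ₁.1 z + χ₂.1 z := rfl
        simp only
        rw [h1, h2]
        ring
      map_smul' := by
        intro c χ
        rw [RingHom.id_apply, smul_eq_mul, ← integral_const_mul]
        refine integral_congr_ae (ae_D fun z hz => ?_)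
        have h1 : dz ((c • χ : Vs S) : ℂ → ℂ) z = c * dz χ.1 z := dz_smul' χ.2.sm c hz
        have h2 : ((c • χ : Vs S) : ℂ → ℂ) z = c * χ.1 z := rfl
        simp only
        rw [h1, h2]
        ring }
  have hΛ : ∀ χ : Vs S, Λ χ = ∫ z in S.D, a z * (2 * q z * dz χ.1 z + deriv q z * χ.1 z) :=
    fun χ => rfl
  set A : ℝ := ∫ z in S.D, ‖a z‖ ^ 2 * ‖q z‖ with hA
  have hA0 : 0 ≤ A := integral_nonneg fun z => by positivity
  -- the bound
  have hbound : ∀ χ : Vs S, ‖Λ χ‖ ≤ 2 * Real.sqrt A * ‖e χ‖ := by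
    intro χ
    obtain ⟨h1, h2⟩ := hFlat S q χ.1 hq χ.2
    set X : ℂ → ℂ := fun z => 2 * q z * dz χ.1 z + deriv q z * χ.1 z with hX
    have hXm : AEStronglyMeasurable X (volume.restrict S.D) := (hXL χ.1 χ.2).1
    have hf : MemLp (fun z => a z * (s z : ℂ)) 2 (volume.restrict S.D) := by
      obtain ⟨M, hM⟩ := ha.bdd
      obtain ⟨M', hM'⟩ := hsbd.bdd
      refine (Bd.L2 ⟨ha.meas.mul hsbd.meas, |M| * |M'|, fun z hz => ?_⟩ : L2 S _)
      rw [Pi.mul_apply, norm_mul]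
      exact mul_le_mul ((hM z hz).trans (le_abs_self _)) ((hM' z hz).trans (le_abs_self _))
        (norm_nonneg _) (abs_nonneg _)
    have hgm : AEStronglyMeasurable (fun z => X z / (s z : ℂ)) (volume.restrict S.D) :=
      (hXm.aemeasurable.div hsbd.meas.aemeasurable).aestronglyMeasurable
    have hgn : ∀ z, ‖X z / (s z : ℂ)‖ ^ 2 = ‖X z‖ ^ 2 / ‖q z‖ := by
      intro z
      rw [norm_div, div_pow, Complex.norm_real, Real.norm_eq_abs, sq_abs, hs2]
    have hg : MemLp (fun z => X z / (s z : ℂ)) 2 (volume.restrict S.D) := by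
      rw [memLp_two_iff_integrable_sq_norm hgm]
      simp only [hgn]
      exact h1
    have h3 := cs S hf hg
    have h4 : ∫ z in S.D, a z * (s z : ℂ) * (X z / (s z : ℂ)) = Λ χ := by
      rw [hΛ]
      refine integral_congr_ae ?_
      filter_upwards [hne] with z hz
      have hsz : (s z : ℂ) ≠ 0 := by
        have : 0 < s z := Real.sqrt_pos.2 (norm_pos_iff.2 hz)
        exact_mod_cast this.ne'
      rw [mul_assoc, mul_div_cancel₀ _ hsz]
    have h5 : ∫ z in S.D, ‖a z * (s z : ℂ)‖ ^ 2 = A := by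
      rw [hA]
      refine integral_congr_ae (Eventually.of_forall fun z => ?_)
      simp only
      rw [norm_mul, mul_pow, Complex.norm_real, Real.norm_eq_abs, sq_abs, hs2]
    rw [h4, h5] at h3
    simp only [hgn] at h3
    have h6 : ‖Λ χ‖ ^ 2 ≤ (2 * Real.sqrt A * ‖e χ‖) ^ 2 := by
      have h7 : (2 * Real.sqrt A * ‖e χ‖) ^ 2 = A * (4 * ‖e χ‖ ^ 2) := by
        rw [mul_pow, mul_pow, Real.sq_sqrt hA0]
        ring
      rw [h7, heN]
      exact h3.trans (mul_le_mul_of_nonneg_left h2 hA0)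
    exact le_of_sq_le_sq h6 (by positivity)
  obtain ⟨ℓ, hℓ, hℓe⟩ := exists_ext e Λ _ (by positivity) hbound
  -- Riesz
  set x : Lp ℂ 2 (volume.restrict S.D) :=
    (InnerProductSpace.toDual ℂ (Lp ℂ 2 (volume.restrict S.D))).symm ℓ with hx
  have hxn : ‖x‖ = ‖ℓ‖ := by rw [hx, LinearIsometryEquiv.norm_map]
  have hxy : ∀ y, (inner ℂ x y : ℂ) = ℓ y := by
    intro y
    rw [hx, InnerProductSpace.toDual_symm_apply]
  have hxm : AEStronglyMeasurable (x : ℂ → ℂ) (volume.restrict S.D) := (Lp.memLp x).1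
  have hpn : ∀ z, ‖conj (x z) * (s z : ℂ)‖ ^ 2 = ‖x z‖ ^ 2 * ‖q z‖ := by
    intro z
    rw [norm_mul, mul_pow, Complex.norm_real, Real.norm_eq_abs, sq_abs, hs2, Complex.norm_conj]
  have hxi : IntegrableOn (fun z => ‖x z‖ ^ 2) S.D := L2.int_sq (S := S) (Lp.memLp x)
  have hψn : (fun z => ‖conj (x z) * (s z : ℂ)‖ ^ 2 / ‖q z‖) =ᵐ[volume.restrict S.D]
      fun z => ‖x z‖ ^ 2 := by
    filter_upwards [hne] with z hz
    rw [hpn, mul_div_assoc, div_self (norm_ne_zero_iff.2 hz), mul_one]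
  refine ⟨fun z => conj (x z) * (s z : ℂ), ?_, ?_, ?_, fun χ hχ => ?_⟩
  · have hm : AEStronglyMeasurable (fun z => conj (x z) * (s z : ℂ)) (volume.restrict S.D) :=
      (Complex.continuous_conj.comp_aestronglyMeasurable hxm).mul hsbd.meas
    have hkey : MemLp (fun z => conj (x z) * (s z : ℂ)) 2 (volume.restrict S.D) := by
      obtain ⟨M, hM⟩ := hsbd.bdd
      refine MemLp.of_le_mul (c := |M|) (Lp.memLp x) hm ?_
      refine (ae_restrict_iff' S.meas).mpr (Eventually.of_forall fun z hz => ?_)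
      rw [norm_mul, Complex.norm_conj, mul_comm]
      exact mul_le_mul_of_nonneg_right ((hM z hz).trans (le_abs_self _)) (norm_nonneg _)
    exact hkey
  · exact (integrable_congr hψn).mpr hxi
  · rw [integral_congr_ae hψn, ← normsq, hxn]
    calc ‖ℓ‖ ^ 2 ≤ (2 * Real.sqrt A) ^ 2 := pow_le_pow_left₀ (norm_nonneg _) hℓ 2
      _ = 4 * A := by rw [mul_pow, Real.sq_sqrt hA0]; norm_num
  · have h1 : ℓ (e ⟨χ, hχ⟩) = Λ ⟨χ, hχ⟩ := hℓe ⟨χ, hχ⟩
    rw [hΛ] at h1
    rw [← h1, ← hxy, L2.inner_def]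
    refine integral_congr_ae ?_
    filter_upwards [he ⟨χ, hχ⟩] with z hz
    rw [hz, RCLike.inner_apply]
    ring

end

end Pool.Agent.TNP
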