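import Pool.Agent.TNP.Stmts

/-!
# TNP: STOK, Stokes' theorem
-/

open scoped ContDiff Topology ComplexConjugate
open Set Metric MeasureTheory Filter

namespace Pool.Agent.TNP

namespace Stok_

noncomputable section

lemma int_fderiv {F : ℂ → ℂ} (hF : ContDiff ℝ ∞ F) (hc : HasCompactSupport F) (v : ℂ) :
    Integrable (fun z => fderiv ℝ F z v) ∧ ∫ z, fderiv ℝ F z v = 0 := by
  have h1 : Continuous (fun z => fderiv ℝ F z v) :=
    (hF.continuous_fderiv (by simp)).clm_apply continuous_const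
  have h2 : HasCompactSupport (fun z => fderiv ℝ F z v) := hc.fderiv_apply ℝ v
  have hi : Integrable (fun z => fderiv ℝ F z v) := h1.integrable_of_hasCompactSupport h2
  refine ⟨hi, ?_⟩
  have hF' : Integrable F := hF.continuous.integrable_of_hasCompactSupport hc
  have e0 : ∀ x : ℂ, fderiv ℝ (fun _ : ℂ => (1 : ℝ)) x v = 0 := by
    intro x
    simp
  have := integral_smul_fderiv_eq_neg_fderiv_smul_of_integrable (μ := volume)
    (f := fun _ : ℂ => (1 : ℝ)) (g := F) (v := v) (by simp [e0]) (by simpa using hi)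
    (by simpa using hF') (fun x _ => differentiableAt_const _)
    (fun x _ => hF.differentiable (by simp) x)
  simpa [e0] using this

lemma int_dz {F : ℂ → ℂ} (hF : ContDiff ℝ ∞ F) (hc : HasCompactSupport F) :
    ∫ z, dz F z = 0 := by
  obtain ⟨i1, h1⟩ := int_fderiv hF hc 1
  obtain ⟨i2, h2⟩ := int_fderiv hF hc Complex.I
  unfold dz
  rw [integral_const_mul, integral_sub i1 (i2.const_mul _), h1, integral_const_mul, h2]
  simp

lemma tsupp_dz (F : ℂ → ℂ) {z : ℂ} (hz : z ∉ tsupport F) : dz F z = 0 := by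
  have h1 : F =ᶠ[𝓝 z] fun _ => 0 := notMem_tsupport_iff_eventuallyEq.mp hz
  rw [dz_congr h1, dz_const]

/-- the product of a test function and a smooth function on the upper half plane -/
lemma tst_mul {r f : ℂ → ℂ} (hr : Tst r) (hf : Sm f) : Tst (fun z => r z * f z) := by
  have hsub : tsupport (fun z => r z * f z) ⊆ tsupport r := by
    refine closure_mono fun z hz => ?_
    rw [Function.mem_support] at hz ⊢
    exact left_ne_zero_of_mul hz
  refine ⟨?_, hr.cs.of_isClosed_subset (isClosed_tsupport _) hsub, hsub.trans hr.sub⟩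
  rw [contDiff_iff_contDiffAt]
  intro z
  by_cases hz : z ∈ tsupport r
  · exact (hr.sm.contDiffAt).mul (hf.contDiffAt (isOpen_Hp.mem_nhds (hr.sub hz)))
  · have h1 : r =ᶠ[𝓝 z] fun _ => 0 := notMem_tsupport_iff_eventuallyEq.mp hz
    have h2 : (fun z => r z * f z) =ᶠ[𝓝 z] fun _ => 0 := by
      filter_upwards [h1] with x hx
      rw [hx, zero_mul]
    exact contDiffAt_const.congr_of_eventuallyEq h2

lemma dz_sum {T : Finset SL2} {F : SL2 → ℂ → ℂ} {z : ℂ}
    (h : ∀ g ∈ T, DifferentiableAt ℝ (F g) z) :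
    dz (fun x => ∑ g ∈ T, F g x) z = ∑ g ∈ T, dz (F g) z := by
  classical
  induction T using Finset.induction_on with
  | empty => simp
  | insert a s ha ih =>
    have h1 : DifferentiableAt ℝ (F a) z := h a (Finset.mem_insert_self _ _)
    have h2 : DifferentiableAt ℝ (fun x => ∑ g ∈ s, F g x) z :=
      DifferentiableAt.fun_sum fun g hg => h g (Finset.mem_insert_of_mem hg)
    have h3 := ih fun g hg => h g (Finset.mem_insert_of_mem hg)
    simp only [Finset.sum_insert ha]
    rw [dz_add h1 h2, h3]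

theorem half (hUnf : Stmt_Unf) (hPU : Stmt_PU) (S : Surf) (f : ℂ → ℂ) (hf : Sm f)
    (ha : Aut S 0 1 f) : ∫ z in S.D, dz f z = 0 := by
  obtain ⟨ρ, hρ, hρ1⟩ := hPU S
  obtain ⟨K', hK', hKK', hK'H⟩ := exists_compact_between S.compact isOpen_Hp S.sub
  obtain ⟨T, hT, hT2⟩ := S.exists_T (L := K') (L' := tsupport ρ) hK' hK'H hρ.cs hρ.sub
  have hsum := hρ1 K' hK'H T hT hT2
  have hF := tst_mul hρ hf
  set G : ℂ → ℂ := dz (fun z => ρ z * f z) with hG
  have hsub : ∀ z, z ∉ tsupport ρ → G z = 0 := by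
    intro z hz
    have h1 : ρ =ᶠ[𝓝 z] fun _ => 0 := notMem_tsupport_iff_eventuallyEq.mp hz
    have h2 : (fun z => ρ z * f z) =ᶠ[𝓝 z] fun _ => 0 := by
      filter_upwards [h1] with x hx
      rw [hx, zero_mul]
    rw [hG, dz_congr h2, dz_const]
  have hGs : ContDiff ℝ ∞ G := by
    rw [contDiff_iff_contDiffAt]
    intro z
    exact contDiffAt_dz hF.sm.contDiffAt
  have hGc : HasCompactSupport G := HasCompactSupport.intro hρ.cs hsub
  have hGi : Integrable G := hGs.continuous.integrable_of_hasCompactSupport hGc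
  have h0 : ∫ z, G z = 0 := int_dz hF.sm hF.cs
  obtain ⟨_, h1⟩ := hUnf S (tsupport ρ) G hρ.cs hρ.sub hGi hsub T hT
    (fun g hg z hz hgz => hT2 g hg z (interior_subset (hKK' (S.subD hz))) hgz)
  rw [h0, mul_zero] at h1
  rw [← h1]
  refine setIntegral_congr_fun S.meas fun z hz => ?_
  have hzK : z ∈ interior K' := hKK' (S.subD hz)
  have hzH : z ∈ Hp := S.D_sub hz
  -- the derivative of the partition of unity vanishes
  have hd : ∀ g : SL2, DifferentiableAt ℝ (fun x => ρ (mob g x)) z := fun g =>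
    (hρ.sm.differentiable (by simp) (mob g z)).comp z
      ((differentiableAt_mob g hzH).restrictScalars ℝ)
  have e1 : ∑ g ∈ T, dz ρ (mob g z) * (den g z ^ 2)⁻¹ = 0 := by
    have h2 : (fun x => ∑ g ∈ T, ρ (mob g x)) =ᶠ[𝓝 z] fun _ => 1 := by
      filter_upwards [isOpen_interior.mem_nhds hzK] with x hx
      exact hsum x (interior_subset hx)
    have h3 := dz_congr h2
    rw [dz_const, dz_sum (F := fun g x => ρ (mob g x)) fun g _ => hd g] at h3
    rw [← h3]
    refine Finset.sum_congr rfl fun g _ => ?_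
    rw [dz_comp_mob g hzH (hρ.sm.differentiable (by simp) (mob g z))]
  have e2 : ∑ g ∈ T, ρ (mob g z) = 1 := hsum z (interior_subset hzK)
  have e3 : ∀ g ∈ T, G (mob g z) * (((‖den g z‖ ^ 4)⁻¹ : ℝ) : ℂ) =
      f z * (dz ρ (mob g z) * (den g z ^ 2)⁻¹) + dz f z * ρ (mob g z) := by
    intro g hg
    have hgH := mob_mem g hzH
    have hd0 := den_ne g hzH
    have hc0 : (starRingEnd ℂ) (den g z) ≠ 0 := by simpa using hd0
    have h4 : G (mob g z) = dz ρ (mob g z) * f (mob g z) + ρ (mob g z) * dz f (mob g z) := by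
      rw [hG, dz_mul (hρ.sm.differentiable (by simp) (mob g z)) (hf.diff hgH)]
    have h5 := ha g (hT g hg) z hzH
    have h6 := (Aut.dz hf ha) g (hT g hg) z hzH
    have h7 : (((‖den g z‖ ^ 4)⁻¹ : ℝ) : ℂ) = (den g z ^ 2)⁻¹ * ((starRingEnd ℂ) (den g z) ^ 2)⁻¹ := by
      have : (((‖den g z‖ ^ 4) : ℝ) : ℂ) = den g z ^ 2 * (starRingEnd ℂ) (den g z) ^ 2 := by
        rw [← mul_pow, Complex.mul_conj, Complex.normSq_eq_norm_sq]
        push_cast
        ring
      rw [Complex.ofReal_inv, this, mul_inv]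
    have e8 : den g z ^ (2 * (1 : ℤ)) = den g z ^ 2 := by norm_cast
    have e9 : (starRingEnd ℂ) (den g z) ^ (2 * (1 : ℤ)) = (starRingEnd ℂ) (den g z) ^ 2 := by
      norm_cast
    rw [e9, mul_zero, zpow_zero, one_mul] at h5
    rw [e8, e9] at h6
    rw [h4, h5, h6, h7]
    field_simp
  rw [Finset.sum_congr rfl e3, Finset.sum_add_distrib, ← Finset.mul_sum, ← Finset.mul_sum, e1, e2]
  ring

end

end Stok_

theorem stok_proof (hUnf : Stmt_Unf) (hPU : Stmt_PU) : Stmt_Stok := by
  intro S f hf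
  refine ⟨Stok_.half hUnf hPU S f hf, fun ha => ?_⟩
  have h1 := Stok_.half hUnf hPU S (fun z => (starRingEnd ℂ) (f z)) hf.conj (Aut.conj ha)
  have h2 : ∫ z in S.D, (starRingEnd ℂ) (db f z) = 0 := by
    rw [← h1]
    refine setIntegral_congr_fun S.meas fun z hz => ?_
    rw [dz_conj (hf.diff (S.D_sub hz))]
  rw [integral_conj] at h2
  exact (map_eq_zero (starRingEnd ℂ)).mp h2

end Pool.Agent.TNP
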