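import Pool.Agent.TNP.Stmts

/-!
# SUBM: the infinitesimal mean value inequality

Average the lower bound LOWB over the circles `|t| = r`.
-/

open scoped ContDiff Topology ComplexConjugate
open Set Metric MeasureTheory Filter

namespace Pool.Agent.TNP

noncomputable section

namespace SubM_

/-- the `L¹` norm of `q + t p + t² s` is continuous in `t` -/
theorem cont_norm {D : Set ℂ} {q p s : ℂ → ℂ} (hq : IntegrableOn q D) (hp : IntegrableOn p D)
    (hs : IntegrableOn s D) :
    Continuous (fun t : ℂ => ∫ z in D, ‖q z + t * p z + t ^ 2 * s z‖) := by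
  have hq' : Integrable q (volume.restrict D) := hq
  have hp' : Integrable p (volume.restrict D) := hp
  have hs' : Integrable s (volume.restrict D) := hs
  have h1 : ∀ t : ℂ, ∫ z in D, ‖q z + t * p z + t ^ 2 * s z‖ =
      ‖hq'.toL1 q + t • hp'.toL1 p + t ^ 2 • hs'.toL1 s‖ := by
    intro t
    have h2 : hq'.toL1 q + t • hp'.toL1 p + t ^ 2 • hs'.toL1 s =
        ((hq'.add (hp'.smul t)).add (hs'.smul (t ^ 2))).toL1
          (q + t • p + t ^ 2 • s) := by
      rw [← Integrable.toL1_smul' _ hp', ← Integrable.toL1_smul' _ hs', ← Integrable.toL1_add,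
        ← Integrable.toL1_add]
    rw [h2, L1.norm_of_fun_eq_integral_norm]
    simp [Pi.add_apply, Pi.smul_apply, smul_eq_mul]
  simp_rw [h1]
  fun_prop

/-- the real part of a polynomial without constant term has mean zero -/
theorem avg_re (m1 m2 : ℂ) (r : ℝ) :
    Real.circleAverage (fun t : ℂ => (t * m1 + t ^ 2 * m2).re) 0 r = 0 := by
  have hd : Differentiable ℂ (fun t : ℂ => t * m1 + t ^ 2 * m2) := by fun_prop
  have h1 : Real.circleAverage (fun t : ℂ => t * m1 + t ^ 2 * m2) 0 r = 0 := by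
    have := (hd.diffContOnCl (s := ball (0 : ℂ) |r|)).circleAverage
    simpa using this
  have h2 := Complex.reCLM.circleAverage_comp_comm
    (f := fun t : ℂ => t * m1 + t ^ 2 * m2) (c := 0) (R := r)
    (hd.continuous.continuousOn.circleIntegrable')
  rw [h1] at h2
  simpa [Function.comp_def] using h2

theorem circInt_of_cont {f : ℂ → ℝ} (hf : Continuous f) (r : ℝ) : CircleIntegrable f 0 r :=
  hf.continuousOn.circleIntegrable'

end SubM_

open SubM_

theorem subm_proof (hLowB : Stmt_LowB) (hDctm : Stmt_Dctm) (hQnz : Stmt_Qnz) : Stmt_SubM := by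
  intro S δ u μ ν hL hu η hη
  have hδ := hL.pos
  have hball : ∀ r : ℝ, 0 < r → r < δ → sphere (0 : ℂ) r ⊆ ball 0 δ := by
    intro r _ hr t ht
    rw [mem_sphere_zero_iff_norm] at ht
    rw [mem_ball_zero_iff, ht]
    exact hr
  have hu0 : 0 ≤ u 0 := hL.nonneg 0 (mem_ball_self hδ)
  rcases hu0.eq_or_lt with h0 | h0
  · refine ⟨δ, hδ, fun r hr hrδ => ?_⟩
    rw [← h0]
    have h1 : 0 ≤ Real.circleAverage u 0 r := by
      apply Real.circleAverage_nonneg_of_nonneg
      intro t ht
      rw [abs_of_pos hr] at ht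
      exact hL.nonneg t (hball r hr hrδ ht)
    positivity
  · obtain ⟨q, ψ, φ2, a, m1, m2, δ', C, hδ', hδδ, hq, hq1, hψ, hφ2, -, hint, hle, hlow⟩ :=
      hLowB S δ u μ ν hL h0
    have hqi : IntegrableOn q S.D := integrableOn_of_cont S hq.sm.cont
    have hψi : IntegrableOn ψ S.D := hψ.integrable (by norm_num)
    have hφi : IntegrableOn φ2 S.D := hφ2.integrable (by norm_num)
    have hne : ∃ z ∈ Hp, q z ≠ 0 := by
      by_contra hcon
      push Not at hcon
      have : ∫ z in S.D, ‖q z‖ = 0 := by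
        rw [setIntegral_congr_fun S.meas (g := fun _ => (0 : ℝ))]
        · simp
        · intro z hz
          simp [hcon z (S.D_sub hz)]
      rw [this] at hq1
      exact zero_ne_one hq1
    have hae : ∀ᵐ z ∂(volume.restrict S.D), q z ≠ 0 :=
      ae_restrict_of_ae_restrict_of_subset S.D_sub (hQnz S q hq hne)
    obtain ⟨r1, hr1, hmean⟩ := hDctm S.D q ψ φ2 S.meas hqi hψi hφi hae hint (η / (2 * u 0))
      (by positivity)
    have hc : 0 < η / (2 * u 0 * (|C| + 1)) := by positivity
    refine ⟨min δ' (min r1 (η / (2 * u 0 * (|C| + 1)))), lt_min hδ' (lt_min hr1 hc), ?_⟩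
    intro r hr hrr
    rw [lt_min_iff, lt_min_iff] at hrr
    obtain ⟨hrδ, hrr1, hrC⟩ := hrr
    set N : ℂ → ℝ := fun t => ∫ z in S.D, ‖q z + t * ψ z + t ^ 2 * φ2 z‖ with hN
    set A : ℝ := ∫ z in S.D, ‖a z‖ ^ 2 * ‖q z‖ with hA
    set B : ℝ := ∫ z in S.D, ‖ψ z‖ ^ 2 / ‖q z‖ with hB
    have hNc : Continuous N := cont_norm hqi hψi hφi
    have hm := hmean r hr hrr1
    rw [hq1] at hm
    have hre : Continuous (fun t : ℂ => (t * m1 + t ^ 2 * m2).re) := by fun_prop
    have hui : CircleIntegrable u 0 r := by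
      apply ContinuousOn.circleIntegrable hr.le
      exact hu.mono (hball r hr (hrδ.trans_le hδδ))
    have hG : Continuous (fun t : ℂ => u 0 * (2 - C * r ^ 3 + r ^ 2 * A) +
        (u 0 * (t * m1 + t ^ 2 * m2).re - u 0 * N t)) := by fun_prop
    have h1 : Real.circleAverage (fun t : ℂ => u 0 * (2 - C * r ^ 3 + r ^ 2 * A) +
        (u 0 * (t * m1 + t ^ 2 * m2).re - u 0 * N t)) 0 r ≤ Real.circleAverage u 0 r := by
      apply Real.circleAverage_mono (circInt_of_cont hG r) hui
      intro t ht
      rw [abs_of_pos hr, mem_sphere_zero_iff_norm] at ht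
      have h2 := hlow t (by rw [mem_ball_zero_iff, ht]; exact hrδ)
      rw [ht] at h2
      refine le_trans (le_of_eq ?_) h2
      simp only [hN, hA]
      ring
    have h2 : Real.circleAverage (fun t : ℂ => u 0 * (2 - C * r ^ 3 + r ^ 2 * A) +
        (u 0 * (t * m1 + t ^ 2 * m2).re - u 0 * N t)) 0 r =
        u 0 * (2 - C * r ^ 3 + r ^ 2 * A) - u 0 * Real.circleAverage N 0 r := by
      rw [Real.circleAverage_fun_add (circInt_of_cont continuous_const r)
        (circInt_of_cont (by fun_prop) r), Real.circleAverage_const,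
        Real.circleAverage_fun_sub (circInt_of_cont (by fun_prop) r)
        (circInt_of_cont (by fun_prop) r)]
      have e1 : Real.circleAverage (fun t : ℂ => u 0 * (t * m1 + t ^ 2 * m2).re) 0 r =
          u 0 * 0 := by
        rw [← avg_re m1 m2 r]
        exact Real.circleAverage_fun_smul (a := u 0) (f := fun t : ℂ => (t * m1 + t ^ 2 * m2).re)
      have e2 : Real.circleAverage (fun t : ℂ => u 0 * N t) 0 r =
          u 0 * Real.circleAverage N 0 r :=
        Real.circleAverage_fun_smul (a := u 0) (f := N)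
      rw [e1, e2]
      ring
    rw [h2] at h1
    have h3 : C * r ≤ η / (2 * u 0) := by
      have e1 : r * (2 * u 0 * (|C| + 1)) < η := (lt_div_iff₀ (by positivity)).1 hrC
      rw [le_div_iff₀ (by positivity)]
      have e2 : C ≤ |C| := le_abs_self C
      have e3 : C * r * (2 * u 0) ≤ |C| * r * (2 * u 0) := by gcongr
      nlinarith [mul_pos hr h0]
    have h4 : u 0 * Real.circleAverage N 0 r ≤ u 0 * (1 + r ^ 2 * (B / 4 + η / (2 * u 0))) :=
      mul_le_mul_of_nonneg_left hm h0.le
    have h5 : u 0 * (C * r ^ 3) ≤ η / 2 * r ^ 2 := by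
      have : u 0 * (C * r ^ 3) = (u 0 * r ^ 2) * (C * r) := by ring
      rw [this]
      calc (u 0 * r ^ 2) * (C * r) ≤ (u 0 * r ^ 2) * (η / (2 * u 0)) :=
            mul_le_mul_of_nonneg_left h3 (by positivity)
        _ = η / 2 * r ^ 2 := by field_simp
    have h6 : u 0 * (r ^ 2 * (η / (2 * u 0))) = η / 2 * r ^ 2 := by field_simp
    have h7 : 0 ≤ u 0 * (r ^ 2 * (A - B / 4)) := by
      have : 0 ≤ A - B / 4 := by linarith
      positivity
    nlinarith

end

end Pool.Agent.TNP
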