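import Pool.Agent.TNP.Stmts

/-!
# TNP: Taylor expansions in `t`
-/

open scoped ContDiff Topology ComplexConjugate
open Set Metric MeasureTheory Filter

namespace Pool.Agent.TNP

noncomputable section

namespace Tayl_

/-- jointly smooth functions, holomorphic in the first variable -/
structure JS (δ : ℝ) (F : ℂ × ℂ → ℂ) : Prop where
  sm : ContDiffOn ℝ ∞ F (ball 0 δ ×ˢ Hp)
  hol : ∀ z ∈ Hp, DifferentiableOn ℂ (fun t => F (t, z)) (ball 0 δ)

variable {δ : ℝ} {F G : ℂ × ℂ → ℂ}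

theorem isOpen_dom (δ : ℝ) : IsOpen (ball (0 : ℂ) δ ×ˢ Hp) := isOpen_ball.prod isOpen_Hp

theorem JS.cont (h : JS δ F) : ContinuousOn F (ball 0 δ ×ˢ Hp) := ContDiffOn.continuousOn h.sm

theorem JS.diff (h : JS δ F) {t z : ℂ} (ht : t ∈ ball (0 : ℂ) δ) (hz : z ∈ Hp) :
    DifferentiableAt ℝ F (t, z) :=
  (h.sm.contDiffAt ((isOpen_dom δ).mem_nhds ⟨ht, hz⟩)).differentiableAt (by simp)

theorem JS.dsm (h : JS δ F) (x : ℂ × ℂ) :
    ContDiffOn ℝ ∞ (fun p => fderiv ℝ F p x) (ball 0 δ ×ˢ Hp) := by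
  have h1 : ContDiffOn ℝ ∞ (fderiv ℝ F) (ball 0 δ ×ˢ Hp) :=
    h.sm.fderiv_of_isOpen (isOpen_dom δ) le_rfl
  exact h1.clm_apply contDiffOn_const

theorem hasFDeriv_fst (h : JS δ F) {t z : ℂ} (ht : t ∈ ball (0 : ℂ) δ) (hz : z ∈ Hp) :
    HasFDerivAt (fun t => F (t, z)) ((fderiv ℝ F (t, z)).comp (ContinuousLinearMap.inl ℝ ℂ ℂ)) t :=
  HasFDerivAt.comp t (f := fun t : ℂ => (t, z)) (h.diff ht hz).hasFDerivAt
    (hasFDerivAt_prodMk_left t z)

theorem hasFDeriv_snd (h : JS δ F) {t z : ℂ} (ht : t ∈ ball (0 : ℂ) δ) (hz : z ∈ Hp) :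
    HasFDerivAt (fun z => F (t, z)) ((fderiv ℝ F (t, z)).comp (ContinuousLinearMap.inr ℝ ℂ ℂ)) z :=
  HasFDerivAt.comp z (f := fun z : ℂ => (t, z)) (h.diff ht hz).hasFDerivAt
    (hasFDerivAt_prodMk_right t z)

theorem fderiv_inl (h : JS δ F) {t z : ℂ} (ht : t ∈ ball (0 : ℂ) δ) (hz : z ∈ Hp) (v : ℂ) :
    fderiv ℝ F (t, z) (v, 0) = v * deriv (fun t => F (t, z)) t := by
  have h1 := hasFDeriv_fst h ht hz
  have h2 : DifferentiableAt ℂ (fun t => F (t, z)) t :=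
    (h.hol z hz).differentiableAt (isOpen_ball.mem_nhds ht)
  have h3 := fderiv_real_of_complex h2 v
  rw [h1.fderiv] at h3
  simpa using h3

theorem JS.hasDeriv (h : JS δ F) {t z : ℂ} (ht : t ∈ ball (0 : ℂ) δ) (hz : z ∈ Hp) :
    HasDerivAt (fun t => F (t, z)) (fderiv ℝ F (t, z) (1, 0)) t := by
  rw [fderiv_inl h ht hz, one_mul]
  exact ((h.hol z hz).differentiableAt (isOpen_ball.mem_nhds ht)).hasDerivAt

theorem JS.D (h : JS δ F) : JS δ (fun p => fderiv ℝ F p (1, 0)) := by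
  refine ⟨h.dsm _, fun z hz => ?_⟩
  refine ((h.hol z hz).deriv isOpen_ball).congr fun t ht => ?_
  rw [fderiv_inl h ht hz, one_mul]

theorem JS.DG (h : JS δ F) (v : ℂ) : JS δ (fun p => fderiv ℝ F p (0, v)) := by
  refine ⟨h.dsm _, fun z hz t ht => ?_⟩
  apply DifferentiableAt.differentiableWithinAt
  have hd : ContDiffAt ℝ ∞ F (t, z) := h.sm.contDiffAt ((isOpen_dom δ).mem_nhds ⟨ht, hz⟩)
  have hd2 : ContDiffAt ℝ 2 F (t, z) := hd.of_le (by norm_cast)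
  have hs : IsSymmSndFDerivAt ℝ F (t, z) := hd2.isSymmSndFDerivAt (by simp)
  have hA : DifferentiableAt ℝ (fderiv ℝ F) (t, z) := by
    have : ContDiffAt ℝ 1 (fderiv ℝ F) (t, z) := hd2.fderiv_right (by norm_num)
    exact this.differentiableAt one_ne_zero
  set A := fderiv ℝ (fderiv ℝ F) (t, z) with hAd
  have key : ∀ x : ℂ × ℂ, HasFDerivAt (fun p => fderiv ℝ F p x)
      ((ContinuousLinearMap.apply ℝ ℂ x).comp A) (t, z) := fun x =>
    (ContinuousLinearMap.apply ℝ ℂ x).hasFDerivAt.comp (t, z) hA.hasFDerivAt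
  have h1 : HasFDerivAt (fun t => fderiv ℝ F (t, z) (0, v))
      (((ContinuousLinearMap.apply ℝ ℂ (0, v)).comp A).comp (ContinuousLinearMap.inl ℝ ℂ ℂ)) t :=
    HasFDerivAt.comp t (f := fun t : ℂ => (t, z)) (key (0, v)) (hasFDerivAt_prodMk_left t z)
  have h2 : ∀ x : ℂ × ℂ, A x (Complex.I, 0) = Complex.I * A x (1, 0) := by
    intro x
    have he : (fun p => fderiv ℝ F p (Complex.I, 0)) =ᶠ[𝓝 (t, z)]
        fun p => Complex.I * fderiv ℝ F p (1, 0) := by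
      filter_upwards [(isOpen_dom δ).mem_nhds ⟨ht, hz⟩] with p hp
      obtain ⟨s, w⟩ := p
      rw [fderiv_inl h hp.1 hp.2, fderiv_inl h hp.1 hp.2, one_mul]
    have h3 : HasFDerivAt (fun p => Complex.I * fderiv ℝ F p (1, 0))
        (Complex.I • ((ContinuousLinearMap.apply ℝ ℂ ((1 : ℂ), (0 : ℂ))).comp A)) (t, z) :=
      (key (1, 0)).const_mul Complex.I
    have h4 := (h3.congr_of_eventuallyEq he).unique (key (Complex.I, 0))
    have h5 := congrArg (fun L : ℂ × ℂ →L[ℝ] ℂ => L x) h4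
    simp only [_root_.smul_apply, ContinuousLinearMap.comp_apply, ContinuousLinearMap.apply_apply,
      smul_eq_mul] at h5
    exact h5.symm
  refine differentiableAt_of_db_eq_zero h1.differentiableAt ?_
  rw [db_of_hasFDerivAt h1]
  simp only [ContinuousLinearMap.comp_apply, ContinuousLinearMap.apply_apply,
    ContinuousLinearMap.inl_apply]
  rw [hs.eq (1, 0) (0, v), hs.eq (Complex.I, 0) (0, v), h2]
  linear_combination (1 / 2 * A (0, v) (1, 0)) * Complex.I_sq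

theorem JS.sub (h : JS δ F) (h' : JS δ G) : JS δ (fun p => F p - G p) :=
  ⟨h.sm.sub h'.sm, fun z hz => (h.hol z hz).sub (h'.hol z hz)⟩

theorem JS.const_mul (h : JS δ F) (c : ℂ) : JS δ (fun p => c * F p) :=
  ⟨contDiffOn_const.mul h.sm, fun z hz => (h.hol z hz).const_mul c⟩

theorem step {h h' : ℂ → ℂ} {r M : ℝ} {n : ℕ} (hM : 0 ≤ M)
    (hd : ∀ t ∈ ball (0 : ℂ) r, HasDerivAt h (h' t) t)
    (hb : ∀ t ∈ ball (0 : ℂ) r, ‖h' t‖ ≤ M * ‖t‖ ^ n) (h0 : h 0 = 0) :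
    ∀ t ∈ ball (0 : ℂ) r, ‖h t‖ ≤ M * ‖t‖ ^ (n + 1) := by
  intro t ht
  rw [mem_ball_zero_iff] at ht
  have hsub : closedBall (0 : ℂ) ‖t‖ ⊆ ball 0 r := closedBall_subset_ball ht
  have h1 := (convex_closedBall (0 : ℂ) ‖t‖).norm_image_sub_le_of_norm_hasDerivWithin_le
    (f := h) (f' := h') (C := M * ‖t‖ ^ n)
    (fun x hx => (hd x (hsub hx)).hasDerivWithinAt)
    (fun x hx => (hb x (hsub hx)).trans (by
      rw [mem_closedBall_zero_iff] at hx
      gcongr))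
    (mem_closedBall_self (norm_nonneg t)) (mem_closedBall_zero_iff.2 le_rfl)
  rw [h0, sub_zero, sub_zero] at h1
  rw [pow_succ, ← mul_assoc]
  exact h1

/-- Taylor expansion of a jointly smooth function -/
theorem taylor (hδ : 0 < δ) (h : JS δ F) {K : Set ℂ} (hK : IsCompact K) (hKH : K ⊆ Hp) :
    ∃ (f1 f2 : ℂ → ℂ) (M : ℝ), ContinuousOn f1 Hp ∧ ContinuousOn f2 Hp ∧ 0 ≤ M ∧
      ∀ t ∈ ball (0 : ℂ) (δ / 2), ∀ z ∈ K,
        ‖F (t, z) - F (0, z) - t * f1 z - t ^ 2 * f2 z‖ ≤ M * ‖t‖ ^ 3 := by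
  set F1 : ℂ × ℂ → ℂ := fun p => fderiv ℝ F p (1, 0) with hF1
  have h1 : JS δ F1 := h.D
  set F2 : ℂ × ℂ → ℂ := fun p => fderiv ℝ F1 p (1, 0) with hF2
  have h2 : JS δ F2 := h1.D
  set F3 : ℂ × ℂ → ℂ := fun p => fderiv ℝ F2 p (1, 0) with hF3
  have h3 : JS δ F3 := h2.D
  have hsub : closedBall (0 : ℂ) (δ / 2) ×ˢ K ⊆ ball (0 : ℂ) δ ×ˢ Hp :=
    prod_mono (closedBall_subset_ball (by linarith)) hKH
  obtain ⟨M, hM⟩ := ((isCompact_closedBall (0 : ℂ) (δ / 2)).prod hK).exists_bound_of_continuousOn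
    (h3.cont.mono hsub)
  have hM' : ∀ t ∈ ball (0 : ℂ) (δ / 2), ∀ z ∈ K, ‖F3 (t, z)‖ ≤ max M 0 := fun t ht z hz =>
    (hM (t, z) ⟨ball_subset_closedBall ht, hz⟩).trans (le_max_left _ _)
  have h0 : (0 : ℂ) ∈ ball (0 : ℂ) δ := mem_ball_self hδ
  have hbb : ball (0 : ℂ) (δ / 2) ⊆ ball 0 δ := ball_subset_ball (by linarith)
  have hc : ∀ {H : ℂ × ℂ → ℂ}, JS δ H → ContinuousOn (fun z => H (0, z)) Hp := by
    intro H hH
    exact hH.cont.comp (Continuous.prodMk_right (0 : ℂ)).continuousOn fun z hz => ⟨h0, hz⟩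
  refine ⟨fun z => F1 (0, z), fun z => (1 / 2 : ℂ) * F2 (0, z), max M 0, hc h1,
    continuousOn_const.mul (hc h2), le_max_right _ _, fun t ht z hz => ?_⟩
  have hzH := hKH hz
  have s1 : ∀ t ∈ ball (0 : ℂ) (δ / 2), ‖F2 (t, z) - F2 (0, z)‖ ≤ max M 0 * ‖t‖ ^ (0 + 1) :=
    step (h' := fun t => F3 (t, z)) (le_max_right _ _)
      (fun t ht => (h2.hasDeriv (hbb ht) hzH).sub_const _)
      (fun t ht => by rw [pow_zero, mul_one]; exact hM' t ht z hz) (sub_self _)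
  have s2 : ∀ t ∈ ball (0 : ℂ) (δ / 2), ‖F1 (t, z) - F1 (0, z) - t * F2 (0, z)‖ ≤
      max M 0 * ‖t‖ ^ (0 + 1 + 1) :=
    step (h' := fun t => F2 (t, z) - F2 (0, z)) (le_max_right _ _)
      (fun t ht => by
        have e1 := (h1.hasDeriv (hbb ht) hzH).sub_const (F1 (0, z))
        have e2 := (hasDerivAt_id t).mul_const (F2 (0, z))
        rw [one_mul] at e2
        exact e1.sub e2)
      s1 (by simp)
  have s3 : ∀ t ∈ ball (0 : ℂ) (δ / 2),
      ‖F (t, z) - F (0, z) - t * F1 (0, z) - t ^ 2 * ((1 / 2 : ℂ) * F2 (0, z))‖ ≤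
      max M 0 * ‖t‖ ^ (0 + 1 + 1 + 1) :=
    step (h' := fun t => F1 (t, z) - F1 (0, z) - t * F2 (0, z)) (le_max_right _ _)
      (fun t ht => by
        have e1 := (h.hasDeriv (hbb ht) hzH).sub_const (F (0, z))
        have e2 := (hasDerivAt_id t).mul_const (F1 (0, z))
        have e3 := (hasDerivAt_pow 2 t).mul_const ((1 / 2 : ℂ) * F2 (0, z))
        refine ((e1.sub e2).sub e3).congr_deriv ?_
        push_cast
        simp only [F1]
        ring)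
      s2 (by simp)
  exact s3 t ht

end Tayl_

open Tayl_ in
theorem tayl_proof : Stmt_Tayl := by
  intro δ f K hδ hK hKH hsm hhol
  have h : JS δ (fun p : ℂ × ℂ => f p.1 p.2) := ⟨hsm, hhol⟩
  set F : ℂ × ℂ → ℂ := fun p => f p.1 p.2 with hF
  set G : ℂ × ℂ → ℂ := fun p => (1 / 2 : ℂ) * (fderiv ℝ F p (0, 1) -
    Complex.I * fderiv ℝ F p (0, Complex.I)) with hG
  have hGJ : JS δ G := ((h.DG 1).sub ((h.DG Complex.I).const_mul Complex.I)).const_mul (1 / 2)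
  have hGe : ∀ t ∈ ball (0 : ℂ) δ, ∀ z ∈ Hp, G (t, z) = dz (f t) z := by
    intro t ht z hz
    have h1 : HasFDerivAt (f t)
        ((fderiv ℝ F (t, z)).comp (ContinuousLinearMap.inr ℝ ℂ ℂ)) z := hasFDeriv_snd h ht hz
    rw [dz_of_hasFDerivAt h1]
    simp only [ContinuousLinearMap.comp_apply, ContinuousLinearMap.inr_apply]
    rfl
  obtain ⟨f1, f2, M, c1, c2, hM, hf⟩ := taylor hδ h hK hKH
  obtain ⟨g1, g2, N, d1, d2, hN, hg⟩ := taylor hδ hGJ hK hKH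
  refine ⟨f1, f2, g1, g2, max M N, c1, c2, d1, d2, fun t ht z hz => ⟨?_, ?_⟩⟩
  · refine (hf t ht z hz).trans ?_
    gcongr
    exact le_max_left _ _
  · have h1 := hg t ht z hz
    rw [hGe t (ball_subset_ball (by linarith) ht) z (hKH hz), hGe 0 (mem_ball_self hδ) z (hKH hz)] at h1
    refine h1.trans ?_
    gcongr
    exact le_max_right _ _

end

end Pool.Agent.TNP
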