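import Pool.Agent.TNP.Stmts

/-!
# TNP / TESTV: transport of test functions
-/

open scoped ContDiff Topology ComplexConjugate
open Set Metric MeasureTheory Filter

namespace Pool.Agent.TNP

noncomputable section

theorem testv_proof (hWinv : Stmt_Winv) : Stmt_TestV := by
  classical
  intro w μ hqm V hV
  obtain ⟨hμ, v, hv, hvw⟩ := hWinv w μ hqm
  have hwm : ∀ z ∈ Hp, w z ∈ Hp := fun z hz => hqm.bij.mapsTo hz
  have hvw' : ∀ z ∈ Hp, v (w z) = z := fun z hz => (hvw z hz).2.2
  have hLs : tsupport V ⊆ Hp := hV.sub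
  have hA : IsCompact (v '' tsupport V) :=
    (show IsCompact (tsupport V) from hV.cs).image_of_continuousOn (hv.continuousOn.mono hLs)
  have hAs : v '' tsupport V ⊆ Hp := by
    rintro _ ⟨x, hx, rfl⟩
    exact (hvw x (hLs hx)).1
  set χ : ℂ → ℂ := fun z => if z ∈ Hp then V (w z) / dz w z else 0 with hχ
  have hχin : ∀ z ∈ Hp, χ z = V (w z) / dz w z := fun z hz => by
    rw [hχ]
    simp only [if_pos hz]
  have hχ0 : ∀ z, z ∉ v '' tsupport V → χ z = 0 := by
    intro z hz
    by_cases hzH : z ∈ Hp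
    · rw [hχin z hzH]
      have h7 : w z ∉ tsupport V := by
        intro h8
        exact hz ⟨w z, h8, hvw' z hzH⟩
      rw [image_eq_zero_of_notMem_tsupport h7, zero_div]
    · rw [hχ]
      simp only [if_neg hzH]
  have hWs : Sm (dz w) := contDiffOn_dz isOpen_Hp hqm.smooth
  have hGs : Sm (fun z => V (w z)) := hV.sm.comp_contDiffOn hqm.smooth
  have hχs : Sm χ := by
    have h1 : Sm (fun z => V (w z) * (dz w z)⁻¹) := hGs.mul (hWs.inv hqm.ne)
    refine ContDiffOn.congr h1 fun z hz => ?_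
    rw [hχin z hz, div_eq_mul_inv]
  refine ⟨χ, ⟨?_, ?_, ?_⟩, ?_⟩
  · rw [contDiff_iff_contDiffAt]
    intro z
    by_cases hzH : z ∈ Hp
    · exact hχs.contDiffAt (isOpen_Hp.mem_nhds hzH)
    · have h1 : z ∈ (v '' tsupport V)ᶜ := fun h => hzH (hAs h)
      have h2 : χ =ᶠ[𝓝 z] fun _ => 0 := by
        filter_upwards [hA.isClosed.isOpen_compl.mem_nhds h1] with x hx
        exact hχ0 x hx
      exact (contDiffAt_const (c := (0 : ℂ))).congr_of_eventuallyEq h2
  · exact HasCompactSupport.intro hA fun x hx => hχ0 x hx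
  · refine (closure_minimal ?_ hA.isClosed).trans hAs
    intro z hz
    by_contra h
    exact hz (hχ0 z h)
  · intro z hz
    have hW0 := hqm.ne z hz
    have hWd := hWs.diff hz
    have hχd := hχs.diff hz
    have hnh : Hp ∈ 𝓝 z := isOpen_Hp.mem_nhds hz
    have hwd : DifferentiableAt ℝ w z :=
      (hqm.smooth.contDiffAt hnh).differentiableAt (by simp)
    have hVd : DifferentiableAt ℝ V (w z) := hV.sm.differentiable (by simp) _
    have e1 : (fun x => χ x * dz w x) =ᶠ[𝓝 z] fun x => V (w x) := by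
      filter_upwards [hnh] with x hx
      rw [hχin x hx, div_mul_cancel₀ _ (hqm.ne x hx)]
    have hb := db_congr e1
    have hd := dz_congr e1
    rw [db_mul hχd hWd, db_comp hwd hVd, hqm.bel z hz] at hb
    rw [dz_mul hχd hWd, dz_comp hwd hVd, hqm.bel z hz] at hd
    have hc : db (dz w) z = dz μ z * dz w z + μ z * dz (dz w) z := by
      rw [db_dz_comm (hqm.smooth.contDiffAt hnh)]
      have e2 : db w =ᶠ[𝓝 z] fun x => μ x * dz w x := by
        filter_upwards [hnh] with x hx
        exact hqm.bel x hx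
      rw [dz_congr e2, dz_mul (hμ.diff hz) hWd]
    rw [hc] at hb
    have hn : ((1 - ‖μ z‖ ^ 2 : ℝ) : ℂ) = 1 - μ z * conj (μ z) := by
      rw [Complex.mul_conj, Complex.normSq_eq_norm_sq]
      push_cast
      ring
    rw [hn]
    simp only [Aop, Aab]
    rw [map_mul] at hd
    linear_combination hb - μ z * hd

end

end Pool.Agent.TNP
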