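import Pool.Agent.TNP.Stmts

/-!
# TNP / TOQD: weak solutions are pull backs of holomorphic quadratic differentials
-/

open scoped ContDiff Topology ComplexConjugate
open Set Metric MeasureTheory Filter

namespace Pool.Agent.TNP

noncomputable section

namespace TOQD_

theorem dz_zero {V : ℂ → ℂ} {z : ℂ} (h : z ∉ tsupport V) : dz V z = 0 := by
  have h1 : V =ᶠ[𝓝 z] fun _ => 0 := notMem_tsupport_iff_eventuallyEq.1 h
  rw [dz_congr h1, dz_const]

theorem db_zero {V : ℂ → ℂ} {z : ℂ} (h : z ∉ tsupport V) : db V z = 0 := by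
  have h1 : V =ᶠ[𝓝 z] fun _ => 0 := notMem_tsupport_iff_eventuallyEq.1 h
  rw [db_congr h1, db_const]

theorem aop_zero {μ χ : ℂ → ℂ} {z : ℂ} (h : z ∉ tsupport χ) : Aop μ χ z = 0 := by
  simp only [Aop, Aab]
  rw [dz_zero h, db_zero h, image_eq_zero_of_notMem_tsupport h]
  simp

/-- almost everywhere statements are transported by diffeomorphisms -/
theorem transport {P : ℂ → Prop} {w v : ℂ → ℂ} (hv : DifferentiableOn ℝ v Hp)
    (hw : ∀ z ∈ Hp, w z ∈ Hp) (hvw : ∀ z ∈ Hp, v (w z) = z)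
    (h : ∀ᵐ z ∂(volume.restrict Hp), P z) : ∀ᵐ z ∂(volume.restrict Hp), P (w z) := by
  rw [ae_restrict_iff' measurableSet_Hp, ae_iff] at h ⊢
  have hsub : {z : ℂ | ¬ (z ∈ Hp → P z)} ⊆ Hp := by
    intro z hz
    simp only [mem_ofPred_eq, Classical.not_imp] at hz
    exact hz.1
  have h1 : volume (v '' {z : ℂ | ¬ (z ∈ Hp → P z)}) = 0 :=
    addHaar_image_eq_zero_of_differentiableOn_of_addHaar_eq_zero volume (hv.mono hsub) h
  refine measure_mono_null ?_ h1
  intro z hz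
  simp only [mem_ofPred_eq, Classical.not_imp] at hz
  refine ⟨w z, ?_, hvw z hz.1⟩
  simp only [mem_ofPred_eq, Classical.not_imp]
  exact ⟨hw z hz.1, hz.2⟩

end TOQD_

open TOQD_ in
theorem toqd_proof (hWeyl : Stmt_Weyl) (hChv : Stmt_Chv) (hWinv : Stmt_Winv)
    (hTestV : Stmt_TestV) (hAext : Stmt_Aext) (hPoinc : Stmt_Poinc) (hQcSB : Stmt_QcSB) :
    Stmt_ToQD := by
  intro S S' w μ hqc φ hφ hweak
  obtain ⟨hSB, htr⟩ := hQcSB S S' w μ hqc
  have hqm : QM w μ := ⟨hqc.bij, hqc.smooth, hqc.bel, hqc.lt, hqc.ne⟩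
  obtain ⟨hμ, v, hv, hvw⟩ := hWinv w μ hqm
  obtain ⟨Φ, hΦD, hΦaut, hΦloc⟩ := hAext S φ hφ
  have hwm : ∀ z ∈ Hp, w z ∈ Hp := fun z hz => hqc.bij.mapsTo hz
  have hvm : ∀ z ∈ Hp, v z ∈ Hp := fun z hz => (hvw z hz).1
  have hwv : ∀ z ∈ Hp, w (v z) = z := fun z hz => (hvw z hz).2.1
  have hvw' : ∀ z ∈ Hp, v (w z) = z := fun z hz => (hvw z hz).2.2
  have hvc : ContinuousOn v Hp := hv.continuousOn
  have hvd : DifferentiableOn ℝ v Hp := hv.differentiableOn (by simp)
  set f : ℂ → ℂ := fun ζ => Φ (v ζ) / dz w (v ζ) ^ 2 with hf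
  have hdw : ContinuousOn (dz w) Hp := (contDiffOn_dz isOpen_Hp hqc.smooth).continuousOn
  have hμc : ContinuousOn μ Hp := hμ.cont
  have himg : ∀ L : Set ℂ, L ⊆ Hp → w '' (v '' L) = L := by
    intro L hL
    ext z
    constructor
    · rintro ⟨_, ⟨x, hx, rfl⟩, rfl⟩
      rw [hwv x (hL hx)]
      exact hx
    · intro hz
      exact ⟨v z, ⟨z, hz, rfl⟩, hwv z (hL hz)⟩
  have hcA : ∀ L : Set ℂ, IsCompact L → L ⊆ Hp → IsCompact (v '' L) ∧ v '' L ⊆ Hp := by
    intro L hL hLs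
    refine ⟨hL.image_of_continuousOn (hvc.mono hLs), ?_⟩
    rintro _ ⟨x, hx, rfl⟩
    exact hvm x (hLs hx)
  have hfw : ∀ z ∈ Hp, f (w z) = Φ z / dz w z ^ 2 := by
    intro z hz
    rw [hf]
    simp only
    rw [hvw' z hz]
  have hcw : ContinuousOn (fun z => ((‖dz w z‖ ^ 2 * (1 - ‖μ z‖ ^ 2) : ℝ) : ℂ) / dz w z ^ 2) Hp := by
    refine ContinuousOn.div ?_ (hdw.pow 2) (fun z hz => pow_ne_zero 2 (hqc.ne z hz))
    exact Complex.continuous_ofReal.comp_continuousOn
      ((hdw.norm.pow 2).mul (continuousOn_const.sub (hμc.norm.pow 2)))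
  have hfint : LocInt f := by
    intro L hL hLs
    obtain ⟨hA, hAs⟩ := hcA L hL hLs
    have h1 := (hChv w μ hqm (v '' L) f hAs hA.measurableSet).2.1
    rw [himg L hLs] at h1
    rw [h1]
    have h2 : IntegrableOn (fun z => (((‖dz w z‖ ^ 2 * (1 - ‖μ z‖ ^ 2) : ℝ) : ℂ) / dz w z ^ 2) * Φ z)
        (v '' L) := (hΦloc _ hA hAs).continuousOn_mul (hcw.mono hAs) hA
    refine h2.congr_fun (fun z hz => ?_) hA.measurableSet
    simp only
    rw [hfw z (hAs hz)]
    ring
  have hzero : ∀ V, Tst V → ∫ z, f z * db V z = 0 := by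
    intro V hV
    obtain ⟨χc, hχc, hχe⟩ := hTestV w μ hqm V hV
    obtain ⟨χ, hχ, hχp⟩ := hPoinc S χc hχc
    have hP := hχp μ hSB Φ hΦloc hΦaut
    have hW := hweak χ hχ
    have h1 : ∫ z in S.D, Φ z * Aop μ χ z = ∫ z in S.D, φ z * Aop μ χ z := by
      refine setIntegral_congr_fun S.meas fun z hz => ?_
      rw [hΦD z hz]
    rw [h1, hW] at hP
    have hm : (mult S : ℂ) ≠ 0 := by
      exact_mod_cast (mult_pos S).ne'
    have h2 : ∫ z, Φ z * Aop μ χc z = 0 := by
      rcases mul_eq_zero.1 hP.symm with h | h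
      · exact absurd h hm
      · exact h
    have hLs : tsupport V ⊆ Hp := hV.sub
    have hL : IsCompact (tsupport V) := hV.cs
    obtain ⟨hA, hAs⟩ := hcA _ hL hLs
    have h3 : ∫ z, f z * db V z = ∫ z in tsupport V, f z * db V z := by
      symm
      refine setIntegral_eq_integral_of_forall_compl_eq_zero fun z hz => ?_
      rw [db_zero hz, mul_zero]
    have h4 := (hChv w μ hqm (v '' tsupport V) (fun z => f z * db V z) hAs hA.measurableSet).2.2
    rw [himg _ hLs] at h4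
    have h5 : ∀ z ∈ Hp, ((‖dz w z‖ ^ 2 * (1 - ‖μ z‖ ^ 2) : ℝ) : ℂ) * (f (w z) * db V (w z)) =
        Φ z * Aop μ χc z := by
      intro z hz
      rw [hfw z hz]
      have hne := hqc.ne z hz
      have he := hχe z hz
      have hn : ((‖dz w z‖ ^ 2 : ℝ) : ℂ) = dz w z * conj (dz w z) := by
        rw [Complex.mul_conj, Complex.normSq_eq_norm_sq]
      rw [Complex.ofReal_mul, hn]
      field_simp
      linear_combination -(Φ z) * he
    rw [h3, h4, ← h2]
    have h6 : ∫ z in v '' tsupport V, ((‖dz w z‖ ^ 2 * (1 - ‖μ z‖ ^ 2) : ℝ) : ℂ) *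
        (f (w z) * db V (w z)) = ∫ z in v '' tsupport V, Φ z * Aop μ χc z :=
      setIntegral_congr_fun hA.measurableSet fun z hz => h5 z (hAs hz)
    rw [h6]
    refine setIntegral_eq_integral_of_forall_compl_eq_zero fun z hz => ?_
    by_cases hzH : z ∈ Hp
    · rw [← h5 z hzH]
      have h7 : w z ∉ tsupport V := by
        intro h8
        exact hz ⟨w z, h8, hvw' z hzH⟩
      rw [db_zero h7, mul_zero, mul_zero]
    · rw [aop_zero (fun h => hzH (hχc.sub h)), mul_zero]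
  obtain ⟨q, hq, hfq⟩ := hWeyl f hfint hzero
  have hqc' : ContinuousOn q Hp := hq.continuousOn
  refine ⟨q, ⟨hq, ?_⟩, ?_⟩
  · intro h hh
    have hcm : ContinuousOn (fun z => q (mob h z)) Hp :=
      hqc'.comp (continuousOn_mob h) (fun z hz => mob_mem h hz)
    have hcd : ContinuousOn (fun z => den h z ^ 4 * q z) Hp :=
      ((continuous_den h).continuousOn.pow 4).mul hqc'
    have hae : (fun z => q (mob h z)) =ᵐ[volume.restrict Hp] fun z => den h z ^ 4 * q z := by
      have h1 : ∀ᵐ z ∂(volume.restrict Hp), f (mob h z) = q (mob h z) :=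
        transport (w := mob h) (v := mob h⁻¹)
          ((contDiffOn_mob h⁻¹).differentiableOn (by simp)) (fun z hz => mob_mem h hz)
          (fun z hz => mob_inv_mob h hz) hfq
      have h2 : ∀ᵐ z ∂(volume.restrict Hp), z ∈ Hp := ae_restrict_mem measurableSet_Hp
      filter_upwards [h1, h2, hfq] with z h1 hz h3
      rw [← h1, ← h3]
      obtain ⟨γ, hγ, hγw⟩ := hqc.conj2 h hh
      have hx := hvm z hz
      have h4 : v (mob h z) = mob γ (v z) := by
        have h5 := hγw (v z) hx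
        rw [hwv z hz] at h5
        rw [← h5, hvw' _ (mob_mem γ hx)]
      have h6 := hΦaut γ hγ (v z) hx
      have h7 := htr γ hγ h hh hγw (v z) hx
      rw [hwv z hz] at h7
      rw [hf]
      simp only
      rw [h4, h6]
      have hd1 := den_ne γ hx
      have hd2 := den_ne h hz
      have hd3 := hqc.ne (v z) hx
      have hd4 := hqc.ne (mob γ (v z)) (mob_mem γ hx)
      have e : den γ (v z) ^ (2 * 2 : ℤ) = den γ (v z) ^ 4 := by norm_cast
      rw [e]
      simp only [mul_zero, zpow_zero, mul_one]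
      have h8 : dz w (mob γ (v z)) = den γ (v z) ^ 2 * dz w (v z) / den h z ^ 2 := by
        rw [eq_div_iff (pow_ne_zero 2 hd2)]
        exact h7
      rw [h8]
      field_simp
    exact fun z hz => Measure.eqOn_open_of_ae_eq hae isOpen_Hp hcm hcd hz
  · have h1 : ∀ᵐ z ∂(volume.restrict Hp), f (w z) = q (w z) :=
      transport hvd hwm hvw' hfq
    have h2 : ∀ᵐ z ∂(volume.restrict S.D), f (w z) = q (w z) :=
      ae_restrict_of_ae_restrict_of_subset S.D_sub h1
    filter_upwards [h2, ae_restrict_mem S.meas] with z h2 hz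
    have hzH := S.D_sub hz
    rw [← h2, hfw z hzH, hΦD z hz, div_mul_cancel₀ _ (pow_ne_zero 2 (hqc.ne z hzH))]

end

end Pool.Agent.TNP
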