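import Pool.Agent.TNP.Stmts

/-!
# TNP: unfolding of integrals over `ℍ / Γ`
-/

open scoped ContDiff Topology ComplexConjugate
open Set Metric MeasureTheory Filter

namespace Pool.Agent.TNP

noncomputable section

namespace Unf_

/-- the real derivative of a Möbius transformation -/
def dmob (g : SL2) (z : ℂ) : ℂ →L[ℝ] ℂ :=
  (ContinuousLinearMap.toSpanSingleton ℂ ((den g z ^ 2)⁻¹)).restrictScalars ℝ

theorem det_mul (a : ℂ) :
    ((ContinuousLinearMap.toSpanSingleton ℂ a).restrictScalars ℝ : ℂ →L[ℝ] ℂ).det = ‖a‖ ^ 2 := by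
  have h : (((ContinuousLinearMap.toSpanSingleton ℂ a).restrictScalars ℝ : ℂ →L[ℝ] ℂ) : ℂ →ₗ[ℝ] ℂ) =
      LinearMap.mulLeft ℝ a := by
    refine LinearMap.ext fun z => ?_
    simp [mul_comm]
  rw [ContinuousLinearMap.det, h]
  have h2 : LinearMap.det (LinearMap.mulLeft ℝ a) = Algebra.norm ℝ a := rfl
  rw [h2, Algebra.norm_complex_apply, Complex.normSq_eq_norm_sq]

theorem abs_det (g : SL2) (z : ℂ) : |(dmob g z).det| = (‖den g z‖ ^ 4)⁻¹ := by
  rw [dmob, det_mul, norm_inv, norm_pow, abs_of_nonneg (by positivity), inv_pow, ← pow_mul]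

theorem hasFDeriv (g : SL2) {A : Set ℂ} (hA : A ⊆ Hp) :
    ∀ z ∈ A, HasFDerivWithinAt (mob g) (dmob g z) A z := fun _ hz =>
  ((hasDerivAt_mob g (hA hz)).hasFDerivAt.restrictScalars ℝ).hasFDerivWithinAt

/-- change of variables for a Möbius transformation -/
theorem cov (g : SL2) {A : Set ℂ} (hA : A ⊆ Hp) (hm : MeasurableSet A) (f : ℂ → ℂ) :
    (IntegrableOn f (mob g '' A) →
      IntegrableOn (fun z => f (mob g z) * (((‖den g z‖ ^ 4)⁻¹ : ℝ) : ℂ)) A) ∧
    ∫ z in mob g '' A, f z = ∫ z in A, f (mob g z) * (((‖den g z‖ ^ 4)⁻¹ : ℝ) : ℂ) := by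
  have hinj : InjOn (mob g) A := (injOn_mob g).mono hA
  have he : (fun z => |(dmob g z).det| • f (mob g z)) =
      fun z => f (mob g z) * (((‖den g z‖ ^ 4)⁻¹ : ℝ) : ℂ) := by
    funext z
    rw [abs_det, Complex.real_smul, mul_comm]
  constructor
  · intro h
    rw [← he]
    exact (integrableOn_image_iff_integrableOn_abs_det_fderiv_smul volume hm (hasFDeriv g hA) hinj f).1 h
  · rw [← he]
    exact integral_image_eq_integral_abs_det_fderiv_smul volume hm (hasFDeriv g hA) hinj f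

theorem mem_image (g : SL2) {A : Set ℂ} (hA : A ⊆ Hp) (z : ℂ) :
    z ∈ mob g '' A ↔ z ∈ Hp ∧ mob g⁻¹ z ∈ A := by
  constructor
  · rintro ⟨x, hx, rfl⟩
    refine ⟨mob_mem g (hA hx), ?_⟩
    rwa [mob_inv_mob g (hA hx)]
  · rintro ⟨hz, h⟩
    exact ⟨_, h, mob_mob_inv g hz⟩

theorem meas_image (g : SL2) {A : Set ℂ} (hA : A ⊆ Hp) (hm : MeasurableSet A) :
    MeasurableSet (mob g '' A) := by
  have : mob g '' A = Hp ∩ (mob g⁻¹) ⁻¹' A := by
    ext z
    exact mem_image g hA z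
  rw [this]
  exact measurableSet_Hp.inter (measurable_mob _ hm)

end Unf_

open Unf_ in
theorem unf_proof (hCnt : Stmt_Cnt) : Stmt_Unf := by
  classical
  intro S L f hL hLH hf hf0 T hT hT'
  have hint : ∀ g ∈ T, IntegrableOn (fun z => f (mob g z) * (((‖den g z‖ ^ 4)⁻¹ : ℝ) : ℂ)) S.D :=
    fun g _ => (cov g S.D_sub S.meas f).1 hf.integrableOn
  refine ⟨hint, ?_⟩
  rw [integral_finsetSum _ fun g hg => hint g hg]
  have h1 : ∀ g ∈ T, ∫ z in S.D, f (mob g z) * (((‖den g z‖ ^ 4)⁻¹ : ℝ) : ℂ) =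
      ∫ z, (mob g '' S.D).indicator f z := by
    intro g _
    rw [← (cov g S.D_sub S.meas f).2, integral_indicator (meas_image g S.D_sub S.meas)]
  rw [Finset.sum_congr rfl h1, ← integral_finsetSum _ fun g _ =>
    hf.indicator (meas_image g S.D_sub S.meas), ← integral_const_mul]
  congr 1
  funext z
  by_cases hz : z ∈ L
  · have h2 := hCnt S S.D S.fund z (hLH hz) (T.image fun g => g⁻¹) (by
      intro g hg
      obtain ⟨h, hh, rfl⟩ := Finset.mem_image.1 hg
      exact S.Γ.inv_mem (hT h hh)) (by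
      intro g hg hgz
      refine Finset.mem_image.2 ⟨g⁻¹, hT' g⁻¹ (S.Γ.inv_mem hg) (mob g z) hgz ?_, inv_inv g⟩
      rwa [mob_inv_mob g (hLH hz)])
    rw [Finset.sum_image fun a _ b _ hab => inv_injective hab] at h2
    rw [← h2, Finset.sum_mul]
    refine Finset.sum_congr rfl fun g _ => ?_
    by_cases h3 : mob g⁻¹ z ∈ S.D
    · rw [indicator_of_mem ((mem_image g S.D_sub z).2 ⟨hLH hz, h3⟩), indicator_of_mem h3, one_mul]
    · rw [indicator_of_notMem (fun h => h3 ((mem_image g S.D_sub z).1 h).2), indicator_of_notMem h3,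
        zero_mul]
  · rw [hf0 z hz, mul_zero]
    refine Finset.sum_eq_zero fun g _ => ?_
    rw [indicator_apply]
    split_ifs
    · exact hf0 z hz
    · rfl

end

end Pool.Agent.TNP
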