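import Pool.Agent.TNP.Stmts

/-!
# TNP / WEYL: Weyl's lemma for locally integrable functions
-/

open scoped ContDiff Topology ComplexConjugate Real
open Set Metric MeasureTheory Filter

noncomputable section

namespace Pool.Agent.TNP

namespace Weyl_

/-- the area mean value property -/
theorem area_mean {F : ℂ → ℂ} {x : ℂ} {r R : ℝ} (hr : 0 < r) (hrR : r < R)
    (hF : DifferentiableOn ℂ F (ball x R)) :
    ∫ z in ball x r, F z = ((π * r ^ 2 : ℝ) : ℂ) * F x := by
  set G : ℂ → ℂ := fun w => (ball (0 : ℂ) r).indicator (fun w => F (x + w)) w with hG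
  have e1 : ∫ z in ball x r, F z = ∫ w, G w := by
    rw [← integral_indicator measurableSet_ball, ← integral_add_left_eq_self _ x]
    congr 1
    funext w
    rw [hG]
    by_cases hw : w ∈ ball (0 : ℂ) r
    · have hw' : x + w ∈ ball x r := by
        rw [mem_ball, dist_eq_norm] at hw ⊢
        simpa using hw
      simp only
      rw [indicator_of_mem hw', indicator_of_mem hw]
    · have hw' : x + w ∉ ball x r := by
        rw [mem_ball, dist_eq_norm] at hw ⊢
        simpa using hw
      simp only
      rw [indicator_of_notMem hw', indicator_of_notMem hw]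
  have hcont : ContinuousOn (fun p : ℝ × ℝ => p.1 • F (circleMap x p.1 p.2))
      (Icc 0 r ×ˢ Icc (-π) π) := by
    apply ContinuousOn.smul continuousOn_fst
    apply hF.continuousOn.comp
    · unfold circleMap
      fun_prop
    · rintro ⟨s, θ⟩ hp
      obtain ⟨⟨hs1, hs2⟩, _⟩ := hp
      rw [mem_ball, dist_eq_norm]
      simp only [circleMap, add_sub_cancel_left, norm_mul, Complex.norm_real, Real.norm_eq_abs,
        Complex.norm_exp_ofReal_mul_I, mul_one]
      rw [abs_of_nonneg hs1]
      exact lt_of_le_of_lt hs2 hrR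
  have hint : IntegrableOn (fun p : ℝ × ℝ => p.1 • F (circleMap x p.1 p.2))
      (Ioo 0 r ×ˢ Ioo (-π) π) (volume.prod volume) := by
    have h1 := hcont.integrableOn_compact (μ := (volume.prod volume : Measure (ℝ × ℝ)))
      (isCompact_Icc.prod isCompact_Icc)
    exact h1.mono_set (prod_mono Ioo_subset_Icc_self Ioo_subset_Icc_self)
  have e2 : ∫ w, G w = ∫ p in Ioo 0 r ×ˢ Ioo (-π) π, p.1 • F (circleMap x p.1 p.2) := by
    rw [← Complex.integral_comp_polarCoord_symm G]
    have ht : polarCoord.target = Ioi (0 : ℝ) ×ˢ Ioo (-π) π := rfl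
    rw [ht, ← integral_indicator (measurableSet_Ioi.prod measurableSet_Ioo),
      ← integral_indicator (measurableSet_Ioo.prod measurableSet_Ioo)]
    congr 1
    funext p
    by_cases hp : p ∈ Ioi (0 : ℝ) ×ˢ Ioo (-π) π
    · rw [indicator_of_mem hp]
      have hp1 : 0 < p.1 := hp.1
      by_cases hpr : p.1 < r
      · have hm : p ∈ Ioo 0 r ×ˢ Ioo (-π) π := ⟨⟨hp1, hpr⟩, hp.2⟩
        rw [indicator_of_mem hm, hG]
        have hmem : Complex.polarCoord.symm p ∈ ball (0 : ℂ) r := by
          rw [mem_ball_zero_iff, Complex.norm_polarCoord_symm, abs_of_pos hp1]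
          exact hpr
        simp only
        rw [indicator_of_mem hmem, Complex.polarCoord_symm_apply]
        congr 2
        simp only [circleMap]
        rw [Complex.exp_mul_I, Complex.ofReal_cos, Complex.ofReal_sin]
      · have hm : p ∉ Ioo 0 r ×ˢ Ioo (-π) π := fun h => hpr h.1.2
        rw [indicator_of_notMem hm, hG]
        have hmem : Complex.polarCoord.symm p ∉ ball (0 : ℂ) r := by
          rw [mem_ball_zero_iff, Complex.norm_polarCoord_symm, abs_of_pos hp1]
          exact hpr
        simp only
        rw [indicator_of_notMem hmem, smul_zero]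
    · have hm : p ∉ Ioo 0 r ×ˢ Ioo (-π) π := fun h => hp ⟨h.1.1, h.2⟩
      rw [indicator_of_notMem hp, indicator_of_notMem hm]
  have hin : ∀ s ∈ Ioo 0 r, ∫ θ in Ioo (-π) π, s • F (circleMap x s θ) =
      s • ((2 * π : ℝ) • F x) := by
    intro s hs
    rw [integral_smul]
    congr 1
    have hd : DiffContOnCl ℂ F (ball x |s|) := by
      rw [abs_of_pos hs.1]
      apply DifferentiableOn.diffContOnCl
      rw [closure_ball x hs.1.ne']
      apply hF.mono
      exact closedBall_subset_ball (hs.2.trans hrR)
    have h1 := hd.circleAverage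
    rw [Real.circleAverage_def] at h1
    have h2 : ∫ θ in Ioo (-π) π, F (circleMap x s θ) =
        ∫ θ in (0 : ℝ)..(2 * π), F (circleMap x s θ) := by
      rw [← integral_Ioc_eq_integral_Ioo, ← intervalIntegral.integral_of_le (by linarith [Real.pi_pos])]
      have hper : Function.Periodic (fun θ => F (circleMap x s θ)) (2 * π) := by
        intro θ
        simp only [periodic_circleMap x s θ]
      have h3 := hper.intervalIntegral_add_eq (-π) 0
      have e3 : -π + 2 * π = π := by ring
      rw [e3, zero_add] at h3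
      exact h3
    rw [h2, ← h1, smul_smul, mul_inv_cancel₀ (by positivity), one_smul]
  rw [e1, e2]
  have hvol : (volume : Measure (ℝ × ℝ)) = (volume : Measure ℝ).prod volume := rfl
  rw [hvol, setIntegral_prod _ hint, setIntegral_congr_fun measurableSet_Ioo hin]
  rw [integral_smul_const, ← integral_Ioc_eq_integral_Ioo,
    ← intervalIntegral.integral_of_le hr.le, integral_id]
  simp only [Complex.real_smul]
  push_cast
  ring

theorem continuous_db_aux {ψ : ℂ → ℂ} (hψ : ContDiff ℝ ∞ ψ) : Continuous (db ψ) := by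
  have h1 : Continuous (fderiv ℝ ψ) := hψ.continuous_fderiv (by simp)
  unfold db
  fun_prop

theorem tsupport_db_aux {ψ : ℂ → ℂ} : tsupport (db ψ) ⊆ tsupport ψ := by
  apply closure_minimal _ (isClosed_tsupport ψ)
  intro z hz
  by_contra hcon
  apply hz
  have h1 : ψ =ᶠ[𝓝 z] fun _ => 0 := by
    have h2 := (isClosed_tsupport ψ).isOpen_compl.mem_nhds hcon
    filter_upwards [h2] with w hw
    exact image_eq_zero_of_notMem_tsupport hw
  rw [db_congr h1, db_const]

/-- the local statement -/
theorem loc_aux {f : ℂ → ℂ} (hf : LocInt f) (hw : ∀ V, Tst V → ∫ z, f z * db V z = 0)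
    {z₀ : ℂ} (hz₀ : z₀ ∈ Hp) : ∃ (r : ℝ) (A : ℂ → ℂ), 0 < r ∧ ball z₀ r ⊆ Hp ∧
      DifferentiableOn ℂ A (ball z₀ r) ∧ ∀ᵐ z ∂(volume.restrict (ball z₀ r)), f z = A z := by
  obtain ⟨R, hR, hball⟩ := Metric.isOpen_iff.1 isOpen_Hp z₀ hz₀
  set ρ : ℝ := R / 3 with hρdef
  have hρ : 0 < ρ := by positivity
  have hsub : closedBall z₀ (2 * ρ) ⊆ Hp := by
    refine subset_trans ?_ hball
    apply closedBall_subset_ball
    rw [hρdef]
    linarith
  set g : ℂ → ℂ := (closedBall z₀ (2 * ρ)).indicator f with hg
  have hgi : Integrable g := by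
    rw [hg, integrable_indicator_iff measurableSet_closedBall]
    exact hf _ (isCompact_closedBall _ _) hsub
  have hgx : ∀ x ∈ closedBall z₀ (2 * ρ), g x = f x := fun x hx => indicator_of_mem hx f
  let φ : ℕ → ContDiffBump (0 : ℂ) := fun n =>
    ⟨ρ / (2 * (n + 1)), ρ / (n + 1), by positivity, by
      apply div_lt_div_of_pos_left hρ (by positivity)
      have : (0 : ℝ) < n + 1 := by positivity
      linarith⟩
  have hφout : ∀ n, (φ n).rOut = ρ / (n + 1) := fun n => rfl
  have hφin : ∀ n, (φ n).rIn = ρ / (2 * (n + 1)) := fun n => rfl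
  have hφle : ∀ n, (φ n).rOut ≤ ρ := by
    intro n
    rw [hφout]
    apply div_le_self hρ.le
    have : (0 : ℝ) ≤ n := Nat.cast_nonneg n
    linarith
  set L : ℂ →L[ℝ] ℝ →L[ℝ] ℂ := (ContinuousLinearMap.lsmul ℝ ℝ : ℝ →L[ℝ] ℂ →L[ℝ] ℂ).flip with hL
  let F : ℕ → ℂ → ℂ := fun n => MeasureTheory.convolution ((φ n).normed volume) g
    (ContinuousLinearMap.lsmul ℝ ℝ) volume
  have hFflip : ∀ n, F n = MeasureTheory.convolution g ((φ n).normed volume) L volume := by
    intro n
    rw [hL, MeasureTheory.convolution_flip]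
  -- derivatives
  have hφd : ∀ n, ContDiff ℝ ∞ ((φ n).normed (volume : Measure ℂ)) := fun n =>
    (φ n).contDiff_normed
  have hφd1 : ∀ n, ContDiff ℝ 1 ((φ n).normed (volume : Measure ℂ)) := fun n =>
    (φ n).contDiff_normed
  have hφc : ∀ n, HasCompactSupport ((φ n).normed (volume : Measure ℂ)) := fun n =>
    (φ n).hasCompactSupport_normed
  have hder : ∀ n x, HasFDerivAt (F n) ((MeasureTheory.convolution g
      (fderiv ℝ ((φ n).normed volume)) (L.precompR ℂ) volume) x) x := by
    intro n x
    rw [hFflip]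
    exact (hφc n).hasFDerivAt_convolution_right L hgi.locallyIntegrable (hφd1 n) x
  have hderv : ∀ n x (v : ℂ), fderiv ℝ (F n) x v =
      ∫ t, (fderiv ℝ ((φ n).normed (volume : Measure ℂ)) (x - t) v) • g t := by
    intro n x v
    rw [(hder n x).fderiv]
    have h1 := MeasureTheory.convolution_precompR_apply (L := L) (μ := (volume : Measure ℂ))
      (f := g) (g := fderiv ℝ ((φ n).normed (volume : Measure ℂ))) hgi.locallyIntegrable
      ((hφc n).fderiv ℝ) ((hφd1 n).continuous_fderiv one_ne_zero) x v
    rw [h1]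
    rfl
  have hhol : ∀ n, DifferentiableOn ℂ (F n) (ball z₀ ρ) := by
    intro n x hx
    have hxb : dist x z₀ < ρ := hx
    apply DifferentiableAt.differentiableWithinAt
    apply differentiableAt_of_db_eq_zero (hder n x).differentiableAt
    set ψ : ℂ → ℂ := fun t => (((φ n).normed (volume : Measure ℂ) (x - t) : ℝ) : ℂ) with hψ
    have hψc : ContDiff ℝ ∞ ψ := by
      rw [hψ]
      exact Complex.ofRealCLM.contDiff.comp ((hφd n).comp (contDiff_const.sub contDiff_id))
    have hψs : Function.support ψ ⊆ closedBall x (φ n).rOut := by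
      intro t ht
      have h1 : x - t ∈ tsupport ((φ n).normed (volume : Measure ℂ)) := by
        apply subset_tsupport
        intro h0
        apply ht
        rw [hψ]
        simp only
        rw [h0]
        simp
      rw [(φ n).tsupport_normed_eq] at h1
      rw [mem_closedBall, dist_comm, dist_eq_norm]
      simpa using h1
    have hψt : tsupport ψ ⊆ closedBall x (φ n).rOut :=
      closure_minimal hψs isClosed_closedBall
    have hψt2 : tsupport ψ ⊆ closedBall z₀ (2 * ρ) := by
      refine hψt.trans ?_
      intro t ht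
      rw [mem_closedBall] at ht ⊢
      have := dist_triangle t x z₀
      have := hφle n
      linarith
    have hψcs : HasCompactSupport ψ :=
      HasCompactSupport.of_support_subset_isCompact (isCompact_closedBall _ _) hψs
    have hψd : ∀ t v, fderiv ℝ ψ t v =
        -((fderiv ℝ ((φ n).normed (volume : Measure ℂ)) (x - t) v : ℝ) : ℂ) := by
      intro t v
      have h1 : HasFDerivAt (fun t : ℂ => x - t) (-(ContinuousLinearMap.id ℝ ℂ)) t :=
        (hasFDerivAt_id t).const_sub x
      have h2 : HasFDerivAt ((φ n).normed (volume : Measure ℂ))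
          (fderiv ℝ ((φ n).normed (volume : Measure ℂ)) (x - t)) (x - t) :=
        ((hφd1 n).differentiable one_ne_zero (x - t)).hasFDerivAt
      have h3 := h2.comp t h1
      have h4 := Complex.ofRealCLM.hasFDerivAt.comp t h3
      have h5 : fderiv ℝ ψ t = _ := h4.fderiv
      rw [h5]
      simp
    have hz := hw ψ ⟨hψc, hψcs, hψt2.trans hsub⟩
    have e0 : (fun t => f t * db ψ t) = fun t => db ψ t • g t := by
      funext t
      by_cases ht : t ∈ tsupport ψ
      · rw [hgx t (hψt2 ht), smul_eq_mul, mul_comm]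
      · have : db ψ t = 0 := by
          by_contra hne
          exact ht (tsupport_db_aux (subset_tsupport _ hne))
        rw [this, zero_smul, mul_zero]
    rw [e0] at hz
    have hdi : ∀ v : ℂ, Integrable (fun t =>
        (fderiv ℝ ((φ n).normed (volume : Measure ℂ)) (x - t) v) • g t) := by
      intro v
      have hcv : Continuous (fun t : ℂ =>
          fderiv ℝ ((φ n).normed (volume : Measure ℂ)) (x - t) v) := by
        have := (hφd1 n).continuous_fderiv one_ne_zero
        fun_prop
      obtain ⟨B, hB⟩ : ∃ B : ℝ, ∀ t : ℂ,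
          ‖fderiv ℝ ((φ n).normed (volume : Measure ℂ)) (x - t) v‖ ≤ B := by
        have hcs : HasCompactSupport (fun t : ℂ =>
            fderiv ℝ ((φ n).normed (volume : Measure ℂ)) t v) := (hφc n).fderiv_apply ℝ v
        have hcc : Continuous (fun t : ℂ =>
            fderiv ℝ ((φ n).normed (volume : Measure ℂ)) t v) := by
          have := (hφd1 n).continuous_fderiv one_ne_zero
          fun_prop
        obtain ⟨B, hB⟩ := hcs.exists_bound_of_continuous hcc
        exact ⟨B, fun t => hB (x - t)⟩
      exact Integrable.bdd_smul (𝕜 := ℝ) hgi B hcv.aestronglyMeasurable (ae_of_all _ hB)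
    have e1 : (fun t => db ψ t • g t) = fun t => -((1 / 2 : ℂ) •
        ((fderiv ℝ ((φ n).normed (volume : Measure ℂ)) (x - t) 1) • g t + Complex.I •
        ((fderiv ℝ ((φ n).normed (volume : Measure ℂ)) (x - t) Complex.I) • g t))) := by
      funext t
      unfold db
      rw [hψd, hψd]
      simp only [smul_eq_mul, Complex.real_smul]
      ring
    have hdI : Integrable (fun t => Complex.I •
        ((fderiv ℝ ((φ n).normed (volume : Measure ℂ)) (x - t) Complex.I) • g t)) :=
      (hdi Complex.I).smul Complex.I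
    rw [e1, integral_neg, integral_smul, integral_add (hdi 1) hdI,
      integral_smul, neg_eq_zero] at hz
    unfold db
    rw [hderv, hderv]
    exact hz
  -- L¹ bound
  have hφi : ∀ n, Integrable ((φ n).normed (volume : Measure ℂ)) := fun n =>
    (φ n).integrable_normed
  have hFi : ∀ n, Integrable (F n) := fun n => (hφi n).integrable_convolution _ hgi
  set M : ℝ := ∫ z, ‖g z‖ with hM
  have hbd : ∀ n, ∫ z, ‖F n z‖ ≤ M := by
    intro n
    have h1 : ∀ x, ‖F n x‖ ≤ (MeasureTheory.convolution ((φ n).normed volume)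
        (fun t => ‖g t‖) (ContinuousLinearMap.lsmul ℝ ℝ) volume) x := by
      intro x
      change ‖∫ t, _‖ ≤ ∫ t, _
      refine (norm_integral_le_integral_norm _).trans (le_of_eq ?_)
      congr 1
      funext t
      simp only [ContinuousLinearMap.lsmul_apply, norm_smul, smul_eq_mul]
      rw [Real.norm_of_nonneg ((φ n).nonneg_normed t)]
    have h2 : ∫ x, (MeasureTheory.convolution ((φ n).normed volume)
        (fun t => ‖g t‖) (ContinuousLinearMap.lsmul ℝ ℝ) volume) x = M := by
      rw [integral_convolution _ (hφi n) hgi.norm]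
      simp only [ContinuousLinearMap.lsmul_apply, smul_eq_mul]
      rw [(φ n).integral_normed, one_mul]
    rw [← h2]
    exact integral_mono (hFi n).norm ((hφi n).integrable_convolution _ hgi.norm) h1
  -- pointwise bound
  set B : ℝ := M / (π * (ρ / 4) ^ 2) with hB
  have hM0 : 0 ≤ M := integral_nonneg fun z => norm_nonneg _
  have hpt : ∀ n, ∀ x ∈ ball z₀ (ρ / 2), ‖F n x‖ ≤ B := by
    intro n x hx
    have hxb : dist x z₀ < ρ / 2 := hx
    have h1 := area_mean (F := F n) (x := x) (r := ρ / 4) (R := ρ / 2) (by positivity)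
      (by linarith) ((hhol n).mono (by
        intro y hy
        rw [mem_ball] at hy ⊢
        have := dist_triangle y x z₀
        linarith))
    have h2 : ‖((π * (ρ / 4) ^ 2 : ℝ) : ℂ) * F n x‖ ≤ M := by
      rw [← h1]
      refine (norm_integral_le_integral_norm _).trans (le_trans ?_ (hbd n))
      exact setIntegral_le_integral (hFi n).norm (ae_of_all _ fun z => norm_nonneg _)
    rw [norm_mul, Complex.norm_real, Real.norm_of_nonneg (by positivity)] at h2
    rw [hB, le_div_iff₀ (by positivity), mul_comm]
    exact h2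
  -- convergence almost everywhere
  have hout : Tendsto (fun n => (φ n).rOut) atTop (𝓝 0) := by
    have h1 : Tendsto (fun n : ℕ => ρ / ((n : ℝ) + 1)) atTop (𝓝 0) := by
      have := tendsto_one_div_add_atTop_nhds_zero_nat (𝕜 := ℝ)
      have h2 := this.const_mul ρ
      simpa [div_eq_mul_inv] using h2
    exact h1
  have hae : ∀ᵐ x, Tendsto (fun n => F n x) atTop (𝓝 (g x)) := by
    apply ContDiffBump.ae_convolution_tendsto_right_of_locallyIntegrable (K := 2) hout _
      hgi.locallyIntegrable
    apply Eventually.of_forall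
    intro n
    rw [hφout, hφin]
    apply le_of_eq
    have : (n : ℝ) + 1 ≠ 0 := by positivity
    field_simp
  -- the continuous representative
  set A : ℂ → ℂ := fun x => (((π * (ρ / 4) ^ 2 : ℝ) : ℂ))⁻¹ * ∫ z in ball x (ρ / 4), g z with hA
  have hcne : (((π * (ρ / 4) ^ 2 : ℝ) : ℂ)) ≠ 0 := by
    rw [Complex.ofReal_ne_zero]
    positivity
  have hlim : ∀ x ∈ ball z₀ (ρ / 4), Tendsto (fun n => F n x) atTop (𝓝 (A x)) := by
    intro x hx
    have hxb : dist x z₀ < ρ / 4 := hx
    have hsb : ball x (ρ / 4) ⊆ ball z₀ (ρ / 2) := by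
      intro y hy
      rw [mem_ball] at hy ⊢
      have := dist_triangle y x z₀
      linarith
    have h1 : ∀ n, F n x = (((π * (ρ / 4) ^ 2 : ℝ) : ℂ))⁻¹ * ∫ z in ball x (ρ / 4), F n z := by
      intro n
      rw [area_mean (F := F n) (x := x) (r := ρ / 4) (R := ρ / 2) (by positivity)
        (by linarith) ((hhol n).mono (by
          intro y hy
          rw [mem_ball] at hy ⊢
          have := dist_triangle y x z₀
          linarith)), inv_mul_cancel_left₀ hcne]
    simp only [h1]
    apply Tendsto.const_mul
    apply tendsto_integral_of_dominated_convergence (fun _ => B)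
    · intro n
      exact (hFi n).aestronglyMeasurable.restrict
    · exact integrableOn_const (measure_ball_lt_top).ne
    · intro n
      rw [ae_restrict_iff' measurableSet_ball]
      exact ae_of_all _ fun y hy => hpt n y (hsb hy)
    · exact ae_restrict_of_ae hae
  have hAg : ∀ᵐ x ∂(volume.restrict (ball z₀ (ρ / 4))), g x = A x := by
    rw [ae_restrict_iff' measurableSet_ball]
    filter_upwards [hae] with x hx hxb
    exact tendsto_nhds_unique hx (hlim x hxb)
  -- A is holomorphic
  have hρ8 : (0 : ℝ) < ρ / 8 := by positivity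
  have hball8 : ball z₀ (ρ / 8) ⊆ ball z₀ (ρ / 4) := ball_subset_ball (by linarith)
  have hcm : ∀ θ : ℝ, circleMap z₀ (ρ / 8) θ ∈ ball z₀ (ρ / 4) := by
    intro θ
    have h1 := circleMap_mem_sphere z₀ hρ8.le θ
    rw [mem_sphere] at h1
    rw [mem_ball, h1]
    linarith
  have hmeas : AEStronglyMeasurable (fun θ : ℝ => A (circleMap z₀ (ρ / 8) θ)) volume := by
    apply aestronglyMeasurable_of_tendsto_ae (u := atTop)
      (f := fun n (θ : ℝ) => F n (circleMap z₀ (ρ / 8) θ))
    · intro n
      apply Continuous.aestronglyMeasurable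
      rw [← continuousOn_univ]
      apply (hhol n).continuousOn.comp (continuous_circleMap z₀ (ρ / 8)).continuousOn
      intro θ _
      exact ball_subset_ball (by linarith) (hcm θ)
    · exact ae_of_all _ fun θ => hlim _ (hcm θ)
  have hAbd : ∀ x ∈ ball z₀ (ρ / 4), ‖A x‖ ≤ B := by
    intro x hx
    exact le_of_tendsto (hlim x hx).norm (Eventually.of_forall fun n =>
      hpt n x (ball_subset_ball (by linarith) hx))
  have hci : CircleIntegrable A z₀ (ρ / 8) := by
    unfold CircleIntegrable
    rw [intervalIntegrable_iff]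
    apply Measure.integrableOn_of_bounded (M := B) (by rw [uIoc]; exact measure_Ioc_lt_top.ne)
    · exact hmeas
    · exact ae_of_all _ fun θ => hAbd _ (hcm θ)
  have hform : ∀ x ∈ ball z₀ (ρ / 8), A x =
      (2 * π * Complex.I : ℂ)⁻¹ • ∮ z in C(z₀, ρ / 8), (z - x)⁻¹ • A z := by
    intro x hx
    have h1 : ∀ n, F n x =
        (2 * π * Complex.I : ℂ)⁻¹ • ∮ z in C(z₀, ρ / 8), (z - x)⁻¹ • F n z := by
      intro n
      symm
      apply DiffContOnCl.two_pi_i_inv_smul_circleIntegral_sub_inv_smul _ hx
      apply DifferentiableOn.diffContOnCl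
      rw [closure_ball z₀ hρ8.ne']
      exact (hhol n).mono (closedBall_subset_ball (by linarith))
    refine tendsto_nhds_unique (hlim x (hball8 hx)) ?_
    simp only [h1]
    apply Tendsto.const_smul
    unfold circleIntegral
    have hxd : ∀ θ : ℝ, (ρ / 8 - dist x z₀) ≤ ‖circleMap z₀ (ρ / 8) θ - x‖ := by
      intro θ
      have h2 := circleMap_mem_sphere z₀ hρ8.le θ
      rw [mem_sphere] at h2
      have h3 := dist_triangle (circleMap z₀ (ρ / 8) θ) x z₀
      rw [h2, dist_eq_norm (circleMap z₀ (ρ / 8) θ) x] at h3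
      linarith
    have hxb : 0 < ρ / 8 - dist x z₀ := by
      have : dist x z₀ < ρ / 8 := hx
      linarith
    apply intervalIntegral.tendsto_integral_filter_of_dominated_convergence
      (fun _ => (ρ / 8) * ((ρ / 8 - dist x z₀)⁻¹ * B))
    · apply Eventually.of_forall
      intro n
      have hc1 : Continuous (fun θ : ℝ => F n (circleMap z₀ (ρ / 8) θ)) := by
        rw [← continuousOn_univ]
        apply (hhol n).continuousOn.comp (continuous_circleMap z₀ (ρ / 8)).continuousOn
        intro θ _
        exact ball_subset_ball (by linarith) (hcm θ)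
      have hc2 : Continuous (fun θ : ℝ => (circleMap z₀ (ρ / 8) θ - x)⁻¹) := by
        apply Continuous.inv₀
        · exact (continuous_circleMap _ _).sub continuous_const
        · intro θ h0
          have := hxd θ
          rw [h0, norm_zero] at this
          linarith
      have hc3 : Continuous (fun θ : ℝ => deriv (circleMap z₀ (ρ / 8)) θ) := by
        simp only [deriv_circleMap]
        exact (continuous_circleMap _ _).mul continuous_const
      exact (hc3.smul (hc2.smul hc1)).aestronglyMeasurable
    · apply Eventually.of_forall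
      intro n
      apply ae_of_all
      intro θ _
      rw [norm_smul, norm_smul, deriv_circleMap, norm_mul, Complex.norm_I, mul_one,
        norm_circleMap_zero, abs_of_pos hρ8, norm_inv]
      apply mul_le_mul_of_nonneg_left _ hρ8.le
      apply mul_le_mul _ _ (norm_nonneg _) (by positivity)
      · exact inv_anti₀ hxb (hxd θ)
      · exact hpt n _ (ball_subset_ball (by linarith) (hcm θ))
    · exact intervalIntegrable_const
    · apply ae_of_all
      intro θ _
      apply Tendsto.const_smul
      apply Tendsto.const_smul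
      exact hlim _ (hcm θ)
  have hAhol : DifferentiableOn ℂ A (ball z₀ (ρ / 8)) := by
    obtain ⟨R', hR'⟩ : ∃ R' : NNReal, (R' : ℝ) = ρ / 8 := ⟨⟨ρ / 8, hρ8.le⟩, rfl⟩
    rw [← hR'] at hci hform hρ8 ⊢
    have h1 := hasFPowerSeriesOn_cauchy_integral (f := A) (c := z₀) (R := R') hci
      (by exact_mod_cast hρ8)
    have h2 := h1.differentiableOn
    rw [Metric.eball_coe] at h2
    exact h2.congr hform
  refine ⟨ρ / 8, A, hρ8, ?_, hAhol, ?_⟩
  · exact (ball_subset_closedBall.trans (closedBall_subset_closedBall (by linarith))).trans hsub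
  · have h1 := ae_restrict_of_ae_restrict_of_subset hball8 hAg
    filter_upwards [h1, ae_restrict_mem measurableSet_ball] with x hx hxb
    rw [← hx, hgx x (ball_subset_closedBall.trans (closedBall_subset_closedBall
      (by linarith)) hxb)]

end Weyl_

open Weyl_ in
theorem weyl_proof : Stmt_Weyl := by
  intro f hf hw
  choose! r A hr hsub hA hae using fun (z₀ : ℂ) (hz₀ : z₀ ∈ Hp) => loc_aux hf hw hz₀
  have key : ∀ z₀ ∈ Hp, ∀ w ∈ ball z₀ (r z₀), A w w = A z₀ w := by
    intro z₀ hz₀ w hw'
    have hwH : w ∈ Hp := hsub z₀ hz₀ hw'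
    have hopen : IsOpen (ball z₀ (r z₀) ∩ ball w (r w)) := isOpen_ball.inter isOpen_ball
    have h1 : A w =ᵐ[volume.restrict (ball z₀ (r z₀) ∩ ball w (r w))] A z₀ := by
      have h2 := ae_restrict_of_ae_restrict_of_subset
        (inter_subset_left (s := ball z₀ (r z₀)) (t := ball w (r w))) (hae z₀ hz₀)
      have h3 := ae_restrict_of_ae_restrict_of_subset
        (inter_subset_right (s := ball z₀ (r z₀)) (t := ball w (r w))) (hae w hwH)
      filter_upwards [h2, h3] with x hx2 hx3
      rw [← hx3, hx2]
    have h4 := Measure.eqOn_open_of_ae_eq h1 hopen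
      ((hA w hwH).continuousOn.mono inter_subset_right)
      ((hA z₀ hz₀).continuousOn.mono inter_subset_left)
    exact h4 ⟨hw', mem_ball_self (hr w hwH)⟩
  refine ⟨fun z => A z z, ?_, ?_⟩
  · intro z₀ hz₀
    have h1 : (fun z => A z z) =ᶠ[𝓝 z₀] A z₀ := by
      filter_upwards [ball_mem_nhds z₀ (hr z₀ hz₀)] with w hw'
      exact key z₀ hz₀ w hw'
    have h2 := (hA z₀ hz₀).differentiableAt (ball_mem_nhds z₀ (hr z₀ hz₀))
    exact (h2.congr_of_eventuallyEq h1).differentiableWithinAt
  · rw [ae_restrict_iff' measurableSet_Hp, ae_iff]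
    apply measure_null_of_locally_null
    intro z₀ hz
    have hz₀ : z₀ ∈ Hp := by
      by_contra hcon
      exact hz (fun h => absurd h hcon)
    refine ⟨ball z₀ (r z₀) ∩ {a | ¬(a ∈ Hp → f a = A a a)}, ?_, ?_⟩
    · rw [inter_comm]
      exact inter_mem_nhdsWithin _ (ball_mem_nhds z₀ (hr z₀ hz₀))
    · have h1 := hae z₀ hz₀
      rw [ae_restrict_iff' measurableSet_ball, ae_iff] at h1
      apply measure_mono_null _ h1
      rintro a ⟨ha1, ha2⟩ hcon
      apply ha2
      intro _
      rw [hcon ha1, key z₀ hz₀ a ha1]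

end Pool.Agent.TNP
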