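import Pool.Agent.TNP.Stmts

/-!
# TNP, module WINV: the inverse of a smooth quasiconformal map is smooth
-/

open scoped ContDiff Topology ComplexConjugate
open Set Metric MeasureTheory Filter

namespace Pool.Agent.TNP

noncomputable section

namespace WINV_

variable {w μ : ℂ → ℂ}

theorem sm_mu (h : QM w μ) : Sm μ := by
  have hw : Sm w := h.smooth
  have h1 : Sm (fun z => db w z * (dz w z)⁻¹) := hw.db.mul (hw.dz.inv h.ne)
  refine ContDiffOn.congr h1 fun z hz => ?_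
  rw [h.bel z hz, mul_assoc, mul_inv_cancel₀ (h.ne z hz), mul_one]

theorem inj_fderiv (h : QM w μ) {z : ℂ} (hz : z ∈ Hp) :
    Function.Injective (fderiv ℝ w z : ℂ →ₗ[ℝ] ℂ) := by
  rw [← LinearMap.ker_eq_bot, LinearMap.ker_eq_bot']
  intro v hv
  have h1 : v * dz w z + conj v * db w z = 0 := by
    rw [← fderiv_eq]
    exact hv
  rw [h.bel z hz] at h1
  have h2 : dz w z * (v + μ z * conj v) = 0 := by linear_combination h1
  have h3 : v + μ z * conj v = 0 := (mul_eq_zero.mp h2).resolve_left (h.ne z hz)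
  have h4 : ‖v‖ = ‖μ z‖ * ‖v‖ := by
    have : v = -(μ z * conj v) := by linear_combination h3
    calc ‖v‖ = ‖-(μ z * conj v)‖ := by rw [← this]
      _ = ‖μ z‖ * ‖v‖ := by rw [norm_neg, norm_mul, Complex.norm_conj]
  have h5 := h.lt z hz
  have h6 : ‖v‖ = 0 := by
    by_contra hne
    have hpos : 0 < ‖v‖ := lt_of_le_of_ne (norm_nonneg v) (Ne.symm hne)
    nlinarith
  exact norm_eq_zero.mp h6

theorem contDiffAt_inv (h : QM w μ) {v : ℂ → ℂ} (hv : ∀ z ∈ Hp, v (w z) = z) {z : ℂ}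
    (hz : z ∈ Hp) : ContDiffAt ℝ ∞ v (w z) := by
  have hw : ContDiffAt ℝ ∞ w z := h.smooth.contDiffAt (isOpen_Hp.mem_nhds hz)
  let e : ℂ ≃ₗ[ℝ] ℂ := LinearEquiv.ofInjectiveEndo (fderiv ℝ w z : ℂ →ₗ[ℝ] ℂ) (inj_fderiv h hz)
  let E : ℂ ≃L[ℝ] ℂ := e.toContinuousLinearEquiv
  have hE : (E : ℂ →L[ℝ] ℂ) = fderiv ℝ w z := by
    ext x
    rfl
  have hn : (∞ : WithTop ℕ∞) ≠ 0 := by simp
  have hf' : HasFDerivAt w (E : ℂ →L[ℝ] ℂ) z := by
    rw [hE]
    exact (hw.differentiableAt hn).hasFDerivAt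
  have h1 := hw.to_localInverse hf' hn
  refine h1.congr_of_eventuallyEq ?_
  exact (hw.hasStrictFDerivAt' hf' hn).localInverse_unique
    (Filter.mem_of_superset (isOpen_Hp.mem_nhds hz) fun x hx => hv x hx)

end WINV_

open WINV_ in
theorem winv_proof : Stmt_Winv := by
  intro w μ h
  refine ⟨sm_mu h, Function.invFunOn w Hp, ?_, ?_⟩
  · intro z hz
    obtain ⟨x, hx, rfl⟩ := h.bij.surjOn hz
    exact (contDiffAt_inv h (fun y hy => h.bij.injOn.leftInvOn_invFunOn hy) hx).contDiffWithinAt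
  · intro z hz
    have h1 : z ∈ w '' Hp := h.bij.surjOn hz
    exact ⟨Function.invFunOn_mem h1, Function.invFunOn_eq h1, h.bij.injOn.leftInvOn_invFunOn hz⟩

end

end Pool.Agent.TNP
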