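import Pool.Agent.TNP.AEXT
import Pool.Agent.TNP.BOCH
import Pool.Agent.TNP.CNT
import Pool.Agent.TNP.ChvB
import Pool.Agent.TNP.Coer
import Pool.Agent.TNP.Cont
import Pool.Agent.TNP.DCTM
import Pool.Agent.TNP.Dual
import Pool.Agent.TNP.Extr
import Pool.Agent.TNP.First
import Pool.Agent.TNP.Flat
import Pool.Agent.TNP.Ind
import Pool.Agent.TNP.LOC
import Pool.Agent.TNP.LOGL
import Pool.Agent.TNP.LOWB
import Pool.Agent.TNP.LapQ
import Pool.Agent.TNP.MV
import Pool.Agent.TNP.Main
import Pool.Agent.TNP.Mop
import Pool.Agent.TNP.Ofqd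
import Pool.Agent.TNP.Oper
import Pool.Agent.TNP.PAbs
import Pool.Agent.TNP.PU
import Pool.Agent.TNP.Pert
import Pool.Agent.TNP.Poinc
import Pool.Agent.TNP.Priv
import Pool.Agent.TNP.Ptw
import Pool.Agent.TNP.QNZ
import Pool.Agent.TNP.QcSB
import Pool.Agent.TNP.RSZ
import Pool.Agent.TNP.Stok
import Pool.Agent.TNP.SubM
import Pool.Agent.TNP.Tayl
import Pool.Agent.TNP.TestV
import Pool.Agent.TNP.ToQD
import Pool.Agent.TNP.Unf
import Pool.Agent.TNP.Weyl
import Pool.Agent.TNP.Winv

/-!
# TNP: assembly of the modules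
-/

namespace Pool.Agent.TNP.Assembly

theorem unf : Stmt_Unf := unf_proof cnt_proof
theorem ind : Stmt_Ind := ind_proof unf cnt_proof
theorem stok : Stmt_Stok := stok_proof unf pu_proof
theorem poinc : Stmt_Poinc := poinc_proof unf
theorem mv : Stmt_Mv := mv_proof unf
theorem boch : Stmt_Boch := boch_proof stok
theorem coer : Stmt_Coer := coer_proof boch
theorem flat : Stmt_Flat := flat_proof boch lapq_proof
theorem rsz : Stmt_Rsz := rsz_proof flat qnz_proof
theorem oper : Stmt_Oper := oper_proof coer
theorem pert : Stmt_Pert := pert_proof oper mop_proof dual_proof pabs_proof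
theorem testv : Stmt_TestV := testv_proof winv_proof
theorem qcsb : Stmt_QcSB := qcsb_proof winv_proof
theorem toqd : Stmt_ToQD :=
  toqd_proof weyl_proof chvb_proof winv_proof testv aext_proof poinc qcsb
theorem ofqd : Stmt_OfQD := ofqd_proof stok ind chvb_proof qcsb
theorem extr : Stmt_Extr := extr_proof mv toqd ofqd
theorem first : Stmt_First := first_proof stok
theorem dctm : Stmt_Dctm := dctm_proof ptw_proof
theorem loc : Stmt_Loc := loc_proof ofqd toqd qcsb extr
theorem cont : Stmt_Cont := cont_proof pert toqd mv tayl_proof first rsz stok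
theorem lowb : Stmt_LowB := lowb_proof pert first rsz tayl_proof logl_proof stok
theorem subm : Stmt_SubM := subm_proof lowb dctm qnz_proof

/-- The Teichmüller norm is plurisubharmonic on the tangent bundle of Teichmüller space. -/
theorem main : Stmt_Main := main_proof loc cont subm priv_proof

end Pool.Agent.TNP.Assembly
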