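import Pool.Agent.TNP.Defs

/-!
# TNP: Wirtinger calculus for functions `ℂ → ℂ` (proved, for free use in all modules)
-/

open scoped ContDiff Topology ComplexConjugate
open Set Metric MeasureTheory Filter

namespace Pool.Agent.TNP

noncomputable section

variable {F G : ℂ → ℂ} {z : ℂ}

theorem dz_congr (h : F =ᶠ[𝓝 z] G) : dz F z = dz G z := by
  unfold dz; rw [h.fderiv_eq]

theorem db_congr (h : F =ᶠ[𝓝 z] G) : db F z = db G z := by
  unfold db; rw [h.fderiv_eq]

@[simp] theorem dz_const (c : ℂ) (z : ℂ) : dz (fun _ => c) z = 0 := by simp [dz]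

@[simp] theorem db_const (c : ℂ) (z : ℂ) : db (fun _ => c) z = 0 := by simp [db]

/-- the real derivative in terms of the Wirtinger derivatives -/
theorem fderiv_eq (F : ℂ → ℂ) (z v : ℂ) :
    fderiv ℝ F z v = v * dz F z + conj v * db F z := by
  have h1 : v = v.re • (1 : ℂ) + v.im • Complex.I := by
    simp
  have h2 : fderiv ℝ F z v = v.re • fderiv ℝ F z 1 + v.im • fderiv ℝ F z Complex.I := by
    conv_lhs => rw [h1]
    rw [map_add, map_smul, map_smul]
  rw [h2]
  simp only [dz, db, Complex.real_smul]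
  have e1 : v = v.re + v.im * Complex.I := (Complex.re_add_im v).symm
  have e2 : conj v = v.re - v.im * Complex.I := by
    apply Complex.ext <;> simp
  rw [e2]
  conv_rhs => rw [e1]
  simp only [Complex.add_re, Complex.ofReal_re, Complex.mul_re, Complex.I_re, mul_zero,
    Complex.ofReal_im, Complex.I_im, mul_one, sub_self, add_zero, Complex.add_im, Complex.mul_im,
    zero_add]
  linear_combination ((v.im : ℂ) * fderiv ℝ F z Complex.I) * Complex.I_sq

theorem norm_dz_le (F : ℂ → ℂ) (z : ℂ) : ‖dz F z‖ ≤ ‖fderiv ℝ F z‖ := by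
  have h1 : ‖fderiv ℝ F z 1‖ ≤ ‖fderiv ℝ F z‖ := by
    simpa using (fderiv ℝ F z).le_opNorm 1
  have h2 : ‖fderiv ℝ F z Complex.I‖ ≤ ‖fderiv ℝ F z‖ := by
    simpa using (fderiv ℝ F z).le_opNorm Complex.I
  unfold dz
  rw [norm_mul]
  have h3 := norm_sub_le (fderiv ℝ F z 1) (Complex.I * fderiv ℝ F z Complex.I)
  rw [norm_mul, Complex.norm_I, one_mul] at h3
  have h4 : ‖(1/2 : ℂ)‖ = 1/2 := by simp
  rw [h4]
  linarith

theorem norm_db_le (F : ℂ → ℂ) (z : ℂ) : ‖db F z‖ ≤ ‖fderiv ℝ F z‖ := by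
  have h1 : ‖fderiv ℝ F z 1‖ ≤ ‖fderiv ℝ F z‖ := by
    simpa using (fderiv ℝ F z).le_opNorm 1
  have h2 : ‖fderiv ℝ F z Complex.I‖ ≤ ‖fderiv ℝ F z‖ := by
    simpa using (fderiv ℝ F z).le_opNorm Complex.I
  unfold db
  rw [norm_mul]
  have h3 := norm_add_le (fderiv ℝ F z 1) (Complex.I * fderiv ℝ F z Complex.I)
  rw [norm_mul, Complex.norm_I, one_mul] at h3
  have h4 : ‖(1/2 : ℂ)‖ = 1/2 := by simp
  rw [h4]
  linarith

theorem dz_of_hasFDerivAt {L : ℂ →L[ℝ] ℂ} (h : HasFDerivAt F L z) :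
    dz F z = (1 / 2 : ℂ) * (L 1 - Complex.I * L Complex.I) := by
  unfold dz; rw [h.fderiv]

theorem db_of_hasFDerivAt {L : ℂ →L[ℝ] ℂ} (h : HasFDerivAt F L z) :
    db F z = (1 / 2 : ℂ) * (L 1 + Complex.I * L Complex.I) := by
  unfold db; rw [h.fderiv]

theorem dz_add (hF : DifferentiableAt ℝ F z) (hG : DifferentiableAt ℝ G z) :
    dz (fun w => F w + G w) z = dz F z + dz G z := by
  rw [dz_of_hasFDerivAt (hF.hasFDerivAt.fun_add hG.hasFDerivAt)]
  simp only [_root_.add_apply, dz]
  ring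

theorem db_add (hF : DifferentiableAt ℝ F z) (hG : DifferentiableAt ℝ G z) :
    db (fun w => F w + G w) z = db F z + db G z := by
  rw [db_of_hasFDerivAt (hF.hasFDerivAt.fun_add hG.hasFDerivAt)]
  simp only [_root_.add_apply, db]
  ring

theorem dz_sub (hF : DifferentiableAt ℝ F z) (hG : DifferentiableAt ℝ G z) :
    dz (fun w => F w - G w) z = dz F z - dz G z := by
  rw [dz_of_hasFDerivAt (hF.hasFDerivAt.fun_sub hG.hasFDerivAt)]
  simp only [_root_.sub_apply, dz]
  ring

theorem db_sub (hF : DifferentiableAt ℝ F z) (hG : DifferentiableAt ℝ G z) :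
    db (fun w => F w - G w) z = db F z - db G z := by
  rw [db_of_hasFDerivAt (hF.hasFDerivAt.fun_sub hG.hasFDerivAt)]
  simp only [_root_.sub_apply, db]
  ring

theorem dz_mul (hF : DifferentiableAt ℝ F z) (hG : DifferentiableAt ℝ G z) :
    dz (fun w => F w * G w) z = dz F z * G z + F z * dz G z := by
  rw [dz_of_hasFDerivAt (hF.hasFDerivAt.fun_mul hG.hasFDerivAt)]
  simp only [_root_.add_apply, _root_.smul_apply, smul_eq_mul, dz]
  ring

theorem db_mul (hF : DifferentiableAt ℝ F z) (hG : DifferentiableAt ℝ G z) :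
    db (fun w => F w * G w) z = db F z * G z + F z * db G z := by
  rw [db_of_hasFDerivAt (hF.hasFDerivAt.fun_mul hG.hasFDerivAt)]
  simp only [_root_.add_apply, _root_.smul_apply, smul_eq_mul, db]
  ring

theorem dz_const_mul (c : ℂ) (hF : DifferentiableAt ℝ F z) :
    dz (fun w => c * F w) z = c * dz F z := by
  rw [dz_mul (differentiableAt_const c) hF]
  simp

theorem db_const_mul (c : ℂ) (hF : DifferentiableAt ℝ F z) :
    db (fun w => c * F w) z = c * db F z := by
  rw [db_mul (differentiableAt_const c) hF]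
  simp

theorem dz_neg (hF : DifferentiableAt ℝ F z) : dz (fun w => - F w) z = - dz F z := by
  have := dz_const_mul (-1) hF
  simpa using this

theorem db_neg (hF : DifferentiableAt ℝ F z) : db (fun w => - F w) z = - db F z := by
  have := db_const_mul (-1) hF
  simpa using this

theorem differentiableAt_conj (hF : DifferentiableAt ℝ F z) :
    DifferentiableAt ℝ (fun w => conj (F w)) z :=
  Complex.conjCLE.differentiableAt.comp z hF

theorem dz_conj (hF : DifferentiableAt ℝ F z) : dz (fun w => conj (F w)) z = conj (db F z) := by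
  have h : HasFDerivAt (fun w => conj (F w))
      ((Complex.conjCLE : ℂ →L[ℝ] ℂ).comp (fderiv ℝ F z)) z :=
    (Complex.conjCLE : ℂ →L[ℝ] ℂ).hasFDerivAt.comp z hF.hasFDerivAt
  rw [dz_of_hasFDerivAt h]
  simp only [ContinuousLinearMap.comp_apply, db, map_mul, map_add, map_div₀, map_one,
    Complex.conj_I]
  have : ∀ x : ℂ, (Complex.conjCLE : ℂ →L[ℝ] ℂ) x = conj x := fun x => rfl
  rw [this, this]
  have h2 : conj (2 : ℂ) = 2 := Complex.conj_ofNat 2
  rw [h2]
  ring

theorem db_conj (hF : DifferentiableAt ℝ F z) : db (fun w => conj (F w)) z = conj (dz F z) := by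
  have h : HasFDerivAt (fun w => conj (F w))
      ((Complex.conjCLE : ℂ →L[ℝ] ℂ).comp (fderiv ℝ F z)) z :=
    (Complex.conjCLE : ℂ →L[ℝ] ℂ).hasFDerivAt.comp z hF.hasFDerivAt
  rw [db_of_hasFDerivAt h]
  simp only [ContinuousLinearMap.comp_apply, dz, map_mul, map_sub, map_div₀, map_one,
    Complex.conj_I]
  have : ∀ x : ℂ, (Complex.conjCLE : ℂ →L[ℝ] ℂ) x = conj x := fun x => rfl
  rw [this, this]
  have h2 : conj (2 : ℂ) = 2 := Complex.conj_ofNat 2
  rw [h2]
  ring

/-- holomorphic functions -/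
theorem fderiv_real_of_complex (hF : DifferentiableAt ℂ F z) (v : ℂ) :
    fderiv ℝ F z v = v * deriv F z := by
  have h2 : fderiv ℝ F z = (ContinuousLinearMap.toSpanSingleton ℂ (deriv F z)).restrictScalars ℝ :=
    (hF.hasDerivAt.hasFDerivAt.restrictScalars ℝ).fderiv
  rw [h2]; simp

theorem dz_holo (hF : DifferentiableAt ℂ F z) : dz F z = deriv F z := by
  unfold dz
  rw [fderiv_real_of_complex hF, fderiv_real_of_complex hF]
  linear_combination (-(1 / 2) * deriv F z) * Complex.I_sq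

theorem db_holo (hF : DifferentiableAt ℂ F z) : db F z = 0 := by
  unfold db
  rw [fderiv_real_of_complex hF, fderiv_real_of_complex hF]
  linear_combination (1 / 2 * deriv F z) * Complex.I_sq

/-- a real differentiable function with vanishing `∂̄` is complex differentiable -/
theorem differentiableAt_of_db_eq_zero (hF : DifferentiableAt ℝ F z) (h : db F z = 0) :
    DifferentiableAt ℂ F z := by
  have h1 : HasFDerivAt F
      ((ContinuousLinearMap.toSpanSingleton ℂ (dz F z)).restrictScalars ℝ) z := by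
    have := hF.hasFDerivAt
    have e : fderiv ℝ F z = (ContinuousLinearMap.toSpanSingleton ℂ (dz F z)).restrictScalars ℝ := by
      ext v
      simp [fderiv_eq, h]
    rwa [e] at this
  have h2 : HasFDerivAt F (ContinuousLinearMap.toSpanSingleton ℂ (dz F z)) z := by
    rw [hasFDerivAt_iff_isLittleO_nhds_zero] at h1 ⊢
    exact h1
  exact h2.differentiableAt

/-- general chain rule -/
theorem dz_comp {w : ℂ → ℂ} (hw : DifferentiableAt ℝ w z) (hF : DifferentiableAt ℝ F (w z)) :
    dz (fun x => F (w x)) z = dz F (w z) * dz w z + db F (w z) * conj (db w z) := by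
  have h : HasFDerivAt (fun x => F (w x)) ((fderiv ℝ F (w z)).comp (fderiv ℝ w z)) z :=
    hF.hasFDerivAt.comp z hw.hasFDerivAt
  rw [dz_of_hasFDerivAt h]
  simp only [ContinuousLinearMap.comp_apply, fderiv_eq F, fderiv_eq w, map_add, map_mul, map_one,
    one_mul, Complex.conj_I, map_neg]
  linear_combination (-(1 / 2) * dz F (w z) * dz w z - 1 / 2 * db F (w z) * conj (db w z) +
    1 / 2 * dz F (w z) * db w z + 1 / 2 * db F (w z) * conj (dz w z)) * Complex.I_sq

theorem db_comp {w : ℂ → ℂ} (hw : DifferentiableAt ℝ w z) (hF : DifferentiableAt ℝ F (w z)) :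
    db (fun x => F (w x)) z = dz F (w z) * db w z + db F (w z) * conj (dz w z) := by
  have h : HasFDerivAt (fun x => F (w x)) ((fderiv ℝ F (w z)).comp (fderiv ℝ w z)) z :=
    hF.hasFDerivAt.comp z hw.hasFDerivAt
  rw [db_of_hasFDerivAt h]
  simp only [ContinuousLinearMap.comp_apply, fderiv_eq F, fderiv_eq w, map_add, map_mul, map_one,
    one_mul, Complex.conj_I, map_neg]
  linear_combination (1 / 2 * dz F (w z) * dz w z + 1 / 2 * db F (w z) * conj (db w z) -
    1 / 2 * dz F (w z) * db w z - 1 / 2 * db F (w z) * conj (dz w z)) * Complex.I_sq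

/-- chain rule with a holomorphic inner function -/
theorem dz_comp_holo {ψ : ℂ → ℂ} (hψ : DifferentiableAt ℂ ψ z)
    (hF : DifferentiableAt ℝ F (ψ z)) :
    dz (fun x => F (ψ x)) z = dz F (ψ z) * deriv ψ z := by
  rw [dz_comp (hψ.restrictScalars ℝ) hF, dz_holo hψ, db_holo hψ]
  simp

theorem db_comp_holo {ψ : ℂ → ℂ} (hψ : DifferentiableAt ℂ ψ z)
    (hF : DifferentiableAt ℝ F (ψ z)) :
    db (fun x => F (ψ x)) z = db F (ψ z) * conj (deriv ψ z) := by
  rw [db_comp (hψ.restrictScalars ℝ) hF, dz_holo hψ, db_holo hψ]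
  simp

/-- chain rule with a holomorphic outer function -/
theorem dz_holo_comp {w : ℂ → ℂ} (hw : DifferentiableAt ℝ w z) (hF : DifferentiableAt ℂ F (w z)) :
    dz (fun x => F (w x)) z = deriv F (w z) * dz w z := by
  rw [dz_comp hw (hF.restrictScalars ℝ), dz_holo hF, db_holo hF]
  simp

theorem db_holo_comp {w : ℂ → ℂ} (hw : DifferentiableAt ℝ w z) (hF : DifferentiableAt ℂ F (w z)) :
    db (fun x => F (w x)) z = deriv F (w z) * db w z := by
  rw [db_comp hw (hF.restrictScalars ℝ), dz_holo hF, db_holo hF]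
  simp

theorem dz_inv (hF : DifferentiableAt ℝ F z) (h0 : F z ≠ 0) :
    dz (fun x => (F x)⁻¹) z = - dz F z / F z ^ 2 := by
  rw [dz_holo_comp (F := fun x => x⁻¹) hF (differentiableAt_inv h0)]
  simp only [deriv_inv]
  ring

theorem db_inv (hF : DifferentiableAt ℝ F z) (h0 : F z ≠ 0) :
    db (fun x => (F x)⁻¹) z = - db F z / F z ^ 2 := by
  rw [db_holo_comp (F := fun x => x⁻¹) hF (differentiableAt_inv h0)]
  simp only [deriv_inv]
  ring

/-! ## Smoothness -/

theorem contDiffAt_dz (hF : ContDiffAt ℝ ∞ F z) : ContDiffAt ℝ ∞ (dz F) z := by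
  have h : ContDiffAt ℝ ∞ (fderiv ℝ F) z := hF.fderiv_right le_rfl
  unfold dz
  exact contDiffAt_const.mul ((h.clm_apply contDiffAt_const).sub
    (contDiffAt_const.mul (h.clm_apply contDiffAt_const)))

theorem contDiffAt_db (hF : ContDiffAt ℝ ∞ F z) : ContDiffAt ℝ ∞ (db F) z := by
  have h : ContDiffAt ℝ ∞ (fderiv ℝ F) z := hF.fderiv_right le_rfl
  unfold db
  exact contDiffAt_const.mul ((h.clm_apply contDiffAt_const).add
    (contDiffAt_const.mul (h.clm_apply contDiffAt_const)))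

theorem contDiffOn_dz {U : Set ℂ} (hU : IsOpen U) (hF : ContDiffOn ℝ ∞ F U) :
    ContDiffOn ℝ ∞ (dz F) U := fun _ hz =>
  (contDiffAt_dz (hF.contDiffAt (hU.mem_nhds hz))).contDiffWithinAt

theorem contDiffOn_db {U : Set ℂ} (hU : IsOpen U) (hF : ContDiffOn ℝ ∞ F U) :
    ContDiffOn ℝ ∞ (db F) U := fun _ hz =>
  (contDiffAt_db (hF.contDiffAt (hU.mem_nhds hz))).contDiffWithinAt

/-- the Wirtinger derivatives commute on smooth functions -/
theorem db_dz_comm (hF : ContDiffAt ℝ ∞ F z) : db (dz F) z = dz (db F) z := by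
  have hF2 : ContDiffAt ℝ 2 F z := hF.of_le (by norm_cast)
  have hs : IsSymmSndFDerivAt ℝ F z := hF2.isSymmSndFDerivAt (by simp)
  have hd : DifferentiableAt ℝ (fderiv ℝ F) z := by
    have : ContDiffAt ℝ 1 (fderiv ℝ F) z := hF2.fderiv_right (by norm_num)
    exact this.differentiableAt one_ne_zero
  have key : ∀ v : ℂ, HasFDerivAt (fun w => fderiv ℝ F w v)
      ((ContinuousLinearMap.apply ℝ ℂ v).comp (fderiv ℝ (fderiv ℝ F) z)) z := fun v =>
    (ContinuousLinearMap.apply ℝ ℂ v).hasFDerivAt.comp z hd.hasFDerivAt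
  have k1 : HasFDerivAt (dz F) ((1 / 2 : ℂ) • (((ContinuousLinearMap.apply ℝ ℂ 1).comp
      (fderiv ℝ (fderiv ℝ F) z)) - Complex.I • ((ContinuousLinearMap.apply ℝ ℂ Complex.I).comp
      (fderiv ℝ (fderiv ℝ F) z)))) z :=
    (((key 1).sub ((key Complex.I).const_smul Complex.I)).const_smul (1 / 2 : ℂ))
  have k2 : HasFDerivAt (db F) ((1 / 2 : ℂ) • (((ContinuousLinearMap.apply ℝ ℂ 1).comp
      (fderiv ℝ (fderiv ℝ F) z)) + Complex.I • ((ContinuousLinearMap.apply ℝ ℂ Complex.I).comp
      (fderiv ℝ (fderiv ℝ F) z)))) z :=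
    (((key 1).add ((key Complex.I).const_smul Complex.I)).const_smul (1 / 2 : ℂ))
  have hs' := hs.eq 1 Complex.I
  rw [db_of_hasFDerivAt k1, dz_of_hasFDerivAt k2]
  simp only [_root_.smul_apply, _root_.sub_apply, _root_.add_apply,
    ContinuousLinearMap.comp_apply, ContinuousLinearMap.apply_apply, smul_eq_mul]
  rw [hs']
  ring

end

end Pool.Agent.TNP
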