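import Mathlib

/-!
# The Teichmüller norm on the tangent bundle of Teichmüller space: definitions

Closed Riemann surfaces of genus at least `2` are written as `X = ℍ / Γ` with a discrete cocompact
torsion free group `Γ` of Möbius transformations.
-/

open scoped ContDiff Topology ComplexConjugate
open Set Metric MeasureTheory

namespace Pool.Agent.TNP

noncomputable section

/-- The upper half plane, as a set of complex numbers. -/
def Hp : Set ℂ := {z | 0 < z.im}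

/-- The group `SL(2, ℝ)`. -/
abbrev SL2 : Type := Matrix.SpecialLinearGroup (Fin 2) ℝ

/-- The denominator `c z + d`. The derivative of the Möbius transformation is `(c z + d) ^ (-2)`. -/
def den (g : SL2) (z : ℂ) : ℂ := ((g 1 0 : ℝ) : ℂ) * z + ((g 1 1 : ℝ) : ℂ)

/-- The Möbius transformation `z ↦ (a z + b) / (c z + d)`. -/
def mob (g : SL2) (z : ℂ) : ℂ := (((g 0 0 : ℝ) : ℂ) * z + ((g 0 1 : ℝ) : ℂ)) / den g z

/-- A closed Riemann surface `X = ℍ / Γ` of genus at least `2`: `Γ` is a discrete subgroup of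
`SL(2, ℝ)` which acts freely on `ℍ` up to sign, with a measurable relatively compact fundamental
set `D ⊆ K ⊆ ℍ` (exactly one representative of every orbit lies in `D`). -/
structure Surf where
  Γ : Subgroup SL2
  D : Set ℂ
  K : Set ℂ
  compact : IsCompact K
  sub : K ⊆ Hp
  meas : MeasurableSet D
  subD : D ⊆ K
  fund : ∀ z ∈ Hp, ∃! w, w ∈ D ∧ ∃ g ∈ Γ, mob g z = w
  disc : ∀ L : Set ℂ, IsCompact L → L ⊆ Hp → {g : SL2 | g ∈ Γ ∧ ∃ z ∈ L, mob g z ∈ L}.Finite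
  free : ∀ g ∈ Γ, ∀ z ∈ Hp, mob g z = z → g = 1 ∨ g = -1

/-- `q(z) dz²` is a holomorphic quadratic differential on `X = ℍ / Γ`. -/
structure IsQD (S : Surf) (q : ℂ → ℂ) : Prop where
  hol : DifferentiableOn ℂ q Hp
  aut : ∀ g ∈ S.Γ, ∀ z ∈ Hp, q (mob g z) = den g z ^ 4 * q z

/-- `κ(z) dz̄/dz` is a bounded measurable Beltrami differential on `X = ℍ / Γ`. -/
structure IsBel (S : Surf) (κ : ℂ → ℂ) : Prop where
  meas : AEStronglyMeasurable κ (volume.restrict Hp)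
  bdd : ∃ C : ℝ, ∀ z ∈ Hp, ‖κ z‖ ≤ C
  aut : ∀ g ∈ S.Γ, ∀ z ∈ Hp, κ (mob g z) * den g z ^ 2 = κ z * conj (den g z) ^ 2

/-- The Teichmüller norm `F(X, [κ]) = sup { |∫_X κ q| : q ∈ Q(X), ∫_X |q| = 1 }`. -/
def F (S : Surf) (κ : ℂ → ℂ) : ℝ :=
  sSup {x : ℝ | ∃ q : ℂ → ℂ, IsQD S q ∧ ∫ z in S.D, ‖q z‖ = 1 ∧ x = ‖∫ z in S.D, κ z * q z‖}

/-- The Wirtinger derivative `∂f/∂z`. -/
def dz (f : ℂ → ℂ) (z : ℂ) : ℂ :=
  (1 / 2 : ℂ) * (fderiv ℝ f z 1 - Complex.I * fderiv ℝ f z Complex.I)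

/-- The Wirtinger derivative `∂f/∂z̄`. -/
def db (f : ℂ → ℂ) (z : ℂ) : ℂ :=
  (1 / 2 : ℂ) * (fderiv ℝ f z 1 + Complex.I * fderiv ℝ f z Complex.I)

/-- `w` is a smooth quasiconformal map of `ℍ` onto itself with Beltrami coefficient `μ`, which
induces a map of `X = ℍ / Γ` onto `X' = ℍ / Γ'`, i.e. `w Γ w⁻¹ = Γ'`. -/
structure QC (S S' : Surf) (w μ : ℂ → ℂ) : Prop where
  bij : BijOn w Hp Hp
  smooth : ContDiffOn ℝ ∞ w Hp
  bel : ∀ z ∈ Hp, db w z = μ z * dz w z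
  lt : ∀ z ∈ Hp, ‖μ z‖ < 1
  ne : ∀ z ∈ Hp, dz w z ≠ 0
  conj1 : ∀ g ∈ S.Γ, ∃ h ∈ S'.Γ, ∀ z ∈ Hp, w (mob g z) = mob h (w z)
  conj2 : ∀ h ∈ S'.Γ, ∃ g ∈ S.Γ, ∀ z ∈ Hp, w (mob g z) = mob h (w z)

/-- The family `(X t, [κ t])` of points of the tangent bundle of Teichmüller space, given for
`‖t - t₀‖ < δ`, is represented by the holomorphic family of Beltrami coefficients `μ t` on `X t₀`
(with `w t` a quasiconformal map of `X t₀` onto `X t` with Beltrami coefficient `μ t`) and by the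
holomorphic family of infinitesimal Beltrami differentials `ν t` on `X t₀`:
`[κ t] ∈ T_{X t}` is the derivative of `s ↦ [μ t + s ν t]` at `s = 0`, i.e.
`∫_{X t} κ t q = ∫_{X t₀} ν t (q ∘ w t) (∂ w t) ^ 2` for all `q ∈ Q(X t)`. -/
structure Chart (X : ℂ → Surf) (κ : ℂ → ℂ → ℂ) (t₀ : ℂ) (δ : ℝ) (w μ ν : ℂ → ℂ → ℂ) :
    Prop where
  qc : ∀ t ∈ ball t₀ δ, QC (X t₀) (X t) (w t) (μ t)
  center : ∀ z ∈ Hp, w t₀ z = z
  μsm : ContDiffOn ℝ ∞ (fun p : ℂ × ℂ => μ p.1 p.2) (ball t₀ δ ×ˢ Hp)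
  μhol : ∀ z ∈ Hp, DifferentiableOn ℂ (fun t => μ t z) (ball t₀ δ)
  νsm : ContDiffOn ℝ ∞ (fun p : ℂ × ℂ => ν p.1 p.2) (ball t₀ δ ×ˢ Hp)
  νhol : ∀ z ∈ Hp, DifferentiableOn ℂ (fun t => ν t z) (ball t₀ δ)
  νaut : ∀ t ∈ ball t₀ δ, ∀ g ∈ (X t₀).Γ, ∀ z ∈ Hp,
    ν t (mob g z) * den g z ^ 2 = ν t z * conj (den g z) ^ 2
  pair : ∀ t ∈ ball t₀ δ, ∀ q, IsQD (X t) q → ∫ z in (X t).D, κ t z * q z =
    ∫ z in (X t₀).D, ν t z * q (w t z) * dz (w t) z ^ 2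

/-- `t ↦ (X t, [κ t])` is a holomorphic map of the open set `U ⊆ ℂ` to the tangent bundle of
Teichmüller space: near every point `t₀` it has a representation by a holomorphic family of
Beltrami coefficients and infinitesimal Beltrami differentials on `X t₀`. -/
structure IsDisc (U : Set ℂ) (X : ℂ → Surf) (κ : ℂ → ℂ → ℂ) : Prop where
  bel : ∀ t ∈ U, IsBel (X t) (κ t)
  chart : ∀ t₀ ∈ U, ∃ (δ : ℝ) (w μ ν : ℂ → ℂ → ℂ), 0 < δ ∧ ball t₀ δ ⊆ U ∧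
    Chart X κ t₀ δ w μ ν

/-- `u` is continuous and subharmonic on `U`. -/
structure Subharm (U : Set ℂ) (u : ℂ → ℝ) : Prop where
  cont : ContinuousOn u U
  mean : ∀ (c : ℂ) (r : ℝ), 0 < r → closedBall c r ⊆ U → u c ≤ Real.circleAverage u c r

end

end Pool.Agent.TNP
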