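import Pool.Agent.TNP.Stmts

/-!
# TNP, module EXTR: existence of extremal quadratic differentials
-/

open scoped ContDiff Topology ComplexConjugate
open Set Metric MeasureTheory Filter

namespace Pool.Agent.TNP

noncomputable section

namespace EXTR_

/-- almost minimal elements of nested midpoint closed sets converge -/
theorem nested {E : Type*} [NormedAddCommGroup E] [InnerProductSpace ℂ E] [CompleteSpace E]
    (C : ℕ → Set E) (hdec : ∀ m n, m ≤ n → C n ⊆ C m) (hne : ∀ n, (C n).Nonempty)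
    (hmid : ∀ n, ∀ x ∈ C n, ∀ y ∈ C n, (1 / 2 : ℂ) • (x + y) ∈ C n) (R : ℝ)
    (hR : ∀ n, ∀ x ∈ C n, ‖x‖ ≤ R) :
    ∃ (v : ℕ → E) (w : E), (∀ n, v n ∈ C n) ∧ Tendsto v atTop (𝓝 w) := by
  set d : ℕ → ℝ := fun n => sInf (norm '' C n) with hd
  have hbb : ∀ n, BddBelow (norm '' C n) := fun n => ⟨0, by
    rintro _ ⟨x, _, rfl⟩; exact norm_nonneg x⟩
  have hdle : ∀ n, ∀ x ∈ C n, d n ≤ ‖x‖ := fun n x hx => csInf_le (hbb n) ⟨x, hx, rfl⟩
  have hd0 : ∀ n, 0 ≤ d n := fun n => by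
    apply Real.sInf_nonneg
    rintro _ ⟨x, _, rfl⟩; exact norm_nonneg x
  have hmono : Monotone d := by
    intro m n hmn
    apply le_csInf ((hne n).image _)
    rintro _ ⟨x, hx, rfl⟩
    exact hdle m x (hdec m n hmn hx)
  have hdR : ∀ n, d n ≤ R := fun n => by
    obtain ⟨x, hx⟩ := hne n
    exact (hdle n x hx).trans (hR n x hx)
  have hba : BddAbove (range d) := ⟨R, by rintro _ ⟨n, rfl⟩; exact hdR n⟩
  have hex : ∀ n : ℕ, ∃ x ∈ C n, ‖x‖ < d n + 1 / ((n : ℝ) + 1) := by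
    intro n
    have hpos : (0 : ℝ) < 1 / ((n : ℝ) + 1) := by positivity
    obtain ⟨_, ⟨x, hx, rfl⟩, h⟩ := exists_lt_of_csInf_lt ((hne n).image norm)
      (show sInf (norm '' C n) < d n + 1 / ((n : ℝ) + 1) by linarith)
    exact ⟨x, hx, h⟩
  choose v hv hv2 using hex
  have hcauchy : CauchySeq v := by
    rw [Metric.cauchySeq_iff']
    intro ε hε
    have hR0 : 0 ≤ R := (hd0 0).trans (hdR 0)
    obtain ⟨δ, hδ0, hδ1, hδ2⟩ : ∃ δ : ℝ, 0 < δ ∧ δ ≤ 1 ∧ 16 * (R + 1) * δ < ε ^ 2 := by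
      refine ⟨min 1 (ε ^ 2 / (32 * (R + 1))), by positivity, min_le_left _ _, ?_⟩
      have h1 : min 1 (ε ^ 2 / (32 * (R + 1))) ≤ ε ^ 2 / (32 * (R + 1)) := min_le_right _ _
      calc 16 * (R + 1) * min 1 (ε ^ 2 / (32 * (R + 1)))
          ≤ 16 * (R + 1) * (ε ^ 2 / (32 * (R + 1))) := by gcongr
        _ = ε ^ 2 / 2 := by field_simp; norm_num
        _ < ε ^ 2 := by have : 0 < ε ^ 2 := by positivity
                        linarith
    obtain ⟨N1, hN1⟩ : ∃ N1, (⨆ n, d n) - δ < d N1 := by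
      have := exists_lt_of_lt_ciSup (show (⨆ n, d n) - δ < ⨆ n, d n by linarith)
      exact this
    obtain ⟨N2, hN2⟩ := exists_nat_gt (1 / δ)
    refine ⟨max N1 N2, fun n hn => ?_⟩
    set N := max N1 N2 with hN
    have hdN : (⨆ n, d n) - δ < d N := hN1.trans_le (hmono (le_max_left _ _))
    have hinv : ∀ k : ℕ, N ≤ k → 1 / ((k : ℝ) + 1) < δ := by
      intro k hk
      have h1 : (N2 : ℝ) ≤ k := by exact_mod_cast (le_max_right N1 N2).trans hk
      rw [div_lt_iff₀ (by positivity)]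
      rw [div_lt_iff₀ hδ0] at hN2
      nlinarith
    have hbd : ∀ k : ℕ, N ≤ k → ‖v k‖ < d N + 2 * δ := by
      intro k hk
      have h1 := hv2 k
      have h2 := hinv k hk
      have h3 : d k ≤ ⨆ n, d n := le_ciSup hba k
      linarith
    have hvN := hbd N le_rfl
    have hvn := hbd n hn
    have hm := hmid N _ (hdec N n hn (hv n)) _ (hv N)
    have hm2 := hdle N _ hm
    rw [norm_smul] at hm2
    have hhalf : ‖(1 / 2 : ℂ)‖ = 1 / 2 := by norm_num
    rw [hhalf] at hm2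
    have hp := parallelogram_law_with_norm ℂ (v n) (v N)
    rw [dist_eq_norm]
    have hdN0 := hd0 N
    have hdNR := hdR N
    have hs : ‖v n + v N‖ ≥ 2 * d N := by linarith
    have h1 : ‖v n - v N‖ ^ 2 < ε ^ 2 := by
      have e1 : ‖v n‖ ^ 2 ≤ (d N + 2 * δ) ^ 2 := by gcongr
      have e2 : ‖v N‖ ^ 2 ≤ (d N + 2 * δ) ^ 2 := by gcongr
      have e3 : (2 * d N) ^ 2 ≤ ‖v n + v N‖ ^ 2 := by gcongr
      have e4 : δ * d N ≤ δ * R := by gcongr
      have e5 : δ * δ ≤ δ := by nlinarith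
      nlinarith
    exact lt_of_pow_lt_pow_left₀ 2 hε.le h1
  obtain ⟨w, hw⟩ := cauchySeq_tendsto_of_complete hcauchy
  exact ⟨v, w, hv, hw⟩

/-- The space `L²(D)`. -/
abbrev E (S : Surf) := Lp ℂ 2 (volume.restrict S.D)

theorem memE (S : Surf) (f : E S) : L2 S (f : ℂ → ℂ) := Lp.memLp f

theorem norm_sq (S : Surf) (h : E S) : ∫ z in S.D, ‖(h : ℂ → ℂ) z‖ ^ 2 = ‖h‖ ^ 2 := by
  have h1 : (inner ℂ h h : ℂ) = ((‖h‖ ^ 2 : ℝ) : ℂ) := by
    rw [inner_self_eq_norm_sq_to_K]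
    norm_cast
  rw [L2.inner_def] at h1
  have h2 : ∫ z in S.D, (inner ℂ (h z) (h z) : ℂ) =
      ((∫ z in S.D, ‖(h : ℂ → ℂ) z‖ ^ 2 : ℝ) : ℂ) := by
    rw [← integral_complex_ofReal]
    refine integral_congr_ae (Eventually.of_forall fun z => ?_)
    simp only
    rw [inner_self_eq_norm_sq_to_K]
    simp
  rw [h2] at h1
  exact_mod_cast h1

/-- Cauchy-Schwarz -/
theorem l1_bound (S : Surf) : ∃ c : ℝ, 0 ≤ c ∧ ∀ h : E S, ∫ z in S.D, ‖(h : ℂ → ℂ) z‖ ≤ c * ‖h‖ := by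
  have hone : MemLp (fun _ : ℂ => (1 : ℝ)) 2 (volume.restrict S.D) := memLp_const 1
  refine ⟨‖hone.toLp _‖, norm_nonneg _, fun h => ?_⟩
  have hn : MemLp (fun z => ‖(h : ℂ → ℂ) z‖) 2 (volume.restrict S.D) := (memE S h).norm
  have h1 := real_inner_le_norm (hone.toLp _) (hn.toLp _)
  have h2 : ‖hn.toLp _‖ = ‖h‖ := by
    rw [Lp.norm_toLp, Lp.norm_def]
    congr 1
    exact eLpNorm_norm _
  rw [h2, L2.inner_def] at h1
  refine le_trans (le_of_eq ?_) h1
  refine integral_congr_ae ?_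
  filter_upwards [hone.coeFn_toLp, hn.coeFn_toLp] with z h3 h4
  rw [h3, h4]
  simp

/-- the `L¹` norm is continuous on `L²(D)` -/
theorem l1_tendsto (S : Surf) {v : ℕ → E S} {w : E S} (h : Tendsto v atTop (𝓝 w)) :
    Tendsto (fun n => ∫ z in S.D, ‖(v n : ℂ → ℂ) z‖) atTop (𝓝 (∫ z in S.D, ‖(w : ℂ → ℂ) z‖)) := by
  obtain ⟨c, hc0, hc⟩ := l1_bound S
  rw [tendsto_iff_dist_tendsto_zero]
  have h1 : Tendsto (fun n => c * ‖v n - w‖) atTop (𝓝 0) := by
    have := (tendsto_iff_norm_sub_tendsto_zero.1 h).const_mul c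
    simpa using this
  refine squeeze_zero (fun n => dist_nonneg) (fun n => ?_) h1
  refine le_trans ?_ (hc (v n - w))
  rw [Real.dist_eq, ← integral_sub (memE S _).int.norm (memE S _).int.norm]
  refine le_trans (abs_integral_le_integral_abs) ?_
  refine integral_mono_ae ((memE S _).int.norm.sub (memE S _).int.norm).abs
    (memE S _).int.norm ?_
  filter_upwards [Lp.coeFn_sub (v n) w] with z hz
  rw [hz]
  exact abs_norm_sub_norm_le _ _

/-- bounded functions define continuous functionals -/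
theorem func_tendsto (S : Surf) {a : ℂ → ℂ} (ha : Bd S a) {v : ℕ → E S} {w : E S}
    (h : Tendsto v atTop (𝓝 w)) :
    Tendsto (fun n => ∫ z in S.D, a z * (v n : ℂ → ℂ) z) atTop
      (𝓝 (∫ z in S.D, a z * (w : ℂ → ℂ) z)) := by
  obtain ⟨c, hc0, hc⟩ := l1_bound S
  obtain ⟨M, hM⟩ := ha.bdd
  rw [tendsto_iff_dist_tendsto_zero]
  have h1 : Tendsto (fun n => |M| * (c * ‖v n - w‖)) atTop (𝓝 0) := by
    have := ((tendsto_iff_norm_sub_tendsto_zero.1 h).const_mul c).const_mul |M|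
    simpa using this
  refine squeeze_zero (fun n => dist_nonneg) (fun n => ?_) h1
  refine le_trans ?_ (mul_le_mul_of_nonneg_left (hc (v n - w)) (abs_nonneg M))
  rw [dist_eq_norm, ← integral_sub (ha.L2.int_mul (memE S _)) (ha.L2.int_mul (memE S _)),
    ← integral_const_mul]
  refine norm_integral_le_of_norm_le ((memE S _).int.norm.const_mul _) ?_
  filter_upwards [Lp.coeFn_sub (v n) w, (ae_restrict_iff' S.meas).mpr
    (Eventually.of_forall fun z hz => hM z hz)] with z hz hz2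
  rw [hz, ← mul_sub, norm_mul]
  exact mul_le_mul_of_nonneg_right (hz2.trans (le_abs_self M)) (norm_nonneg _)

/-- the identity map is quasiconformal with Beltrami coefficient `0` -/
theorem qc_id (S : Surf) : QC S S (fun z => z) (fun _ => 0) where
  bij := bijOn_id Hp
  smooth := contDiffOn_id
  bel := by
    intro z _
    have : db (fun z : ℂ => z) z = 0 := db_holo differentiableAt_id
    rw [this, zero_mul]
  lt := by intro z _; simp
  ne := by
    intro z _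
    have : dz (fun z : ℂ => z) z = deriv (fun z : ℂ => z) z := dz_holo differentiableAt_id
    rw [this]
    simp
  conj1 := fun g hg => ⟨g, hg, fun _ _ => rfl⟩
  conj2 := fun g hg => ⟨g, hg, fun _ _ => rfl⟩

theorem dz_id (z : ℂ) : dz (fun z : ℂ => z) z = 1 := by
  have : dz (fun z : ℂ => z) z = deriv (fun z : ℂ => z) z := dz_holo differentiableAt_id
  rw [this]
  simp

theorem Aop_zero (χ : ℂ → ℂ) (z : ℂ) : Aop (fun _ => 0) χ z = db χ z := by
  simp only [Aop, Aab, dz_const]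
  ring

/-- holomorphic quadratic differentials are weak solutions -/
theorem weak_of_qd (hOf : Stmt_OfQD) {S : Surf} {q χ : ℂ → ℂ} (hq : IsQD S q) (hχ : VF S χ) :
    ∫ z in S.D, q z * db χ z = 0 := by
  have h := (hOf S S (fun z => z) (fun _ => 0) (qc_id S) q hq).2.1 χ hχ
  rw [← h]
  refine integral_congr_ae (Eventually.of_forall fun z => ?_)
  simp only
  rw [Aop_zero, dz_id]
  ring

/-- weak solutions are holomorphic quadratic differentials -/
theorem qd_of_weak (hTo : Stmt_ToQD) (S : Surf) (k : ℂ → ℂ) (hk : IntegrableOn k S.D)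
    (hw : ∀ χ, VF S χ → ∫ z in S.D, k z * db χ z = 0) :
    ∃ q, IsQD S q ∧ ∀ᵐ z ∂(volume.restrict S.D), k z = q z := by
  obtain ⟨q, hq, hae⟩ := hTo S S (fun z => z) (fun _ => 0) (qc_id S) k hk (by
    intro χ hχ
    refine Eq.trans ?_ (hw χ hχ)
    refine integral_congr_ae (Eventually.of_forall fun z => ?_)
    simp only
    rw [Aop_zero])
  refine ⟨q, hq, ?_⟩
  filter_upwards [hae] with z hz
  rw [hz, dz_id]
  ring

/-- the integral of `κ q` is bounded by the integral of `|q|` -/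
theorem norm_int_le (S : Surf) {κ : ℂ → ℂ} {C : ℝ} (hC : ∀ z ∈ S.D, ‖κ z‖ ≤ C) {q : ℂ → ℂ}
    (hq : IsQD S q) : ‖∫ z in S.D, κ z * q z‖ ≤ C * ∫ z in S.D, ‖q z‖ := by
  have hqi : IntegrableOn (fun z => ‖q z‖) S.D := (integrableOn_of_cont S hq.sm.cont).norm
  rw [← integral_const_mul]
  refine norm_integral_le_of_norm_le (hqi.const_mul C) ?_
  refine (ae_restrict_iff' S.meas).mpr (Eventually.of_forall fun z hz => ?_)
  rw [norm_mul]
  exact mul_le_mul_of_nonneg_right (hC z hz) (norm_nonneg _)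

theorem bddAbove (S : Surf) {κ : ℂ → ℂ} {C : ℝ} (hC : ∀ z ∈ S.D, ‖κ z‖ ≤ C) :
    BddAbove {x : ℝ | ∃ q : ℂ → ℂ, IsQD S q ∧ ∫ z in S.D, ‖q z‖ = 1 ∧
      x = ‖∫ z in S.D, κ z * q z‖} := by
  refine ⟨C, ?_⟩
  rintro x ⟨q, hq, h1, rfl⟩
  have h := norm_int_le S hC hq
  rw [h1, mul_one] at h
  exact h

theorem const_mul {S : Surf} {q : ℂ → ℂ} (hq : IsQD S q) (c : ℂ) :
    IsQD S (fun z => c * q z) := by
  refine ⟨hq.hol.const_mul c, fun g hg z hz => ?_⟩
  rw [hq.aut g hg z hz]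
  ring

/-- the defining inequality of the norm -/
theorem le_F (S : Surf) {κ : ℂ → ℂ} (hb : ∃ C : ℝ, ∀ z ∈ S.D, ‖κ z‖ ≤ C) {q : ℂ → ℂ}
    (hq : IsQD S q) : ‖∫ z in S.D, κ z * q z‖ ≤ F S κ * ∫ z in S.D, ‖q z‖ := by
  obtain ⟨C, hC⟩ := hb
  have hN0 : 0 ≤ ∫ z in S.D, ‖q z‖ := integral_nonneg fun z => norm_nonneg _
  rcases hN0.eq_or_lt with h0 | hpos
  · have h := norm_int_le S hC hq
    rw [← h0, mul_zero] at h ⊢
    exact h
  · set N := ∫ z in S.D, ‖q z‖ with hN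
    have hc : ‖((N⁻¹ : ℝ) : ℂ)‖ = N⁻¹ := by
      rw [Complex.norm_real, Real.norm_of_nonneg (inv_nonneg.mpr hN0)]
    have h1 : ∫ z in S.D, ‖((N⁻¹ : ℝ) : ℂ) * q z‖ = 1 := by
      have : (fun z => ‖((N⁻¹ : ℝ) : ℂ) * q z‖) = fun z => N⁻¹ * ‖q z‖ := by
        funext z
        rw [norm_mul, hc]
      rw [this, integral_const_mul, ← hN, inv_mul_cancel₀ hpos.ne']
    have h2 : ‖∫ z in S.D, κ z * (((N⁻¹ : ℝ) : ℂ) * q z)‖ ≤ F S κ := by
      unfold F
      exact le_csSup (bddAbove S hC) ⟨_, const_mul hq _, h1, rfl⟩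
    have h3 : (fun z => κ z * (((N⁻¹ : ℝ) : ℂ) * q z)) =
        fun z => ((N⁻¹ : ℝ) : ℂ) * (κ z * q z) := by
      funext z
      ring
    rw [h3, integral_const_mul, norm_mul, hc, inv_mul_le_iff₀ hpos] at h2
    linarith

/-- the nested sets -/
def Cset (S : Surf) (κ : ℂ → ℂ) (n : ℕ) : Set (E S) :=
  {f | (∀ χ, VF S χ → ∫ z in S.D, (f : ℂ → ℂ) z * db χ z = 0) ∧
    ∫ z in S.D, ‖(f : ℂ → ℂ) z‖ ≤ 1 ∧
    F S κ - 1 / ((n : ℝ) + 1) ≤ (∫ z in S.D, κ z * (f : ℂ → ℂ) z).re}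

theorem Cset_mid (S : Surf) (κ : ℂ → ℂ) (hκ : Bd S κ) (n : ℕ) (f : E S) (hf : f ∈ Cset S κ n)
    (g : E S) (hg : g ∈ Cset S κ n) : (1 / 2 : ℂ) • (f + g) ∈ Cset S κ n := by
  obtain ⟨f1, f2, f3⟩ := hf
  obtain ⟨g1, g2, g3⟩ := hg
  have hae : ∀ᵐ z ∂(volume.restrict S.D), ((1 / 2 : ℂ) • (f + g) : E S) z =
      (1 / 2 : ℂ) * ((f : ℂ → ℂ) z + (g : ℂ → ℂ) z) := by
    filter_upwards [Lp.coeFn_smul (1 / 2 : ℂ) (f + g), Lp.coeFn_add f g] with z h1 h2
    rw [h1, Pi.smul_apply, h2, smul_eq_mul, Pi.add_apply]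
  refine ⟨fun χ hχ => ?_, ?_, ?_⟩
  · have hb : L2 S (db χ) := (bd_of_cont S hχ.sm.db.cont).L2
    have e1 : ∫ z in S.D, ((1 / 2 : ℂ) • (f + g) : E S) z * db χ z =
        ∫ z in S.D, ((1 / 2 : ℂ) * ((f : ℂ → ℂ) z * db χ z) +
          (1 / 2 : ℂ) * ((g : ℂ → ℂ) z * db χ z)) := by
      refine integral_congr_ae ?_
      filter_upwards [hae] with z hz
      rw [hz]; ring
    rw [e1, integral_add (((memE S f).int_mul hb).const_mul _)
      (((memE S g).int_mul hb).const_mul _), integral_const_mul, integral_const_mul, f1 χ hχ,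
      g1 χ hχ]
    simp
  · have e1 : ∫ z in S.D, ‖((1 / 2 : ℂ) • (f + g) : E S) z‖ ≤
        ∫ z in S.D, ((1 / 2 : ℝ) * ‖(f : ℂ → ℂ) z‖ + (1 / 2 : ℝ) * ‖(g : ℂ → ℂ) z‖) := by
      refine integral_mono_ae (memE S _).int.norm
        (((memE S f).int.norm.const_mul _).add ((memE S g).int.norm.const_mul _)) ?_
      filter_upwards [hae] with z hz
      rw [hz, norm_mul]
      have h1 : ‖(1 / 2 : ℂ)‖ = 1 / 2 := by norm_num
      rw [h1]
      have h2 := norm_add_le ((f : ℂ → ℂ) z) ((g : ℂ → ℂ) z)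
      linarith
    refine e1.trans ?_
    rw [integral_add ((memE S f).int.norm.const_mul _) ((memE S g).int.norm.const_mul _),
      integral_const_mul, integral_const_mul]
    linarith
  · have e1 : ∫ z in S.D, κ z * ((1 / 2 : ℂ) • (f + g) : E S) z =
        ∫ z in S.D, ((1 / 2 : ℂ) * (κ z * (f : ℂ → ℂ) z) +
          (1 / 2 : ℂ) * (κ z * (g : ℂ → ℂ) z)) := by
      refine integral_congr_ae ?_
      filter_upwards [hae] with z hz
      rw [hz]; ring
    rw [e1, integral_add ((hκ.L2.int_mul (memE S f)).const_mul _)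
      ((hκ.L2.int_mul (memE S g)).const_mul _), integral_const_mul, integral_const_mul]
    have h1 : ∀ x : ℂ, ((1 / 2 : ℂ) * x).re = (1 / 2 : ℝ) * x.re := by
      intro x
      simp
    rw [Complex.add_re, h1, h1]
    linarith

theorem Cset_ne (hOf : Stmt_OfQD) (S : Surf) (κ : ℂ → ℂ) (hκ : Bd S κ) (hF : 0 < F S κ) (n : ℕ) :
    (Cset S κ n).Nonempty := by
  have hpos : (0 : ℝ) < 1 / ((n : ℝ) + 1) := by positivity
  have hne : {x : ℝ | ∃ q : ℂ → ℂ, IsQD S q ∧ ∫ z in S.D, ‖q z‖ = 1 ∧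
      x = ‖∫ z in S.D, κ z * q z‖}.Nonempty := by
    by_contra h
    rw [Set.not_nonempty_iff_eq_empty] at h
    unfold F at hF
    rw [h, Real.sSup_empty] at hF
    exact lt_irrefl _ hF
  obtain ⟨x, ⟨q, hq, hq1, rfl⟩, hx⟩ := exists_lt_of_lt_csSup hne
    (show F S κ - 1 / ((n : ℝ) + 1) < sSup _ by
      change _ < F S κ
      linarith)
  set I := ∫ z in S.D, κ z * q z with hI
  obtain ⟨c, hc1, hc2⟩ : ∃ c : ℂ, ‖c‖ = 1 ∧ c * I = (‖I‖ : ℂ) := by
    by_cases h0 : I = 0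
    · exact ⟨1, by simp, by simp [h0]⟩
    · have hn : (‖I‖ : ℂ) ≠ 0 := by
        rw [Ne, Complex.ofReal_eq_zero, norm_eq_zero]; exact h0
      refine ⟨(‖I‖ : ℂ) / I, ?_, div_mul_cancel₀ _ h0⟩
      rw [norm_div, Complex.norm_real, norm_norm, div_self]
      rw [Ne, norm_eq_zero]; exact h0
  have hcq := const_mul hq c
  have hm : L2 S (fun z => c * q z) := (bd_of_cont S hcq.sm.cont).L2
  refine ⟨hm.toLp _, fun χ hχ => ?_, ?_, ?_⟩
  · rw [← weak_of_qd hOf hcq hχ]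
    refine integral_congr_ae ?_
    filter_upwards [hm.coeFn_toLp] with z hz
    rw [hz]
  · refine le_of_eq ?_
    rw [← hq1]
    refine integral_congr_ae ?_
    filter_upwards [hm.coeFn_toLp] with z hz
    rw [hz, norm_mul, hc1, one_mul]
  · have e1 : ∫ z in S.D, κ z * (hm.toLp _ : ℂ → ℂ) z = c * I := by
      rw [hI, ← integral_const_mul]
      refine integral_congr_ae ?_
      filter_upwards [hm.coeFn_toLp] with z hz
      rw [hz]; ring
    rw [e1, hc2, Complex.ofReal_re]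
    exact hx.le

end EXTR_

open EXTR_ in
theorem extr_proof (hMv : Stmt_Mv) (hTo : Stmt_ToQD) (hOf : Stmt_OfQD) : Stmt_Extr := by
  intro S κ hκ hF
  obtain ⟨C, hC⟩ := hMv S
  obtain ⟨v, w, hv, hw⟩ := nested (Cset S κ) (by
      rintro m n hmn f ⟨h1, h2, h3⟩
      refine ⟨h1, h2, le_trans ?_ h3⟩
      have : 1 / ((n : ℝ) + 1) ≤ 1 / ((m : ℝ) + 1) := by
        apply one_div_le_one_div_of_le (by positivity)
        have : (m : ℝ) ≤ n := by exact_mod_cast hmn
        linarith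
      linarith) (Cset_ne hOf S κ hκ hF) (fun n f hf g hg => Cset_mid S κ hκ n f hf g hg)
    (Real.sqrt (|C| ^ 2 * volume.real S.D)) (by
      rintro n f ⟨h1, h2, h3⟩
      obtain ⟨q, hq, hae⟩ := qd_of_weak hTo S f (memE S f).int h1
      have e1 : ∫ z in S.D, ‖(f : ℂ → ℂ) z‖ = ∫ z in S.D, ‖q z‖ :=
        integral_congr_ae (by filter_upwards [hae] with z hz; rw [hz])
      have e2 : ∫ z in S.D, ‖(f : ℂ → ℂ) z‖ ^ 2 = ∫ z in S.D, ‖q z‖ ^ 2 :=
        integral_congr_ae (by filter_upwards [hae] with z hz; rw [hz])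
      apply Real.le_sqrt_of_sq_le
      rw [← norm_sq S f, e2]
      rw [e1] at h2
      have : ∫ z in S.D, ‖q z‖ ^ 2 ≤ ∫ z in S.D, |C| ^ 2 := by
        refine integral_mono_of_nonneg (Eventually.of_forall fun z => by positivity)
          (integrable_const _) ?_
        refine (ae_restrict_iff' S.meas).mpr (Eventually.of_forall fun z hz => ?_)
        have h4 := hC q hq z (S.subD hz)
        have h5 : C * ∫ z in S.D, ‖q z‖ ≤ |C| := by
          have h6 : (0 : ℝ) ≤ ∫ z in S.D, ‖q z‖ := integral_nonneg fun z => norm_nonneg _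
          calc C * ∫ z in S.D, ‖q z‖ ≤ |C| * ∫ z in S.D, ‖q z‖ :=
                mul_le_mul_of_nonneg_right (le_abs_self C) h6
            _ ≤ |C| * 1 := mul_le_mul_of_nonneg_left h2 (abs_nonneg C)
            _ = |C| := mul_one _
        exact pow_le_pow_left₀ (norm_nonneg _) (h4.trans h5) 2
      refine this.trans (le_of_eq ?_)
      rw [setIntegral_const, smul_eq_mul, mul_comm])
  -- properties of the limit
  have w1 : ∀ χ, VF S χ → ∫ z in S.D, (w : ℂ → ℂ) z * db χ z = 0 := by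
    intro χ hχ
    have hb : Bd S (db χ) := bd_of_cont S hχ.sm.db.cont
    have h1 := func_tendsto S hb hw
    have h2 : (fun n => ∫ z in S.D, db χ z * (v n : ℂ → ℂ) z) = fun _ => (0 : ℂ) := by
      funext n
      rw [← (hv n).1 χ hχ]
      refine integral_congr_ae (Eventually.of_forall fun z => ?_)
      exact mul_comm _ _
    rw [h2] at h1
    have h3 := tendsto_nhds_unique h1 tendsto_const_nhds
    rw [← h3]
    refine integral_congr_ae (Eventually.of_forall fun z => ?_)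
    exact mul_comm _ _
  have w2 : ∫ z in S.D, ‖(w : ℂ → ℂ) z‖ ≤ 1 :=
    le_of_tendsto' (l1_tendsto S hw) (fun n => (hv n).2.1)
  have w3 : F S κ ≤ (∫ z in S.D, κ z * (w : ℂ → ℂ) z).re := by
    have h1 := (Complex.continuous_re.tendsto _).comp (func_tendsto S hκ hw)
    have h2 : Tendsto (fun n : ℕ => F S κ - 1 / ((n : ℝ) + 1)) atTop (𝓝 (F S κ - 0)) :=
      tendsto_const_nhds.sub tendsto_one_div_add_atTop_nhds_zero_nat
    rw [sub_zero] at h2
    exact le_of_tendsto_of_tendsto' h2 h1 (fun n => (hv n).2.2)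
  obtain ⟨q, hq, hae⟩ := qd_of_weak hTo S w (memE S w).int w1
  have e1 : ∫ z in S.D, ‖(w : ℂ → ℂ) z‖ = ∫ z in S.D, ‖q z‖ :=
    integral_congr_ae (by filter_upwards [hae] with z hz; rw [hz])
  have e2 : ∫ z in S.D, κ z * (w : ℂ → ℂ) z = ∫ z in S.D, κ z * q z :=
    integral_congr_ae (by filter_upwards [hae] with z hz; rw [hz])
  rw [e1] at w2
  rw [e2] at w3
  have h1 := le_F S hκ.bdd hq
  have h2 : F S κ ≤ ‖∫ z in S.D, κ z * q z‖ := w3.trans (Complex.re_le_norm _)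
  have h3 : ∫ z in S.D, ‖q z‖ = 1 := by
    refine le_antisymm w2 ?_
    by_contra hlt
    rw [not_le] at hlt
    have : F S κ * ∫ z in S.D, ‖q z‖ < F S κ * 1 := mul_lt_mul_of_pos_left hlt hF
    linarith
  refine ⟨q, hq, h3, le_antisymm ?_ h2⟩
  rw [h3, mul_one] at h1
  exact h1

end

end Pool.Agent.TNP
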