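import Pool.Agent.TNP.Calc

/-!
# TNP: Möbius transformations and automorphic functions (proved, for free use in all modules)
-/

open scoped ContDiff Topology ComplexConjugate
open Set Metric MeasureTheory Filter

namespace Pool.Agent.TNP

noncomputable section

theorem isOpen_Hp : IsOpen Hp := isOpen_lt continuous_const Complex.continuous_im

theorem measurableSet_Hp : MeasurableSet Hp := isOpen_Hp.measurableSet

theorem convex_Hp : Convex ℝ Hp := convex_halfSpace_im_gt 0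

theorem isPreconnected_Hp : IsPreconnected Hp := convex_Hp.isPreconnected

theorem isCompact_closure {A L : Set ℂ} (h : A ⊆ L) (hL : IsCompact L) : IsCompact (closure A) :=
  hL.closure_of_subset h

section mobius

variable {g h : SL2} {z : ℂ}

theorem det_eq (g : SL2) : (g 0 0) * (g 1 1) - (g 0 1) * (g 1 0) = 1 := by
  have := g.det_coe
  rwa [Matrix.det_fin_two] at this

theorem detC (g : SL2) : ((g 0 0 : ℝ) : ℂ) * ((g 1 1 : ℝ) : ℂ) -
    ((g 0 1 : ℝ) : ℂ) * ((g 1 0 : ℝ) : ℂ) = 1 := by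
  exact_mod_cast congrArg (fun x : ℝ => (x : ℂ)) (det_eq g)

theorem den_im (g : SL2) (z : ℂ) : (den g z).im = g 1 0 * z.im := by simp [den]

theorem den_re (g : SL2) (z : ℂ) : (den g z).re = g 1 0 * z.re + g 1 1 := by simp [den]

theorem den_ne (g : SL2) (hz : z ∈ Hp) : den g z ≠ 0 := by
  intro h0
  have h1 : g 1 0 * z.im = 0 := by rw [← den_im, h0]; rfl
  have h2 : g 1 0 = 0 := (mul_eq_zero.mp h1).resolve_right (ne_of_gt hz)
  have h3 : g 1 0 * z.re + g 1 1 = 0 := by rw [← den_re, h0]; rfl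
  rw [h2, zero_mul, zero_add] at h3
  have := det_eq g
  rw [h2, h3] at this
  simp at this

theorem norm_den_pos (g : SL2) (hz : z ∈ Hp) : 0 < ‖den g z‖ := norm_pos_iff.mpr (den_ne g hz)

theorem mob_mul_den (g : SL2) (hz : z ∈ Hp) :
    mob g z * den g z = ((g 0 0 : ℝ) : ℂ) * z + ((g 0 1 : ℝ) : ℂ) :=
  div_mul_cancel₀ _ (den_ne g hz)

theorem mob_im (g : SL2) (hz : z ∈ Hp) : (mob g z).im = z.im / ‖den g z‖ ^ 2 := by
  have h1 : 0 < ‖den g z‖ ^ 2 := pow_pos (norm_den_pos g hz) 2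
  have h2 : mob g z = (((g 0 0 : ℝ) : ℂ) * z + ((g 0 1 : ℝ) : ℂ)) * conj (den g z) /
      ((‖den g z‖ ^ 2 : ℝ) : ℂ) := by
    rw [mob, div_eq_div_iff (den_ne g hz) (by exact_mod_cast h1.ne')]
    rw [mul_assoc, mul_comm (conj (den g z)), Complex.mul_conj, Complex.normSq_eq_norm_sq]
  rw [h2, Complex.div_ofReal_im]
  congr 1
  simp only [Complex.mul_im, Complex.add_re, Complex.mul_re, Complex.ofReal_re, Complex.ofReal_im,
    zero_mul, sub_zero, Complex.conj_im, Complex.add_im, add_zero, Complex.conj_re, den_im, den_re]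
  have := det_eq g
  linear_combination z.im * this

theorem mob_mem (g : SL2) (hz : z ∈ Hp) : mob g z ∈ Hp := by
  have : 0 < (mob g z).im := by
    rw [mob_im g hz]
    exact div_pos hz (pow_pos (norm_den_pos g hz) 2)
  exact this

theorem den_mul (g h : SL2) (hz : z ∈ Hp) : den (g * h) z = den g (mob h z) * den h z := by
  have h1 := mob_mul_den h hz
  have e1 : (g * h) 1 0 = g 1 0 * h 0 0 + g 1 1 * h 1 0 := by
    simp [Matrix.mul_apply, Fin.sum_univ_two]
  have e2 : (g * h) 1 1 = g 1 0 * h 0 1 + g 1 1 * h 1 1 := by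
    simp [Matrix.mul_apply, Fin.sum_univ_two]
  have h2 : den g (mob h z) * den h z = ((g 1 0 : ℝ) : ℂ) * (mob h z * den h z) +
      ((g 1 1 : ℝ) : ℂ) * den h z := by
    simp only [den]; ring
  rw [h2, h1, den, e1, e2, den]
  push_cast
  ring

theorem mob_mul (g h : SL2) (hz : z ∈ Hp) : mob (g * h) z = mob g (mob h z) := by
  have h1 := mob_mul_den h hz
  have h2 := mob_mul_den g (mob_mem h hz)
  have h3 := den_ne (g * h) hz
  have h4 := den_ne h hz
  rw [mob, div_eq_iff h3, den_mul g h hz, ← mul_assoc, h2]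
  have e1 : (g * h) 0 0 = g 0 0 * h 0 0 + g 0 1 * h 1 0 := by
    simp [Matrix.mul_apply, Fin.sum_univ_two]
  have e2 : (g * h) 0 1 = g 0 0 * h 0 1 + g 0 1 * h 1 1 := by
    simp [Matrix.mul_apply, Fin.sum_univ_two]
  have h5 : (((g 0 0 : ℝ) : ℂ) * mob h z + ((g 0 1 : ℝ) : ℂ)) * den h z =
      ((g 0 0 : ℝ) : ℂ) * (mob h z * den h z) + ((g 0 1 : ℝ) : ℂ) * den h z := by ring
  rw [h5, h1, e1, e2, den]
  push_cast
  ring

@[simp] theorem den_one (z : ℂ) : den 1 z = 1 := by simp [den]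

@[simp] theorem mob_one (z : ℂ) : mob 1 z = z := by simp [mob]

theorem den_neg (g : SL2) (z : ℂ) : den (-g) z = - den g z := by
  simp [den]; ring

theorem mob_neg (g : SL2) (z : ℂ) : mob (-g) z = mob g z := by
  simp only [mob, den_neg]
  simp only [Matrix.SpecialLinearGroup.coe_neg, Matrix.neg_apply, Complex.ofReal_neg, neg_mul]
  rw [← neg_add, neg_div_neg_eq]

theorem mob_inv_mob (g : SL2) (hz : z ∈ Hp) : mob g⁻¹ (mob g z) = z := by
  rw [← mob_mul _ _ hz, inv_mul_cancel, mob_one]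

theorem mob_mob_inv (g : SL2) (hz : z ∈ Hp) : mob g (mob g⁻¹ z) = z := by
  rw [← mob_mul _ _ hz, mul_inv_cancel, mob_one]

theorem den_inv (g : SL2) (hz : z ∈ Hp) : den g⁻¹ (mob g z) * den g z = 1 := by
  rw [← den_mul _ _ hz, inv_mul_cancel, den_one]

theorem hasDerivAt_den (g : SL2) (z : ℂ) : HasDerivAt (den g) ((g 1 0 : ℝ) : ℂ) z := by
  have := ((hasDerivAt_id z).const_mul ((g 1 0 : ℝ) : ℂ)).add_const ((g 1 1 : ℝ) : ℂ)
  rw [mul_one] at this
  exact this

theorem hasDerivAt_mob (g : SL2) (hz : z ∈ Hp) : HasDerivAt (mob g) ((den g z ^ 2)⁻¹) z := by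
  have h1 : HasDerivAt (fun z : ℂ => ((g 0 0 : ℝ) : ℂ) * z + ((g 0 1 : ℝ) : ℂ))
      ((g 0 0 : ℝ) : ℂ) z := by
    have := ((hasDerivAt_id z).const_mul ((g 0 0 : ℝ) : ℂ)).add_const ((g 0 1 : ℝ) : ℂ)
    rw [mul_one] at this
    exact this
  have h2 := h1.div (hasDerivAt_den g z) (den_ne g hz)
  refine h2.congr_deriv ?_
  have h3 := detC g
  rw [inv_eq_one_div]
  congr 1
  simp only [den]
  linear_combination h3

theorem deriv_mob (g : SL2) (hz : z ∈ Hp) : deriv (mob g) z = (den g z ^ 2)⁻¹ :=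
  (hasDerivAt_mob g hz).deriv

theorem differentiableAt_mob (g : SL2) (hz : z ∈ Hp) : DifferentiableAt ℂ (mob g) z :=
  (hasDerivAt_mob g hz).differentiableAt

theorem differentiableAt_den (g : SL2) (z : ℂ) : DifferentiableAt ℂ (den g) z :=
  (hasDerivAt_den g z).differentiableAt

theorem continuousOn_mob (g : SL2) : ContinuousOn (mob g) Hp := fun _ hz =>
  (differentiableAt_mob g hz).continuousAt.continuousWithinAt

theorem continuous_den (g : SL2) : Continuous (den g) := by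
  unfold den; fun_prop

theorem contDiff_den (g : SL2) : ContDiff ℝ ∞ (den g) := by
  unfold den
  exact (contDiff_const.mul contDiff_id).add contDiff_const

theorem contDiffOn_mob (g : SL2) : ContDiffOn ℝ ∞ (mob g) Hp := by
  have h1 : DifferentiableOn ℂ (mob g) Hp := fun z hz =>
    (differentiableAt_mob g hz).differentiableWithinAt
  exact ((h1.contDiffOn isOpen_Hp : ContDiffOn ℂ ∞ (mob g) Hp)).restrict_scalars ℝ

theorem image_mob (g : SL2) : mob g '' Hp = Hp := by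
  ext z
  constructor
  · rintro ⟨x, hx, rfl⟩
    exact mob_mem g hx
  · intro hz
    exact ⟨mob g⁻¹ z, mob_mem _ hz, mob_mob_inv g hz⟩

theorem injOn_mob (g : SL2) : InjOn (mob g) Hp := by
  intro x hx y hy h
  rw [← mob_inv_mob g hx, h, mob_inv_mob g hy]

/-- chain rules for the composition with a Möbius transformation -/
theorem dz_comp_mob {F : ℂ → ℂ} (g : SL2) (hz : z ∈ Hp) (hF : DifferentiableAt ℝ F (mob g z)) :
    dz (fun x => F (mob g x)) z = dz F (mob g z) * (den g z ^ 2)⁻¹ := by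
  rw [dz_comp_holo (differentiableAt_mob g hz) hF, deriv_mob g hz]

theorem db_comp_mob {F : ℂ → ℂ} (g : SL2) (hz : z ∈ Hp) (hF : DifferentiableAt ℝ F (mob g z)) :
    db (fun x => F (mob g x)) z = db F (mob g z) * (conj (den g z) ^ 2)⁻¹ := by
  rw [db_comp_holo (differentiableAt_mob g hz) hF, deriv_mob g hz]
  simp

end mobius

/-! ## Classes of functions used in the modules -/

/-- automorphic functions of type `(p, q)`: `f(z) dz^p dz̄^q` is invariant -/
def Aut (S : Surf) (p q : ℤ) (f : ℂ → ℂ) : Prop :=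
  ∀ g ∈ S.Γ, ∀ z ∈ Hp, f (mob g z) = den g z ^ (2 * p) * conj (den g z) ^ (2 * q) * f z

/-- smooth functions on the upper half plane -/
def Sm (f : ℂ → ℂ) : Prop := ContDiffOn ℝ ∞ f Hp

/-- smooth vector fields `χ ∂_z` of type `(1, 0)` on `X` -/
structure VF (S : Surf) (χ : ℂ → ℂ) : Prop where
  sm : Sm χ
  aut : Aut S (-1) 0 χ

/-- smooth Beltrami differentials on `X` -/
structure SB (S : Surf) (μ : ℂ → ℂ) : Prop where
  sm : Sm μ
  aut : Aut S (-1) 1 μ

/-- `∂̄χ - a ∂χ + b χ` -/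
def Aab (a b χ : ℂ → ℂ) (z : ℂ) : ℂ := db χ z - a z * dz χ z + b z * χ z

/-- `∂̄χ - μ ∂χ + (∂μ) χ`: the derivative of the Beltrami coefficient `μ` in the direction of the
vector field `χ` -/
def Aop (μ χ : ℂ → ℂ) : ℂ → ℂ := Aab μ (dz μ) χ

/-- test functions -/
structure Tst (f : ℂ → ℂ) : Prop where
  sm : ContDiff ℝ ∞ f
  cs : HasCompactSupport f
  sub : tsupport f ⊆ Hp

/-- locally integrable functions on the upper half plane -/
def LocInt (f : ℂ → ℂ) : Prop := ∀ L : Set ℂ, IsCompact L → L ⊆ Hp → IntegrableOn f L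

/-- bounded measurable functions on `D` -/
structure Bd (S : Surf) (a : ℂ → ℂ) : Prop where
  meas : AEStronglyMeasurable a (volume.restrict S.D)
  bdd : ∃ M : ℝ, ∀ z ∈ S.D, ‖a z‖ ≤ M

/-- square integrable functions on `D` -/
def L2 (S : Surf) (f : ℂ → ℂ) : Prop := MemLp f 2 (volume.restrict S.D)

/-- the number of elements of `Γ ∩ {1, -1}` (it is `1` or `2`) -/
def mult (S : Surf) : ℝ := (Nat.card {g : SL2 // g ∈ S.Γ ∧ (g = 1 ∨ g = -1)} : ℝ)

theorem mult_pos (S : Surf) : 0 < mult S := by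
  have h2 : ({g : SL2 | g ∈ S.Γ ∧ (g = 1 ∨ g = -1)} : Set SL2).Finite := by
    refine (Set.toFinite {1, -1}).subset ?_
    rintro g ⟨_, h | h⟩
    · exact Or.inl h
    · exact Or.inr h
  have : Finite {g : SL2 // g ∈ S.Γ ∧ (g = 1 ∨ g = -1)} := h2.to_subtype
  have : Nonempty {g : SL2 // g ∈ S.Γ ∧ (g = 1 ∨ g = -1)} :=
    ⟨⟨1, S.Γ.one_mem, Or.inl rfl⟩⟩
  unfold mult
  exact_mod_cast Nat.card_pos

variable {S : Surf} {f f₁ f₂ : ℂ → ℂ} {p q p₁ q₁ p₂ q₂ : ℤ}

theorem Sm.diff (hf : Sm f) {z : ℂ} (hz : z ∈ Hp) : DifferentiableAt ℝ f z :=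
  (hf.contDiffAt (isOpen_Hp.mem_nhds hz)).differentiableAt (by simp)

theorem Sm.cont (hf : Sm f) : ContinuousOn f Hp := ContDiffOn.continuousOn hf

theorem Sm.dz (hf : Sm f) : Sm (dz f) := contDiffOn_dz isOpen_Hp hf

theorem Sm.db (hf : Sm f) : Sm (db f) := contDiffOn_db isOpen_Hp hf

theorem Sm.mul (h₁ : Sm f₁) (h₂ : Sm f₂) : Sm (fun z => f₁ z * f₂ z) := ContDiffOn.mul h₁ h₂

theorem Sm.add (h₁ : Sm f₁) (h₂ : Sm f₂) : Sm (fun z => f₁ z + f₂ z) := ContDiffOn.add h₁ h₂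

theorem Sm.sub (h₁ : Sm f₁) (h₂ : Sm f₂) : Sm (fun z => f₁ z - f₂ z) := ContDiffOn.sub h₁ h₂

theorem Sm.neg (h₁ : Sm f₁) : Sm (fun z => - f₁ z) := ContDiffOn.neg h₁

theorem Sm.conj (h₁ : Sm f₁) : Sm (fun z => conj (f₁ z)) :=
  (Complex.conjCLE : ℂ →L[ℝ] ℂ).contDiff.comp_contDiffOn h₁

theorem Sm.inv (h₁ : Sm f₁) (h0 : ∀ z ∈ Hp, f₁ z ≠ 0) : Sm (fun z => (f₁ z)⁻¹) :=
  ContDiffOn.inv h₁ h0

theorem sm_const (c : ℂ) : Sm (fun _ => c) := contDiffOn_const

theorem sm_of_hol (h : DifferentiableOn ℂ f Hp) : Sm f :=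
  ((h.contDiffOn isOpen_Hp : ContDiffOn ℂ ∞ f Hp)).restrict_scalars ℝ

theorem IsQD.sm {q : ℂ → ℂ} (h : IsQD S q) : Sm q := sm_of_hol h.hol

theorem IsQD.aut' {q : ℂ → ℂ} (h : IsQD S q) : Aut S 2 0 q := by
  intro g hg z hz
  rw [h.aut g hg z hz]
  simp only [mul_zero, zpow_zero, mul_one]
  norm_cast

theorem Aut.mul (h₁ : Aut S p₁ q₁ f₁) (h₂ : Aut S p₂ q₂ f₂) :
    Aut S (p₁ + p₂) (q₁ + q₂) (fun z => f₁ z * f₂ z) := by
  intro g hg z hz
  have hd := den_ne g hz
  have hc : (starRingEnd ℂ) (den g z) ≠ 0 := by simpa using hd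
  simp only
  rw [h₁ g hg z hz, h₂ g hg z hz, mul_add, mul_add, zpow_add₀ hd, zpow_add₀ hc]
  ring

theorem Aut.conj (h₁ : Aut S p q f) : Aut S q p (fun z => conj (f z)) := by
  intro g hg z hz
  simp only
  rw [h₁ g hg z hz]
  simp only [map_mul, map_zpow₀, Complex.conj_conj]
  ring

theorem Aut.add (h₁ : Aut S p q f₁) (h₂ : Aut S p q f₂) : Aut S p q (fun z => f₁ z + f₂ z) := by
  intro g hg z hz
  simp only
  rw [h₁ g hg z hz, h₂ g hg z hz]
  ring

theorem Aut.sub (h₁ : Aut S p q f₁) (h₂ : Aut S p q f₂) : Aut S p q (fun z => f₁ z - f₂ z) := by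
  intro g hg z hz
  simp only
  rw [h₁ g hg z hz, h₂ g hg z hz]
  ring

/-- `∂` maps type `(0, q)` to type `(1, q)` -/
theorem Aut.dz (hs : Sm f) (h : Aut S 0 q f) : Aut S 1 q (TNP.dz f) := by
  intro g hg z hz
  have hd := den_ne g hz
  have hm := mob_mem g hz
  have h1 := dz_comp_mob g hz (hs.diff hm)
  have hh : DifferentiableAt ℂ (fun x => den g x ^ (2 * q)) z :=
    (differentiableAt_den g z).zpow (Or.inl hd)
  have hcd : DifferentiableAt ℝ (fun x => (starRingEnd ℂ) (den g x ^ (2 * q))) z :=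
    differentiableAt_conj (hh.restrictScalars ℝ)
  have h2 : (fun x => f (mob g x)) =ᶠ[𝓝 z]
      fun x => (starRingEnd ℂ) (den g x ^ (2 * q)) * f x := by
    filter_upwards [isOpen_Hp.mem_nhds hz] with x hx
    rw [h g hg x hx, map_zpow₀]
    simp
  have h3 : TNP.dz (fun x => f (mob g x)) z =
      (starRingEnd ℂ) (den g z ^ (2 * q)) * TNP.dz f z := by
    rw [dz_congr h2, dz_mul hcd (hs.diff hz), dz_conj (hh.restrictScalars ℝ), db_holo hh]
    simp
  rw [h1, ← div_eq_mul_inv, div_eq_iff (pow_ne_zero 2 hd)] at h3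
  rw [h3, map_zpow₀]
  have e : den g z ^ (2 * 1 : ℤ) = den g z ^ 2 := by norm_cast
  rw [e]
  ring

/-- `∂̄` maps type `(p, 0)` to type `(p, 1)` -/
theorem Aut.db (hs : Sm f) (h : Aut S p 0 f) : Aut S p 1 (TNP.db f) := by
  intro g hg z hz
  have hd := den_ne g hz
  have hc : (starRingEnd ℂ) (den g z) ≠ 0 := by simpa using hd
  have hm := mob_mem g hz
  have h1 := db_comp_mob g hz (hs.diff hm)
  have hh : DifferentiableAt ℂ (fun x => den g x ^ (2 * p)) z :=
    (differentiableAt_den g z).zpow (Or.inl hd)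
  have h2 : (fun x => f (mob g x)) =ᶠ[𝓝 z] fun x => den g x ^ (2 * p) * f x := by
    filter_upwards [isOpen_Hp.mem_nhds hz] with x hx
    rw [h g hg x hx]
    simp
  have h3 : TNP.db (fun x => f (mob g x)) z = den g z ^ (2 * p) * TNP.db f z := by
    rw [db_congr h2, db_mul (hh.restrictScalars ℝ) (hs.diff hz), db_holo hh]
    simp
  rw [h1, ← div_eq_mul_inv, div_eq_iff (pow_ne_zero 2 hc)] at h3
  rw [h3]
  have e : (starRingEnd ℂ) (den g z) ^ (2 * 1 : ℤ) = (starRingEnd ℂ) (den g z) ^ 2 := by norm_cast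
  rw [e]
  ring

theorem measurable_den (g : SL2) : Measurable (den g) := (continuous_den g).measurable

theorem measurable_mob (g : SL2) : Measurable (mob g) := by
  unfold mob
  exact ((measurable_const.mul measurable_id).add measurable_const).div (measurable_den g)

theorem Surf.D_sub (S : Surf) : S.D ⊆ Hp := S.subD.trans S.sub

theorem Surf.vol_lt_top (S : Surf) : volume S.D < ⊤ :=
  (measure_mono S.subD).trans_lt S.compact.measure_lt_top

instance (S : Surf) : IsFiniteMeasure (volume.restrict S.D) :=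
  ⟨by rw [Measure.restrict_apply_univ]; exact S.vol_lt_top⟩

/-- continuous functions on the upper half plane are bounded on `K` -/
theorem bdd_of_cont (S : Surf) {E : Type*} [SeminormedAddCommGroup E] {f : ℂ → E}
    (hf : ContinuousOn f Hp) : ∃ M : ℝ, 0 ≤ M ∧ ∀ z ∈ S.K, ‖f z‖ ≤ M := by
  obtain ⟨M, hM⟩ := S.compact.exists_bound_of_continuousOn (hf.mono S.sub)
  exact ⟨max M 0, le_max_right _ _, fun z hz => (hM z hz).trans (le_max_left _ _)⟩

theorem integrableOn_of_cont (S : Surf) {E : Type*} [NormedAddCommGroup E] {f : ℂ → E}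
    (hf : ContinuousOn f Hp) : IntegrableOn f S.D :=
  ((hf.mono S.sub).integrableOn_compact S.compact).mono_set S.subD

theorem aesm_of_cont (S : Surf) {E : Type*} [NormedAddCommGroup E] {f : ℂ → E}
    (hf : ContinuousOn f Hp) : AEStronglyMeasurable f (volume.restrict S.D) :=
  (integrableOn_of_cont S hf).aestronglyMeasurable

theorem bd_of_cont (S : Surf) {f : ℂ → ℂ} (hf : ContinuousOn f Hp) : Bd S f := by
  obtain ⟨M, _, hM⟩ := bdd_of_cont S hf
  exact ⟨aesm_of_cont S hf, M, fun z hz => hM z (S.subD hz)⟩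

theorem Bd.L2 {a : ℂ → ℂ} (h : Bd S a) : L2 S a := by
  obtain ⟨M, hM⟩ := h.bdd
  exact MemLp.of_bound h.meas M
    ((ae_restrict_iff' S.meas).mpr (Eventually.of_forall fun z hz => hM z hz))

theorem L2.int (h : L2 S f) : IntegrableOn f S.D := MemLp.integrable (by norm_num) h

theorem L2.int_mul (h₁ : L2 S f₁) (h₂ : L2 S f₂) : IntegrableOn (fun z => f₁ z * f₂ z) S.D :=
  MemLp.integrable_mul h₁ h₂

theorem L2.int_sq (h : L2 S f) : IntegrableOn (fun z => ‖f z‖ ^ 2) S.D :=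
  (memLp_two_iff_integrable_sq_norm h.1).mp h

/-- finitely many elements of `Γ` map a point of `L` to a point of `L'` -/
theorem Surf.exists_T (S : Surf) {L L' : Set ℂ} (hL : IsCompact L) (hL1 : L ⊆ Hp)
    (hL' : IsCompact L') (hL1' : L' ⊆ Hp) : ∃ T : Finset SL2, (∀ g ∈ T, g ∈ S.Γ) ∧
      ∀ g ∈ S.Γ, ∀ z ∈ L, mob g z ∈ L' → g ∈ T := by
  have h := S.disc (L ∪ L') (hL.union hL') (union_subset hL1 hL1')
  refine ⟨h.toFinset, fun g hg => ?_, fun g hg z hz hgz => ?_⟩
  · rw [Set.Finite.mem_toFinset] at hg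
    exact hg.1
  · rw [Set.Finite.mem_toFinset]
    exact ⟨hg, z, Or.inl hz, Or.inr hgz⟩

end

end Pool.Agent.TNP
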