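import Pool.Agent.TNP.Stmts

/-!
# TNP, module OFQD: pull backs of holomorphic quadratic differentials
-/

open scoped ContDiff Topology ComplexConjugate
open Set Metric MeasureTheory Filter

namespace Pool.Agent.TNP

noncomputable section

namespace OFQD_

variable {S S' : Surf} {w μ q : ℂ → ℂ}

/-- the pull back -/
def pb (q w : ℂ → ℂ) (z : ℂ) : ℂ := q (w z) * dz w z ^ 2

theorem w_mem (h : QC S S' w μ) {z : ℂ} (hz : z ∈ Hp) : w z ∈ Hp := h.bij.mapsTo hz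

theorem w_sm (h : QC S S' w μ) : Sm w := h.smooth

theorem pb_sm (h : QC S S' w μ) (hq : IsQD S' q) : Sm (pb q w) := by
  have h1 : Sm (fun z => q (w z)) :=
    ContDiffOn.comp (g := q) (f := w) (hq.sm : ContDiffOn ℝ ∞ q Hp) h.smooth h.bij.mapsTo
  have h2 : Sm (fun z => dz w z ^ 2) := by
    have := (w_sm h).dz.mul (w_sm h).dz
    refine this.congr ?_
    intro z _
    ring
  exact h1.mul h2

theorem pb_aut (h : QC S S' w μ) (hq : IsQD S' q) (hQ : Stmt_QcSB) : Aut S 2 0 (pb q w) := by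
  intro g hg z hz
  obtain ⟨k, hk, hk2⟩ := h.conj1 g hg
  have h1 := (hQ S S' w μ h).2 g hg k hk hk2 z hz
  have h2 := hq.aut k hk (w z) (w_mem h hz)
  have hd : den k (w z) ≠ 0 := den_ne k (w_mem h hz)
  have e1 : den g z ^ (2 * 2 : ℤ) = den g z ^ 4 := by norm_cast
  have e2 : conj (den g z) ^ (2 * 0 : ℤ) = 1 := by simp
  rw [e1, e2, pb, pb, hk2 z hz, h2]
  have h3 : (dz w (mob g z) * den k (w z) ^ 2) ^ 2 = (den g z ^ 2 * dz w z) ^ 2 := by rw [h1]
  linear_combination q (w z) * h3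

/-- the basic equation -/
theorem db_pb (h : QC S S' w μ) (hq : IsQD S' q) (hμ : Sm μ) {z : ℂ} (hz : z ∈ Hp) :
    db (pb q w) z = μ z * dz (pb q w) z + 2 * dz μ z * pb q w z := by
  have hw := (w_sm h).diff hz
  have hwz := w_mem h hz
  have hqd : DifferentiableAt ℂ q (w z) := hq.hol.differentiableAt (isOpen_Hp.mem_nhds hwz)
  have hdz : DifferentiableAt ℝ (dz w) z := (w_sm h).dz.diff hz
  have hcomp : DifferentiableAt ℝ (fun x => q (w x)) z :=
    (hqd.restrictScalars ℝ).comp z hw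
  have hsq : DifferentiableAt ℝ (fun x => dz w x * dz w x) z := hdz.mul hdz
  have e0 : pb q w = fun x => q (w x) * (dz w x * dz w x) := by
    funext x
    rw [pb]
    ring
  have h1 : db (dz w) z = dz μ z * dz w z + μ z * dz (dz w) z := by
    rw [db_dz_comm (((w_sm h) : ContDiffOn ℝ ∞ w Hp).contDiffAt (isOpen_Hp.mem_nhds hz))]
    have : db w =ᶠ[𝓝 z] fun x => μ x * dz w x := by
      filter_upwards [isOpen_Hp.mem_nhds hz] with x hx
      exact h.bel x hx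
    rw [dz_congr this, dz_mul (hμ.diff hz) hdz]
  rw [e0, db_mul hcomp hsq, dz_mul hcomp hsq, db_mul hdz hdz, dz_mul hdz hdz,
    dz_holo_comp hw hqd, db_holo_comp hw hqd, h1, h.bel z hz]
  ring

theorem pb_Aop (h : QC S S' w μ) (hq : IsQD S' q) (hμ : Sm μ) {χ : ℂ → ℂ} (hχ : Sm χ) {z : ℂ}
    (hz : z ∈ Hp) : pb q w z * Aop μ χ z =
      db (fun x => pb q w x * χ x) z - dz (fun x => μ x * pb q w x * χ x) z := by
  have h1 := (pb_sm h hq).diff hz
  have h2 := hχ.diff hz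
  have h3 := hμ.diff hz
  have h4 : DifferentiableAt ℝ (fun x => μ x * pb q w x) z := h3.mul h1
  rw [db_mul h1 h2, dz_mul h4 h2, dz_mul h3 h1, db_pb h hq hμ hz]
  simp only [Aop, Aab]
  ring

theorem weak (hStok : Stmt_Stok) (hQ : Stmt_QcSB) (h : QC S S' w μ) (hq : IsQD S' q) {χ : ℂ → ℂ}
    (hχ : VF S χ) : ∫ z in S.D, pb q w z * Aop μ χ z = 0 := by
  have hμ := (hQ S S' w μ h).1
  have hp := pb_sm h hq
  have hpa := pb_aut h hq hQ
  have s1 : Sm (fun x => pb q w x * χ x) := hp.mul hχ.sm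
  have s2 : Sm (fun x => μ x * pb q w x * χ x) := (hμ.sm.mul hp).mul hχ.sm
  have a1 : Aut S 1 0 (fun x => pb q w x * χ x) := by
    have := hpa.mul hχ.aut
    norm_num at this
    exact this
  have a2 : Aut S 0 1 (fun x => μ x * pb q w x * χ x) := by
    have := (hμ.aut.mul hpa).mul hχ.aut
    norm_num at this
    exact this
  have i1 := (hStok S _ s1).2 a1
  have i2 := (hStok S _ s2).1 a2
  have h1 : ∫ z in S.D, pb q w z * Aop μ χ z = ∫ z in S.D,
      (db (fun x => pb q w x * χ x) z - dz (fun x => μ x * pb q w x * χ x) z) := by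
    refine setIntegral_congr_fun S.meas fun z hz => ?_
    exact pb_Aop h hq hμ.sm hχ.sm (S.D_sub hz)
  rw [h1, integral_sub (integrableOn_of_cont S s1.db.cont) (integrableOn_of_cont S s2.dz.cont), i1,
    i2, sub_zero]

/-- the image of the fundamental set is a fundamental set -/
theorem fund_image (h : QC S S' w μ) :
    ∀ z ∈ Hp, ∃! ζ, ζ ∈ w '' S.D ∧ ∃ g ∈ S'.Γ, mob g z = ζ := by
  intro z hz
  obtain ⟨x, hx, rfl⟩ := h.bij.surjOn hz
  obtain ⟨y, ⟨hy, g, hg, hgy⟩, huniq⟩ := S.fund x hx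
  refine ⟨w y, ⟨⟨y, hy, rfl⟩, ?_⟩, ?_⟩
  · obtain ⟨k, hk, hk2⟩ := h.conj1 g hg
    exact ⟨k, hk, by rw [← hk2 x hx, hgy]⟩
  · rintro ζ ⟨⟨y', hy', rfl⟩, k, hk, hky⟩
    obtain ⟨g', hg', hg2⟩ := h.conj2 k hk
    have h1 : w (mob g' x) = w y' := by rw [hg2 x hx, hky]
    have h2 : mob g' x = y' := h.bij.injOn (mob_mem g' hx) (S.D_sub hy') h1
    rw [huniq y' ⟨hy', g', hg', h2⟩]

theorem norm_eq (hInd : Stmt_Ind) (hChv : Stmt_Chv) (h : QC S S' w μ) (hq : IsQD S' q) :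
    ∫ z in S'.D, ‖q z‖ = ∫ z in S.D, ‖q (w z) * dz w z ^ 2‖ * (1 - ‖μ z‖ ^ 2) := by
  have hqm : QM w μ := ⟨h.bij, h.smooth, h.bel, h.lt, h.ne⟩
  obtain ⟨hm, _, hc⟩ := hChv w μ hqm S.D (fun z => ((‖q z‖ : ℝ) : ℂ)) S.D_sub S.meas
  have hL : IsCompact (w '' S.K) := S.compact.image_of_continuousOn ((w_sm h).cont.mono S.sub)
  have hLH : w '' S.K ⊆ Hp := by
    rintro _ ⟨z, hz, rfl⟩
    exact w_mem h (S.sub hz)
  have hcont : ContinuousOn (fun z => ((‖q z‖ : ℝ) : ℂ)) Hp :=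
    Complex.continuous_ofReal.comp_continuousOn hq.hol.continuousOn.norm
  have hloc : LocInt (fun z => ((‖q z‖ : ℝ) : ℂ)) := fun L hL hLs =>
    (hcont.mono hLs).integrableOn_compact hL
  have haut : Aut S' 1 1 (fun z => ((‖q z‖ : ℝ) : ℂ)) := by
    intro g hg z hz
    simp only
    have e1 : den g z ^ (2 * 1 : ℤ) = den g z ^ 2 := by norm_cast
    have e2 : conj (den g z) ^ (2 * 1 : ℤ) = conj (den g z) ^ 2 := by norm_cast
    rw [hq.aut g hg z hz, e1, e2, ← mul_pow, Complex.mul_conj, Complex.normSq_eq_norm_sq, norm_mul,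
      norm_pow]
    push_cast
    ring
  have h1 := hInd S' (w '' S.D) (w '' S.K) hm hL hLH (image_mono S.subD) (fund_image h) _ hloc haut
  rw [hc] at h1
  have h2 : ∫ z in S.D, ((‖dz w z‖ ^ 2 * (1 - ‖μ z‖ ^ 2) : ℝ) : ℂ) * ((‖q (w z)‖ : ℝ) : ℂ) =
      ((∫ z in S.D, ‖q (w z) * dz w z ^ 2‖ * (1 - ‖μ z‖ ^ 2) : ℝ) : ℂ) := by
    rw [← integral_complex_ofReal]
    refine setIntegral_congr_fun S.meas fun z _ => ?_
    simp only [norm_mul, norm_pow]
    push_cast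
    ring
  rw [h2, integral_complex_ofReal] at h1
  exact_mod_cast h1.symm

end OFQD_

open OFQD_ in
theorem ofqd_proof (hStok : Stmt_Stok) (hInd : Stmt_Ind) (hChv : Stmt_Chv) (hQ : Stmt_QcSB) :
    Stmt_OfQD := by
  intro S S' w μ h q hq
  exact ⟨pb_sm h hq, fun χ hχ => weak hStok hQ h hq hχ, norm_eq hInd hChv h hq⟩

end

end Pool.Agent.TNP
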