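import Pool.Agent.TNP.Kit

/-!
# TNP: exact statements of the modules
-/

open scoped ContDiff Topology ComplexConjugate
open Set Metric MeasureTheory Filter

namespace Pool.Agent.TNP

noncomputable section

/-! ## Geometry of the quotient -/

/-- CNT: every point of `ℍ` is moved into a fundamental set by exactly `mult S` elements. -/
def Stmt_Cnt : Prop := ∀ (S : Surf) (D' : Set ℂ),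
  (∀ z ∈ Hp, ∃! w, w ∈ D' ∧ ∃ g ∈ S.Γ, mob g z = w) →
  ∀ z ∈ Hp, ∀ T : Finset SL2, (∀ g ∈ T, g ∈ S.Γ) → (∀ g ∈ S.Γ, mob g z ∈ D' → g ∈ T) →
    ∑ g ∈ T, D'.indicator (fun _ => (1 : ℂ)) (mob g z) = (mult S : ℂ)

/-- UNF: unfolding. -/
def Stmt_Unf : Prop := ∀ (S : Surf) (L : Set ℂ) (f : ℂ → ℂ), IsCompact L → L ⊆ Hp →
  Integrable f → (∀ z, z ∉ L → f z = 0) →
  ∀ T : Finset SL2, (∀ g ∈ T, g ∈ S.Γ) → (∀ g ∈ S.Γ, ∀ z ∈ S.D, mob g z ∈ L → g ∈ T) →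
    (∀ g ∈ T, IntegrableOn (fun z => f (mob g z) * (((‖den g z‖ ^ 4)⁻¹ : ℝ) : ℂ)) S.D) ∧
    ∫ z in S.D, ∑ g ∈ T, f (mob g z) * (((‖den g z‖ ^ 4)⁻¹ : ℝ) : ℂ) =
      (mult S : ℂ) * ∫ z, f z

/-- IND: the integral over `X` does not depend on the fundamental set. -/
def Stmt_Ind : Prop := ∀ (S : Surf) (D' L : Set ℂ), MeasurableSet D' → IsCompact L → L ⊆ Hp →
  D' ⊆ L → (∀ z ∈ Hp, ∃! w, w ∈ D' ∧ ∃ g ∈ S.Γ, mob g z = w) →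
  ∀ f : ℂ → ℂ, LocInt f → Aut S 1 1 f → ∫ z in D', f z = ∫ z in S.D, f z

/-- PU: a partition of unity. -/
def Stmt_PU : Prop := ∀ S : Surf, ∃ ρ : ℂ → ℂ, Tst ρ ∧
  ∀ L : Set ℂ, L ⊆ Hp → ∀ T : Finset SL2, (∀ g ∈ T, g ∈ S.Γ) →
    (∀ g ∈ S.Γ, ∀ z ∈ L, mob g z ∈ tsupport ρ → g ∈ T) → ∀ z ∈ L, ∑ g ∈ T, ρ (mob g z) = 1

/-- STOK: Stokes' theorem on `X`. -/
def Stmt_Stok : Prop := ∀ (S : Surf) (f : ℂ → ℂ), Sm f →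
  (Aut S 0 1 f → ∫ z in S.D, dz f z = 0) ∧ (Aut S 1 0 f → ∫ z in S.D, db f z = 0)

/-- POINC: Poincaré series. -/
def Stmt_Poinc : Prop := ∀ (S : Surf) (χc : ℂ → ℂ), Tst χc → ∃ χ : ℂ → ℂ, VF S χ ∧
  ∀ μ, SB S μ → ∀ φ : ℂ → ℂ, LocInt φ → Aut S 2 0 φ →
    ∫ z in S.D, φ z * Aop μ χ z = (mult S : ℂ) * ∫ z, φ z * Aop μ χc z

/-- AEXT: automorphic extension from `D` to `ℍ`. -/
def Stmt_Aext : Prop := ∀ (S : Surf) (φ : ℂ → ℂ), IntegrableOn φ S.D →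
  ∃ Φ : ℂ → ℂ, (∀ z ∈ S.D, Φ z = φ z) ∧ Aut S 2 0 Φ ∧ LocInt Φ

/-- MV: the mean value inequality. -/
def Stmt_Mv : Prop := ∀ S : Surf, ∃ C : ℝ, ∀ q, IsQD S q →
  ∀ z ∈ S.K, ‖q z‖ ≤ C * ∫ z in S.D, ‖q z‖

/-- QNZ: zero sets of quadratic differentials are null sets. -/
def Stmt_Qnz : Prop := ∀ (S : Surf) (q : ℂ → ℂ), IsQD S q → (∃ z ∈ Hp, q z ≠ 0) →
  ∀ᵐ z ∂(volume.restrict Hp), q z ≠ 0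

/-! ## Weighted Bochner identities -/

/-- BOCH -/
def Stmt_Boch : Prop := ∀ (S : Surf) (om : ℂ → ℝ) (χ : ℂ → ℂ), (∀ z ∈ Hp, 0 < om z) →
  Sm (fun z => (om z : ℂ)) → Aut S 1 1 (fun z => (om z : ℂ)) → VF S χ →
  ∫ z in S.D, om z * ‖db χ z‖ ^ 2 =
    ∫ z in S.D, (om z * ‖dz χ z + dz (fun w => (om w : ℂ)) z / om z * χ z‖ ^ 2 +
      om z * (dz (db (fun w => (Real.log (om w) : ℂ))) z).re * ‖χ z‖ ^ 2)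

/-- COER: the basic estimate for vector fields. -/
def Stmt_Coer : Prop := ∀ S : Surf, ∃ C : ℝ, ∀ χ, VF S χ →
  (∫ z in S.D, ‖χ z‖ ^ 2) + (∫ z in S.D, ‖dz χ z‖ ^ 2) ≤ C * ∫ z in S.D, ‖db χ z‖ ^ 2

/-- the regularised weight -/
def wt (q : ℂ → ℂ) (ε : ℝ) (z : ℂ) : ℝ := Real.sqrt (‖q z‖ ^ 2 + ε ^ 2 * (z.im ^ 4)⁻¹)

/-- LAPQ: the regularised weight of a quadratic differential is log-subharmonic. -/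
def Stmt_LapQ : Prop := ∀ (q : ℂ → ℂ) (ε : ℝ), DifferentiableOn ℂ q Hp → 0 < ε →
  Sm (fun z => (wt q ε z : ℂ)) ∧ (∀ z ∈ Hp, 0 < wt q ε z) ∧
  (∀ z ∈ Hp, 0 ≤ (dz (db (fun w => (Real.log (wt q ε w) : ℂ))) z).re) ∧
  ∀ z ∈ Hp, dz (fun w => (wt q ε w : ℂ)) z / wt q ε z =
    (conj (q z) * deriv q z + 2 * Complex.I * (ε ^ 2 * (z.im ^ 5)⁻¹ : ℝ)) /
      (2 * (‖q z‖ ^ 2 + ε ^ 2 * (z.im ^ 4)⁻¹ : ℝ))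

/-- FLAT: the inequality in the flat metric `|q|`. -/
def Stmt_Flat : Prop := ∀ (S : Surf) (q χ : ℂ → ℂ), IsQD S q → VF S χ →
  IntegrableOn (fun z => ‖2 * q z * dz χ z + deriv q z * χ z‖ ^ 2 / ‖q z‖) S.D ∧
  ∫ z in S.D, ‖2 * q z * dz χ z + deriv q z * χ z‖ ^ 2 / ‖q z‖ ≤
    4 * ∫ z in S.D, ‖q z‖ * ‖db χ z‖ ^ 2

/-- RSZ: the first order variation of the extremal differential with the optimal bound. -/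
def Stmt_Rsz : Prop := ∀ (S : Surf) (q a : ℂ → ℂ), IsQD S q → Bd S a →
  ∃ ψ : ℂ → ℂ, L2 S ψ ∧ IntegrableOn (fun z => ‖ψ z‖ ^ 2 / ‖q z‖) S.D ∧
    ∫ z in S.D, ‖ψ z‖ ^ 2 / ‖q z‖ ≤ 4 * ∫ z in S.D, ‖a z‖ ^ 2 * ‖q z‖ ∧
    ∀ χ, VF S χ → ∫ z in S.D, ψ z * db χ z =
      ∫ z in S.D, a z * (2 * q z * dz χ z + deriv q z * χ z)

/-! ## Perturbation theory in `L²(D)` -/

/-- OPER -/
def Stmt_Oper : Prop := ∀ S : Surf, ∃ P1 P2 : Lp ℂ 2 (volume.restrict S.D) →L[ℂ]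
    Lp ℂ 2 (volume.restrict S.D), ∀ χ : ℂ → ℂ, VF S χ → ∀ f : Lp ℂ 2 (volume.restrict S.D),
  (f : ℂ → ℂ) =ᵐ[volume.restrict S.D] db χ →
    (P1 f : ℂ → ℂ) =ᵐ[volume.restrict S.D] dz χ ∧ (P2 f : ℂ → ℂ) =ᵐ[volume.restrict S.D] χ

/-- MOP: multiplication operators. -/
def Stmt_Mop : Prop := ∀ (S : Surf) (a : ℂ → ℂ) (M : ℝ),
  AEStronglyMeasurable a (volume.restrict S.D) → 0 ≤ M → (∀ z ∈ S.D, ‖a z‖ ≤ M) →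
  ∃ A : Lp ℂ 2 (volume.restrict S.D) →L[ℂ] Lp ℂ 2 (volume.restrict S.D), ‖A‖ ≤ M ∧
    ∀ f, (A f : ℂ → ℂ) =ᵐ[volume.restrict S.D] fun z => a z * f z

/-- DUAL: the bilinear Riesz representation. -/
def Stmt_Dual : Prop := ∀ (S : Surf) (ℓ : Lp ℂ 2 (volume.restrict S.D) →L[ℂ] ℂ),
  ∃ φ : ℂ → ℂ, L2 S φ ∧ (∀ f : Lp ℂ 2 (volume.restrict S.D), ℓ f = ∫ z in S.D, φ z * f z) ∧
    ∫ z in S.D, ‖φ z‖ ^ 2 = ‖ℓ‖ ^ 2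

/-- PABS: abstract perturbation lemma. -/
def Stmt_PAbs : Prop := ∀ (E : Type) [NormedAddCommGroup E] [NormedSpace ℂ E] [CompleteSpace E]
  (V : Set E) (δ M : ℝ) (T : ℂ → E →L[ℂ] E) (E1 E2 : E →L[ℂ] E), 0 < δ →
  (∀ t ∈ ball (0 : ℂ) δ, ‖T t - 1 - t • E1 - t ^ 2 • E2‖ ≤ M * ‖t‖ ^ 3) →
  (∀ ℓ m : E →L[ℂ] ℂ, (∀ v ∈ V, ℓ v = 0) → (∀ v ∈ V, m v = - ℓ (E1 v)) →
    ∃ (δ' C : ℝ) (ℓ2 : E →L[ℂ] ℂ) (L : ℂ → E →L[ℂ] ℂ), 0 < δ' ∧ δ' ≤ δ ∧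
      ∀ t ∈ ball (0 : ℂ) δ', (∀ v ∈ V, L t (T t v) = 0) ∧
        ‖L t - ℓ - t • m - t ^ 2 • ℓ2‖ ≤ C * ‖t‖ ^ 3) ∧
  (∃ δ' C : ℝ, 0 < δ' ∧ δ' ≤ δ ∧ 0 ≤ C ∧ ∀ t ∈ ball (0 : ℂ) δ', ∀ ℓ : E →L[ℂ] ℂ,
    (∀ v ∈ V, ℓ (T t v) = 0) → ∃ k : E →L[ℂ] ℂ, (∀ v ∈ V, k v = 0) ∧
      ‖ℓ - k‖ ≤ C * ‖t‖ * ‖k‖)

/-- second order expansions, uniformly on `D` -/
structure Exp2 (S : Surf) (δ : ℝ) (a : ℂ → ℂ → ℂ) (a1 a2 : ℂ → ℂ) : Prop where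
  meas : ∀ t ∈ ball (0 : ℂ) δ, AEStronglyMeasurable (a t) (volume.restrict S.D)
  bd1 : Bd S a1
  bd2 : Bd S a2
  exp : ∃ M : ℝ, ∀ t ∈ ball (0 : ℂ) δ, ∀ z ∈ S.D,
    ‖a t z - t * a1 z - t ^ 2 * a2 z‖ ≤ M * ‖t‖ ^ 3

/-- PERT: the annihilators of the ranges of the operators `χ ↦ ∂̄χ - a_t ∂χ + b_t χ`. -/
def Stmt_Pert : Prop := ∀ (S : Surf) (δ : ℝ) (a : ℂ → ℂ → ℂ) (a1 a2 : ℂ → ℂ)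
  (b : ℂ → ℂ → ℂ) (b1 b2 : ℂ → ℂ), 0 < δ → Exp2 S δ a a1 a2 → Exp2 S δ b b1 b2 →
  (∀ φ0 ψ : ℂ → ℂ, L2 S φ0 → L2 S ψ → (∀ χ, VF S χ → ∫ z in S.D, φ0 z * db χ z = 0) →
    (∀ χ, VF S χ → ∫ z in S.D, ψ z * db χ z =
      ∫ z in S.D, φ0 z * (a1 z * dz χ z - b1 z * χ z)) →
    ∃ (δ' C : ℝ) (φ2 : ℂ → ℂ) (φ : ℂ → ℂ → ℂ), 0 < δ' ∧ δ' ≤ δ ∧ L2 S φ2 ∧
      ∀ t ∈ ball (0 : ℂ) δ', L2 S (φ t) ∧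
        (∀ χ, VF S χ → ∫ z in S.D, φ t z * Aab (a t) (b t) χ z = 0) ∧
        ∫ z in S.D, ‖φ t z - φ0 z - t * ψ z - t ^ 2 * φ2 z‖ ≤ C * ‖t‖ ^ 3) ∧
  (∃ δ' C : ℝ, 0 < δ' ∧ δ' ≤ δ ∧ 0 ≤ C ∧ ∀ t ∈ ball (0 : ℂ) δ', ∀ φ : ℂ → ℂ, L2 S φ →
    (∀ χ, VF S χ → ∫ z in S.D, φ z * Aab (a t) (b t) χ z = 0) →
    ∃ k : ℂ → ℂ, L2 S k ∧ (∀ χ, VF S χ → ∫ z in S.D, k z * db χ z = 0) ∧
      ∫ z in S.D, ‖φ z - k z‖ ≤ C * ‖t‖ * Real.sqrt (∫ z in S.D, ‖k z‖ ^ 2))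

/-! ## Change of variables, Weyl's lemma -/

/-- the properties of a smooth quasiconformal map which do not involve groups -/
structure QM (w μ : ℂ → ℂ) : Prop where
  bij : BijOn w Hp Hp
  smooth : ContDiffOn ℝ ∞ w Hp
  bel : ∀ z ∈ Hp, db w z = μ z * dz w z
  lt : ∀ z ∈ Hp, ‖μ z‖ < 1
  ne : ∀ z ∈ Hp, dz w z ≠ 0

/-- CHV: change of variables. -/
def Stmt_Chv : Prop := ∀ w μ : ℂ → ℂ, QM w μ → ∀ (A : Set ℂ) (f : ℂ → ℂ), A ⊆ Hp →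
  MeasurableSet A → MeasurableSet (w '' A) ∧
    (IntegrableOn f (w '' A) ↔
      IntegrableOn (fun z => ((‖dz w z‖ ^ 2 * (1 - ‖μ z‖ ^ 2) : ℝ) : ℂ) * f (w z)) A) ∧
    ∫ ζ in w '' A, f ζ = ∫ z in A, ((‖dz w z‖ ^ 2 * (1 - ‖μ z‖ ^ 2) : ℝ) : ℂ) * f (w z)

/-- WINV: the inverse map is smooth. -/
def Stmt_Winv : Prop := ∀ w μ : ℂ → ℂ, QM w μ → Sm μ ∧ ∃ v : ℂ → ℂ, ContDiffOn ℝ ∞ v Hp ∧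
  ∀ z ∈ Hp, v z ∈ Hp ∧ w (v z) = z ∧ v (w z) = z

/-- TESTV: transport of test functions. -/
def Stmt_TestV : Prop := ∀ w μ : ℂ → ℂ, QM w μ → ∀ V : ℂ → ℂ, Tst V → ∃ χc : ℂ → ℂ, Tst χc ∧
  ∀ z ∈ Hp, Aop μ χc z * dz w z = ((1 - ‖μ z‖ ^ 2 : ℝ) : ℂ) * conj (dz w z) * db V (w z)

/-- WEYL: Weyl's lemma for locally integrable functions. -/
def Stmt_Weyl : Prop := ∀ f : ℂ → ℂ, LocInt f → (∀ V, Tst V → ∫ z, f z * db V z = 0) →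
  ∃ g : ℂ → ℂ, DifferentiableOn ℂ g Hp ∧ ∀ᵐ z ∂(volume.restrict Hp), f z = g z

/-- QCSB: the transformation rules of a quasiconformal map between surfaces. -/
def Stmt_QcSB : Prop := ∀ (S S' : Surf) (w μ : ℂ → ℂ), QC S S' w μ → SB S μ ∧
  ∀ g ∈ S.Γ, ∀ h ∈ S'.Γ, (∀ z ∈ Hp, w (mob g z) = mob h (w z)) →
    ∀ z ∈ Hp, dz w (mob g z) * den h (w z) ^ 2 = den g z ^ 2 * dz w z

/-- TOQD: weak solutions are pull backs of holomorphic quadratic differentials. -/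
def Stmt_ToQD : Prop := ∀ (S S' : Surf) (w μ : ℂ → ℂ), QC S S' w μ → ∀ φ : ℂ → ℂ,
  IntegrableOn φ S.D → (∀ χ, VF S χ → ∫ z in S.D, φ z * Aop μ χ z = 0) →
  ∃ q, IsQD S' q ∧ ∀ᵐ z ∂(volume.restrict S.D), φ z = q (w z) * dz w z ^ 2

/-- OFQD: pull backs of holomorphic quadratic differentials. -/
def Stmt_OfQD : Prop := ∀ (S S' : Surf) (w μ : ℂ → ℂ), QC S S' w μ → ∀ q, IsQD S' q →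
  Sm (fun z => q (w z) * dz w z ^ 2) ∧
  (∀ χ, VF S χ → ∫ z in S.D, (q (w z) * dz w z ^ 2) * Aop μ χ z = 0) ∧
  ∫ z in S'.D, ‖q z‖ = ∫ z in S.D, ‖q (w z) * dz w z ^ 2‖ * (1 - ‖μ z‖ ^ 2)

/-- EXTR: existence of extremal differentials. -/
def Stmt_Extr : Prop := ∀ (S : Surf) (κ : ℂ → ℂ), Bd S κ → 0 < F S κ →
  ∃ q, IsQD S q ∧ ∫ z in S.D, ‖q z‖ = 1 ∧ ‖∫ z in S.D, κ z * q z‖ = F S κ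

/-! ## Elementary analysis -/

/-- TAYL: Taylor expansions in `t`. -/
def Stmt_Tayl : Prop := ∀ (δ : ℝ) (f : ℂ → ℂ → ℂ) (K : Set ℂ), 0 < δ → IsCompact K → K ⊆ Hp →
  ContDiffOn ℝ ∞ (fun p : ℂ × ℂ => f p.1 p.2) (ball 0 δ ×ˢ Hp) →
  (∀ z ∈ Hp, DifferentiableOn ℂ (fun t => f t z) (ball 0 δ)) →
  ∃ (f1 f2 g1 g2 : ℂ → ℂ) (M : ℝ), ContinuousOn f1 Hp ∧ ContinuousOn f2 Hp ∧
    ContinuousOn g1 Hp ∧ ContinuousOn g2 Hp ∧ ∀ t ∈ ball (0 : ℂ) (δ / 2), ∀ z ∈ K,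
      ‖f t z - f 0 z - t * f1 z - t ^ 2 * f2 z‖ ≤ M * ‖t‖ ^ 3 ∧
      ‖dz (f t) z - dz (f 0) z - t * g1 z - t ^ 2 * g2 z‖ ≤ M * ‖t‖ ^ 3

/-- FIRST: the first order equation. -/
def Stmt_First : Prop := ∀ (S : Surf) (δ M : ℝ) (μ : ℂ → ℂ → ℂ) (a1 a2 b1 b2 : ℂ → ℂ),
  0 < δ → (∀ t ∈ ball (0 : ℂ) δ, SB S (μ t)) → ContinuousOn a1 Hp → ContinuousOn a2 Hp →
  ContinuousOn b1 Hp → ContinuousOn b2 Hp →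
  (∀ t ∈ ball (0 : ℂ) δ, ∀ z ∈ S.K, ‖μ t z - t * a1 z - t ^ 2 * a2 z‖ ≤ M * ‖t‖ ^ 3 ∧
    ‖dz (μ t) z - t * b1 z - t ^ 2 * b2 z‖ ≤ M * ‖t‖ ^ 3) →
  ∀ q, IsQD S q → ∀ χ, VF S χ → ∫ z in S.D, q z * (a1 z * dz χ z - b1 z * χ z) =
    ∫ z in S.D, a1 z * (2 * q z * dz χ z + deriv q z * χ z)

/-- PTW: the mean of `|q + t p + t² s|` over small circles. -/
def Stmt_Ptw : Prop := ∀ q p s : ℂ, q ≠ 0 →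
  (∀ r : ℝ, 0 < r → Real.circleAverage (fun t : ℂ => ‖q + t * p + t ^ 2 * s‖) 0 r ≤
    ‖q‖ + r ^ 2 * (‖p‖ ^ 2 / (2 * ‖q‖) + ‖s‖)) ∧
  Tendsto (fun r : ℝ => (Real.circleAverage (fun t : ℂ => ‖q + t * p + t ^ 2 * s‖) 0 r - ‖q‖) /
    r ^ 2) (𝓝[>] 0) (𝓝 (‖p‖ ^ 2 / (4 * ‖q‖)))

/-- DCTM: the mean of the `L¹` norm of `q + t p + t² s` over small circles. -/
def Stmt_Dctm : Prop := ∀ (D : Set ℂ) (q p s : ℂ → ℂ), MeasurableSet D → IntegrableOn q D →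
  IntegrableOn p D → IntegrableOn s D → (∀ᵐ z ∂(volume.restrict D), q z ≠ 0) →
  IntegrableOn (fun z => ‖p z‖ ^ 2 / ‖q z‖) D → ∀ η : ℝ, 0 < η → ∃ r0 : ℝ, 0 < r0 ∧
    ∀ r : ℝ, 0 < r → r < r0 →
      Real.circleAverage (fun t : ℂ => ∫ z in D, ‖q z + t * p z + t ^ 2 * s z‖) 0 r ≤
        (∫ z in D, ‖q z‖) + r ^ 2 * ((∫ z in D, ‖p z‖ ^ 2 / ‖q z‖) / 4 + η)

/-- LOGL -/
def Stmt_LogL : Prop := ∀ (m1 m2 : ℂ) (M : ℝ), ∃ δ C : ℝ, 0 < δ ∧ ∀ t ∈ ball (0 : ℂ) δ,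
  ∀ l : ℂ, ‖l - 1 - t * m1 - t ^ 2 * m2‖ ≤ M * ‖t‖ ^ 3 →
    l ≠ 0 ∧ (t * m1 + t ^ 2 * (m2 - m1 ^ 2 / 2)).re - C * ‖t‖ ^ 3 ≤ Real.log ‖l‖

/-- PRIV: the theorem of Blaschke and Privalov. -/
def Stmt_Priv : Prop := ∀ (U : Set ℂ) (u : ℂ → ℝ), IsOpen U → ContinuousOn u U →
  (∀ c ∈ U, ∀ η : ℝ, 0 < η → ∃ r0 : ℝ, 0 < r0 ∧ ∀ r : ℝ, 0 < r → r < r0 →
    u c ≤ Real.circleAverage u c r + η * r ^ 2) →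
  ∀ (c : ℂ) (r : ℝ), 0 < r → closedBall c r ⊆ U → u c ≤ Real.circleAverage u c r

/-! ## The local structure of the Teichmüller norm -/

/-- the data of a chart, translated to the centre `0`, in terms of weak solutions -/
structure Loc (S : Surf) (δ : ℝ) (u : ℂ → ℝ) (μ ν : ℂ → ℂ → ℂ) : Prop where
  pos : 0 < δ
  μ0 : ∀ z ∈ Hp, μ 0 z = 0
  μSB : ∀ t ∈ ball (0 : ℂ) δ, SB S (μ t)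
  μlt : ∀ t ∈ ball (0 : ℂ) δ, ∀ z ∈ Hp, ‖μ t z‖ < 1
  μsm : ContDiffOn ℝ ∞ (fun p : ℂ × ℂ => μ p.1 p.2) (ball 0 δ ×ˢ Hp)
  μhol : ∀ z ∈ Hp, DifferentiableOn ℂ (fun t => μ t z) (ball 0 δ)
  νsm : ContDiffOn ℝ ∞ (fun p : ℂ × ℂ => ν p.1 p.2) (ball 0 δ ×ˢ Hp)
  νhol : ∀ z ∈ Hp, DifferentiableOn ℂ (fun t => ν t z) (ball 0 δ)
  nonneg : ∀ t ∈ ball (0 : ℂ) δ, 0 ≤ u t
  lower : ∀ t ∈ ball (0 : ℂ) δ, ∀ φ : ℂ → ℂ, L2 S φ →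
    (∀ χ, VF S χ → ∫ z in S.D, φ z * Aop (μ t) χ z = 0) →
    ‖∫ z in S.D, ν t z * φ z‖ ≤ u t * ∫ z in S.D, ‖φ z‖ * (1 - ‖μ t z‖ ^ 2)
  upper : ∀ t ∈ ball (0 : ℂ) δ, ∀ c : ℝ, 0 ≤ c → c < u t → ∃ φ : ℂ → ℂ, L2 S φ ∧
    (∀ χ, VF S χ → ∫ z in S.D, φ z * Aop (μ t) χ z = 0) ∧
    ∫ z in S.D, ‖φ z‖ * (1 - ‖μ t z‖ ^ 2) = 1 ∧ c < ‖∫ z in S.D, ν t z * φ z‖
  ext : 0 < u 0 → ∃ q, IsQD S q ∧ ∫ z in S.D, ‖q z‖ = 1 ∧ ‖∫ z in S.D, ν 0 z * q z‖ = u 0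

/-- LOC: charts have the local structure. -/
def Stmt_Loc : Prop := ∀ (X : ℂ → Surf) (κ : ℂ → ℂ → ℂ) (t₀ : ℂ) (δ : ℝ)
  (w μ ν : ℂ → ℂ → ℂ), 0 < δ → (∀ t ∈ ball t₀ δ, IsBel (X t) (κ t)) →
  Chart X κ t₀ δ w μ ν →
  Loc (X t₀) δ (fun s => F (X (t₀ + s)) (κ (t₀ + s))) (fun s => μ (t₀ + s)) (fun s => ν (t₀ + s))

/-- CONT: continuity of the norm. -/
def Stmt_Cont : Prop := ∀ (S : Surf) (δ : ℝ) (u : ℂ → ℝ) (μ ν : ℂ → ℂ → ℂ),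
  Loc S δ u μ ν → ContinuousAt u 0

/-- LOWB: the lower bound of the norm. -/
def Stmt_LowB : Prop := ∀ (S : Surf) (δ : ℝ) (u : ℂ → ℝ) (μ ν : ℂ → ℂ → ℂ),
  Loc S δ u μ ν → 0 < u 0 → ∃ (q ψ φ2 a : ℂ → ℂ) (m1 m2 : ℂ) (δ' C : ℝ), 0 < δ' ∧ δ' ≤ δ ∧
    IsQD S q ∧ ∫ z in S.D, ‖q z‖ = 1 ∧ L2 S ψ ∧ L2 S φ2 ∧ Bd S a ∧
    IntegrableOn (fun z => ‖ψ z‖ ^ 2 / ‖q z‖) S.D ∧
    ∫ z in S.D, ‖ψ z‖ ^ 2 / ‖q z‖ ≤ 4 * ∫ z in S.D, ‖a z‖ ^ 2 * ‖q z‖ ∧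
    ∀ t ∈ ball (0 : ℂ) δ', u 0 * (1 + (t * m1 + t ^ 2 * m2).re - C * ‖t‖ ^ 3 -
      ((∫ z in S.D, ‖q z + t * ψ z + t ^ 2 * φ2 z‖) - ‖t‖ ^ 2 *
        (∫ z in S.D, ‖a z‖ ^ 2 * ‖q z‖) - 1)) ≤ u t

/-- SUBM: the infinitesimal mean value inequality. -/
def Stmt_SubM : Prop := ∀ (S : Surf) (δ : ℝ) (u : ℂ → ℝ) (μ ν : ℂ → ℂ → ℂ),
  Loc S δ u μ ν → ContinuousOn u (ball 0 δ) → ∀ η : ℝ, 0 < η → ∃ r0 : ℝ, 0 < r0 ∧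
    ∀ r : ℝ, 0 < r → r < r0 → u 0 ≤ Real.circleAverage u 0 r + η * r ^ 2

/-- MAIN -/
def Stmt_Main : Prop := ∀ (U : Set ℂ) (X : ℂ → Surf) (κ : ℂ → ℂ → ℂ), IsOpen U →
  IsDisc U X κ → Subharm U (fun t => F (X t) (κ t))

end

end Pool.Agent.TNP
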